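import Pool.Agent.TH282.RE.Tower

/-!
# From all infinitesimal neighbourhoods to the family itself (Artin-Rees)
-/

set_option autoImplicit false
set_option linter.unusedSectionVars false

namespace Pool.Agent.TH282.RE

open Matrix Pool.Agent.TH282.RG

section

variable {C : Type*} [CommRing C]

theorem map_mem_smul {X Y : Type*} [AddCommGroup X] [Module C X] [AddCommGroup Y] [Module C Y]
    (f : X →ₗ[C] Y) (I : Ideal C) {v : X} (hv : v ∈ (I • ⊤ : Submodule C X)) :
    f v ∈ (I • ⊤ : Submodule C Y) := by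
  have h1 := Submodule.mem_map_of_mem (f := f) hv
  rw [Submodule.map_smul''] at h1
  have h2 : I • Submodule.map f (⊤ : Submodule C X) ≤ I • ⊤ := Submodule.smul_mono le_rfl le_top
  exact h2 h1

theorem mem_smul_fun {n : Type*} [Fintype n] [DecidableEq n] {X : Type*} [AddCommGroup X] [Module C X]
    (I : Ideal C) {v : n → X} (hv : ∀ i, v i ∈ (I • ⊤ : Submodule C X)) :
    v ∈ (I • ⊤ : Submodule C (n → X)) := by
  have h1 : v = ∑ i, LinearMap.single C (fun _ => X) i (v i) := by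
    ext j
    simp [Finset.sum_apply, Pi.single_apply]
  rw [h1]
  exact Submodule.sum_mem _ fun i _ => map_mem_smul _ I (hv i)

theorem smul_top_self (I : Ideal C) {c : C} : c ∈ (I • ⊤ : Submodule C C) ↔ c ∈ I := by
  rw [smul_eq_mul, Ideal.mul_top]

end

section

variable {k : Type*} [Field k] {R : Type*} [CommRing R] [Algebra k R]
  {n : Type*} [Fintype n] [DecidableEq n] {ι : Type*} [DecidableEq ι] [Fintype ι] {x : ι → R}
  {C : Type*} [CommRing C] [Algebra k C] {U : R →ₐ[k] Matrix n n C} (φ : C →ₐ[k] k)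
  {U₀ : R →ₐ[k] Matrix n n k}

/-- the underlying vector -/
def Nm.out {Q : Type*} (v : Nm U Q) : n → Q := v

theorem Nm.out_apply {Q : Type*} (v : Nm U Q) (i : n) : Nm.out v i = v i := rfl

theorem smul_comm' (r : R) (c : C) (v : n → C) :
    r • Nm.mk U (c • v) = Nm.mk U (c • Nm.out (r • Nm.mk U v : Nm U C)) := by
  funext i
  rw [Nm_smul, Nm.mk_apply, Pi.smul_apply, Nm.out_apply, Nm_smul, Finset.smul_sum]
  refine Finset.sum_congr rfl fun j _ => ?_
  rw [Nm.mk_apply, Nm.mk_apply, Pi.smul_apply, smul_comm]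

variable (x U) in
/-- `∑ x_l ^ b (C ^ n)` as a `C`-submodule -/
def WC (b : ℕ) : Submodule C (n → C) where
  carrier := {v | Nm.mk U v ∈ WW x (fun _ => b) Finset.univ (Nm U C)}
  add_mem' := fun {v w} hv hw =>
    Submodule.add_mem (WW x (fun _ => b) Finset.univ (Nm U C)) hv hw
  zero_mem' := Submodule.zero_mem (WW x (fun _ => b) Finset.univ (Nm U C))
  smul_mem' := fun c v hv => by
    obtain ⟨w, hw⟩ := hv
    refine ⟨fun l => Nm.mk U (c • Nm.out (w l)), ?_⟩
    have h1 : v = fun i => ∑ l ∈ Finset.univ, (x l ^ b • w l : Nm U C) i := by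
      funext i
      have := congrFun hw i
      rw [Nm_sum] at this
      exact this
    funext i
    rw [Nm_sum, Nm.mk_apply, Pi.smul_apply, h1, Finset.smul_sum]
    refine Finset.sum_congr rfl fun l _ => ?_
    have := smul_comm' (U := U) (x l ^ b) c (Nm.out (w l))
    have h2 := congrFun this i
    rw [h2]
    rfl

theorem mem_WC {b : ℕ} {v : n → C} :
    v ∈ WC x U b ↔ Nm.mk U v ∈ WW x (fun _ => b) Finset.univ (Nm U C) := Iff.rfl

/-- evaluation of the family at the point -/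
def evC (hφ : ∀ r i j, U₀ r i j = φ (U r i j)) : Nm U C →ₗ[R] Nm U₀ k :=
  evl φ hφ φ.toLinearMap (fun c q => by simp)

theorem evC_apply (hφ : ∀ r i j, U₀ r i j = φ (U r i j)) (v : Nm U C) (i : n) :
    evC φ hφ v i = φ (v i) := rfl

theorem artin_rees [IsNoetherianRing C] {p p₁ : ℕ}
    (i₁ : (Fin p₁ → R) →ₗ[R] (Fin p → R)) (b : ℕ)
    (hφ : ∀ r i j, U₀ r i j = φ (U r i j))
    (ν : (Fin p → R) →ₗ[R] Nm U₀ k)
    (h : ∀ m : ℕ, ∃ θ : (Fin p → R) →ₗ[R] Nm U (C ⧸ (RingHom.ker φ) ^ (m + 1)),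
      (∀ v, θ (i₁ v) ∈ WW x (fun _ => b) Finset.univ (Nm U (C ⧸ (RingHom.ker φ) ^ (m + 1)))) ∧
      ∀ v, red φ hφ m (θ v) - ν v ∈ WW x (fun _ => 1) Finset.univ (Nm U₀ k)) :
    ∃ θ : (Fin p → R) →ₗ[R] Nm U C, (∀ v, θ (i₁ v) ∈ WW x (fun _ => b) Finset.univ (Nm U C)) ∧
      ∀ v, evC φ hφ (θ v) - ν v ∈ WW x (fun _ => 1) Finset.univ (Nm U₀ k) := by
  classical
  let N : Ideal C := RingHom.ker φ
  -- the linear map
  let act : R → (n → C) →ₗ[C] (n → C) := fun r =>
    { toFun := fun v => Nm.out (r • Nm.mk U v : Nm U C)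
      map_add' := fun v w => smul_add r (Nm.mk U v) (Nm.mk U w)
      map_smul' := fun c v => smul_comm' (U := U) r c v }
  let Φ : (Fin p → n → C) →ₗ[C] (Fin p₁ → ((n → C) ⧸ WC x U b)) :=
    LinearMap.pi fun t => ∑ s, ((WC x U b).mkQ ∘ₗ act (i₁ (Pi.single t 1) s)) ∘ₗ LinearMap.proj s
  have hΦ : ∀ u t, Φ u t = (WC x U b).mkQ (∑ s, act (i₁ (Pi.single t 1) s) (u s)) := by
    intro u t
    simp only [Φ, LinearMap.pi_apply, LinearMap.sum_apply, LinearMap.comp_apply,
      LinearMap.proj_apply, map_sum]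
  -- maps from vectors
  have hmap : ∀ (u : Fin p → n → C) (g : (Fin p → R) →ₗ[R] Nm U C),
      (∀ s, g (Pi.single s 1) = Nm.mk U (u s)) → ∀ v : Fin p → R,
        g v = Nm.mk U (∑ s, act (v s) (u s)) := by
    intro u g hg v
    have h2 : v = ∑ i, v i • Pi.single i (1 : R) := by
      ext j
      simp [Finset.sum_apply, Pi.single_apply]
    conv_lhs => rw [h2]
    rw [map_sum]
    funext i
    rw [Nm_sum, Nm.mk_apply, Finset.sum_apply]
    refine Finset.sum_congr rfl fun s _ => ?_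
    rw [map_smul, hg]
    rfl
  obtain ⟨κ, hκ⟩ := Ideal.exists_pow_inf_eq_pow_smul N (LinearMap.range Φ)
  obtain ⟨θ, hθ1, hθ2⟩ := h κ
  -- lift
  have hsurj : ∀ q : Nm U (C ⧸ N ^ (κ + 1)), ∃ y : n → C, ∀ i, Ideal.Quotient.mk _ (y i) = q i := by
    intro q
    choose y hy using fun i => Ideal.Quotient.mk_surjective (q i)
    exact ⟨y, hy⟩
  choose u hu using fun s : Fin p => hsurj (θ (Pi.single s 1))
  obtain ⟨g, hg⟩ := exists_lin (R := R) (X := Nm U C) (fun s => Nm.mk U (u s))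
  let qm : Nm U C →ₗ[R] Nm U (C ⧸ N ^ (κ + 1)) := Nm.map U (N ^ (κ + 1)).mkQ
  have hqm : ∀ v i, qm v i = Ideal.Quotient.mk _ (v i) := fun v i => rfl
  have hgθ : ∀ v, qm (g v) = θ v := by
    intro v
    have : qm ∘ₗ g = θ := by
      apply (Pi.basisFun R (Fin p)).ext
      intro s
      rw [Pi.basisFun_apply, LinearMap.comp_apply, hg]
      funext i
      rw [hqm]
      exact hu s i
    exact LinearMap.congr_fun this v
  have h3 : Φ u ∈ (N ^ (κ + 1) • ⊤ : Submodule C (Fin p₁ → ((n → C) ⧸ WC x U b))) := by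
    apply mem_smul_fun
    intro t
    obtain ⟨w, hw⟩ := hθ1 (Pi.single t 1)
    choose w' hw' using fun l => hsurj (w l)
    have h4 : Nm.mk U (∑ s, act (i₁ (Pi.single t 1) s) (u s)) = g (i₁ (Pi.single t 1)) :=
      (hmap u g hg _).symm
    let y : Nm U C := ∑ l ∈ Finset.univ, x l ^ b • Nm.mk U (w' l)
    have hy : y ∈ WW x (fun _ => b) Finset.univ (Nm U C) := ⟨fun l => Nm.mk U (w' l), rfl⟩
    have h5 : qm (g (i₁ (Pi.single t 1)) - y) = 0 := by
      rw [map_sub, hgθ, hw, map_sum, sub_eq_zero]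
      refine Finset.sum_congr rfl fun l _ => ?_
      rw [map_smul]
      congr 1
      funext i
      rw [hqm]
      exact (hw' l i).symm
    have h6 : Φ u t = (WC x U b).mkQ (fun i => (g (i₁ (Pi.single t 1)) - y) i) := by
      rw [hΦ, ← sub_eq_zero, ← map_sub, Submodule.mkQ_apply, Submodule.Quotient.mk_eq_zero, mem_WC]
      have h7 : Nm.mk U ((∑ s, act (i₁ (Pi.single t 1) s) (u s)) -
          fun i => (g (i₁ (Pi.single t 1)) - y) i) = y := by
        funext i
        have h8 := congrFun h4 i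
        rw [Nm.mk_apply] at h8
        rw [Nm.mk_apply, Pi.sub_apply, h8, Nm_sub, sub_sub_cancel]
      rw [h7]
      exact hy
    rw [h6]
    apply map_mem_smul
    apply mem_smul_fun
    intro i
    rw [smul_top_self]
    have h9 := congrFun h5 i
    rw [hqm, Nm_zero] at h9
    exact Ideal.Quotient.eq_zero_iff_mem.mp h9
  have h10 : Φ u ∈ (N ^ (κ + 1) • ⊤ ⊓ LinearMap.range Φ :
      Submodule C (Fin p₁ → ((n → C) ⧸ WC x U b))) := ⟨h3, ⟨u, rfl⟩⟩
  rw [hκ (κ + 1) (Nat.le_succ κ), Nat.add_sub_cancel_left, pow_one] at h10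
  have h11 : Φ u ∈ (N • (⊤ : Submodule C (Fin p → n → C))).map Φ := by
    rw [Submodule.map_smul'', Submodule.map_top]
    exact (Submodule.smul_mono le_rfl inf_le_right : N • (N ^ κ • ⊤ ⊓ LinearMap.range Φ) ≤ _) h10
  obtain ⟨u', hu', hΦu⟩ := h11
  obtain ⟨g', hg'⟩ := exists_lin (R := R) (X := Nm U C) (fun s => Nm.mk U ((u - u') s))
  have hΦ0 : Φ (u - u') = 0 := by rw [map_sub, hΦu, sub_self]
  refine ⟨g', ?_, ?_⟩
  · intro v
    refine mem_of_basis (g' ∘ₗ i₁) _ (fun t => ?_) v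
    rw [LinearMap.comp_apply, hmap (u - u') g' hg', ← mem_WC, ← Submodule.Quotient.mk_eq_zero]
    have := congrFun hΦ0 t
    rw [hΦ] at this
    exact this
  · intro v
    have h12 : ∀ v, evC φ hφ (g' v) = red φ hφ κ (θ v) := by
      intro v
      have : (evC φ hφ) ∘ₗ g' = (red φ hφ κ) ∘ₗ θ := by
        apply (Pi.basisFun R (Fin p)).ext
        intro s
        rw [Pi.basisFun_apply, LinearMap.comp_apply, LinearMap.comp_apply, hg']
        funext i
        rw [evC_apply, red_apply, Nm.mk_apply, ← hu s i, resf_mk, Pi.sub_apply, Pi.sub_apply, map_sub]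
        have h13 : u' s i ∈ N := by
          rw [← smul_top_self]
          exact map_mem_smul ((LinearMap.proj i : (n → C) →ₗ[C] C) ∘ₗ
            (LinearMap.proj s : (Fin p → n → C) →ₗ[C] (n → C))) N hu'
        rw [(RingHom.mem_ker).mp h13, sub_zero]
      exact LinearMap.congr_fun this v
    rw [h12]
    exact hθ2 v

end

end Pool.Agent.TH282.RE
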