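import Mathlib

/-!
# Coefficient fields in characteristic zero
-/

set_option autoImplicit false
set_option linter.unusedSectionVars false

namespace Pool.Agent.TH282.RE

open IsLocalRing

theorem formallySmooth_of_charZero (K : Type*) [Field K] [Algebra ℚ K] : Algebra.FormallySmooth ℚ K := by
  obtain ⟨s, hs⟩ := exists_isTranscendenceBasis ℚ K
  have h1 : Algebra.IsAlgebraic (IntermediateField.adjoin ℚ (Set.range ((↑) : s → K))) K := by
    exact hs.isAlgebraic_field
  have h2 : Algebra.IsSeparable (IntermediateField.adjoin ℚ (Set.range ((↑) : s → K))) K := inferInstance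
  exact Algebra.FormallySmooth.of_algebraicIndependent_of_isSeparable hs.1

theorem exists_coeff {R : Type*} [CommRing R] [IsLocalRing R] [Algebra ℚ R]
    (hc : IsAdicComplete (maximalIdeal R) R) :
    ∃ φ : ResidueField R →+* R, ∀ a, residue R (φ a) = a := by
  have h1 : Algebra.FormallySmooth ℚ (ResidueField R) := formallySmooth_of_charZero _
  let f : ResidueField R →ₐ[ℚ] (R ⧸ maximalIdeal R) := AlgHom.id ℚ (ResidueField R)
  obtain ⟨g, hg⟩ := Algebra.FormallySmooth.exists_mkₐ_comp_eq_of_isAdicComplete f
  refine ⟨g.toRingHom, fun a => ?_⟩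
  have := DFunLike.congr_fun hg a
  exact this

end Pool.Agent.TH282.RE
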