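import Pool.Agent.TH282.RE.Lin

/-!
# Maximal Cohen-Macaulay modules and systems of parameters
-/

set_option autoImplicit false
set_option linter.unusedSectionVars false

namespace Pool.Agent.TH282.RE

open IsLocalRing CategoryTheory Abelian Limits Pointwise

universe u

variable {R : Type u} [CommRing R] [IsLocalRing R] [IsNoetherianRing R]

/-- there is a regular sequence of length `t` in the maximal ideal -/
def Dp (t : ℕ) (M : Type u) [AddCommGroup M] [Module R M] : Prop :=
  ∃ rs : List R, rs.length = t ∧ (∀ r ∈ rs, r ∈ maximalIdeal R) ∧ RingTheory.Sequence.IsRegular M rs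

theorem Dp.of_equiv {t : ℕ} {M M' : Type u} [AddCommGroup M] [Module R M] [AddCommGroup M']
    [Module R M'] (e : M ≃ₗ[R] M') (h : Dp (R := R) t M) : Dp (R := R) t M' := by
  obtain ⟨rs, h1, h2, h3⟩ := h
  exact ⟨rs, h1, h2, (e.isRegular_congr rs).mp h3⟩

theorem Dp.nontrivial {t : ℕ} {M : Type u} [AddCommGroup M] [Module R M]
    (h : Dp (R := R) t M) : Nontrivial M := by
  obtain ⟨rs, -, -, h3⟩ := h
  exact h3.nontrivial

theorem smul_top_lt (M : Type u) [AddCommGroup M] [Module R M] [Module.Finite R M] [Nontrivial M] :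
    maximalIdeal R • (⊤ : Submodule R M) < ⊤ := by
  rw [lt_top_iff_ne_top]
  intro h
  have h1 : (⊤ : Submodule R M) ≤ maximalIdeal R • ⊤ := h.ge
  have := Submodule.eq_bot_of_le_smul_of_le_jacobson_bot (maximalIdeal R) ⊤ Module.Finite.fg_top h1
    (maximalIdeal_le_jacobson _)
  exact top_ne_bot this

theorem Dp.quot {t : ℕ} {M : Type u} [AddCommGroup M] [Module R M] [Module.Finite R M]
    (h : Dp (R := R) (t + 1) M) {y : R} (hy : y ∈ maximalIdeal R) (hyM : IsSMulRegular M y) :
    Dp (R := R) t (QuotSMulTop y M) := by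
  have hnt : Nontrivial M := h.nontrivial
  obtain ⟨rs, h1, h2, h3⟩ := h
  let N : ModuleCat.{u} R := ModuleCat.of R (R ⧸ maximalIdeal R)
  have hN : Module.support R N = PrimeSpectrum.zeroLocus (maximalIdeal R) := by
    rw [Module.support_eq_zeroLocus]
    congr 1
    exact congrArg _ (Ideal.annihilator_quotient (I := maximalIdeal R))
  have hNf : Module.Finite R N := inferInstanceAs (Module.Finite R (R ⧸ maximalIdeal R))
  have hext := ModuleCat.subsingleton_ext_of_exists_isRegular (maximalIdeal R) N hN.subset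
    (ModuleCat.of R M) (smul_top_lt M) rs h2 h3
  have hnt' : Nontrivial (QuotSMulTop y M) := by
    apply Submodule.Quotient.nontrivial_iff.mpr
    intro h
    have h4 : maximalIdeal R • (⊤ : Submodule R M) < ⊤ := smul_top_lt M
    apply absurd h4.ne
    rw [not_not, eq_top_iff]
    intro v _
    have hv : v ∈ y • (⊤ : Submodule R M) := by
      rw [h]
      trivial
    obtain ⟨w, -, rfl⟩ := (Submodule.mem_smul_pointwise_iff_exists _ _ _).mp hv
    exact Submodule.smul_mem_smul hy trivial
  have hext' : ∀ i < t, Subsingleton (Ext N (ModuleCat.of R (QuotSMulTop y M)) i) := by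
    intro i hi
    have zero1 := AddCommGrpCat.isZero_of_iff_subsingleton.mpr (hext i (by omega))
    have zero2 := AddCommGrpCat.isZero_of_iff_subsingleton.mpr (hext (i + 1) (by omega))
    exact AddCommGrpCat.subsingleton_of_isZero <| ShortComplex.Exact.isZero_of_both_zeros
      ((Ext.covariant_sequence_exact₃' N
        (IsSMulRegular.smulShortComplex_shortExact (M := ModuleCat.of R M) hyM)) i (i + 1) rfl)
      (zero1.eq_zero_of_src _) (zero2.eq_zero_of_tgt _)
  exact ModuleCat.exists_isRegular_of_exists_subsingleton_ext (maximalIdeal R) t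
    (ModuleCat.of R (QuotSMulTop y M)) (smul_top_lt _) N hN hext'

theorem dim_lt (P Q : Ideal R) [P.IsPrime] [Q.IsPrime] (hPQ : P ≤ Q) {a : R} (ha : a ∈ Q) (haP : a ∉ P) :
    ringKrullDim (R ⧸ Q) + 1 ≤ ringKrullDim (R ⧸ P) := by
  have h1 : Ideal.Quotient.mk P a ∈ nonZeroDivisors (R ⧸ P) := by
    rw [mem_nonZeroDivisors_iff_ne_zero, Ne, Ideal.Quotient.eq_zero_iff_mem]
    exact haP
  refine le_trans ?_ (ringKrullDim_quotient_succ_le_of_nonZeroDivisor h1)
  let f : ((R ⧸ P) ⧸ Ideal.span {Ideal.Quotient.mk P a}) →+* (R ⧸ Q) :=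
    Ideal.Quotient.lift _ (Ideal.Quotient.factor hPQ) (by
      intro z hz
      obtain ⟨w, rfl⟩ := Ideal.mem_span_singleton'.mp hz
      rw [map_mul, Ideal.Quotient.factor_mk, Ideal.Quotient.eq_zero_iff_mem.mpr ha, mul_zero])
  have hf : Function.Surjective f := by
    intro q
    obtain ⟨r, rfl⟩ := Ideal.Quotient.mk_surjective q
    exact ⟨Ideal.Quotient.mk _ (Ideal.Quotient.mk P r), rfl⟩
  gcongr
  exact ringKrullDim_le_of_surjective f hf

theorem Dp.le_dim (t : ℕ) : ∀ (M : Type u) [AddCommGroup M] [Module R M] [Module.Finite R M],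
    Dp (R := R) t M → ∀ P : Ideal R, IsAssociatedPrime P M → (t : WithBot ℕ∞) ≤ ringKrullDim (R ⧸ P) := by
  induction t with
  | zero =>
    intro M _ _ _ _ P hP
    have := hP.isPrime
    have : Nontrivial (R ⧸ P) := inferInstance
    exact_mod_cast ringKrullDim_nonneg_of_nontrivial
  | succ t ih =>
    intro M _ _ _ hM P hP
    have hPp := hP.isPrime
    obtain ⟨rs, h1, h2, h3⟩ := hM
    match rs with
    | [] => simp at h1
    | a :: rs' =>
      rw [RingTheory.Sequence.isRegular_cons_iff] at h3
      simp only [List.length_cons, Nat.add_right_cancel_iff] at h1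
      have ha : a ∈ maximalIdeal R := h2 a List.mem_cons_self
      have hM' : Dp (R := R) t (QuotSMulTop a M) := ⟨rs', h1, fun r hr => h2 r (List.mem_cons_of_mem _ hr), h3.2⟩
      obtain ⟨-, x, hx⟩ := isAssociatedPrime_iff.mp hP
      have hxP : ∀ p, p ∈ P ↔ p • x = 0 := by
        intro p
        rw [hx, Submodule.mem_colon_singleton, Submodule.mem_bot]
      let H : Submodule R M :=
        { carrier := {m | ∀ p ∈ P, p • m = 0}
          add_mem' := fun {a b} ha hb p hp => by rw [smul_add, ha p hp, hb p hp, add_zero]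
          zero_mem' := fun p _ => smul_zero p
          smul_mem' := fun r m hm p hp => by rw [smul_comm, hm p hp, smul_zero] }
      have hx0 : x ≠ 0 := by
        intro h0
        apply hPp.ne_top
        rw [Ideal.eq_top_iff_one, hxP, h0, smul_zero]
      have haP : a ∉ P := by
        intro h
        rw [hxP] at h
        exact hx0 (h3.1.right_eq_zero_of_smul h)
      have hex : ∃ h ∈ H, h ∉ a • (⊤ : Submodule R M) := by
        by_contra hcon
        push Not at hcon
        have h4 : H ≤ maximalIdeal R • H := by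
          intro h hh
          obtain ⟨m, -, hm⟩ := (Submodule.mem_smul_pointwise_iff_exists _ _ _).mp (hcon h hh)
          have hm' : m ∈ H := by
            intro p hp
            have : a • (p • m) = 0 := by
              rw [smul_comm, hm]
              exact hh p hp
            exact h3.1.right_eq_zero_of_smul this
          rw [← hm]
          exact Submodule.smul_mem_smul ha hm'
        have h5 := Submodule.eq_bot_of_le_smul_of_le_jacobson_bot (maximalIdeal R) H
          (IsNoetherian.noetherian H) h4 (maximalIdeal_le_jacobson _)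
        have h6 : x ∈ H := fun p hp => (hxP p).mp hp
        rw [h5] at h6
        exact hx0 h6
      obtain ⟨h, hh, hna⟩ := hex
      have hq : (Submodule.Quotient.mk h : QuotSMulTop a M) ≠ 0 := by
        rw [Ne, Submodule.Quotient.mk_eq_zero]
        exact hna
      obtain ⟨Q, hQ, hQ2⟩ := exists_le_isAssociatedPrime_of_isNoetherianRing R _ hq
      have hQp := hQ.isPrime
      have hPQ : P ≤ Q := by
        intro p hp
        apply hQ2
        rw [Submodule.mem_colon_singleton, Submodule.mem_bot, ← Submodule.Quotient.mk_smul, hh p hp,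
          Submodule.Quotient.mk_zero]
      have haQ : a ∈ Q := by
        apply hQ2
        rw [Submodule.mem_colon_singleton, Submodule.mem_bot, ← Submodule.Quotient.mk_smul,
          Submodule.Quotient.mk_eq_zero]
        exact Submodule.smul_mem_pointwise_smul _ _ _ trivial
      have h7 := ih (QuotSMulTop a M) hM' Q hQ
      have h8 := dim_lt P Q hPQ haQ haP
      refine le_trans ?_ h8
      rw [Nat.cast_succ]
      gcongr

theorem dim_le_card (P : Ideal R) [P.IsPrime] (s : Finset R) (hs : ∀ r ∈ s, r ∈ maximalIdeal R) (T : ℕ)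
    (hT : maximalIdeal R ^ T ≤ P ⊔ Ideal.span (s : Set R)) : ringKrullDim (R ⧸ P) ≤ s.card := by
  classical
  have hloc : IsLocalRing (R ⧸ P) := IsLocalRing.of_surjective' (Ideal.Quotient.mk P) Ideal.Quotient.mk_surjective
  have hlh : IsLocalHom (Ideal.Quotient.mk P) := IsLocalHom.of_surjective _ Ideal.Quotient.mk_surjective
  rw [← IsLocalRing.maximalIdeal_height_eq_ringKrullDim]
  have h1 : maximalIdeal (R ⧸ P) ∈ (Ideal.span ((s.image (Ideal.Quotient.mk P) : Finset (R ⧸ P)) :
      Set (R ⧸ P))).minimalPrimes := by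
    refine ⟨⟨inferInstance, ?_⟩, ?_⟩
    · rw [Ideal.span_le]
      intro z hz
      rw [Finset.coe_image] at hz
      obtain ⟨r, hr, rfl⟩ := hz
      have := hs r hr
      rw [SetLike.mem_coe, mem_maximalIdeal, mem_nonunits_iff] at *
      intro hu
      exact this (isUnit_of_map_unit _ _ hu)
    · rintro Q ⟨hQp, hQ⟩ -
      have h2 : maximalIdeal R ≤ Q.comap (Ideal.Quotient.mk P) := by
        have h3 : P ⊔ Ideal.span (s : Set R) ≤ Q.comap (Ideal.Quotient.mk P) := by
          rw [sup_le_iff]
          refine ⟨fun p hp => ?_, ?_⟩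
          · rw [Ideal.mem_comap, Ideal.Quotient.eq_zero_iff_mem.mpr hp]
            exact Q.zero_mem
          · rw [Ideal.span_le]
            intro r hr
            apply hQ
            apply Ideal.subset_span
            rw [Finset.coe_image]
            exact ⟨r, hr, rfl⟩
        have h4 : (Q.comap (Ideal.Quotient.mk P)).IsPrime := Ideal.comap_isPrime _ _
        exact Ideal.IsPrime.le_of_pow_le (hT.trans h3)
      intro z hz
      obtain ⟨r, rfl⟩ := Ideal.Quotient.mk_surjective z
      apply h2
      rw [mem_maximalIdeal, mem_nonunits_iff] at *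
      intro hu
      exact hz (hu.map _)
  have h2 := Ideal.height_le_card_of_mem_minimalPrimes_span_finset h1
  have h3 : (s.image (Ideal.Quotient.mk P)).card ≤ s.card := Finset.card_image_le
  have h4 : (maximalIdeal (R ⧸ P)).height ≤ (s.card : ℕ∞) := h2.trans (by exact_mod_cast h3)
  exact_mod_cast h4

section

variable {ι : Type*} [DecidableEq ι] [Fintype ι] {x : ι → R}

theorem reg_of_Dp (hxm : ∀ l, x l ∈ maximalIdeal R)
    (hx : ∃ T, maximalIdeal R ^ T ≤ Ideal.span (Set.range x)) (M : Type u) [AddCommGroup M] [Module R M]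
    [Module.Finite R M] (J : Finset ι) (i : ι) (hi : i ∉ J) (c : ι → ℕ)
    (hk : ∀ l ∈ J, ∀ m : M, x l ^ c l • m = 0) (t : ℕ) (hD : Dp (R := R) t M)
    (ht : Fintype.card ι < t + J.card + 1) : IsSMulRegular M (x i) := by
  classical
  obtain ⟨T, hT⟩ := hx
  by_contra hcon
  have h1 : x i ∈ ⋃ p ∈ associatedPrimes R M, (p : Set R) := by
    rw [biUnion_associatedPrimes_eq_compl_regular]
    exact hcon
  simp only [Set.mem_iUnion] at h1
  obtain ⟨P, hP, hxP⟩ := h1
  have hP' : IsAssociatedPrime P M := hP
  have hPp := hP'.isPrime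
  obtain ⟨-, m, hm⟩ := isAssociatedPrime_iff.mp hP'
  let s : Finset R := (Finset.univ \ insert i J).image x
  have hs : ∀ r ∈ s, r ∈ maximalIdeal R := by
    intro r hr
    obtain ⟨l, -, rfl⟩ := Finset.mem_image.mp hr
    exact hxm l
  have hcard : s.card + J.card + 1 ≤ Fintype.card ι := by
    have h2 : s.card ≤ (Finset.univ \ insert i J).card := Finset.card_image_le
    have h3 : (Finset.univ \ insert i J).card + (insert i J).card = (Finset.univ : Finset ι).card :=
      Finset.card_sdiff_add_card_eq_card (Finset.subset_univ _)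
    rw [Finset.card_insert_of_notMem hi, Finset.card_univ] at h3
    omega
  have hspan : Ideal.span (Set.range x) ≤ P ⊔ Ideal.span (s : Set R) := by
    rw [Ideal.span_le]
    rintro _ ⟨l, rfl⟩
    by_cases hl : l ∈ insert i J
    · apply Ideal.mem_sup_left
      rcases Finset.mem_insert.mp hl with rfl | hl
      · exact hxP
      · have h4 : x l ^ c l ∈ P := by
          rw [hm, Submodule.mem_colon_singleton, Submodule.mem_bot]
          exact hk l hl m
        exact hPp.mem_of_pow_mem _ h4
    · apply Ideal.mem_sup_right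
      apply Ideal.subset_span
      rw [Finset.mem_coe, Finset.mem_image]
      exact ⟨l, by simp only [Finset.mem_sdiff, Finset.mem_univ, true_and]; exact hl, rfl⟩
  have h5 := dim_le_card P s hs T (hT.trans hspan)
  have h6 := Dp.le_dim t M hD P hP'
  have h7 : ((t : ℕ) : WithBot ℕ∞) ≤ ((s.card : ℕ) : WithBot ℕ∞) := h6.trans h5
  have h8 : t ≤ s.card := by exact_mod_cast h7
  omega

theorem Dp_WW (hxm : ∀ l, x l ∈ maximalIdeal R)
    (hx : ∃ T, maximalIdeal R ^ T ≤ Ideal.span (Set.range x)) (M : Type u) [AddCommGroup M] [Module R M]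
    [Module.Finite R M] (hM : Dp (R := R) (Fintype.card ι) M) (c : ι → ℕ) (hc : ∀ l, 1 ≤ c l)
    (J : Finset ι) : Dp (R := R) (Fintype.card ι - J.card) (M ⧸ WW x c J M) := by
  induction J using Finset.induction_on with
  | empty =>
    have h1 : WW x c ∅ M = ⊥ := by
      rw [eq_bot_iff]
      intro v hv
      exact WW_empty.mp hv
    rw [Finset.card_empty, Nat.sub_zero]
    exact hM.of_equiv (Submodule.quotEquivOfEqBot _ h1).symm
  | insert j J hj ih =>
    have hcard : J.card + 1 ≤ Fintype.card ι := by
      rw [← Finset.card_insert_of_notMem hj]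
      exact Finset.card_le_univ _
    have h1 : Fintype.card ι - J.card = (Fintype.card ι - (insert j J).card) + 1 := by
      rw [Finset.card_insert_of_notMem hj]
      omega
    have hreg : IsSMulRegular (M ⧸ WW x c J M) (x j) := by
      refine reg_of_Dp hxm hx _ J j hj c ?_ _ ih (by omega)
      intro l hl m
      obtain ⟨m, rfl⟩ := Submodule.mkQ_surjective _ m
      rw [← map_smul, Submodule.mkQ_apply, Submodule.Quotient.mk_eq_zero]
      exact WW_single hl m
    rw [h1] at ih
    have h2 := Dp.quot ih (Ideal.pow_mem_of_mem _ (hxm j) (c j) (hc j)) (hreg.pow (c j))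
    let f : M →ₗ[R] QuotSMulTop (x j ^ c j) (M ⧸ WW x c J M) :=
      (Submodule.mkQ _) ∘ₗ (WW x c J M).mkQ
    have hf : Function.Surjective f :=
      (Submodule.mkQ_surjective _).comp (Submodule.mkQ_surjective _)
    have hker : LinearMap.ker f = WW x c (insert j J) M := by
      ext v
      rw [LinearMap.mem_ker, WW_insert hj]
      change (Submodule.Quotient.mk ((WW x c J M).mkQ v) :
        QuotSMulTop (x j ^ c j) (M ⧸ WW x c J M)) = 0 ↔ _
      rw [Submodule.Quotient.mk_eq_zero, Submodule.mem_smul_pointwise_iff_exists]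
      constructor
      · rintro ⟨q, -, hq⟩
        obtain ⟨u, rfl⟩ := Submodule.mkQ_surjective _ q
        refine ⟨u, ?_⟩
        rw [← Submodule.Quotient.mk_eq_zero, ← Submodule.mkQ_apply, map_sub, map_smul, hq, sub_self]
      · rintro ⟨u, hu⟩
        refine ⟨(WW x c J M).mkQ u, trivial, ?_⟩
        rw [← Submodule.Quotient.mk_eq_zero, ← Submodule.mkQ_apply, map_sub, sub_eq_zero, map_smul] at hu
        exact hu.symm
    exact h2.of_equiv ((f.quotKerEquivOfSurjective hf).symm.trans (Submodule.quotEquivOfEq _ _ hker))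

/-- on a maximal Cohen-Macaulay module every system of parameters is regular, in every order -/
theorem reg_of_mcm (hxm : ∀ l, x l ∈ maximalIdeal R)
    (hx : ∃ T, maximalIdeal R ^ T ≤ Ideal.span (Set.range x)) (M : Type u) [AddCommGroup M] [Module R M]
    [Module.Finite R M] (hM : Dp (R := R) (Fintype.card ι) M) : Reg x M := by
  intro i J c hi hc m v hv
  have hcard : J.card + 1 ≤ Fintype.card ι := by
    rw [← Finset.card_insert_of_notMem hi]
    exact Finset.card_le_univ _
  have hreg : IsSMulRegular (M ⧸ WW x c J M) (x i) := by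
    refine reg_of_Dp hxm hx _ J i hi c ?_ _ (Dp_WW hxm hx M hM c hc J) (by omega)
    intro l hl m
    obtain ⟨m, rfl⟩ := Submodule.mkQ_surjective _ m
    rw [← map_smul, Submodule.mkQ_apply, Submodule.Quotient.mk_eq_zero]
    exact WW_single hl m
  rw [← Submodule.Quotient.mk_eq_zero, ← Submodule.mkQ_apply] at hv ⊢
  rw [map_smul] at hv
  exact (hreg.pow m).right_eq_zero_of_smul hv

end

end Pool.Agent.TH282.RE
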