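import Pool.Agent.TH282.RE.Main2
import Pool.Agent.TH282.RE.Depth
import Pool.Agent.TH282.RG.Fl

/-!
# Rigid modules, annihilators of `Ext^1(M, -)` and presentations
-/

set_option autoImplicit false
set_option linter.unusedSectionVars false

namespace Pool.Agent.TH282.RE

open IsLocalRing Pool.Agent.TH282.RG

universe u v w

/-- `r` annihilates `Ext^1_R(M, -)`: the pullback along `r : M → M` of every surjection onto `M` splits -/
def ExtAnn (R M : Type u) [CommRing R] [AddCommGroup M] [Module R M] (r : R) : Prop :=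
  ∀ (E : Type u) [AddCommGroup E] [Module R E] (g : E →ₗ[R] M), Function.Surjective g →
    ∃ s : M →ₗ[R] E, g ∘ₗ s = r • LinearMap.id

section

variable {R : Type u} [CommRing R]

theorem fac_of_extAnn {M : Type u} [AddCommGroup M] [Module R M] {p : ℕ} (f : (Fin p → R) →ₗ[R] M)
    (hf : Function.Surjective f) (z : R) (e : ℕ) (h : ExtAnn R M (z ^ e)) :
    Fac (LinearMap.ker f) z e := by
  obtain ⟨s, hs⟩ := h (Fin p → R) f hf
  refine ⟨z ^ e • LinearMap.id - s ∘ₗ f, ?_, ?_⟩
  · intro v
    rw [LinearMap.mem_ker, LinearMap.sub_apply, map_sub, LinearMap.smul_apply, LinearMap.id_apply,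
      LinearMap.comp_apply, map_smul]
    have := LinearMap.congr_fun hs (f v)
    simp only [LinearMap.comp_apply, LinearMap.smul_apply, LinearMap.id_apply] at this
    rw [this, sub_self]
  · intro v hv
    rw [LinearMap.mem_ker] at hv
    rw [LinearMap.sub_apply, LinearMap.smul_apply, LinearMap.id_apply, LinearMap.comp_apply, hv,
      map_zero, sub_zero]

/-- rigidity in terms of a presentation -/
theorem cover_of_rigid {p p₁ : ℕ} (i₁ : (Fin p₁ → R) →ₗ[R] (Fin p → R))
    (h : Rigid R ((Fin p → R) ⧸ LinearMap.range i₁))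
    (f : (Fin p₁ → R) →ₗ[R] ((Fin p → R) ⧸ LinearMap.range i₁))
    (hf : ∀ v ∈ LinearMap.ker i₁, f v = 0) :
    ∃ F : (Fin p → R) →ₗ[R] ((Fin p → R) ⧸ LinearMap.range i₁), ∀ v, F (i₁ v) = f v := by
  let M := (Fin p → R) ⧸ LinearMap.range i₁
  let Nn : Submodule R (M × (Fin p → R)) := LinearMap.range (f.prod (-i₁))
  let a : M →ₗ[R] ((M × (Fin p → R)) ⧸ Nn) := Nn.mkQ ∘ₗ LinearMap.inl R M (Fin p → R)
  let b : ((M × (Fin p → R)) ⧸ Nn) →ₗ[R] M :=
    Nn.liftQ ((LinearMap.range i₁).mkQ ∘ₗ LinearMap.snd R M (Fin p → R)) (by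
      rintro _ ⟨v, rfl⟩
      rw [LinearMap.mem_ker, LinearMap.comp_apply, LinearMap.snd_apply]
      change (LinearMap.range i₁).mkQ (-(i₁ v)) = 0
      rw [map_neg, neg_eq_zero, Submodule.mkQ_apply, Submodule.Quotient.mk_eq_zero]
      exact ⟨v, rfl⟩)
  have ha : Function.Injective a := by
    rw [injective_iff_map_eq_zero]
    intro m hm
    change (Submodule.Quotient.mk ((m, 0) : M × (Fin p → R)) : _ ⧸ Nn) = 0 at hm
    rw [Submodule.Quotient.mk_eq_zero] at hm
    obtain ⟨v, hv⟩ := hm
    have h1 : f v = m := congrArg Prod.fst hv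
    have h2 : -(i₁ v) = 0 := congrArg Prod.snd hv
    rw [← h1]
    exact hf v (by rw [LinearMap.mem_ker, ← neg_eq_zero, h2])
  have hb : Function.Surjective b := by
    intro m
    obtain ⟨v, rfl⟩ := (LinearMap.range i₁).mkQ_surjective m
    exact ⟨Submodule.Quotient.mk ((0, v) : M × (Fin p → R)), rfl⟩
  have hi : ∀ v, (Submodule.Quotient.mk ((0, i₁ v) : M × (Fin p → R)) : _ ⧸ Nn) = a (f v) := by
    intro v
    change (Submodule.Quotient.mk ((0, i₁ v) : M × (Fin p → R)) : _ ⧸ Nn) =
      Submodule.Quotient.mk ((f v, 0) : M × (Fin p → R))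
    rw [Submodule.Quotient.eq]
    refine ⟨-v, ?_⟩
    rw [map_neg]
    ext
    · simp
    · simp
  have hab : LinearMap.range a = LinearMap.ker b := by
    ext z
    constructor
    · rintro ⟨m, rfl⟩
      change (LinearMap.range i₁).mkQ 0 = 0
      rw [map_zero]
    · intro hz
      obtain ⟨⟨m, v⟩, rfl⟩ := Nn.mkQ_surjective z
      change (LinearMap.range i₁).mkQ v = 0 at hz
      rw [Submodule.mkQ_apply, Submodule.Quotient.mk_eq_zero] at hz
      obtain ⟨w, rfl⟩ := hz
      refine ⟨m + f w, ?_⟩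
      rw [map_add, ← hi]
      change Nn.mkQ (m, 0) + Nn.mkQ (0, i₁ w) = Nn.mkQ (m, i₁ w)
      rw [← map_add]
      simp
  obtain ⟨s, hs⟩ := h _ a b ha hb hab
  let inr : (Fin p → R) →ₗ[R] ((M × (Fin p → R)) ⧸ Nn) := Nn.mkQ ∘ₗ LinearMap.inr R M (Fin p → R)
  have h1 : ∀ t : Fin p, ∃ m, a m = inr (Pi.single t 1) - s (b (inr (Pi.single t 1))) := by
    intro t
    have : inr (Pi.single t 1) - s (b (inr (Pi.single t 1))) ∈ LinearMap.ker b := by
      rw [LinearMap.mem_ker, map_sub]
      have := LinearMap.congr_fun hs (b (inr (Pi.single t 1)))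
      simp only [LinearMap.comp_apply, LinearMap.id_apply] at this
      rw [this, sub_self]
    rw [← hab] at this
    exact this
  choose m hm using h1
  obtain ⟨F, hF⟩ := exists_lin (R := R) m
  have h2 : a ∘ₗ F = inr - s ∘ₗ b ∘ₗ inr := by
    apply (Pi.basisFun R (Fin p)).ext
    intro t
    rw [Pi.basisFun_apply, LinearMap.comp_apply, hF, hm]
    rfl
  refine ⟨F, fun v => ha ?_⟩
  have h3 : a (F (i₁ v)) = inr (i₁ v) - s (b (inr (i₁ v))) := LinearMap.congr_fun h2 (i₁ v)
  have h4 : b (inr (i₁ v)) = 0 := by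
    change (LinearMap.range i₁).mkQ (i₁ v) = 0
    rw [Submodule.mkQ_apply, Submodule.Quotient.mk_eq_zero]
    exact ⟨v, rfl⟩
  rw [h4, map_zero, sub_zero] at h3
  rw [h3]
  exact hi v

theorem Reg.of_equiv {ι : Type*} [DecidableEq ι] [Fintype ι] {x : ι → R} {M M' : Type*}
    [AddCommGroup M] [Module R M] [AddCommGroup M'] [Module R M'] (e : M ≃ₗ[R] M') (h : Reg x M) :
    Reg x M' := by
  intro i J c hi hc m v hv
  have h1 := WW_map e.symm.toLinearMap hv
  rw [map_smul] at h1
  have h2 := h i J c hi hc m _ h1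
  have h3 := WW_map e.toLinearMap h2
  simpa using h3

end

section

variable (k : Type v) [Field k] {R : Type u} [CommRing R] [IsLocalRing R] [Algebra k R]

theorem finrank_eq_length [Module.Finite k (ResidueField R)] {M : Type u} [AddCommGroup M]
    [Module R M] (h : IsFiniteLength R M) :
    ∃ n : ℕ, Module.length R M = n ∧ ∀ [Module k M] [IsScalarTower k R M],
      Module.finrank k M = Module.finrank k (ResidueField R) * n := by
  induction h with
  | of_subsingleton =>
    refine ⟨0, Module.length_eq_zero, ?_⟩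
    intro _ _
    rw [Module.finrank_zero_of_subsingleton, mul_zero]
  | @of_simple_quotient M _ _ N hs hN ih =>
    obtain ⟨n, hn, ih⟩ := ih
    refine ⟨n + 1, ?_, ?_⟩
    · rw [Module.length_eq_add_of_exact N.subtype N.mkQ N.subtype_injective N.mkQ_surjective
        (LinearMap.exact_subtype_mkQ N), hn, Module.length_eq_one_iff.mpr hs]
      rfl
    · intro _ _
      have h1 := ih
      obtain ⟨I, hI, ⟨e⟩⟩ := (isSimpleModule_iff_quot_maximal (R := R) (M := M ⧸ N)).mp hs
      have hI' := IsLocalRing.eq_maximalIdeal hI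
      subst hI'
      have hN' : Module.Finite k N := finite_of_finiteLength (k := k) hN
      have h3 : Module.Finite k (R ⧸ maximalIdeal R) := inferInstanceAs (Module.Finite k (ResidueField R))
      have h2 : Module.Finite k (M ⧸ N) := Module.Finite.equiv (e.restrictScalars k).symm
      have h4 : Module.Finite k (N.restrictScalars k) := hN'
      have h5 : Module.Finite k (M ⧸ N.restrictScalars k) :=
        Module.Finite.equiv (Submodule.Quotient.restrictScalarsEquiv k N).symm
      have h6 : Module.Finite k M := Module.Finite.of_submodule_quotient (N.restrictScalars k)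
      have h7 := Submodule.finrank_quotient_add_finrank (N.restrictScalars k)
      have h8 : Module.finrank k (M ⧸ N.restrictScalars k) = Module.finrank k (ResidueField R) :=
        ((Submodule.Quotient.restrictScalarsEquiv k N).trans (e.restrictScalars k)).finrank_eq
      have h9 : Module.finrank k (N.restrictScalars k) = Module.finrank k N := rfl
      rw [← h7, h8, h9, h1]
      ring

end

section

variable (k : Type v) [Field k] {R : Type u} [CommRing R] [Algebra k R] [IsLocalRing R]
  [IsNoetherianRing R] [Module.Finite k (ResidueField R)]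
  {ι : Type w} [DecidableEq ι] [Fintype ι] {x : ι → R}

include k in
theorem main_mod (hxm : ∀ l, x l ∈ maximalIdeal R)
    (hx : ∃ t, maximalIdeal R ^ t ≤ Ideal.span (Set.range x)) (e N : ℕ) :
    ∃ S : Set (Σ n : ℕ, Submodule R (Fin n → R)), S.Finite ∧
      ∀ (M : Type u) [AddCommGroup M] [Module R M], Module.Finite R M → Reg x M →
        Module.length R (M ⧸ Ideal.span (Set.range x) • (⊤ : Submodule R M)) ≤ N →
        (∀ l, ExtAnn R M (x l ^ e)) → Rigid R M →
        ∃ q ∈ S, Nonempty (M ≃ₗ[R] (Fin q.1 → R) ⧸ q.2) := by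
  choose S hS h using fun ρ => main_pres k hxm hx e ρ
  refine ⟨⋃ ρ ∈ Finset.range (Module.finrank k (ResidueField R) * N + 1), S ρ,
    Set.Finite.biUnion (Finset.finite_toSet _) fun ρ _ => hS ρ, ?_⟩
  intro M _ _ hMf hReg hlen hann hrig
  obtain ⟨p, f, hf⟩ := Module.Finite.exists_fin' R M
  have hfg : Module.Finite R (LinearMap.ker f) := inferInstance
  obtain ⟨p₁, f₁, hf₁⟩ := Module.Finite.exists_fin' R (LinearMap.ker f)
  let i₁ : (Fin p₁ → R) →ₗ[R] (Fin p → R) := (LinearMap.ker f).subtype ∘ₗ f₁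
  have hr : LinearMap.range i₁ = LinearMap.ker f := by
    rw [LinearMap.range_comp, LinearMap.range_eq_top.mpr hf₁, Submodule.map_top, Submodule.range_subtype]
  let ε : ((Fin p → R) ⧸ LinearMap.range i₁) ≃ₗ[R] M :=
    (Submodule.quotEquivOfEq _ _ hr).trans (f.quotKerEquivOfSurjective hf)
  have hReg' : Reg x ((Fin p → R) ⧸ LinearMap.range i₁) := hReg.of_equiv ε.symm
  have hrig' : Rigid R ((Fin p → R) ⧸ LinearMap.range i₁) := hrig.of_equiv ε.symm
  have hWW : WW x (fun _ => 1) Finset.univ ((Fin p → R) ⧸ LinearMap.range i₁) =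
      Ideal.span (Set.range x) • ⊤ := by
    rw [WW_eq_smul]
    simp only [pow_one]
  have h1 := WW_finite k x hx ((Fin p → R) ⧸ LinearMap.range i₁) (fun _ => 1)
  rw [hWW] at h1
  have h2 : Module.length R (((Fin p → R) ⧸ LinearMap.range i₁) ⧸
      Ideal.span (Set.range x) • (⊤ : Submodule R ((Fin p → R) ⧸ LinearMap.range i₁))) ≤ N := by
    refine le_trans (le_of_eq ?_) hlen
    apply LinearEquiv.length_eq
    refine Submodule.Quotient.equiv _ _ ε ?_
    rw [Submodule.map_smul'']
    congr 1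
    rw [Submodule.map_top]
    exact LinearEquiv.range ε
  have hfl : IsFiniteLength R (((Fin p → R) ⧸ LinearMap.range i₁) ⧸
      Ideal.span (Set.range x) • (⊤ : Submodule R ((Fin p → R) ⧸ LinearMap.range i₁))) := by
    rw [← Module.length_ne_top_iff]
    intro htop
    rw [htop] at h2
    exact absurd h2 (by simp)
  obtain ⟨n, hn, hn2⟩ := finrank_eq_length k hfl
  have h3 := hn2
  have hnN : n ≤ N := by
    rw [hn] at h2
    exact_mod_cast h2
  obtain ⟨q, hq, ⟨δ⟩⟩ := h (Module.finrank k (ResidueField R) * n) p p₁ i₁ hReg' (by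
      rw [hWW]
      exact h3) (by
      intro l
      rw [hr]
      exact fac_of_extAnn f hf (x l) e (hann l)) (cover_of_rigid i₁ hrig')
  refine ⟨q, ?_, ⟨ε.symm.trans δ⟩⟩
  rw [Set.mem_iUnion₂]
  refine ⟨_, ?_, hq⟩
  rw [Finset.mem_range]
  have := Nat.mul_le_mul_left (Module.finrank k (ResidueField R)) hnN
  omega

end

end Pool.Agent.TH282.RE
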