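import Pool.Agent.TH282.RE.AR

/-!
# Finitely many rigid points suffice
-/

set_option autoImplicit false
set_option linter.unusedSectionVars false

namespace Pool.Agent.TH282.RE

open Matrix Pool.Agent.TH282.RG

section Coord

variable {k : Type*} [Field k] {R : Type*} [CommRing R] [Algebra k R]
  {n : Type*} [Fintype n] [DecidableEq n] {𝒢 : Type*} (U₀ : 𝒢 → R →ₐ[k] Matrix n n k)

/-- the ring of functions on the points generated by the matrix entries -/
def Co : Subalgebra k (𝒢 → k) :=
  Algebra.adjoin k (Set.range fun rij : R × n × n => fun a : 𝒢 => U₀ a rij.1 rij.2.1 rij.2.2)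

/-- the universal representation -/
def Un : R →ₐ[k] Matrix n n (Co U₀) where
  toFun r := Matrix.of fun i j => ⟨fun a => U₀ a r i j, Algebra.subset_adjoin ⟨(r, i, j), rfl⟩⟩
  map_one' := by
    ext i j a
    simp [Matrix.one_apply]
    split_ifs <;> simp
  map_mul' r s := by
    ext i j a
    simp [Matrix.mul_apply]
  map_zero' := by
    ext i j a
    simp
  map_add' r s := by
    ext i j a
    simp
  commutes' t := by
    ext i j a
    simp [Matrix.algebraMap_matrix_apply]
    split_ifs <;> simp [Algebra.algebraMap_eq_smul_one]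

/-- evaluation at a point -/
def evp (a : 𝒢) : Co U₀ →ₐ[k] k := (Pi.evalAlgHom k (fun _ => k) a).comp (Co U₀).val

theorem evp_Un (a : 𝒢) (r : R) (i j : n) : U₀ a r i j = evp U₀ a (Un U₀ r i j) := rfl

theorem Un_const {ι : Type*} {x : ι → R} {A : ι → Matrix n n k} (h : ∀ a l, U₀ a (x l) = A l) (l : ι) :
    Un U₀ (x l) = hat (Co U₀) (A l) := by
  ext i j a
  change U₀ a (x l) i j = A l i j
  rw [h]

theorem Co_noetherian (I : Submodule k R) (hI : ∀ a, ∀ r ∈ I, U₀ a r = 0)
    [Module.Finite k (R ⧸ I)] : IsNoetherianRing (Co U₀) := by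
  classical
  obtain ⟨t, ht⟩ := (inferInstance : Module.Finite k (R ⧸ I)).fg_top
  let g : R ⧸ I → R := Function.surjInv (Submodule.mkQ_surjective I)
  have hg : ∀ q, I.mkQ (g q) = q := Function.surjInv_eq (Submodule.mkQ_surjective I)
  let G : Finset R := t.image g
  have hspan : ∀ r : R, ∃ s ∈ Submodule.span k (G : Set R), r - s ∈ I := by
    intro r
    have h1 : (⊤ : Submodule k (R ⧸ I)) ≤ (Submodule.span k (G : Set R)).map I.mkQ := by
      rw [← ht, Submodule.span_le]
      intro q hq
      refine ⟨g q, Submodule.subset_span ?_, hg q⟩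
      rw [Finset.coe_image]
      exact ⟨q, hq, rfl⟩
    obtain ⟨s, hs, hsr⟩ := h1 (Submodule.mem_top (x := I.mkQ r))
    refine ⟨s, hs, ?_⟩
    rw [← Submodule.Quotient.mk_eq_zero, ← Submodule.mkQ_apply, map_sub, hsr, sub_self]
  let gen : Finset (𝒢 → k) := (G ×ˢ (Finset.univ : Finset (n × n))).image
    fun rij => fun a => U₀ a rij.1 rij.2.1 rij.2.2
  have hfin : Algebra.adjoin k (gen : Set (𝒢 → k)) = Co U₀ := by
    apply le_antisymm
    · apply Algebra.adjoin_mono
      intro f hf
      rw [Finset.mem_coe, Finset.mem_image] at hf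
      obtain ⟨rij, _, rfl⟩ := hf
      exact ⟨rij, rfl⟩
    · apply Algebra.adjoin_le
      rintro _ ⟨⟨r, i, j⟩, rfl⟩
      obtain ⟨s, hs, hsr⟩ := hspan r
      have h1 : (fun a : 𝒢 => U₀ a r i j) = fun a => U₀ a s i j := by
        funext a
        have := hI a _ hsr
        rw [map_sub, sub_eq_zero] at this
        rw [this]
      change (fun a : 𝒢 => U₀ a r i j) ∈ Algebra.adjoin k (gen : Set (𝒢 → k))
      rw [h1]
      clear h1 hsr
      induction hs using Submodule.span_induction with
      | mem z hz =>
        apply Algebra.subset_adjoin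
        rw [Finset.mem_coe, Finset.mem_image]
        exact ⟨(z, i, j), by simp [Finset.mem_coe.mp hz], rfl⟩
      | zero =>
        have : (fun a : 𝒢 => U₀ a 0 i j) = 0 := by
          funext a
          simp
        rw [this]
        exact Subalgebra.zero_mem _
      | add y z _ _ hy hz =>
        have : (fun a : 𝒢 => U₀ a (y + z) i j) = (fun a => U₀ a y i j) + fun a => U₀ a z i j := by
          funext a
          simp
        rw [this]
        exact Subalgebra.add_mem _ hy hz
      | smul c y _ hy =>
        have : (fun a : 𝒢 => U₀ a (c • y) i j) = c • (fun a => U₀ a y i j) := by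
          funext a
          simp
        rw [this]
        exact Subalgebra.smul_mem _ hy c
  apply isNoetherianRing_of_fg
  rw [← hfin]
  exact Subalgebra.fg_adjoin_finset gen

/-- a finite subset of the points sees every point -/
theorem finite_sees [IsNoetherianRing (Co U₀)] (E : 𝒢 → Co U₀) (hE : ∀ g, evp U₀ g (E g) ≠ 0) :
    ∃ s : Finset 𝒢, ∀ g, ∃ g' ∈ s, evp U₀ g (E g') ≠ 0 := by
  classical
  obtain ⟨t, ht, hts⟩ := (Submodule.fg_span_iff_fg_span_finset_subset (Set.range E)).mp
    (IsNoetherian.noetherian (Submodule.span (Co U₀) (Set.range E)))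
  choose α hα using fun (f : Co U₀) (hf : f ∈ t) => ht hf
  refine ⟨t.attach.image fun f => α f.1 f.2, ?_⟩
  intro g
  by_contra hcon
  push Not at hcon
  have h1 : Submodule.span (Co U₀) (t : Set (Co U₀)) ≤ RingHom.ker (evp U₀ g) := by
    rw [Submodule.span_le]
    intro f hf
    have := hcon (α f hf) (by
      rw [Finset.mem_image]
      exact ⟨⟨f, hf⟩, Finset.mem_attach _ _, rfl⟩)
    rw [hα f hf] at this
    exact this
  have h2 : E g ∈ Submodule.span (Co U₀) (Set.range E) := Submodule.subset_span ⟨g, rfl⟩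
  rw [hts] at h2
  exact hE g (h1 h2)

end Coord

end Pool.Agent.TH282.RE
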