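import Pool.Agent.TH282.RE.Conv

/-!
# Modules with scalar endomorphisms: rigidity and cutting down by parameters
-/

set_option autoImplicit false
set_option linter.unusedSectionVars false

namespace Pool.Agent.TH282.RE

open IsLocalRing Pool.Agent.TH282.RG

section

variable {R : Type*} [CommRing R] {ι : Type*} [DecidableEq ι] [Fintype ι] {t : ι → R}

/-- `∑_{l ∈ J} t_l X` -/
abbrev W1 (t : ι → R) (J : Finset ι) (X : Type*) [AddCommGroup X] [Module R X] : Submodule R X :=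
  WW t (fun _ => 1) J X

variable {X : Type*} [AddCommGroup X] [Module R X]

theorem Reg.mem (h : Reg t X) {i : ι} {J : Finset ι} (hi : i ∉ J) {v : X} (hv : t i • v ∈ W1 t J X) :
    v ∈ W1 t J X := by
  apply h i J (fun _ => 1) hi (fun _ => le_rfl) 1 v
  rwa [pow_one]

theorem W1_insert {J : Finset ι} {j : ι} (hj : j ∉ J) {v : X} :
    v ∈ W1 t (insert j J) X ↔ ∃ u, v - t j • u ∈ W1 t J X := by
  rw [W1, WW_insert hj]
  simp only [pow_one]

theorem W1_mono {J J' : Finset ι} (h : J ⊆ J') : W1 t J X ≤ W1 t J' X :=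
  WW_mono h fun _ _ => le_rfl

/-- the parameter acts regularly on the quotient -/
theorem Reg.quot (h : Reg t X) {i : ι} {J : Finset ι} (hi : i ∉ J) (z : X ⧸ W1 t J X)
    (hz : t i • z = 0) : z = 0 := by
  obtain ⟨v, rfl⟩ := Submodule.mkQ_surjective _ z
  rw [← map_smul, Submodule.mkQ_apply, Submodule.Quotient.mk_eq_zero] at hz
  rw [Submodule.mkQ_apply, Submodule.Quotient.mk_eq_zero]
  exact h.mem hi hz

theorem Reg.quot2 (h : Reg t X) {i j : ι} {J : Finset ι} (hi : i ∉ insert j J) (hj : j ∉ J)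
    (y z : X ⧸ W1 t J X) (hyz : t i • y = t j • z) : ∃ w, y = t j • w := by
  obtain ⟨v, rfl⟩ := Submodule.mkQ_surjective _ y
  obtain ⟨u, rfl⟩ := Submodule.mkQ_surjective _ z
  have h1 : t i • v ∈ W1 t (insert j J) X := by
    rw [W1_insert hj]
    refine ⟨u, ?_⟩
    rw [← Submodule.Quotient.mk_eq_zero, ← Submodule.mkQ_apply, map_sub, map_smul, map_smul, hyz,
      sub_self]
  have h2 := h.mem hi h1
  rw [W1_insert hj] at h2
  obtain ⟨w, hw⟩ := h2
  refine ⟨(W1 t J X).mkQ w, ?_⟩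
  rw [← Submodule.Quotient.mk_eq_zero, ← Submodule.mkQ_apply, map_sub, sub_eq_zero, map_smul] at hw
  exact hw

theorem W1_smul_mem {J : Finset ι} {r : R} (hr : r ∈ W1 t J R) (v : X) : r • v ∈ W1 t J X :=
  WW_map (LinearMap.toSpanSingleton R X v) hr

end

section

variable {R : Type*} [CommRing R] {ι : Type*} [DecidableEq ι] [Fintype ι] {t : ι → R}
  {p p₁ : ℕ} {i₁ : (Fin p₁ → R) →ₗ[R] (Fin p → R)} {M : Type*} [AddCommGroup M] [Module R M]
  {π : (Fin p → R) →ₗ[R] M}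

/-- a map on the cover killing the relations factors -/
theorem factor_cover (hπ : Function.Surjective π) (hker : ∀ v, π v = 0 → ∃ w, i₁ w = v)
    {Y : Type*} [AddCommGroup Y] [Module R Y] (G : (Fin p → R) →ₗ[R] Y) (hG : ∀ w, G (i₁ w) = 0) :
    ∃ φ : M →ₗ[R] Y, ∀ v, φ (π v) = G v := by
  have h1 : LinearMap.ker π ≤ LinearMap.ker G := by
    intro v hv
    obtain ⟨w, rfl⟩ := hker v hv
    exact hG w
  refine ⟨((LinearMap.ker π).liftQ G h1) ∘ₗ (π.quotKerEquivOfSurjective hπ).symm.toLinearMap, ?_⟩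
  intro v
  have h2 : (π.quotKerEquivOfSurjective hπ).symm (π v) = Submodule.Quotient.mk v := by
    rw [LinearEquiv.symm_apply_eq]
    rfl
  change (LinearMap.ker π).liftQ G h1 ((π.quotKerEquivOfSurjective hπ).symm (π v)) = G v
  rw [h2]
  rfl

/-- every map to `M / (t_l, l ∈ J) M` is a multiplication, faithfully -/
def HH (t : ι → R) (M : Type*) [AddCommGroup M] [Module R M] (J : Finset ι) : Prop :=
  (∀ φ : M →ₗ[R] (M ⧸ W1 t J M), ∃ r : R, ∀ m, φ m = r • (W1 t J M).mkQ m) ∧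
    ∀ r : R, (∀ m : M, r • m ∈ W1 t J M) → r ∈ W1 t J R

/-- `Ext^1(M, X) = 0`, in terms of the presentation -/
def EE (i₁ : (Fin p₁ → R) →ₗ[R] (Fin p → R)) (X : Type*) [AddCommGroup X] [Module R X] : Prop :=
  ∀ f : (Fin p₁ → R) →ₗ[R] X, (∀ v ∈ LinearMap.ker i₁, f v = 0) →
    ∃ F : (Fin p → R) →ₗ[R] X, ∀ v, F (i₁ v) = f v

theorem lift_lin {X Y : Type*} [AddCommGroup X] [Module R X] [AddCommGroup Y] [Module R Y] {n : ℕ}
    (g : X →ₗ[R] Y) (f : (Fin n → R) →ₗ[R] Y) (h : ∀ s, ∃ x, g x = f (Pi.single s 1)) :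
    ∃ F : (Fin n → R) →ₗ[R] X, ∀ v, g (F v) = f v := by
  choose x hx using h
  obtain ⟨F, hF⟩ := exists_lin (R := R) x
  refine ⟨F, fun v => ?_⟩
  have : g ∘ₗ F = f := by
    apply (Pi.basisFun R (Fin n)).ext
    intro s
    rw [Pi.basisFun_apply, LinearMap.comp_apply, hF, hx]
  exact LinearMap.congr_fun this v

theorem exists_Fa {X : Type*} [AddCommGroup X] [Module R X] (hz : ∀ w, π (i₁ w) = 0)
    (hker : ∀ v, π v = 0 → ∃ w, i₁ w = v)
    {z : R} (hfac : Fac (LinearMap.ker π) z 1) (f : (Fin p₁ → R) →ₗ[R] X)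
    (hf : ∀ v ∈ LinearMap.ker i₁, f v = 0) :
    ∃ F : (Fin p → R) →ₗ[R] X, ∀ w, F (i₁ w) = z • f w := by
  obtain ⟨γ, hγ1, hγ2⟩ := hfac
  obtain ⟨T, hT⟩ := lift_lin i₁ γ (fun s => hker _ (hγ1 _))
  refine ⟨f ∘ₗ T, fun w => ?_⟩
  rw [LinearMap.comp_apply, ← map_smul, ← sub_eq_zero, ← map_sub]
  apply hf
  rw [LinearMap.mem_ker, map_sub, hT, hγ2 _ (hz w), map_smul, pow_one, sub_self]

theorem EE_of_HH (hπ : Function.Surjective π) (hz : ∀ w, π (i₁ w) = 0)
    (hker : ∀ v, π v = 0 → ∃ w, i₁ w = v) (hR : Reg t R) (hM : Reg t M)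
    {a b c : ι} (hab : a ≠ b) (hac : a ≠ c) (hbc : b ≠ c)
    (hfa : Fac (LinearMap.ker π) (t a) 1) (hfb : Fac (LinearMap.ker π) (t b) 1)
    (hfc : Fac (LinearMap.ker π) (t c) 1) {J : Finset ι} (ha : a ∉ J) (hb : b ∉ J) (hc : c ∉ J)
    (hH : HH t M J) : EE i₁ (M ⧸ W1 t J M) := by
  intro f hf
  obtain ⟨Fa, hFa⟩ := exists_Fa hz hker hfa f hf
  obtain ⟨Fb, hFb⟩ := exists_Fa hz hker hfb f hf
  obtain ⟨Fc, hFc⟩ := exists_Fa hz hker hfc f hf
  have key : ∀ (x y : R) (Fx Fy : (Fin p → R) →ₗ[R] (M ⧸ W1 t J M)), (∀ w, Fx (i₁ w) = x • f w) →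
      (∀ w, Fy (i₁ w) = y • f w) → ∃ r : R, ∀ v, y • Fx v - x • Fy v = r • (W1 t J M).mkQ (π v) := by
    intro x y Fx Fy hx hy
    obtain ⟨φ, hφ⟩ := factor_cover hπ hker (y • Fx - x • Fy) (by
      intro w
      rw [LinearMap.sub_apply, LinearMap.smul_apply, LinearMap.smul_apply, hx, hy, smul_comm, sub_self])
    obtain ⟨r, hr⟩ := hH.1 φ
    refine ⟨r, fun v => ?_⟩
    rw [← hr, hφ]
    rfl
  obtain ⟨rab, hab'⟩ := key (t a) (t b) Fa Fb hFa hFb
  obtain ⟨rac, hac'⟩ := key (t a) (t c) Fa Fc hFa hFc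
  obtain ⟨rbc, hbc'⟩ := key (t b) (t c) Fb Fc hFb hFc
  have h1 : t c * rab - t b * rac + t a * rbc ∈ W1 t J R := by
    apply hH.2
    intro m
    obtain ⟨v, rfl⟩ := hπ m
    rw [← Submodule.Quotient.mk_eq_zero, ← Submodule.mkQ_apply, map_smul, add_smul, sub_smul,
      mul_smul, mul_smul, mul_smul, ← hab', ← hac', ← hbc']
    simp only [smul_sub, smul_smul]
    rw [mul_comm (t c) (t b), mul_comm (t c) (t a), mul_comm (t b) (t a)]
    abel
  have h2 : rab ∈ W1 t (insert b (insert a J)) R := by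
    apply hR.mem (i := c)
    · simp only [Finset.mem_insert, not_or]
      exact ⟨hbc.symm, hac.symm, hc⟩
    · rw [W1_insert (by simp only [Finset.mem_insert, not_or]; exact ⟨hab.symm, hb⟩)]
      refine ⟨rac, ?_⟩
      rw [W1_insert ha]
      refine ⟨-rbc, ?_⟩
      simp only [smul_eq_mul]
      convert h1 using 1
      ring
  rw [W1_insert (by simp only [Finset.mem_insert, not_or]; exact ⟨hab.symm, hb⟩)] at h2
  obtain ⟨β, h2⟩ := h2
  rw [W1_insert ha] at h2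
  obtain ⟨α, h2⟩ := h2
  simp only [smul_eq_mul] at h2
  have h3 : ∀ v, t b • (Fa v - β • (W1 t J M).mkQ (π v)) = t a • (Fb v + α • (W1 t J M).mkQ (π v)) := by
    intro v
    have h4 : (rab - t b * β - t a * α) • (W1 t J M).mkQ (π v) = 0 := by
      rw [← map_smul, Submodule.mkQ_apply, Submodule.Quotient.mk_eq_zero]
      exact W1_smul_mem h2 _
    rw [sub_smul, sub_smul, ← hab', mul_smul, mul_smul] at h4
    rw [smul_sub, smul_add, ← sub_eq_zero]
    rw [← h4]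
    abel
  have h5 : ∀ v, ∃ w, Fa v - β • (W1 t J M).mkQ (π v) = t a • w := by
    intro v
    exact hM.quot2 (i := b) (j := a) (by simp only [Finset.mem_insert, not_or]; exact ⟨hab.symm, hb⟩) ha
      _ _ (h3 v)
  obtain ⟨F, hF⟩ := lift_lin (LinearMap.lsmul R (M ⧸ W1 t J M) (t a))
    (Fa - β • ((W1 t J M).mkQ ∘ₗ π)) (fun s => by
      obtain ⟨w, hw⟩ := h5 (Pi.single s 1)
      exact ⟨w, hw.symm⟩)
  refine ⟨F, fun w => ?_⟩
  rw [← sub_eq_zero]
  apply hM.quot ha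
  have h6 := hF (i₁ w)
  rw [LinearMap.lsmul_apply, LinearMap.sub_apply, LinearMap.smul_apply, LinearMap.comp_apply, hz,
    map_zero, smul_zero, sub_zero, hFa] at h6
  rw [smul_sub, h6, sub_self]

theorem HH_insert (hπ : Function.Surjective π) (hz : ∀ w, π (i₁ w) = 0)
    (hker : ∀ v, π v = 0 → ∃ w, i₁ w = v) (hM : Reg t M) {J : Finset ι} {j : ι} (hj : j ∉ J)
    (hH : HH t M J) (hE : EE i₁ (M ⧸ W1 t J M)) : HH t M (insert j J) := by
  have hle : W1 t J M ≤ W1 t (insert j J) M := W1_mono (Finset.subset_insert j J)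
  let q : (M ⧸ W1 t J M) →ₗ[R] (M ⧸ W1 t (insert j J) M) := Submodule.factor hle
  have hq : ∀ m : M, q ((W1 t J M).mkQ m) = (W1 t (insert j J) M).mkQ m := fun m => rfl
  have hqs : Function.Surjective q := Submodule.factor_surjective hle
  have hqk : ∀ z, q z = 0 → ∃ w, t j • w = z := by
    intro z hz
    obtain ⟨m, rfl⟩ := Submodule.mkQ_surjective _ z
    rw [hq, Submodule.mkQ_apply, Submodule.Quotient.mk_eq_zero, W1_insert hj] at hz
    obtain ⟨u, hu⟩ := hz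
    refine ⟨(W1 t J M).mkQ u, ?_⟩
    rw [← Submodule.Quotient.mk_eq_zero, ← Submodule.mkQ_apply, map_sub, sub_eq_zero, map_smul] at hu
    exact hu.symm
  have hqt : ∀ w, q (t j • w) = 0 := by
    intro w
    obtain ⟨m, rfl⟩ := Submodule.mkQ_surjective _ w
    rw [← map_smul, hq, Submodule.mkQ_apply, Submodule.Quotient.mk_eq_zero, W1_insert hj]
    exact ⟨m, by rw [sub_self]; exact Submodule.zero_mem _⟩
  refine ⟨fun φ => ?_, fun r hr => ?_⟩
  · obtain ⟨Φ, hΦ⟩ := lift_lin q (φ ∘ₗ π) (fun s => hqs _)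
    obtain ⟨f, hf⟩ := lift_lin (LinearMap.lsmul R (M ⧸ W1 t J M) (t j)) (Φ ∘ₗ i₁) (fun s => by
      apply hqk
      rw [LinearMap.comp_apply, hΦ, LinearMap.comp_apply, hz, map_zero])
    obtain ⟨F, hF⟩ := hE f (by
      intro v hv
      apply hM.quot hj
      have h1 := hf v
      rw [LinearMap.lsmul_apply, LinearMap.comp_apply, LinearMap.mem_ker.mp hv, map_zero] at h1
      exact h1)
    obtain ⟨ψ, hψ⟩ := factor_cover hπ hker (Φ - t j • F) (by
      intro w
      rw [LinearMap.sub_apply, LinearMap.smul_apply, hF]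
      have h1 := hf w
      rw [LinearMap.lsmul_apply, LinearMap.comp_apply] at h1
      rw [h1, sub_self])
    obtain ⟨r, hr⟩ := hH.1 ψ
    refine ⟨r, fun m => ?_⟩
    obtain ⟨v, rfl⟩ := hπ m
    have h2 := congrArg q (hψ v)
    rw [hr, map_smul, hq, LinearMap.sub_apply, map_sub, hΦ, LinearMap.smul_apply, hqt, sub_zero,
      LinearMap.comp_apply] at h2
    exact h2.symm
  · obtain ⟨ψ, hψ⟩ := lift_lin (LinearMap.lsmul R (M ⧸ W1 t J M) (t j))
      (r • ((W1 t J M).mkQ ∘ₗ π)) (fun s => by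
        apply hqk
        rw [LinearMap.smul_apply, LinearMap.comp_apply, ← map_smul, hq, Submodule.mkQ_apply,
          Submodule.Quotient.mk_eq_zero]
        exact hr _)
    obtain ⟨θ, hθ⟩ := factor_cover hπ hker ψ (by
      intro w
      apply hM.quot hj
      have h1 := hψ (i₁ w)
      rw [LinearMap.lsmul_apply, LinearMap.smul_apply, LinearMap.comp_apply, hz, map_zero,
        smul_zero] at h1
      exact h1)
    obtain ⟨r', hr'⟩ := hH.1 θ
    rw [W1_insert hj]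
    refine ⟨r', hH.2 _ fun m => ?_⟩
    obtain ⟨v, rfl⟩ := hπ m
    have h1 := hψ v
    rw [LinearMap.lsmul_apply, ← hθ, hr', LinearMap.smul_apply, LinearMap.comp_apply] at h1
    rw [← Submodule.Quotient.mk_eq_zero, ← Submodule.mkQ_apply, map_smul, sub_smul, smul_eq_mul,
      mul_smul, h1, sub_self]

end

end Pool.Agent.TH282.RE
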