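import Pool.Agent.TH282.RE.Cut1

/-!
# Passing to the quotient by part of a system of parameters
-/

set_option autoImplicit false
set_option linter.unusedSectionVars false

namespace Pool.Agent.TH282.RE

open IsLocalRing Pool.Agent.TH282.RG

universe u

section

variable {R : Type u} [CommRing R] {ι : Type*} [DecidableEq ι] [Fintype ι]

/-- the ring modulo the parameters in `J` -/
abbrev QR (t : ι → R) (J : Finset ι) : Type u := R ⧸ (W1 t J R : Ideal R)

/-- the module modulo the parameters in `J` -/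
def QM (t : ι → R) (J : Finset ι) (M : Type u) [AddCommGroup M] [Module R M] : Type u := M ⧸ W1 t J M

variable (t : ι → R) (J : Finset ι) (M : Type u) [AddCommGroup M] [Module R M]

instance : AddCommGroup (QM t J M) := inferInstanceAs (AddCommGroup (M ⧸ W1 t J M))

instance : Module R (QM t J M) := inferInstanceAs (Module R (M ⧸ W1 t J M))

/-- the projection -/
def mkQM : M →ₗ[R] QM t J M := (W1 t J M).mkQ

theorem mkQM_surj : Function.Surjective (mkQM t J M) := (W1 t J M).mkQ_surjective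

theorem mkQM_eq_zero {m : M} : mkQM t J M m = 0 ↔ m ∈ W1 t J M :=
  Submodule.Quotient.mk_eq_zero (W1 t J M)

theorem QM_torsion : Module.IsTorsionBySet R (QM t J M) (W1 t J R : Ideal R) := by
  rintro z ⟨r, hr⟩
  obtain ⟨m, rfl⟩ := mkQM_surj t J M z
  change r • mkQM t J M m = 0
  rw [← map_smul, mkQM_eq_zero]
  exact W1_smul_mem hr m

instance : Module (QR t J) (QM t J M) := (QM_torsion t J M).module

instance : IsScalarTower R (QR t J) (QM t J M) := (QM_torsion t J M).isScalarTower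

theorem mk_smul_QM (r : R) (z : QM t J M) : (Ideal.Quotient.mk (W1 t J R : Ideal R) r) • z = r • z := rfl

instance [Module.Finite R M] : Module.Finite (QR t J) (QM t J M) := by
  have h1 : Module.Finite R (QM t J M) := Module.Finite.of_surjective _ (mkQM_surj t J M)
  exact Module.Finite.of_restrictScalars_finite R (QR t J) (QM t J M)

theorem QM_factor {X : Type*} [AddCommGroup X] [Module R X] (f : M →ₗ[R] X)
    (hf : ∀ m ∈ W1 t J M, f m = 0) : ∃ F : QM t J M →ₗ[R] X, ∀ m, F (mkQM t J M m) = f m :=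
  ⟨(W1 t J M).liftQ f hf, fun _ => rfl⟩

variable {κ : Type*} [DecidableEq κ] [Fintype κ] (j : κ → ι)

theorem QM_mem (hj : Function.Injective j) (hJ : ∀ a, j a ∉ J) (c : κ → ℕ) (K : Finset κ) :
    ∀ m : M, mkQM t J M m ∈ WW (R := QR t J) (fun a => Ideal.Quotient.mk (W1 t J R : Ideal R) (t (j a))) c K
      (QM t J M) ↔ m ∈ WW t (Function.extend j c (fun _ => 1)) (K.image j ∪ J) M := by
  induction K using Finset.induction_on with
  | empty =>
    intro m
    rw [WW_empty, mkQM_eq_zero, Finset.image_empty, Finset.empty_union, W1]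
    rw [WW_congr (c := Function.extend j c (fun _ => 1)) (c' := fun _ => 1)]
    intro l hl
    apply Function.extend_apply'
    rintro ⟨a, rfl⟩
    exact hJ a hl
  | insert a K ha ih =>
    intro m
    have h1 : j a ∉ K.image j ∪ J := by
      rw [Finset.mem_union, Finset.mem_image, not_or]
      refine ⟨?_, hJ a⟩
      rintro ⟨b, hb, hab⟩
      exact ha (by rwa [← hj hab])
    rw [WW_insert ha, Finset.image_insert, Finset.insert_union, WW_insert h1, hj.extend_apply]
    constructor
    · rintro ⟨z, hz⟩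
      obtain ⟨u, rfl⟩ := mkQM_surj t J M z
      refine ⟨u, ?_⟩
      rw [← ih, map_sub, map_smul]
      rw [← map_pow, mk_smul_QM] at hz
      exact hz
    · rintro ⟨u, hu⟩
      refine ⟨mkQM t J M u, ?_⟩
      rw [← ih, map_sub, map_smul] at hu
      rw [← map_pow, mk_smul_QM]
      exact hu

theorem QM_reg (hj : Function.Injective j) (hJ : ∀ a, j a ∉ J) (h : Reg t M) :
    Reg (R := QR t J) (fun a => Ideal.Quotient.mk (W1 t J R : Ideal R) (t (j a))) (QM t J M) := by
  intro i K c hi hc m z hz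
  obtain ⟨v, rfl⟩ := mkQM_surj t J M z
  rw [← map_pow, mk_smul_QM, ← map_smul, QM_mem t J M j hj hJ] at hz
  rw [QM_mem t J M j hj hJ]
  refine h (j i) _ _ ?_ ?_ m v hz
  · rw [Finset.mem_union, Finset.mem_image, not_or]
    refine ⟨?_, hJ i⟩
    rintro ⟨b, hb, hab⟩
    exact hi (by rwa [← hj hab])
  · intro l
    by_cases hl : ∃ a, j a = l
    · obtain ⟨a, rfl⟩ := hl
      rw [hj.extend_apply]
      exact hc a
    · rw [Function.extend_apply' _ _ _ hl]

theorem W1_killed {E : Type*} [AddCommGroup E] [Module R E] [Module (QR t J) E]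
    [IsScalarTower R (QR t J) E] {z : E} (hz : z ∈ W1 t J E) : z = 0 := by
  obtain ⟨w, rfl⟩ := hz
  apply Finset.sum_eq_zero
  intro l hl
  have h1 : (algebraMap R (QR t J)) (t l ^ 1) = 0 := by
    change Ideal.Quotient.mk (W1 t J R : Ideal R) (t l ^ 1) = 0
    rw [Ideal.Quotient.eq_zero_iff_mem]
    have := WW_single (x := t) (c := fun _ => 1) (X := R) hl 1
    simpa using this
  rw [← algebraMap_smul (QR t J) (t l ^ 1) (w l), h1, zero_smul]

theorem QM_extAnn {r : R} (h : ExtAnn R M r) :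
    ExtAnn (QR t J) (QM t J M) (Ideal.Quotient.mk (W1 t J R : Ideal R) r) := by
  intro E _ _ g hg
  let _ : Module R E := Module.compHom E (Ideal.Quotient.mk (W1 t J R : Ideal R))
  have : IsScalarTower R (QR t J) E := IsScalarTower.of_algebraMap_smul fun r m => rfl
  let gR : E →ₗ[R] QM t J M := g.restrictScalars R
  let P : Submodule R (E × M) := LinearMap.ker (gR ∘ₗ LinearMap.fst R E M - mkQM t J M ∘ₗ LinearMap.snd R E M)
  have hP : ∀ z : E × M, z ∈ P ↔ g z.1 = mkQM t J M z.2 := by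
    intro z
    rw [LinearMap.mem_ker, LinearMap.sub_apply, sub_eq_zero]
    rfl
  let p₂ : P →ₗ[R] M := LinearMap.snd R E M ∘ₗ P.subtype
  have hp₂ : Function.Surjective p₂ := by
    intro m
    obtain ⟨e, he⟩ := hg (mkQM t J M m)
    exact ⟨⟨(e, m), (hP _).mpr he⟩, rfl⟩
  obtain ⟨s₀, hs₀⟩ := h P p₂ hp₂
  obtain ⟨F, hF⟩ := QM_factor t J M (LinearMap.fst R E M ∘ₗ P.subtype ∘ₗ s₀) (by
    intro m hm
    exact W1_killed t J (WW_map _ hm))
  refine ⟨F.extendScalarsOfSurjective Ideal.Quotient.mk_surjective, ?_⟩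
  ext z
  obtain ⟨m, rfl⟩ := mkQM_surj t J M z
  change g (F (mkQM t J M m)) = Ideal.Quotient.mk (W1 t J R : Ideal R) r • mkQM t J M m
  rw [hF, mk_smul_QM, ← map_smul]
  change g ((s₀ m : E × M).1) = _
  rw [(hP _).mp (s₀ m).2]
  congr 1
  exact LinearMap.congr_fun hs₀ m

theorem QM_rigid {p p₁ : ℕ} {i₁ : (Fin p₁ → R) →ₗ[R] (Fin p → R)}
    {π : (Fin p → R) →ₗ[R] M} (hπ : Function.Surjective π) (hz : ∀ w, π (i₁ w) = 0)
    (hker : ∀ v, π v = 0 → ∃ w, i₁ w = v) (hE : EE i₁ (M ⧸ W1 t J M)) :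
    Rigid (QR t J) (QM t J M) := by
  intro E _ _ a b ha hb hab
  let _ : Module R E := Module.compHom E (Ideal.Quotient.mk (W1 t J R : Ideal R))
  have : IsScalarTower R (QR t J) E := IsScalarTower.of_algebraMap_smul fun r m => rfl
  let aR : QM t J M →ₗ[R] E := a.restrictScalars R
  let bR : E →ₗ[R] QM t J M := b.restrictScalars R
  obtain ⟨L, hL⟩ := lift_lin bR (mkQM t J M ∘ₗ π) (fun s => hb _)
  obtain ⟨f, hf⟩ := lift_lin aR (L ∘ₗ i₁) (fun s => by
    have h1 : L (i₁ (Pi.single s 1)) ∈ LinearMap.ker b := by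
      rw [LinearMap.mem_ker]
      change bR (L _) = 0
      rw [hL, LinearMap.comp_apply, hz, map_zero]
    rw [← hab] at h1
    obtain ⟨y, hy⟩ := h1
    exact ⟨y, hy⟩)
  obtain ⟨F, hF⟩ : ∃ F : (Fin p → R) →ₗ[R] QM t J M, ∀ v, F (i₁ v) = f v := hE f (by
    intro v hv
    apply ha
    change aR (f v) = a 0
    rw [hf, LinearMap.comp_apply, LinearMap.mem_ker.mp hv, map_zero, map_zero])
  obtain ⟨σ, hσ⟩ := factor_cover hπ hker (L - aR ∘ₗ F) (by
    intro w
    rw [LinearMap.sub_apply, LinearMap.comp_apply, hF, sub_eq_zero]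
    exact (hf w).symm)
  obtain ⟨τ, hτ⟩ := QM_factor t J M σ (fun m hm => W1_killed t J (WW_map _ hm))
  refine ⟨τ.extendScalarsOfSurjective Ideal.Quotient.mk_surjective, ?_⟩
  ext z
  obtain ⟨m, rfl⟩ := mkQM_surj t J M z
  obtain ⟨v, rfl⟩ := hπ m
  change b (τ (mkQM t J M (π v))) = mkQM t J M (π v)
  rw [hτ, hσ, LinearMap.sub_apply, map_sub]
  have h1 : b (L v) = mkQM t J M (π v) := hL v
  have h2 : b ((aR ∘ₗ F) v) = 0 := by
    have : (aR ∘ₗ F) v ∈ LinearMap.ker b := by
      rw [← hab]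
      exact ⟨F v, rfl⟩
    exact this
  rw [h1, h2, sub_zero]

theorem QM_length (hJ : ∀ l, l ∈ J ∨ ∃ a, j a = l) :
    Module.length (QR t J) (QM t J M ⧸ Ideal.span (Set.range fun a =>
      Ideal.Quotient.mk (W1 t J R : Ideal R) (t (j a))) • (⊤ : Submodule (QR t J) (QM t J M))) ≤
      Module.length R (M ⧸ Ideal.span (Set.range t) • (⊤ : Submodule R M)) := by
  set 𝔟 : Ideal (QR t J) := Ideal.span (Set.range fun a =>
      Ideal.Quotient.mk (W1 t J R : Ideal R) (t (j a))) with h𝔟
  have h0 : Module.length (QR t J) (QM t J M ⧸ 𝔟 • (⊤ : Submodule (QR t J) (QM t J M))) =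
      Module.length R (QM t J M ⧸ 𝔟 • (⊤ : Submodule (QR t J) (QM t J M))) := by
    first
    | exact Module.length_eq_of_surjective (S := R) (R := QR t J) Ideal.Quotient.mk_surjective
    | exact (Module.length_eq_of_surjective (S := R) (R := QR t J) Ideal.Quotient.mk_surjective).symm
  rw [h0]
  let q : M →ₗ[R] (QM t J M ⧸ 𝔟 • (⊤ : Submodule (QR t J) (QM t J M))) :=
    (𝔟 • (⊤ : Submodule (QR t J) (QM t J M))).mkQ.restrictScalars R ∘ₗ mkQM t J M
  have hq : Function.Surjective q := (Submodule.mkQ_surjective _).comp (mkQM_surj t J M)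
  have hk : Ideal.span (Set.range t) • (⊤ : Submodule R M) ≤ LinearMap.ker q := by
    rw [Submodule.smul_le]
    intro r hr m _
    rw [LinearMap.mem_ker]
    change (Submodule.Quotient.mk (mkQM t J M (r • m)) : _ ⧸ 𝔟 • (⊤ : Submodule (QR t J) (QM t J M))) = 0
    rw [Submodule.Quotient.mk_eq_zero, map_smul, ← mk_smul_QM]
    refine Submodule.smul_mem_smul ?_ Submodule.mem_top
    have h1 : Ideal.span (Set.range t) ≤ 𝔟.comap (Ideal.Quotient.mk (W1 t J R : Ideal R)) := by
      rw [Ideal.span_le]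
      rintro _ ⟨l, rfl⟩
      rw [SetLike.mem_coe, Ideal.mem_comap]
      rcases hJ l with hl | ⟨a, rfl⟩
      · have h2 : Ideal.Quotient.mk (W1 t J R : Ideal R) (t l) = 0 := by
          rw [Ideal.Quotient.eq_zero_iff_mem]
          have := WW_single (x := t) (c := fun _ => 1) (X := R) hl 1
          simpa using this
        rw [h2]
        exact Ideal.zero_mem _
      · exact Ideal.subset_span ⟨a, rfl⟩
    exact h1 hr
  refine Module.length_le_of_surjective ((Ideal.span (Set.range t) • (⊤ : Submodule R M)).liftQ q hk) ?_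
  intro z
  obtain ⟨m, rfl⟩ := hq z
  exact ⟨Submodule.Quotient.mk m, rfl⟩

end

end Pool.Agent.TH282.RE
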