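import Pool.Agent.TH282.RE.Cut2

/-!
# Lifting isomorphisms from the quotient by parameters
-/

set_option autoImplicit false
set_option linter.unusedSectionVars false

namespace Pool.Agent.TH282.RE

open IsLocalRing Pool.Agent.TH282.RG

section

variable {R : Type*} [CommRing R] {ι : Type*} [DecidableEq ι] [Fintype ι] {t : ι → R}

theorem factor_facts {N : Type*} [AddCommGroup N] [Module R N] (J : Finset ι) {j : ι} (hj : j ∉ J) :
    ∃ q : (N ⧸ W1 t J N) →ₗ[R] (N ⧸ W1 t (insert j J) N),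
      (∀ m : N, q ((W1 t J N).mkQ m) = (W1 t (insert j J) N).mkQ m) ∧ Function.Surjective q ∧
      (∀ z, q z = 0 → ∃ w, t j • w = z) ∧ ∀ w, q (t j • w) = 0 := by
  have hle : W1 t J N ≤ W1 t (insert j J) N := W1_mono (Finset.subset_insert j J)
  refine ⟨Submodule.factor hle, fun m => rfl, Submodule.factor_surjective hle, ?_, ?_⟩
  · intro z hz
    obtain ⟨m, rfl⟩ := Submodule.mkQ_surjective _ z
    change (W1 t (insert j J) N).mkQ m = 0 at hz
    rw [Submodule.mkQ_apply, Submodule.Quotient.mk_eq_zero, W1_insert hj] at hz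
    obtain ⟨u, hu⟩ := hz
    refine ⟨(W1 t J N).mkQ u, ?_⟩
    rw [← Submodule.Quotient.mk_eq_zero, ← Submodule.mkQ_apply, map_sub, sub_eq_zero, map_smul] at hu
    exact hu.symm
  · intro w
    obtain ⟨m, rfl⟩ := Submodule.mkQ_surjective _ w
    rw [← map_smul]
    change (W1 t (insert j J) N).mkQ (t j • m) = 0
    rw [Submodule.mkQ_apply, Submodule.Quotient.mk_eq_zero, W1_insert hj]
    exact ⟨m, by rw [sub_self]; exact Submodule.zero_mem _⟩

variable {p p₁ : ℕ} {i₁ : (Fin p₁ → R) →ₗ[R] (Fin p → R)} {M : Type*} [AddCommGroup M] [Module R M]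
  {π : (Fin p → R) →ₗ[R] M} {N : Type*} [AddCommGroup N] [Module R N]

theorem EE_descend [IsLocalRing R] [IsNoetherianRing R] [Module.Finite R N] {J : Finset ι} {j : ι}
    (htm : t j ∈ maximalIdeal R) (hj : j ∉ J) (hN : Reg t N)
    (h : EE i₁ (N ⧸ W1 t (insert j J) N)) : EE i₁ (N ⧸ W1 t J N) := by
  obtain ⟨q, hq, hqs, hqk, hqt⟩ := factor_facts (t := t) (N := N) J hj
  let X := N ⧸ W1 t J N
  let Z : Submodule R ((Fin p₁ → R) →ₗ[R] X) :=
    { carrier := {f | ∀ v ∈ LinearMap.ker i₁, f v = 0}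
      add_mem' := fun {a b} ha hb v hv => by rw [LinearMap.add_apply, ha v hv, hb v hv, add_zero]
      zero_mem' := fun v hv => rfl
      smul_mem' := fun r a ha v hv => by rw [LinearMap.smul_apply, ha v hv, smul_zero] }
  let B : Submodule R ((Fin p₁ → R) →ₗ[R] X) :=
    { carrier := {f | ∃ F : (Fin p → R) →ₗ[R] X, ∀ v, F (i₁ v) = f v}
      add_mem' := fun {a b} ha hb => by
        obtain ⟨F, hF⟩ := ha
        obtain ⟨G, hG⟩ := hb
        exact ⟨F + G, fun v => by rw [LinearMap.add_apply, LinearMap.add_apply, hF, hG]⟩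
      zero_mem' := ⟨0, fun v => rfl⟩
      smul_mem' := fun r a ha => by
        obtain ⟨F, hF⟩ := ha
        exact ⟨r • F, fun v => by rw [LinearMap.smul_apply, LinearMap.smul_apply, hF]⟩ }
  have h1 : Z ≤ B ⊔ maximalIdeal R • Z := by
    intro f hf
    obtain ⟨F', hF'⟩ := h (q ∘ₗ f) (by
      intro v hv
      rw [LinearMap.comp_apply, hf v hv, map_zero])
    obtain ⟨F, hF⟩ := lift_lin q F' (fun s => hqs _)
    obtain ⟨g, hg⟩ := lift_lin (LinearMap.lsmul R X (t j)) (f - F ∘ₗ i₁) (fun s => by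
      apply hqk
      rw [LinearMap.sub_apply, map_sub, LinearMap.comp_apply, hF, hF', LinearMap.comp_apply, sub_self])
    have hgZ : g ∈ Z := by
      intro v hv
      apply hN.quot hj
      have h2 := hg v
      rw [LinearMap.lsmul_apply, LinearMap.sub_apply, hf v hv, LinearMap.comp_apply,
        LinearMap.mem_ker.mp hv, map_zero, sub_zero] at h2
      exact h2
    have h3 : f = F ∘ₗ i₁ + t j • g := by
      ext1 s
      ext1
      rw [LinearMap.comp_apply, LinearMap.comp_apply, LinearMap.add_apply, LinearMap.smul_apply]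
      have h2 := hg (LinearMap.single R (fun _ => R) s 1)
      rw [LinearMap.lsmul_apply, LinearMap.sub_apply] at h2
      rw [h2]
      abel
    rw [h3]
    exact Submodule.add_mem_sup ⟨F, fun v => rfl⟩ (Submodule.smul_mem_smul htm hgZ)
  have h2 : Z ≤ B := by
    have hX : Module.Finite R X := inferInstance
    have hH : Module.Finite R ((Fin p₁ → R) →ₗ[R] X) := inferInstance
    exact Submodule.le_of_le_smul_of_le_jacobson_bot (IsNoetherian.noetherian _)
      (IsLocalRing.maximalIdeal_le_jacobson _) h1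
  intro f hf
  exact h2 hf

theorem lift_step (hπ : Function.Surjective π) (hz : ∀ w, π (i₁ w) = 0)
    (hker : ∀ v, π v = 0 → ∃ w, i₁ w = v) {J : Finset ι} {j : ι} (hj : j ∉ J) (hN : Reg t N)
    (hE : EE i₁ (N ⧸ W1 t J N)) (q : (N ⧸ W1 t J N) →ₗ[R] (N ⧸ W1 t (insert j J) N))
    (hqs : Function.Surjective q) (hqk : ∀ z, q z = 0 → ∃ w, t j • w = z)
    (hqt : ∀ w, q (t j • w) = 0) (φ : M →ₗ[R] (N ⧸ W1 t (insert j J) N)) :
    ∃ ψ : M →ₗ[R] (N ⧸ W1 t J N), ∀ m, q (ψ m) = φ m := by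
  obtain ⟨Φ, hΦ⟩ := lift_lin q (φ ∘ₗ π) (fun s => hqs _)
  obtain ⟨f, hf⟩ := lift_lin (LinearMap.lsmul R (N ⧸ W1 t J N) (t j)) (Φ ∘ₗ i₁) (fun s => by
    apply hqk
    rw [LinearMap.comp_apply, hΦ, LinearMap.comp_apply, hz, map_zero])
  obtain ⟨F, hF⟩ := hE f (by
    intro v hv
    apply hN.quot hj
    have h1 := hf v
    rw [LinearMap.lsmul_apply, LinearMap.comp_apply, LinearMap.mem_ker.mp hv, map_zero] at h1
    exact h1)
  obtain ⟨ψ, hψ⟩ := factor_cover hπ hker (Φ - t j • F) (by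
    intro w
    rw [LinearMap.sub_apply, LinearMap.smul_apply, hF]
    have h1 := hf w
    rw [LinearMap.lsmul_apply, LinearMap.comp_apply] at h1
    rw [h1, sub_self])
  refine ⟨ψ, fun m => ?_⟩
  obtain ⟨v, rfl⟩ := hπ m
  rw [hψ, LinearMap.sub_apply, map_sub, hΦ, LinearMap.smul_apply, hqt, sub_zero,
    LinearMap.comp_apply]

theorem lift_all [IsLocalRing R] [IsNoetherianRing R] [Module.Finite R N]
    (hπ : Function.Surjective π) (hz : ∀ w, π (i₁ w) = 0)
    (hker : ∀ v, π v = 0 → ∃ w, i₁ w = v) (hN : Reg t N) (J : Finset ι)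
    (htm : ∀ l, t l ∈ maximalIdeal R) :
    EE i₁ (N ⧸ W1 t J N) → ∀ φ : M →ₗ[R] (N ⧸ W1 t J N),
      ∃ Ψ : M →ₗ[R] N, ∀ m, (W1 t J N).mkQ (Ψ m) = φ m := by
  induction J using Finset.induction_on with
  | empty =>
    intro _ φ
    have h0 : W1 t ∅ N = ⊥ := by
      ext v
      rw [W1, WW_empty, Submodule.mem_bot]
    refine ⟨((W1 t ∅ N).quotEquivOfEqBot h0).toLinearMap ∘ₗ φ, fun m => ?_⟩
    obtain ⟨v, hv⟩ := Submodule.mkQ_surjective _ (φ m)
    rw [LinearMap.comp_apply, ← hv]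
    rfl
  | insert j J hj ih =>
    intro hE φ
    obtain ⟨q, hq, hqs, hqk, hqt⟩ := factor_facts (t := t) (N := N) J hj
    have hE' : EE i₁ (N ⧸ W1 t J N) := EE_descend (htm j) hj hN hE
    obtain ⟨ψ, hψ⟩ := lift_step hπ hz hker hj hN hE' q hqs hqk hqt φ
    obtain ⟨Ψ, hΨ⟩ := ih hE' ψ
    refine ⟨Ψ, fun m => ?_⟩
    rw [← hq, hΨ, hψ]

theorem surj_lift [IsLocalRing R] [IsNoetherianRing R] [Module.Finite R N]
    (hπ : Function.Surjective π) (hz : ∀ w, π (i₁ w) = 0)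
    (hker : ∀ v, π v = 0 → ∃ w, i₁ w = v) (hN : Reg t N) (J : Finset ι)
    (htm : ∀ l, t l ∈ maximalIdeal R) (hE : EE i₁ (N ⧸ W1 t J N))
    (φ : M →ₗ[R] (N ⧸ W1 t J N)) (hφ : Function.Surjective φ) :
    ∃ Ψ : M →ₗ[R] N, Function.Surjective Ψ := by
  obtain ⟨Ψ, hΨ⟩ := lift_all hπ hz hker hN J htm hE φ
  refine ⟨Ψ, ?_⟩
  rw [← LinearMap.range_eq_top, eq_top_iff]
  apply Submodule.le_of_le_smul_of_le_jacobson_bot (IsNoetherian.noetherian _)
    (IsLocalRing.maximalIdeal_le_jacobson _)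
  intro v _
  obtain ⟨m, hm⟩ := hφ ((W1 t J N).mkQ v)
  have h1 : v - Ψ m ∈ W1 t J N := by
    rw [← Submodule.Quotient.mk_eq_zero, ← Submodule.mkQ_apply, map_sub, hΨ, hm, sub_self]
  have h2 : W1 t J N ≤ maximalIdeal R • (⊤ : Submodule R N) := by
    rintro _ ⟨w, rfl⟩
    refine Submodule.sum_mem _ fun l hl => ?_
    rw [pow_one]
    exact Submodule.smul_mem_smul (htm l) Submodule.mem_top
  have h3 : v = Ψ m + (v - Ψ m) := by abel
  rw [h3]
  exact Submodule.add_mem_sup ⟨m, rfl⟩ (h2 h1)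

theorem EE.of_equiv {X Y : Type*} [AddCommGroup X] [Module R X] [AddCommGroup Y] [Module R Y]
    (e : X ≃ₗ[R] Y) (h : EE i₁ X) : EE i₁ Y := by
  intro f hf
  obtain ⟨F, hF⟩ := h (e.symm.toLinearMap ∘ₗ f) (by
    intro v hv
    rw [LinearMap.comp_apply, hf v hv, map_zero])
  refine ⟨e.toLinearMap ∘ₗ F, fun v => ?_⟩
  rw [LinearMap.comp_apply, hF]
  simp

theorem equiv_of_surj [IsDomain R] {I₁ I₂ : Ideal R} (h₂ : I₂ ≠ ⊥) (Ψ : I₁ →ₗ[R] I₂)
    (hΨ : Function.Surjective Ψ) : Nonempty (I₁ ≃ₗ[R] I₂) := by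
  refine ⟨LinearEquiv.ofBijective Ψ ⟨?_, hΨ⟩⟩
  rw [injective_iff_map_eq_zero]
  intro m hm
  by_contra hne
  obtain ⟨w, hwI, hw⟩ := Submodule.exists_mem_ne_zero_of_ne_bot h₂
  obtain ⟨m', hm'⟩ := hΨ ⟨w, hwI⟩
  apply hw
  have h1 : (m : R) • Ψ m' = (m' : R) • Ψ m := by
    rw [← map_smul, ← map_smul]
    congr 1
    ext
    simp [mul_comm]
  rw [hm, smul_zero, hm'] at h1
  have h2 : (m : R) * w = 0 := congrArg (fun z : I₂ => (z : R)) h1
  rcases mul_eq_zero.mp h2 with h3 | h3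
  · exact absurd (Subtype.ext h3) hne
  · exact h3

end

end Pool.Agent.TH282.RE
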