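import Pool.Agent.TH282.RE.ND

/-!
# Unramified points in characteristic zero and the Noether different
-/

set_option autoImplicit false
set_option linter.unusedSectionVars false

namespace Pool.Agent.TH282.RE

open TensorProduct

universe u v

section

variable {A : Type v} {R : Type u} [CommRing A] [CommRing R] [Algebra A R]

theorem mu_left (r : R) : (Algebra.TensorProduct.lmul' A : R ⊗[A] R →ₐ[A] R) (r ⊗ₜ[A] 1) = r := by
  rw [Algebra.TensorProduct.lmul'_apply_tmul, mul_one]

theorem mu_right (r : R) : (Algebra.TensorProduct.lmul' A : R ⊗[A] R →ₐ[A] R) (1 ⊗ₜ[A] r) = r := by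
  rw [Algebra.TensorProduct.lmul'_apply_tmul, one_mul]

theorem dl_mem (r : R) : dl A r ∈ dI A R := Ideal.subset_span ⟨r, rfl⟩

theorem dl_ext (P : Ideal R) {z : R}
    (hz : z ∈ Ideal.map (algebraMap A R) (P.comap (algebraMap A R))) :
    dl A z ∈ P.comap (Algebra.TensorProduct.lmul' A : R ⊗[A] R →ₐ[A] R) * dI A R := by
  rw [Ideal.map] at hz
  induction hz using Submodule.span_induction with
  | mem z hz =>
    obtain ⟨a, -, rfl⟩ := hz
    rw [dl_algebraMap]
    exact Ideal.zero_mem _
  | zero =>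
    have : dl A (0 : R) = 0 := by
      have := dl_algebraMap (A := A) (R := R) 0
      rwa [map_zero] at this
    rw [this]
    exact Ideal.zero_mem _
  | add a b _ _ ha hb =>
    rw [dl_add]
    exact Ideal.add_mem _ ha hb
  | smul c a ha' ha =>
    rw [smul_eq_mul, dl_mul]
    refine Ideal.add_mem _ (Ideal.mul_mem_left _ _ ha) ?_
    apply Ideal.mul_mem_mul _ (dl_mem c)
    rw [Ideal.mem_comap, mu_right]
    have h1 : Ideal.map (algebraMap A R) (P.comap (algebraMap A R)) ≤ P := Ideal.map_comap_le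
    exact h1 ha'

theorem dl_prime (P : Ideal R) [P.IsPrime]
    (hP : ∀ p ∈ P, ∃ s, s ∉ P ∧ s * p ∈ Ideal.map (algebraMap A R) (P.comap (algebraMap A R)))
    {p : R} (hp : p ∈ P) : ∃ s : R ⊗[A] R, (Algebra.TensorProduct.lmul' A : R ⊗[A] R →ₐ[A] R) s ∉ P ∧ s * dl A p ∈ P.comap (Algebra.TensorProduct.lmul' A : R ⊗[A] R →ₐ[A] R) * dI A R := by
  obtain ⟨s, hs, hsp⟩ := hP p hp
  refine ⟨s ⊗ₜ 1, by rwa [mu_left], ?_⟩
  have h1 : (s ⊗ₜ[A] 1) * dl A p = dl A (s * p) - (1 ⊗ₜ[A] p) * dl A s := by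
    rw [dl_mul]
    ring
  rw [h1]
  refine Ideal.sub_mem _ (dl_ext P hsp) (Ideal.mul_mem_mul ?_ (dl_mem s))
  rw [Ideal.mem_comap, mu_right]
  exact hp

theorem dl_poly (x : R) (F : Polynomial A) : ∃ G : R ⊗[A] R,
    dl A (Polynomial.aeval x F) = G * dl A x ∧ (Algebra.TensorProduct.lmul' A : R ⊗[A] R →ₐ[A] R) G = Polynomial.aeval x F.derivative := by
  induction F using Polynomial.induction_on' with
  | add F F' hF hF' =>
    obtain ⟨G, hG, hG'⟩ := hF
    obtain ⟨H, hH, hH'⟩ := hF'
    refine ⟨G + H, ?_, ?_⟩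
    · rw [map_add, dl_add, hG, hH, add_mul]
    · rw [map_add, hG', hH', Polynomial.derivative_add, map_add]
  | monomial n a =>
    induction n with
    | zero =>
      refine ⟨0, ?_, ?_⟩
      · rw [Polynomial.monomial_zero_left, Polynomial.aeval_C, dl_algebraMap, zero_mul]
      · rw [Polynomial.monomial_zero_left, Polynomial.derivative_C, map_zero, map_zero]
    | succ n ih =>
      obtain ⟨G, hG, hG'⟩ := ih
      have h1 : Polynomial.monomial (n + 1) a = Polynomial.X * Polynomial.monomial n a :=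
        (Polynomial.X_mul_monomial n a).symm
      refine ⟨(x ⊗ₜ 1) * G + 1 ⊗ₜ (Polynomial.aeval x (Polynomial.monomial n a)), ?_, ?_⟩
      · rw [h1, map_mul, Polynomial.aeval_X, dl_mul, hG]
        ring
      · rw [map_add, map_mul, mu_left, mu_right, hG', h1, Polynomial.derivative_mul,
          Polynomial.derivative_X, one_mul, map_add, map_mul, Polynomial.aeval_X]
        ring

theorem exists_sep [Algebra ℚ R] [Algebra.IsIntegral A R] (P : Ideal R) [hPp : P.IsPrime] (x : R) :
    ∃ F : Polynomial A, Polynomial.aeval x F ∈ P ∧ Polynomial.aeval x F.derivative ∉ P := by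
  classical
  let Q : ℕ → Prop := fun n => ∃ F : Polynomial A, F.natDegree ≤ n ∧
    algebraMap A R (F.coeff n) ∉ P ∧ Polynomial.aeval x F ∈ P
  have hQ : ∃ n, Q n := by
    obtain ⟨F, hF, hFx⟩ := (Algebra.IsIntegral.isIntegral (R := A) x)
    refine ⟨F.natDegree, F, le_rfl, ?_, ?_⟩
    · rw [hF.coeff_natDegree, map_one]
      exact fun h => hPp.ne_top ((Ideal.eq_top_iff_one P).mpr h)
    · rw [Polynomial.aeval_def, hFx]
      exact P.zero_mem
  obtain ⟨F, hF1, hF2, hF3⟩ := Nat.find_spec hQ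
  refine ⟨F, hF3, fun hF4 => ?_⟩
  rcases Nat.eq_zero_or_pos (Nat.find hQ) with h0 | h0
  · rw [h0] at hF1 hF2
    rw [Polynomial.eq_C_of_natDegree_le_zero hF1, Polynomial.aeval_C] at hF3
    exact hF2 hF3
  · obtain ⟨m, hm⟩ := Nat.exists_eq_succ_of_ne_zero h0.ne'
    have hlt : m < Nat.find hQ := by omega
    apply Nat.find_min hQ hlt
    refine ⟨F.derivative, ?_, ?_, hF4⟩
    · exact (Polynomial.natDegree_derivative_le F).trans (by omega)
    · rw [Polynomial.coeff_derivative, map_mul]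
      intro h
      rcases hPp.mem_or_mem h with h | h
      · apply hF2
        rw [hm]
        exact h
      · have h5 : algebraMap A R ((m : A) + 1) = algebraMap ℚ R ((m : ℚ) + 1) := by
          rw [map_add, map_add, map_natCast, map_natCast, map_one, map_one]
        rw [h5] at h
        have h6 : IsUnit (algebraMap ℚ R ((m : ℚ) + 1)) :=
          (IsUnit.mk0 _ (by positivity)).map (algebraMap ℚ R)
        exact hPp.ne_top (Ideal.eq_top_of_isUnit_mem _ h h6)

/-- the Noether different is not contained in an unramified prime -/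
theorem exists_ann [IsNoetherianRing A] [Module.Finite A R] [Algebra ℚ R] (P : Ideal R)
    [hPp : P.IsPrime]
    (hP : ∀ p ∈ P, ∃ s, s ∉ P ∧ s * p ∈ Ideal.map (algebraMap A R) (P.comap (algebraMap A R))) :
    ∃ r : R, r ∉ P ∧ ∀ (M : Type u) [AddCommGroup M] [Module R M] [Module A M] [IsScalarTower A R M]
      [Module.Projective A M], ExtAnn R M r := by
  obtain ⟨ε, hε, hε'⟩ := exists_diff (A := A) P (by
    intro x
    obtain ⟨F, hF, hF'⟩ := exists_sep (A := A) P x
    obtain ⟨G, hG, hG'⟩ := dl_poly (A := A) x F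
    obtain ⟨s, hs, hs'⟩ := dl_prime (A := A) P hP hF
    refine ⟨s * G, ?_, ?_⟩
    · rw [map_mul, hG']
      exact fun h => (hPp.mem_or_mem h).elim hs hF'
    · rw [mul_assoc, ← hG]
      exact hs')
  exact ⟨_, hε, fun M _ _ _ _ _ => extAnn_of_diff ε hε' M⟩

end

end Pool.Agent.TH282.RE
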