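import Pool.Agent.TH282.RE.Sop
import Pool.Agent.TH282.RE.Depth

/-!
# Systems of parameters adapted to a regular point
-/

set_option autoImplicit false
set_option linter.unusedSectionVars false

namespace Pool.Agent.TH282.RE

open IsLocalRing

theorem coset_avoid {R : Type*} [CommRing R] (S : Finset (Ideal R)) (hp : ∀ Q ∈ S, Q.IsPrime)
    (hanti : ∀ Q ∈ S, ∀ Q' ∈ S, Q ≤ Q' → Q = Q') (b : Ideal R) (g : R) (hb : ∀ Q ∈ S, ¬ b ≤ Q) :
    ∃ z ∈ b, ∀ Q ∈ S, g + z ∉ Q := by
  classical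
  obtain ⟨S₁, hS₁⟩ : ∃ S₁ : Finset (Ideal R), ∀ Q, Q ∈ S₁ ↔ Q ∈ S ∧ g ∈ Q :=
    ⟨S.filter fun Q => g ∈ Q, fun Q => Finset.mem_filter⟩
  obtain ⟨S₂, hS₂⟩ : ∃ S₂ : Finset (Ideal R), ∀ Q, Q ∈ S₂ ↔ Q ∈ S ∧ g ∉ Q :=
    ⟨S.filter fun Q => g ∉ Q, fun Q => Finset.mem_filter⟩
  obtain ⟨c, hc⟩ : ∃ c : Ideal R, c = b * ∏ Q ∈ S₂, Q := ⟨_, rfl⟩
  have h1 : ∀ Q ∈ S₁, ¬ c ≤ Q := by
    intro Q hQ hcQ
    have hQ' := (hS₁ Q).mp hQ
    rw [hc] at hcQ
    rcases ((hp Q hQ'.1).mul_le.mp hcQ) with h | h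
    · exact hb Q hQ'.1 h
    · obtain ⟨Q', hQ'2, h⟩ := ((hp Q hQ'.1).prod_le).mp h
      have h3 := (hS₂ Q').mp hQ'2
      have h4 := hanti Q' h3.1 Q hQ'.1 h
      apply h3.2
      rw [h4]
      exact hQ'.2
  have h2 : ¬ ((c : Set R) ⊆ ⋃ Q ∈ (S₁ : Set (Ideal R)), ((fun Q : Ideal R => Q) Q : Set R)) := by
    intro h
    have h3 := (Ideal.subset_union_prime (s := S₁) (f := fun Q : Ideal R => Q) ⊤ ⊤
      (fun Q hQ _ _ => hp Q ((hS₁ Q).mp hQ).1)).mp h
    obtain ⟨Q, hQ, h⟩ := h3
    exact h1 Q hQ h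
  rw [Set.not_subset] at h2
  obtain ⟨z, hz, hz'⟩ := h2
  have hzb : z ∈ b := by
    rw [hc] at hz
    exact Ideal.mul_le_left hz
  refine ⟨z, hzb, ?_⟩
  intro Q hQ hgz
  by_cases hg : g ∈ Q
  · apply hz'
    rw [Set.mem_iUnion₂]
    refine ⟨Q, (hS₁ Q).mpr ⟨hQ, hg⟩, ?_⟩
    have : z = (g + z) - g := by ring
    rw [this]
    exact Q.sub_mem hgz hg
  · have h3 : z ∈ Q := by
      have h4 : c ≤ Q := by
        rw [hc]
        exact Ideal.mul_le_right.trans
          (Ideal.prod_le_inf.trans (Finset.inf_le ((hS₂ Q).mpr ⟨hQ, hg⟩)))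
      exact h4 hz
    apply hg
    have : g = (g + z) - z := by ring
    rw [this]
    exact Q.sub_mem hgz h3

section

variable {R : Type*} [CommRing R] [IsLocalRing R] [IsNoetherianRing R]

theorem exists_dim (Q : Ideal R) [Q.IsPrime] : ∃ n : ℕ, ringKrullDim (R ⧸ Q) = (n : WithBot ℕ∞) := by
  have : IsLocalRing (R ⧸ Q) := IsLocalRing.of_surjective' (Ideal.Quotient.mk Q) Ideal.Quotient.mk_surjective
  obtain ⟨s, -, -, h⟩ := exists_sop (R ⧸ Q)
  exact ⟨s.card, h⟩

theorem exists_seq (d : ℕ) (hd : ringKrullDim R = d) (g : ℕ → R) (b : ℕ → Ideal R)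
    (H : ∀ i < d, ∀ t : ℕ → R, (∀ j < i, t j - g j ∈ b j) →
      ∀ Q ∈ (Ideal.span (t '' (Finset.range i : Set ℕ))).minimalPrimes,
        ∀ n : ℕ, ringKrullDim (R ⧸ Q) = n → n + i = d → ¬ b i ≤ Q) :
    ∀ i ≤ d, ∃ t : ℕ → R, (∀ j < i, t j - g j ∈ b j) ∧
      ∀ Q : Ideal R, Q.IsPrime → (∀ j < i, t j ∈ Q) → ∀ n : ℕ, ringKrullDim (R ⧸ Q) = n → n + i ≤ d := by
  classical
  intro i
  induction i with
  | zero =>
    intro _
    refine ⟨fun _ => 0, fun j hj => absurd hj (by omega), ?_⟩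
    intro Q _ _ n hn
    have h1 : ringKrullDim (R ⧸ Q) ≤ ringKrullDim R := ringKrullDim_quotient_le Q
    rw [hn, hd] at h1
    have h2 : n ≤ d := by exact_mod_cast h1
    omega
  | succ i ih =>
    intro hi
    obtain ⟨t, ht1, ht2⟩ := ih (by omega)
    set I := Ideal.span (t '' (Finset.range i : Set ℕ)) with hI
    have hfin : I.minimalPrimes.Finite := Ideal.finite_minimalPrimes_of_isNoetherianRing R I
    let S : Finset (Ideal R) := hfin.toFinset.filter fun Q =>
      ∃ n : ℕ, ringKrullDim (R ⧸ Q) = n ∧ n + i = d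
    have hS : ∀ Q ∈ S, Q ∈ I.minimalPrimes := fun Q hQ =>
      hfin.mem_toFinset.mp (Finset.mem_filter.mp hQ).1
    obtain ⟨z, hz, hz'⟩ := coset_avoid S (fun Q hQ => (hS Q hQ).1.1)
      (fun Q hQ Q' hQ' h => le_antisymm h ((hS Q' hQ').2 (hS Q hQ).1 h)) (b i) (g i) (by
        intro Q hQ
        obtain ⟨n, hn, hn'⟩ := (Finset.mem_filter.mp hQ).2
        exact H i (by omega) t ht1 Q (hS Q hQ) n hn hn')
    refine ⟨Function.update t i (g i + z), ?_, ?_⟩
    · intro j hj
      by_cases hji : j = i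
      · subst hji
        rw [Function.update_self, add_sub_cancel_left]
        exact hz
      · rw [Function.update_of_ne hji]
        exact ht1 j (by omega)
    · intro Q hQ hQt n hn
      have hQt' : ∀ j < i, t j ∈ Q := by
        intro j hj
        have := hQt j (by omega)
        rwa [Function.update_of_ne (by omega)] at this
      have hQi : g i + z ∈ Q := by
        have := hQt i (by omega)
        rwa [Function.update_self] at this
      have hIQ : I ≤ Q := by
        rw [hI, Ideal.span_le]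
        rintro _ ⟨j, hj, rfl⟩
        exact hQt' j (Finset.mem_range.mp hj)
      obtain ⟨Q', hQ', hQQ'⟩ := Ideal.exists_minimalPrimes_le hIQ
      have hQ'p : Q'.IsPrime := hQ'.1.1
      obtain ⟨n', hn'⟩ := exists_dim Q'
      have h3 := ht2 Q' hQ'p (fun j hj => hQ'.1.2 (Ideal.subset_span
        ⟨j, Finset.mem_coe.mpr (Finset.mem_range.mpr hj), rfl⟩)) n' hn'
      by_cases h4 : n' + i = d
      · have h5 : Q' ∈ S := Finset.mem_filter.mpr ⟨hfin.mem_toFinset.mpr hQ', n', hn', h4⟩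
        have h6 := dim_lt Q' Q hQQ' hQi (hz' Q' h5)
        rw [hn, hn'] at h6
        have h7 : n + 1 ≤ n' := by exact_mod_cast h6
        omega
      · have h6 : ringKrullDim (R ⧸ Q) ≤ ringKrullDim (R ⧸ Q') :=
          ringKrullDim_le_of_surjective (Ideal.Quotient.factor hQQ') (Ideal.Quotient.factor_surjective hQQ')
        rw [hn, hn'] at h6
        have h7 : n ≤ n' := by exact_mod_cast h6
        omega

theorem loc_mem (P : Ideal R) [P.IsPrime] (I : Ideal R) (p : R)
    (h : algebraMap R (Localization.AtPrime P) p ∈ I.map (algebraMap R (Localization.AtPrime P))) :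
    ∃ s, s ∉ P ∧ s * p ∈ I := by
  rw [IsLocalization.mem_map_algebraMap_iff P.primeCompl] at h
  obtain ⟨⟨a, s⟩, h⟩ := h
  rw [← map_mul, IsLocalization.eq_iff_exists P.primeCompl] at h
  obtain ⟨c, hc⟩ := h
  refine ⟨c * s, (c * s).2, ?_⟩
  have h1 : (c : R) * s * p = c * a := by
    rw [← hc]
    ring
  rw [h1]
  exact I.mul_mem_left _ a.2

theorem exists_param (P : Ideal R) [P.IsPrime] (hreg : IsRegularLocalRing (Localization.AtPrime P))
    (d : ℕ) (hd : ringKrullDim R = d) :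
    ∃ x : Fin d → R, (∀ l, x l ∈ maximalIdeal R) ∧
      (∃ T, maximalIdeal R ^ T ≤ Ideal.span (Set.range x)) ∧
      ∀ p ∈ P, ∃ s, s ∉ P ∧ s * p ∈ Ideal.span {y | (∃ l, x l = y) ∧ y ∈ P} := by
  classical
  have hPp : P.IsPrime := inferInstance
  have hPm : P ≤ maximalIdeal R := le_maximalIdeal hPp.ne_top
  obtain ⟨T, hTcard, hTspan⟩ := Submodule.FG.exists_span_finset_card_eq_spanFinrank
    (IsNoetherian.noetherian (maximalIdeal (Localization.AtPrime P)))
  have hht : ((T.card : ℕ) : WithBot ℕ∞) = P.height := by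
    rw [hTcard, hreg.spanFinrank_maximalIdeal, IsLocalization.AtPrime.ringKrullDim_eq_height P]
  have hht' : ((T.card : ℕ) : ℕ∞) = P.height := by exact_mod_cast hht
  have hcd : T.card ≤ d := by
    have h1 : (P.height : WithBot ℕ∞) ≤ ringKrullDim R := Ideal.height_le_ringKrullDim_of_ne_top hPp.ne_top
    rw [← hht, hd] at h1
    exact_mod_cast h1
  have hfrac : ∀ τ : T, ∃ a : R, a ∈ P ∧ ∃ u : Localization.AtPrime P,
      (τ : Localization.AtPrime P) = u * algebraMap R (Localization.AtPrime P) a := by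
    rintro ⟨τ, hτ⟩
    have hτ' : τ ∈ maximalIdeal (Localization.AtPrime P) := by
      rw [← hTspan]
      exact Submodule.subset_span hτ
    obtain ⟨a, s, rfl⟩ := IsLocalization.exists_mk'_eq P.primeCompl τ
    refine ⟨a, ?_, IsLocalization.mk' _ 1 s, ?_⟩
    · have h1 := Ideal.mul_mem_right (algebraMap R (Localization.AtPrime P) s) _ hτ'
      rw [IsLocalization.mk'_spec] at h1
      exact (IsLocalization.AtPrime.to_map_mem_maximal_iff (Localization.AtPrime P) P a).mp h1
    · rw [mul_comm, ← IsLocalization.mk'_eq_mul_mk'_one]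
  choose a haP u hu using hfrac
  let g : ℕ → R := fun i => if hi : i < T.card then a (T.equivFin.symm ⟨i, hi⟩) else 0
  let b : ℕ → Ideal R := fun i => if i < T.card then P ^ 2 else maximalIdeal R
  have hg1 : ∀ i (hi : i < T.card), g i = a (T.equivFin.symm ⟨i, hi⟩) := fun i hi => dif_pos hi
  have hg2 : ∀ i, ¬ i < T.card → g i = 0 := fun i hi => dif_neg hi
  have hb1 : ∀ i, i < T.card → b i = P ^ 2 := fun i hi => if_pos hi
  have hb2 : ∀ i, ¬ i < T.card → b i = maximalIdeal R := fun i hi => if_neg hi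
  have hP2 : P ^ 2 ≤ P := Ideal.pow_le_self two_ne_zero
  have htP : ∀ (t : ℕ → R) (j : ℕ), t j - g j ∈ b j → j < T.card → t j ∈ P := by
    intro t j h1 h2
    rw [hb1 j h2] at h1
    have h3 : t j = (t j - g j) + g j := by ring
    rw [h3]
    refine P.add_mem (hP2 h1) ?_
    rw [hg1 j h2]
    exact haP _
  have hdimm : ringKrullDim (R ⧸ maximalIdeal R) = 0 := by
    have : IsField (R ⧸ maximalIdeal R) :=
      (Ideal.Quotient.maximal_ideal_iff_isField_quotient _).mp (maximalIdeal.isMaximal R)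
    exact ringKrullDim_eq_zero_of_isField this
  obtain ⟨t, ht1, ht2⟩ := exists_seq d hd g b (by
    intro i hi t ht Q hQ n hn hni hbQ
    have hQp : Q.IsPrime := hQ.1.1
    by_cases hiT : i < T.card
    · rw [hb1 i hiT] at hbQ
      have hPQ : P ≤ Q := Ideal.IsPrime.le_of_pow_le hbQ
      have h1 : Ideal.span (t '' (Finset.range i : Set ℕ)) ≤ P := by
        rw [Ideal.span_le]
        rintro _ ⟨j, hj, rfl⟩
        have hj' : j < i := Finset.mem_range.mp hj
        exact htP t j (ht j hj') (by omega)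
      have h2 : Q = P := le_antisymm (hQ.2 ⟨hPp, h1⟩ hPQ) hPQ
      have h3 := Ideal.height_le_card_of_mem_minimalPrimes_span ((Finset.finite_toSet _).image t) hQ
      rw [h2, ← hht'] at h3
      have h4 : (t '' (Finset.range i : Set ℕ)).ncard ≤ i := by
        refine (Set.ncard_image_le (Finset.finite_toSet _)).trans ?_
        rw [Set.ncard_coe_finset, Finset.card_range]
      have h5 : T.card ≤ (t '' (Finset.range i : Set ℕ)).ncard := by exact_mod_cast h3
      omega
    · rw [hb2 i hiT] at hbQ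
      have h1 : maximalIdeal R = Q := (maximalIdeal.isMaximal R).eq_of_le hQp.ne_top hbQ
      rw [← h1, hdimm] at hn
      have h2 : n = 0 := by exact_mod_cast hn.symm
      omega) d le_rfl
  have htm : ∀ j < d, t j ∈ maximalIdeal R := by
    intro j hj
    by_cases hjT : j < T.card
    · exact hPm (htP t j (ht1 j hj) hjT)
    · have h1 := ht1 j hj
      rw [hb2 j hjT, hg2 j hjT, sub_zero] at h1
      exact h1
  refine ⟨fun l => t l, fun l => htm l l.2, ?_, ?_⟩
  · apply Ideal.exists_pow_le_of_le_radical_of_fg _ (IsNoetherian.noetherian _)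
    rw [Ideal.radical_eq_sInf]
    apply le_sInf
    rintro Q ⟨hQ, hQp⟩
    obtain ⟨n, hn⟩ := exists_dim Q
    have h1 := ht2 Q hQp (fun j hj => hQ (Ideal.subset_span ⟨⟨j, hj⟩, rfl⟩)) n hn
    have h2 : n = 0 := by omega
    subst h2
    intro y hy
    by_contra hyQ
    have h3 := dim_lt Q (maximalIdeal R) (le_maximalIdeal hQp.ne_top) hy hyQ
    rw [hn, hdimm] at h3
    have h4 : (0 : ℕ) + 1 ≤ 0 := by exact_mod_cast h3
    omega
  · intro p hp
    set I : Ideal R := Ideal.span {y | (∃ l : Fin d, t l = y) ∧ y ∈ P} with hI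
    apply loc_mem P I p
    have hmax : maximalIdeal (Localization.AtPrime P) = P.map (algebraMap R (Localization.AtPrime P)) :=
      (Localization.AtPrime.map_eq_maximalIdeal).symm
    have h1 : maximalIdeal (Localization.AtPrime P) ≤
        I.map (algebraMap R (Localization.AtPrime P)) ⊔
          maximalIdeal (Localization.AtPrime P) • maximalIdeal (Localization.AtPrime P) := by
      conv_lhs => rw [← hTspan]
      rw [Submodule.span_le]
      intro τ hτ
      have hτu : τ = u ⟨τ, hτ⟩ * algebraMap R (Localization.AtPrime P) (a ⟨τ, hτ⟩) := hu ⟨τ, hτ⟩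
      rw [SetLike.mem_coe, hτu]
      apply Ideal.mul_mem_left
      set j := T.equivFin ⟨τ, hτ⟩ with hj
      have h2 : a ⟨τ, hτ⟩ = g j := by
        rw [hg1 j j.2, hj]
        simp
      have h3 : g j = t j - (t j - g j) := by ring
      have h4 : t j - g j ∈ P ^ 2 := by
        have := ht1 j (by have := j.2; omega)
        rwa [hb1 j j.2] at this
      rw [h2, h3, map_sub]
      apply Ideal.sub_mem
      · apply Ideal.mem_sup_left
        apply Ideal.mem_map_of_mem
        apply Ideal.subset_span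
        exact ⟨⟨⟨j, by have := j.2; omega⟩, rfl⟩, htP t j (ht1 j (by have := j.2; omega)) j.2⟩
      · apply Ideal.mem_sup_right
        rw [smul_eq_mul, hmax, ← Ideal.map_mul, ← pow_two]
        exact Ideal.mem_map_of_mem _ h4
    have h5 : maximalIdeal (Localization.AtPrime P) ≤ I.map (algebraMap R (Localization.AtPrime P)) :=
      Submodule.le_of_le_smul_of_le_jacobson_bot (IsNoetherian.noetherian _)
        (IsLocalRing.maximalIdeal_le_jacobson _) h1
    apply h5
    rw [hmax]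
    exact Ideal.mem_map_of_mem _ hp

end

end Pool.Agent.TH282.RE
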