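import Pool.Agent.TH282.RE.Final1
import Pool.Agent.TH282.RE.ND2
import Pool.Agent.TH282.RE.Param

/-!
# Isolated singularities in characteristic zero: uniform annihilator of `Ext^1(M, -)`
-/

set_option autoImplicit false
set_option linter.unusedSectionVars false

namespace Pool.Agent.TH282.RE

open IsLocalRing Pool.Agent.TH282.RG

universe u v

section

variable {R : Type u} [CommRing R]

theorem ExtAnn.add {M : Type u} [AddCommGroup M] [Module R M] {r s : R} (hr : ExtAnn R M r)
    (hs : ExtAnn R M s) : ExtAnn R M (r + s) := by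
  intro E _ _ g hg
  obtain ⟨a, ha⟩ := hr E g hg
  obtain ⟨b, hb⟩ := hs E g hg
  exact ⟨a + b, by rw [LinearMap.comp_add, ha, hb, add_smul]⟩

theorem ExtAnn.mul {M : Type u} [AddCommGroup M] [Module R M] (c : R) {r : R} (hr : ExtAnn R M r) :
    ExtAnn R M (c * r) := by
  intro E _ _ g hg
  obtain ⟨a, ha⟩ := hr E g hg
  exact ⟨c • a, by rw [LinearMap.comp_smul, ha, mul_smul]⟩

theorem ExtAnn.zero {M : Type u} [AddCommGroup M] [Module R M] : ExtAnn R M 0 :=
  fun _ _ _ _ _ => ⟨0, by rw [LinearMap.comp_zero, zero_smul]⟩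

end

section

variable (k : Type v) [Field k] {R : Type u} [CommRing R] [Algebra k R] [IsLocalRing R]
  [IsNoetherianRing R] [Module.Finite k (ResidueField R)]

include k in
theorem point_ann [Algebra ℚ R] (hc : IsAdicComplete (maximalIdeal R) R) (d : ℕ)
    (hd : ringKrullDim R = d) (P : Ideal R) [P.IsPrime]
    (hreg : IsRegularLocalRing (Localization.AtPrime P)) :
    ∃ r : R, r ∉ P ∧ ∀ (M : Type u) [AddCommGroup M] [Module R M], Module.Finite R M →
      Dp (R := R) d M → ExtAnn R M r := by
  classical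
  obtain ⟨x, hxm, hx, hxP⟩ := exists_param P hreg d hd
  obtain ⟨φ, hφ⟩ := exists_eval (k := k) hc x hxm
  let _ : Algebra (MvPowerSeries (Fin d) k) R := φ.toRingHom.toAlgebra
  have hφ' : ∀ l, algebraMap (MvPowerSeries (Fin d) k) R (MvPowerSeries.X l) = x l := hφ
  have : IsScalarTower k (MvPowerSeries (Fin d) k) R := IsScalarTower.of_algebraMap_eq fun r =>
    (φ.commutes r).symm
  have h1 := finite_over hxm hx hφ' R
  obtain ⟨r, hrP, hr⟩ := exists_ann (A := MvPowerSeries (Fin d) k) P (by
    intro p hp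
    obtain ⟨s, hs, hsp⟩ := hxP p hp
    refine ⟨s, hs, ?_⟩
    refine (Ideal.span_le.mpr ?_) hsp
    rintro y ⟨⟨l, rfl⟩, hy⟩
    rw [SetLike.mem_coe, ← hφ']
    apply Ideal.mem_map_of_mem
    rw [Ideal.mem_comap, hφ']
    exact hy)
  refine ⟨r, hrP, ?_⟩
  intro M _ _ _ hD
  let _ : Module (MvPowerSeries (Fin d) k) M :=
    Module.compHom M (algebraMap (MvPowerSeries (Fin d) k) R)
  have : IsScalarTower (MvPowerSeries (Fin d) k) R M := IsScalarTower.of_algebraMap_smul fun r m => rfl
  let _ : Module k M := Module.compHom M (algebraMap k R)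
  have : IsScalarTower k R M := IsScalarTower.of_algebraMap_smul fun r m => rfl
  have : IsScalarTower k (MvPowerSeries (Fin d) k) M := by
    refine IsScalarTower.of_algebraMap_smul fun r m => ?_
    rw [← algebraMap_smul R (algebraMap k (MvPowerSeries (Fin d) k) r) m,
      ← IsScalarTower.algebraMap_apply k (MvPowerSeries (Fin d) k) R, algebraMap_smul]
  have h2 := finite_over hxm hx hφ' M
  have hR : Reg x M := reg_of_mcm hxm hx M (by rwa [Fintype.card_fin])
  obtain ⟨h3, -⟩ := free_of_reg (k := k) M (reg_X_of_reg hφ' hR)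
  exact hr M

include k in
/-- over an isolated singularity, a power of the maximal ideal annihilates `Ext^1(M, -)` for all
maximal Cohen-Macaulay modules `M` -/
theorem isol_ann [Algebra ℚ R] (hc : IsAdicComplete (maximalIdeal R) R) (d : ℕ)
    (hd : ringKrullDim R = d)
    (hreg : ∀ (P : Ideal R) [P.IsPrime], P ≠ maximalIdeal R →
      IsRegularLocalRing (Localization.AtPrime P)) :
    ∃ e : ℕ, ∀ (M : Type u) [AddCommGroup M] [Module R M], Module.Finite R M →
      Dp (R := R) d M → ∀ r ∈ maximalIdeal R ^ e, ExtAnn R M r := by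
  let c : Ideal R :=
    { carrier := {r | ∀ (M : Type u) [AddCommGroup M] [Module R M], Module.Finite R M →
        Dp (R := R) d M → ExtAnn R M r}
      add_mem' := fun {a b} ha hb M _ _ hM hD => (ha M hM hD).add (hb M hM hD)
      zero_mem' := fun M _ _ _ _ => ExtAnn.zero
      smul_mem' := fun a b hb M _ _ hM hD => (hb M hM hD).mul a }
  have h1 : ∃ e, maximalIdeal R ^ e ≤ c := by
    apply Ideal.exists_pow_le_of_le_radical_of_fg _ (IsNoetherian.noetherian _)
    rw [Ideal.radical_eq_sInf]
    apply le_sInf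
    rintro Q ⟨hQ, hQp⟩
    by_contra hQm
    have hne : Q ≠ maximalIdeal R := fun h => hQm h.ge
    obtain ⟨r, hrQ, hr⟩ := point_ann k hc d hd Q (hreg Q hne)
    exact hrQ (hQ hr)
  obtain ⟨e, he⟩ := h1
  exact ⟨e, fun M _ _ hM hD r hr => he hr M hM hD⟩

end

end Pool.Agent.TH282.RE
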