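import Pool.Agent.TH282.RE.Dom
import Pool.Agent.TH282.RE.Isol

/-!
# Cohen-Macaulay local rings regular in codimension one are domains; endomorphisms of ideals
-/

set_option autoImplicit false
set_option linter.unusedSectionVars false

namespace Pool.Agent.TH282.RE

open IsLocalRing

section

variable {S : Type*} [CommRing S] [IsLocalRing S] [IsNoetherianRing S]

theorem dvr_form (t : S) (ht : maximalIdeal S = Ideal.span {t}) (a : S) (ha : a ≠ 0) :
    ∃ n u, IsUnit u ∧ a = u * t ^ n := by
  classical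
  have h1 : ∃ n, a ∉ maximalIdeal S ^ n := by
    by_contra hcon
    push Not at hcon
    apply ha
    have h2 : a ∈ ⨅ n, maximalIdeal S ^ n := by
      rw [Ideal.mem_iInf]
      exact hcon
    rw [Ideal.iInf_pow_eq_bot_of_isLocalRing _ (maximalIdeal.isMaximal S).ne_top] at h2
    exact h2
  obtain ⟨n, hn, hmin⟩ : ∃ n, a ∉ maximalIdeal S ^ n ∧ ∀ m < n, a ∈ maximalIdeal S ^ m :=
    ⟨Nat.find h1, Nat.find_spec h1, fun m hm => not_not.mp (Nat.find_min h1 hm)⟩
  obtain ⟨m, rfl⟩ : ∃ m, n = m + 1 := by
    refine Nat.exists_eq_succ_of_ne_zero ?_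
    rintro rfl
    apply hn
    simp
  have h2 := hmin m (by omega)
  rw [ht, Ideal.span_singleton_pow, Ideal.mem_span_singleton'] at h2
  obtain ⟨u, hu⟩ := h2
  refine ⟨m, u, ?_, hu.symm⟩
  by_contra hnu
  apply hn
  have h3 : u ∈ maximalIdeal S := hnu
  rw [pow_succ, mul_comm, ← hu]
  apply Ideal.mul_mem_mul h3
  rw [ht]
  exact Ideal.pow_mem_pow (Ideal.mem_span_singleton_self t) m

theorem of_regular_le_one (hS : IsRegularLocalRing S) (hd : ringKrullDim S < 2) :
    ∃ t, maximalIdeal S = Ideal.span {t} ∧ (t = 0 ∨ ∀ n, t ^ n ≠ 0) := by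
  obtain ⟨T, hTcard, hTspan⟩ := Submodule.FG.exists_span_finset_card_eq_spanFinrank
    (IsNoetherian.noetherian (maximalIdeal S))
  have h1 : ((T.card : ℕ) : WithBot ℕ∞) = ringKrullDim S := by
    rw [hTcard, hS.spanFinrank_maximalIdeal]
  have h2 : T.card < 2 := by
    rw [← h1] at hd
    exact_mod_cast hd
  rcases Nat.lt_or_ge T.card 1 with h3 | h3
  · have h4 : T = ∅ := Finset.card_eq_zero.mp (by omega)
    refine ⟨0, ?_, Or.inl rfl⟩
    rw [← hTspan, h4, Ideal.span_singleton_zero, Finset.coe_empty, Submodule.span_empty]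
  · obtain ⟨t, ht⟩ := Finset.card_eq_one.mp (show T.card = 1 by omega)
    have h5 : maximalIdeal S = Ideal.span {t} := by
      rw [← hTspan, ht, Finset.coe_singleton]
    refine ⟨t, h5, Or.inr fun n hn => ?_⟩
    have h6 : ringKrullDim S ≤ 0 := by
      have : Ring.KrullDimLE 0 S := by
        rw [Ring.krullDimLE_zero_iff]
        intro Q hQ
        have h7 : t ∈ Q := hQ.mem_of_pow_mem n (by rw [hn]; exact Q.zero_mem)
        have h8 : maximalIdeal S ≤ Q := by
          rw [h5, Ideal.span_singleton_le_iff_mem]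
          exact h7
        rw [← (maximalIdeal.isMaximal S).eq_of_le hQ.ne_top h8]
        exact maximalIdeal.isMaximal S
      exact (Ring.krullDimLE_iff).mp this
    rw [← h1, show T.card = 1 by omega] at h6
    have h9 : 1 ≤ 0 := by exact_mod_cast h6
    omega

theorem regular_domain (hS : IsRegularLocalRing S) (hd : ringKrullDim S < 2) (a b : S)
    (hab : a * b = 0) : a = 0 ∨ b = 0 := by
  obtain ⟨t, ht, h⟩ := of_regular_le_one hS hd
  by_contra hcon
  push Not at hcon
  obtain ⟨n, u, hu, rfl⟩ := dvr_form t ht a hcon.1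
  obtain ⟨m, v, hv, rfl⟩ := dvr_form t ht b hcon.2
  have h1 : (u * v) * t ^ (n + m) = 0 := by
    rw [← hab]
    ring
  rw [(hu.mul hv).mul_right_eq_zero] at h1
  rcases h with h | h
  · subst h
    rcases Nat.eq_zero_or_pos (n + m) with h2 | h2
    · have h3 : n = 0 := by omega
      have h4 : m = 0 := by omega
      subst h3 h4
      simp at h1
    · rcases Nat.eq_zero_or_pos n with h3 | h3
      · have h4 : m ≠ 0 := by omega
        apply hcon.2
        rw [zero_pow h4, mul_zero]
      · apply hcon.1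
        rw [zero_pow (by omega), mul_zero]
  · exact h _ h1

theorem regular_normal (hS : IsRegularLocalRing S) (hd : ringKrullDim S < 2) (v w : S) (hw : w ≠ 0)
    (h : ∀ n, v ^ n * w ∈ Ideal.span {w ^ n}) : v ∈ Ideal.span {w} := by
  obtain ⟨t, ht, ht'⟩ := of_regular_le_one hS hd
  by_cases hv : v = 0
  · rw [hv]
    exact Ideal.zero_mem _
  obtain ⟨a, u, hu, rfl⟩ := dvr_form t ht w hw
  obtain ⟨b, u', hu', rfl⟩ := dvr_form t ht v hv
  rcases ht' with ht' | ht'
  · subst ht'
    have ha : a = 0 := by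
      by_contra ha
      apply hw
      rw [zero_pow ha, mul_zero]
    subst ha
    rw [pow_zero, mul_one, Ideal.span_singleton_eq_top.mpr hu]
    trivial
  · by_cases hab : a ≤ b
    · rw [Ideal.mem_span_singleton]
      obtain ⟨c, rfl⟩ := Nat.exists_eq_add_of_le hab
      rw [pow_add]
      obtain ⟨y, hy⟩ := hu.exists_left_inv
      refine ⟨y * u' * t ^ c, ?_⟩
      calc u' * (t ^ a * t ^ c) = (1 : S) * (u' * (t ^ a * t ^ c)) := by ring
        _ = (y * u) * (u' * (t ^ a * t ^ c)) := by rw [hy]
        _ = _ := by ring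
    · exfalso
      have h1 := h (a + 1)
      rw [Ideal.mem_span_singleton] at h1
      obtain ⟨x, hx⟩ := h1
      have h2 : (a + 1) * b + a < (a + 1) * a := by
        have h3 : b + 1 ≤ a := by omega
        have h4 : (a + 1) * (b + 1) ≤ (a + 1) * a := Nat.mul_le_mul_left _ h3
        nlinarith
      obtain ⟨c, hc⟩ := Nat.exists_eq_add_of_lt h2
      have h5 : t ^ ((a + 1) * b + a) * (u' ^ (a + 1) * u - t ^ (c + 1) * (u ^ (a + 1) * x)) = 0 := by
        have h6 : t ^ ((a + 1) * b + a) * t ^ (c + 1) = t ^ ((a + 1) * a) := by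
          rw [← pow_add, hc]
          ring_nf
        have h7 : t ^ ((a + 1) * b + a) * (t ^ (c + 1) * (u ^ (a + 1) * x)) =
            (u * t ^ a) ^ (a + 1) * x := by
          rw [← mul_assoc, h6]
          ring
        rw [mul_sub, h7, ← hx]
        ring
      have h8 : IsUnit (u' ^ (a + 1) * u - t ^ (c + 1) * (u ^ (a + 1) * x)) := by
        have h9 : t ^ (c + 1) * (u ^ (a + 1) * x) ∈ maximalIdeal S := by
          rw [ht, pow_succ]
          apply Ideal.mul_mem_right
          apply Ideal.mul_mem_left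
          exact Ideal.mem_span_singleton_self t
        by_contra h10
        have h11 : u' ^ (a + 1) * u ∈ maximalIdeal S := by
          have := (maximalIdeal S).add_mem (show _ ∈ maximalIdeal S from h10) h9
          rwa [sub_add_cancel] at this
        exact h11 ((hu'.pow _).mul hu)
      rw [h8.mul_left_eq_zero] at h5
      exact ht' _ h5

end

section

variable {R : Type*} [CommRing R] [IsLocalRing R] [IsNoetherianRing R]

theorem loc_dim (P : Ideal R) [P.IsPrime] (h : P.height < 2) :
    ringKrullDim (Localization.AtPrime P) < 2 := by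
  rw [IsLocalization.AtPrime.ringKrullDim_eq_height P]
  exact (WithBot.coe_lt_coe (a := P.height) (b := 2)).mpr h

/-- Cohen-Macaulay and regular in codimension one implies domain -/
theorem isDomain_of (d : ℕ) (hd : ringKrullDim R = d) (hD : Dp (R := R) d R)
    (hreg : ∀ (P : Ideal R) [P.IsPrime], P.height < 2 → IsRegularLocalRing (Localization.AtPrime P)) :
    IsDomain R := by
  have key : ∀ a b : R, a * b = 0 → a = 0 ∨ b = 0 := by
    intro a b₀ hab₀
    by_contra hcon
    push Not at hcon
    obtain ⟨ha, hb₀⟩ := hcon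
    let A : Ideal R := Submodule.annihilator (Ideal.span {a})
    let B : Ideal R := Submodule.annihilator A
    have hA : ∀ y, y ∈ A ↔ y * a = 0 := by
      intro y
      change y ∈ Submodule.annihilator (Ideal.span {a}) ↔ _
      rw [Ideal.span, Submodule.mem_annihilator_span_singleton]
      rfl
    have hB : ∀ y, y ∈ B ↔ ∀ x ∈ A, y * x = 0 := by
      intro y
      exact Submodule.mem_annihilator
    have haB : a ∈ B := by
      rw [hB]
      intro x hx
      rw [mul_comm]
      exact (hA x).mp hx
    obtain ⟨w₁, w₂, hw₁, hw₂, h1, h2⟩ := exists_two d hd hD (A ⊔ B) (by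
      intro P hP hht hle
      have h3 := regular_domain (hreg P hht) (loc_dim P hht)
      by_cases h4 : algebraMap R (Localization.AtPrime P) a = 0
      · rw [IsLocalization.map_eq_zero_iff P.primeCompl] at h4
        obtain ⟨s, hs⟩ := h4
        exact s.2 (hle (Ideal.mem_sup_left ((hA _).mpr hs)))
      · have h5 : ∀ x ∈ A, algebraMap R (Localization.AtPrime P) x = 0 := by
          intro x hx
          have h6 := (hA x).mp hx
          have h7 : algebraMap R (Localization.AtPrime P) x * algebraMap R (Localization.AtPrime P) a = 0 := by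
            rw [← map_mul, h6, map_zero]
          rcases h3 _ _ h7 with h | h
          · exact h
          · exact absurd h h4
        have h6 : ∃ s ∉ P, ∀ x ∈ A, s * x = 0 := by
          obtain ⟨T, hT⟩ := (IsNoetherian.noetherian A : A.FG)
          have h8 : ∀ x ∈ T, ∃ s : P.primeCompl, (s : R) * x = 0 := by
            intro x hx
            rw [← IsLocalization.map_eq_zero_iff P.primeCompl (Localization.AtPrime P)]
            exact h5 x (by rw [← hT]; exact Submodule.subset_span hx)
          choose! s hs using h8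
          refine ⟨∏ x ∈ T, (s x : R), ?_, ?_⟩
          · intro h9
            rw [Ideal.IsPrime.prod_mem_iff] at h9
            obtain ⟨x, hx, h9⟩ := h9
            exact (s x).2 h9
          · intro x hx
            rw [← hT] at hx
            induction hx using Submodule.span_induction with
            | mem x hx =>
              obtain ⟨c, hc⟩ := Finset.dvd_prod_of_mem (fun x => (s x : R)) hx
              rw [hc, mul_comm _ c, mul_assoc, hs x hx, mul_zero]
            | zero => rw [mul_zero]
            | add x y _ _ hx hy => rw [mul_add, hx, hy, add_zero]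
            | smul c x _ hx => rw [smul_eq_mul, mul_left_comm, hx, mul_zero]
        obtain ⟨s, hsP, hs⟩ := h6
        exact hsP (hle (Ideal.mem_sup_right ((hB s).mpr hs))))
    obtain ⟨a₁, ha₁, b₁, hb₁, rfl⟩ := Submodule.mem_sup.mp hw₁
    obtain ⟨a₂, ha₂, b₂, hb₂, rfl⟩ := Submodule.mem_sup.mp hw₂
    have hba : ∀ b ∈ B, ∀ a ∈ A, b * a = 0 := fun b hb a ha => (hB b).mp hb a ha
    obtain ⟨c, hc⟩ := h2 a₂ a₁ (by
      have e1 := hba _ hb₁ _ ha₂
      have e2 := hba _ hb₂ _ ha₁
      linear_combination e1 - e2)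
    have hcc : c * c = c := by
      have h3 : (a₁ + b₁) * ((a₁ + b₁) * (c * c - c)) = 0 := by
        have e1 := hba _ hb₁ _ ha₁
        have e2 : (a₁ + b₁) * c = a₁ := hc.symm
        have e3 : (a₁ + b₁) * ((a₁ + b₁) * (c * c - c)) =
          ((a₁ + b₁) * c) * ((a₁ + b₁) * c) - (a₁ + b₁) * ((a₁ + b₁) * c) := by ring
        rw [e3, e2]
        linear_combination -e1
      have h4 := h1 _ (h1 _ h3)
      exact sub_eq_zero.mp h4
    have hc01 : c = 0 ∨ c = 1 := by
      rcases IsLocalRing.isUnit_or_isUnit_one_sub_self c with h | h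
      · right
        exact h.mul_left_cancel (by rw [hcc, mul_one])
      · left
        have h3 : (1 - c) * c = 0 := by rw [sub_mul, one_mul, hcc, sub_self]
        exact (h.mul_right_eq_zero).mp h3
    rcases hc01 with rfl | rfl
    · rw [mul_zero] at hc
      subst hc
      apply hb₀
      apply h1
      rw [zero_add]
      exact hba _ hb₁ _ ((hA _).mpr (by rw [mul_comm]; exact hab₀))
    · rw [mul_one] at hc
      apply ha
      apply h1
      rw [← hc]
      exact (hA _).mp ha₁
  have : NoZeroDivisors R := ⟨fun {a b} h => key a b h⟩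
  exact NoZeroDivisors.to_isDomain R

/-- membership in a principal ideal may be checked in codimension one -/
theorem mem_span_of_height_one [IsDomain R] (d : ℕ) (hd : ringKrullDim R = d) (hD : Dp (R := R) d R)
    (v w : R) (hw : w ≠ 0) (h : ∀ (P : Ideal R), P.IsPrime → P.height < 2 → ∃ s, s ∉ P ∧ s * v ∈ Ideal.span {w}) :
    v ∈ Ideal.span {w} := by
  let b : Ideal R := Submodule.comap (LinearMap.toSpanSingleton R R v) (Ideal.span {w})
  have hb : ∀ y, y ∈ b ↔ y * v ∈ Ideal.span {w} := fun y => Iff.rfl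
  obtain ⟨w₁, w₂, hw₁, hw₂, h1, h2⟩ := exists_two d hd hD b (by
    intro P hP hht hle
    obtain ⟨s, hs, hsv⟩ := h P hP hht
    exact hs (hle ((hb s).mpr hsv)))
  rw [hb, Ideal.mem_span_singleton] at hw₁ hw₂
  obtain ⟨α, hα⟩ := hw₁
  obtain ⟨β, hβ⟩ := hw₂
  have h3 : w₁ * β = w₂ * α := by
    apply mul_left_cancel₀ hw
    calc w * (w₁ * β) = w₁ * (w * β) := by ring
      _ = w₂ * (w * α) := by rw [← hβ, ← hα]; ring
      _ = _ := by ring
  obtain ⟨γ, hγ⟩ := h2 _ _ h3
  rw [Ideal.mem_span_singleton]
  refine ⟨γ, ?_⟩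
  rw [← sub_eq_zero]
  apply h1
  rw [mul_sub, hα, hγ]
  ring

/-- endomorphisms of ideals are multiplications -/
theorem end_ideal [IsDomain R] (d : ℕ) (hd : ringKrullDim R = d) (hD : Dp (R := R) d R)
    (hreg : ∀ (P : Ideal R) [P.IsPrime], P.height < 2 → IsRegularLocalRing (Localization.AtPrime P))
    (I : Ideal R) (hI : I ≠ ⊥) (φ : I →ₗ[R] I) : ∃ r : R, ∀ m, φ m = r • m := by
  obtain ⟨w, hwI, hw⟩ := Submodule.exists_mem_ne_zero_of_ne_bot hI
  have hφ : ∀ m : I, w * (φ m : R) = (m : R) * (φ ⟨w, hwI⟩ : R) := by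
    intro m
    have h1 : w • m = (m : R) • (⟨w, hwI⟩ : I) := by
      ext
      simp [mul_comm]
    have h2 := congrArg (fun z : I => (φ z : R)) h1
    simp only [map_smul] at h2
    exact h2
  have hn : ∀ n : ℕ, ∀ m : I, (φ ⟨w, hwI⟩ : R) ^ n * (m : R) = w ^ n * ((φ ^ n) m : R) := by
    intro n
    induction n with
    | zero => intro m; simp
    | succ n ih =>
      intro m
      have h1 := ih (φ m)
      have h2 := hφ m
      have h3 : (φ ^ (n + 1)) m = (φ ^ n) (φ m) := by
        rw [pow_succ]
        rfl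
      rw [h3]
      calc (φ ⟨w, hwI⟩ : R) ^ (n + 1) * (m : R) = (φ ⟨w, hwI⟩ : R) ^ n * ((m : R) * (φ ⟨w, hwI⟩ : R)) := by
            ring
        _ = (φ ⟨w, hwI⟩ : R) ^ n * (w * (φ m : R)) := by rw [h2]
        _ = w * ((φ ⟨w, hwI⟩ : R) ^ n * (φ m : R)) := by ring
        _ = w * (w ^ n * ((φ ^ n) (φ m) : R)) := by rw [h1]
        _ = _ := by ring
  have h1 : (φ ⟨w, hwI⟩ : R) ∈ Ideal.span {w} := by
    apply mem_span_of_height_one d hd hD _ _ hw
    intro P hP hht
    apply loc_mem P (Ideal.span {w})
    rw [Ideal.map_span, Set.image_singleton]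
    apply regular_normal (hreg P hht) (loc_dim P hht)
    · intro h0
      rw [IsLocalization.map_eq_zero_iff P.primeCompl] at h0
      obtain ⟨s, hs⟩ := h0
      rcases mul_eq_zero.mp hs with h | h
      · exact s.2 (by rw [h]; exact P.zero_mem)
      · exact hw h
    · intro n
      rw [← map_pow, ← map_pow, ← map_mul, Ideal.mem_span_singleton]
      refine map_dvd _ ?_
      exact ⟨_, hn n ⟨w, hwI⟩⟩
  rw [Ideal.mem_span_singleton] at h1
  obtain ⟨r, hr⟩ := h1
  refine ⟨r, fun m => ?_⟩
  ext
  apply mul_left_cancel₀ hw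
  rw [hφ, hr]
  simp only [SetLike.val_smul, smul_eq_mul]
  ring

end

end Pool.Agent.TH282.RE
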