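import Pool.Agent.TH282.RE.Cut3
import Pool.Agent.TH282.RE.Dom2

/-!
# Finitely many maximal Cohen-Macaulay ideals up to isomorphism
-/

set_option autoImplicit false
set_option linter.unusedSectionVars false

namespace Pool.Agent.TH282.RE

open IsLocalRing Pool.Agent.TH282.RG

universe u v

theorem finite_reps {α β : Type*} (S : Set α) (hS : S.Finite) (Pr : β → Prop) (rel : β → α → Prop)
    (sim : β → β → Prop) (h1 : ∀ I, Pr I → ∃ q ∈ S, rel I q)
    (h2 : ∀ I₁ I₂ q, Pr I₁ → Pr I₂ → rel I₁ q → rel I₂ q → sim I₁ I₂) :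
    ∃ (n : ℕ) (J : Fin n → β), ∀ I, Pr I → ∃ j, sim I (J j) := by
  classical
  have h3 : ({q | q ∈ S ∧ ∃ I, Pr I ∧ rel I q} : Set α).Finite := hS.subset fun q hq => hq.1
  have h4 : ∀ q : {q // q ∈ h3.toFinset}, ∃ I, Pr I ∧ rel I q := fun q =>
    (h3.mem_toFinset.mp q.2).2
  choose rep hrep1 hrep2 using h4
  refine ⟨_, fun j => rep (h3.toFinset.equivFin.symm j), fun I hI => ?_⟩
  obtain ⟨q, hq, hIq⟩ := h1 I hI
  have h5 : q ∈ h3.toFinset := h3.mem_toFinset.mpr ⟨hq, I, hI, hIq⟩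
  refine ⟨h3.toFinset.equivFin ⟨q, h5⟩, ?_⟩
  apply h2 I _ q hI (hrep1 _) hIq
  rw [Equiv.symm_apply_apply]
  exact hrep2 ⟨q, h5⟩

section

variable {R : Type u} [CommRing R] [IsNoetherianRing R]

theorem exists_pres (M : Type*) [AddCommGroup M] [Module R M] [Module.Finite R M] :
    ∃ (p p₁ : ℕ) (i₁ : (Fin p₁ → R) →ₗ[R] (Fin p → R)) (π : (Fin p → R) →ₗ[R] M),
      Function.Surjective π ∧ (∀ w, π (i₁ w) = 0) ∧ ∀ v, π v = 0 → ∃ w, i₁ w = v := by
  obtain ⟨p, f, hf⟩ := Module.Finite.exists_fin' R M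
  obtain ⟨p₁, f₁, hf₁⟩ := Module.Finite.exists_fin' R (LinearMap.ker f)
  refine ⟨p, p₁, (LinearMap.ker f).subtype ∘ₗ f₁, f, hf, fun w => (f₁ w).2, fun v hv => ?_⟩
  obtain ⟨w, hw⟩ := hf₁ ⟨v, hv⟩
  exact ⟨w, congrArg Subtype.val hw⟩

variable {ι : Type*} [DecidableEq ι] [Fintype ι] {t : ι → R}

theorem HH_all {M : Type u} [AddCommGroup M] [Module R M] {p p₁ : ℕ}
    {i₁ : (Fin p₁ → R) →ₗ[R] (Fin p → R)} {π : (Fin p → R) →ₗ[R] M}
    (hπ : Function.Surjective π) (hz : ∀ w, π (i₁ w) = 0)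
    (hker : ∀ v, π v = 0 → ∃ w, i₁ w = v) (hR : Reg t R) (hM : Reg t M)
    {a b c : ι} (hab : a ≠ b) (hac : a ≠ c) (hbc : b ≠ c)
    (hfa : Fac (LinearMap.ker π) (t a) 1) (hfb : Fac (LinearMap.ker π) (t b) 1)
    (hfc : Fac (LinearMap.ker π) (t c) 1) (h0 : HH t M ∅) (J : Finset ι) :
    a ∉ J → b ∉ J → c ∉ J → HH t M J := by
  induction J using Finset.induction_on with
  | empty => exact fun _ _ _ => h0
  | insert j J hj ih =>
    intro ha hb hc
    have ha' := fun h => ha (Finset.mem_insert_of_mem h)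
    have hb' := fun h => hb (Finset.mem_insert_of_mem h)
    have hc' := fun h => hc (Finset.mem_insert_of_mem h)
    have h1 := ih ha' hb' hc'
    exact HH_insert hπ hz hker hM hj h1
      (EE_of_HH hπ hz hker hR hM hab hac hbc hfa hfb hfc ha' hb' hc' h1)

end

section

variable {R : Type u} [CommRing R] [IsLocalRing R] [IsNoetherianRing R]

theorem HH_ideal [IsDomain R] (d : ℕ) (hd : ringKrullDim R = d) (hD : Dp (R := R) d R)
    (hreg : ∀ (P : Ideal R) [P.IsPrime], P.height < 2 → IsRegularLocalRing (Localization.AtPrime P))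
    {ι : Type*} [DecidableEq ι] [Fintype ι] (t : ι → R)
    (I : Ideal R) (hI : I ≠ ⊥) : HH t I ∅ := by
  have h0 : W1 t ∅ I = ⊥ := by
    ext v
    rw [W1, WW_empty, Submodule.mem_bot]
  constructor
  · intro φ
    obtain ⟨r, hr⟩ := end_ideal d hd hD hreg I hI (((W1 t ∅ I).quotEquivOfEqBot h0).toLinearMap ∘ₗ φ)
    refine ⟨r, fun m => ?_⟩
    apply ((W1 t ∅ I).quotEquivOfEqBot h0).injective
    rw [map_smul]
    exact hr m
  · intro r hr
    rw [W1, WW_empty]
    obtain ⟨w, hwI, hw⟩ := Submodule.exists_mem_ne_zero_of_ne_bot hI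
    have h1 := hr ⟨w, hwI⟩
    rw [h0, Submodule.mem_bot] at h1
    have h2 : r * w = 0 := congrArg (fun z : I => (z : R)) h1
    rcases mul_eq_zero.mp h2 with h3 | h3
    · exact h3
    · exact absurd h3 hw

variable (k : Type v) [Field k] [Algebra k R] [Module.Finite k (ResidueField R)]

include k in
theorem cut_main [IsDomain R] (hc : IsAdicComplete (maximalIdeal R) R) (d : ℕ)
    (hd : ringKrullDim R = d) (hD : Dp (R := R) d R)
    (hreg : ∀ (P : Ideal R) [P.IsPrime], P.height < 2 → IsRegularLocalRing (Localization.AtPrime P))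
    (𝔠 : Ideal R) (h𝔠 : ∀ r ∈ 𝔠, ∀ (M : Type u) [AddCommGroup M] [Module R M], Module.Finite R M →
      Dp (R := R) d M → ExtAnn R M r)
    (hht : ∀ Q : Ideal R, Q.IsPrime → Q.height < 3 → ¬ 𝔠 ≤ Q) :
    ∃ (n : ℕ) (J : Fin n → Ideal R), ∀ I : Ideal R, I ≠ ⊥ ∧ Dp (R := R) d I →
      ∃ j : Fin n, Nonempty (I ≃ₗ[R] J j) := by
  classical
  by_cases h3 : 3 ≤ d
  · obtain ⟨x, hxm, hx, hxc⟩ := exists_sop_in d hd 𝔠 3 hht
    let J : Finset (Fin d) := Finset.univ.filter fun l => 3 ≤ (l : ℕ)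
    have hJmem : ∀ l, l ∈ J ↔ 3 ≤ (l : ℕ) := fun l => by simp [J]
    let j : Fin 3 → Fin d := Fin.castLE h3
    have hjinj : Function.Injective j := Fin.castLE_injective h3
    have hjJ : ∀ a, j a ∉ J := by
      intro a ha
      rw [hJmem] at ha
      have : ((j a : Fin d) : ℕ) = (a : ℕ) := rfl
      have := a.2
      omega
    have hJj : ∀ l, l ∈ J ∨ ∃ a, j a = l := by
      intro l
      by_cases hl : 3 ≤ (l : ℕ)
      · exact Or.inl ((hJmem l).mpr hl)
      · exact Or.inr ⟨⟨l, by omega⟩, Fin.ext rfl⟩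
    have hR : Reg x R := reg_of_mcm hxm hx R (by rwa [Fintype.card_fin])
    have hle : (W1 x J R : Ideal R) ≤ maximalIdeal R := by
      rintro _ ⟨w, rfl⟩
      refine Submodule.sum_mem _ fun l hl => ?_
      rw [pow_one]
      exact Ideal.mul_mem_right _ _ (hxm l)
    have hnt : Nontrivial (QR x J) := by
      rw [Ideal.Quotient.nontrivial_iff]
      intro htop
      rw [htop] at hle
      exact (maximalIdeal.isMaximal R).ne_top (top_le_iff.mp hle)
    have hloc : IsLocalRing (QR x J) :=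
      IsLocalRing.of_surjective' (Ideal.Quotient.mk (W1 x J R : Ideal R)) Ideal.Quotient.mk_surjective
    have hlh : IsLocalHom (Ideal.Quotient.mk (W1 x J R : Ideal R)) :=
      IsLocalHom.of_surjective _ Ideal.Quotient.mk_surjective
    have hmm : ∀ r : R, r ∈ maximalIdeal R →
        Ideal.Quotient.mk (W1 x J R : Ideal R) r ∈ maximalIdeal (QR x J) := fun r hr hu =>
      hr (hlh.map_nonunit r hu)
    have hmax : maximalIdeal (QR x J) ≤
        (maximalIdeal R).map (Ideal.Quotient.mk (W1 x J R : Ideal R)) := by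
      intro y hy
      obtain ⟨r, rfl⟩ := Ideal.Quotient.mk_surjective y
      apply Ideal.mem_map_of_mem
      intro hu
      exact hy (hu.map _)
    have hfin : Module.Finite k (ResidueField (QR x J)) := by
      let f : R →ₗ[k] ResidueField (QR x J) :=
        (Algebra.linearMap (QR x J) (ResidueField (QR x J))).restrictScalars k ∘ₗ
          (Ideal.Quotient.mkₐ k (W1 x J R : Ideal R)).toLinearMap
      have hf : Function.Surjective f := (residue_surjective).comp Ideal.Quotient.mk_surjective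
      have hk : (maximalIdeal R).restrictScalars k ≤ LinearMap.ker f := by
        intro r hr
        rw [LinearMap.mem_ker]
        exact (residue_eq_zero_iff _).mpr (hmm r hr)
      let F : ResidueField R →ₗ[k] ResidueField (QR x J) :=
        ((maximalIdeal R).restrictScalars k).liftQ f hk
      refine Module.Finite.of_surjective F ?_
      intro z
      obtain ⟨r, hr⟩ := hf z
      exact ⟨residue R r, hr⟩
    let x' : Fin 3 → QR x J := fun a => Ideal.Quotient.mk (W1 x J R : Ideal R) (x (j a))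
    have hx'm : ∀ a, x' a ∈ maximalIdeal (QR x J) := fun a => hmm _ (hxm _)
    have hx' : ∃ T, maximalIdeal (QR x J) ^ T ≤ Ideal.span (Set.range x') := by
      obtain ⟨T, hT⟩ := hx
      refine ⟨T, ?_⟩
      calc maximalIdeal (QR x J) ^ T
          ≤ ((maximalIdeal R).map (Ideal.Quotient.mk (W1 x J R : Ideal R))) ^ T :=
            Ideal.pow_right_mono hmax T
        _ = (maximalIdeal R ^ T).map (Ideal.Quotient.mk (W1 x J R : Ideal R)) := (Ideal.map_pow _ _ _).symm
        _ ≤ (Ideal.span (Set.range x)).map (Ideal.Quotient.mk (W1 x J R : Ideal R)) := Ideal.map_mono hT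
        _ ≤ _ := by
          rw [Ideal.map_span, Ideal.span_le]
          rintro _ ⟨_, ⟨l, rfl⟩, rfl⟩
          rcases hJj l with hl | ⟨a, rfl⟩
          · have h2 : Ideal.Quotient.mk (W1 x J R : Ideal R) (x l) = 0 := by
              rw [Ideal.Quotient.eq_zero_iff_mem]
              have := WW_single (x := x) (c := fun _ => 1) (X := R) hl 1
              simpa using this
            rw [SetLike.mem_coe, h2]
            exact Ideal.zero_mem _
          · exact Ideal.subset_span ⟨a, rfl⟩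
    obtain ⟨g, hg⟩ := exists_rank_bound k hc hxm hx
    obtain ⟨S, hS, hSm⟩ := main_mod k (R := QR x J) hx'm hx' 1 g
    have hIfacts : ∀ I : Ideal R, I ≠ ⊥ ∧ Dp (R := R) d I → Reg x I ∧
        ∀ (p p₁ : ℕ) (i₁ : (Fin p₁ → R) →ₗ[R] (Fin p → R)) (π : (Fin p → R) →ₗ[R] I),
        Function.Surjective π → (∀ w, π (i₁ w) = 0) → (∀ v, π v = 0 → ∃ w, i₁ w = v) →
          EE i₁ (I ⧸ W1 x J I) := by
      rintro I ⟨hI, hID⟩
      have hIR : Reg x I := reg_of_mcm hxm hx I (by rwa [Fintype.card_fin])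
      refine ⟨hIR, ?_⟩
      intro p p₁ i₁ π hπ hz hker
      have hfac : ∀ a : Fin 3, Fac (LinearMap.ker π) (x (j a)) 1 := by
        intro a
        apply fac_of_extAnn π hπ
        rw [pow_one]
        exact h𝔠 _ (hxc _ a.2) I inferInstance hID
      have hne : ∀ a b : Fin 3, a ≠ b → j a ≠ j b := fun a b hab h => hab (hjinj h)
      have hH := HH_all hπ hz hker hR hIR (hne 0 1 (by decide)) (hne 0 2 (by decide))
        (hne 1 2 (by decide)) (hfac 0) (hfac 1) (hfac 2) (HH_ideal d hd hD hreg x I hI) J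
        (hjJ 0) (hjJ 1) (hjJ 2)
      exact EE_of_HH hπ hz hker hR hIR (hne 0 1 (by decide)) (hne 0 2 (by decide))
        (hne 1 2 (by decide)) (hfac 0) (hfac 1) (hfac 2) (hjJ 0) (hjJ 1) (hjJ 2) hH
    refine finite_reps S hS _
      (fun (I : Ideal R) q => Nonempty (QM x J I ≃ₗ[QR x J] (Fin q.1 → QR x J) ⧸ q.2))
      (fun I₁ I₂ : Ideal R => Nonempty (I₁ ≃ₗ[R] I₂)) ?_ ?_
    · intro I hI
      obtain ⟨hIR, hEE⟩ := hIfacts I hI
      obtain ⟨p, p₁, i₁, π, hπ, hz, hker⟩ := exists_pres (R := R) I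
      apply hSm (QM x J I) inferInstance (QM_reg x J I j hjinj hjJ hIR)
      · refine (QM_length x J I j hJj).trans ((hg I hIR).trans ?_)
        have h5 : Module.finrank R I ≤ 1 := by
          refine (Submodule.finrank_le I).trans ?_
          rw [Module.finrank_self]
        exact_mod_cast (Nat.mul_le_mul_left g h5).trans (mul_one g).le
      · intro a
        rw [pow_one]
        exact QM_extAnn x J I (h𝔠 _ (hxc _ a.2) I inferInstance hI.2)
      · exact QM_rigid x J I hπ hz hker (hEE p p₁ i₁ π hπ hz hker)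
    · rintro I₁ I₂ q hI₁ hI₂ ⟨e₁⟩ ⟨e₂⟩
      obtain ⟨hIR₁, hEE₁⟩ := hIfacts I₁ hI₁
      obtain ⟨hIR₂, hEE₂⟩ := hIfacts I₂ hI₂
      obtain ⟨p, p₁, i₁, π, hπ, hz, hker⟩ := exists_pres (R := R) I₁
      let e : QM x J I₁ ≃ₗ[R] QM x J I₂ := (e₁.trans e₂.symm).restrictScalars R
      have hE : EE i₁ (QM x J I₂) := EE.of_equiv e (hEE₁ p p₁ i₁ π hπ hz hker)
      obtain ⟨Ψ, hΨ⟩ := surj_lift hπ hz hker hIR₂ J hxm hE (e.toLinearMap ∘ₗ mkQM x J I₁)
        (e.surjective.comp (mkQM_surj x J I₁))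
      exact equiv_of_surj hI₂.1 Ψ hΨ
  · have h𝔠1 : 𝔠 = ⊤ := by
      by_contra hne
      refine hht (maximalIdeal R) inferInstance ?_ (le_maximalIdeal hne)
      have h4 : ((maximalIdeal R).height : WithBot ℕ∞) = ringKrullDim R :=
        IsLocalRing.maximalIdeal_height_eq_ringKrullDim
      rw [hd] at h4
      have h5 : (maximalIdeal R).height = d := by exact_mod_cast h4
      rw [h5]
      exact_mod_cast (by omega : d < 3)
    obtain ⟨x, hxm, hx, -⟩ := exists_sop_in d hd ⊤ 0 (fun Q _ h => absurd h (by simp))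
    obtain ⟨g, hg⟩ := exists_rank_bound k hc hxm hx
    obtain ⟨S, hS, hSm⟩ := main_mod k hxm hx 0 g
    refine finite_reps S hS _
      (fun (I : Ideal R) q => Nonempty (I ≃ₗ[R] (Fin q.1 → R) ⧸ q.2))
      (fun I₁ I₂ : Ideal R => Nonempty (I₁ ≃ₗ[R] I₂)) ?_ ?_
    · rintro I ⟨hI, hID⟩
      have hIR : Reg x I := reg_of_mcm hxm hx I (by rwa [Fintype.card_fin])
      have h1 : ExtAnn R I (1 : R) := h𝔠 1 (by rw [h𝔠1]; trivial) I inferInstance hID
      refine hSm I inferInstance hIR ((hg I hIR).trans ?_) (fun l => by rwa [pow_zero]) ?_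
      · have h5 : Module.finrank R I ≤ 1 := by
          refine (Submodule.finrank_le I).trans ?_
          rw [Module.finrank_self]
        exact_mod_cast (Nat.mul_le_mul_left g h5).trans (mul_one g).le
      · intro E _ _ f g _ hg _
        obtain ⟨s, hs⟩ := h1 E g hg
        exact ⟨s, by rw [hs, one_smul]⟩
    · rintro I₁ I₂ q - - ⟨e₁⟩ ⟨e₂⟩
      exact ⟨e₁.trans e₂.symm⟩

end

end Pool.Agent.TH282.RE
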