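import Pool.Agent.TH282.RE.Lin

/-!
# The dimension of `M / (x_1 ^ {c_1}, ..., x_d ^ {c_d}) M`
-/

set_option autoImplicit false
set_option linter.unusedSectionVars false

namespace Pool.Agent.TH282.RE

section

variable {k : Type*} [Field k] {R : Type*} [CommRing R] [Algebra k R]
  {ι : Type*} [DecidableEq ι] [Fintype ι] (x : ι → R)
  (M : Type*) [AddCommGroup M] [Module R M] [Module k M] [IsScalarTower k R M]

theorem finrank_step (hM : Reg x M) (c : ι → ℕ) (hc : ∀ l, 1 ≤ c l) (i : ι) (m : ℕ) (hm : 1 ≤ m)
    (hfin : ∀ c : ι → ℕ, (∀ l, 1 ≤ c l) → Module.Finite k (M ⧸ WW x c Finset.univ M)) :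
    Module.finrank k (M ⧸ WW x (Function.update c i (m + 1)) Finset.univ M) =
      Module.finrank k (M ⧸ WW x (Function.update c i m) Finset.univ M) +
        Module.finrank k (M ⧸ WW x (Function.update c i 1) Finset.univ M) := by
  have hc1 : ∀ t, 1 ≤ t → ∀ l, 1 ≤ Function.update c i t l := by
    intro t ht l
    by_cases h : l = i
    · subst h
      simpa using ht
    · simpa [h] using hc l
  set W2 := WW x (Function.update c i (m + 1)) Finset.univ M with hW2
  set W3 := WW x (Function.update c i m) Finset.univ M with hW3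
  set W1 := WW x (Function.update c i 1) Finset.univ M with hW1
  have := hfin _ (hc1 (m + 1) (by omega))
  have := hfin _ (hc1 m hm)
  have := hfin _ (hc1 1 le_rfl)
  have hins : insert i (Finset.univ.erase i) = (Finset.univ : Finset ι) :=
    Finset.insert_erase (Finset.mem_univ i)
  have hmem : ∀ (t : ℕ) (v : M), v ∈ WW x (Function.update c i t) Finset.univ M ↔
      ∃ u, v - x i ^ t • u ∈ WW x c (Finset.univ.erase i) M := by
    intro t v
    rw [← hins, WW_insert (Finset.notMem_erase i _)]
    have : WW x (Function.update c i t) (Finset.univ.erase i) M = WW x c (Finset.univ.erase i) M := by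
      apply WW_congr
      intro l hl
      rw [Function.update_of_ne (Finset.ne_of_mem_erase hl)]
    rw [this]
    simp
  have h23 : W2 ≤ W3 := by
    intro v hv
    rw [hW2, hmem] at hv
    rw [hW3, hmem]
    obtain ⟨u, hu⟩ := hv
    refine ⟨x i • u, ?_⟩
    rwa [smul_smul, ← pow_succ]
  have h12 : W1 ≤ W2.comap (LinearMap.lsmul R M (x i ^ m)) := by
    intro v hv
    rw [hW1, hmem] at hv
    obtain ⟨u, hu⟩ := hv
    rw [Submodule.mem_comap, hW2, hmem]
    refine ⟨u, ?_⟩
    have : (LinearMap.lsmul R M (x i ^ m)) v - x i ^ (m + 1) • u = x i ^ m • (v - x i ^ 1 • u) := by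
      rw [LinearMap.lsmul_apply, smul_sub, smul_smul, ← pow_add]
    rw [this]
    exact Submodule.smul_mem _ _ hu
  let f : (M ⧸ W1) →ₗ[R] (M ⧸ W2) := Submodule.mapQ W1 W2 (LinearMap.lsmul R M (x i ^ m)) h12
  let g : (M ⧸ W2) →ₗ[R] (M ⧸ W3) := Submodule.factor h23
  have hf : Function.Injective f := by
    rw [injective_iff_map_eq_zero]
    intro z hz
    obtain ⟨v, rfl⟩ := W1.mkQ_surjective z
    change W2.mkQ (x i ^ m • v) = 0 at hz
    rw [Submodule.mkQ_apply, Submodule.Quotient.mk_eq_zero, hW2, hmem] at hz
    rw [Submodule.mkQ_apply, Submodule.Quotient.mk_eq_zero, hW1, hmem]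
    obtain ⟨u, hu⟩ := hz
    refine ⟨u, ?_⟩
    apply hM i (Finset.univ.erase i) c (Finset.notMem_erase i _) hc m
    rw [smul_sub, smul_smul, ← pow_add]
    exact hu
  have hg : Function.Surjective g := Submodule.factor_surjective h23
  have hfg : LinearMap.ker g = LinearMap.range f := by
    ext z
    obtain ⟨v, rfl⟩ := W2.mkQ_surjective z
    constructor
    · intro hz
      have h1 : W3.mkQ v = 0 := hz
      rw [Submodule.mkQ_apply, Submodule.Quotient.mk_eq_zero, hW3, hmem] at h1
      obtain ⟨u, hu⟩ := h1
      refine ⟨W1.mkQ u, ?_⟩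
      change W2.mkQ (x i ^ m • u) = W2.mkQ v
      rw [← sub_eq_zero, ← map_sub, Submodule.mkQ_apply, Submodule.Quotient.mk_eq_zero, ← neg_mem_iff,
        neg_sub, hW2, hmem]
      exact ⟨0, by simpa using hu⟩
    · rintro ⟨w, hw⟩
      obtain ⟨w, rfl⟩ := W1.mkQ_surjective w
      rw [← hw]
      change W3.mkQ (x i ^ m • w) = 0
      rw [Submodule.mkQ_apply, Submodule.Quotient.mk_eq_zero, hW3, hmem]
      exact ⟨w, by simp⟩
  have h1 := LinearMap.finrank_range_add_finrank_ker (g.restrictScalars k)
  have h2 : LinearMap.range (g.restrictScalars k) = ⊤ := LinearMap.range_eq_top.mpr hg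
  rw [h2, finrank_top] at h1
  have h3 : Module.finrank k (LinearMap.ker (g.restrictScalars k)) =
      Module.finrank k (LinearMap.range (f.restrictScalars k)) := by
    have : LinearMap.ker (g.restrictScalars k) = LinearMap.range (f.restrictScalars k) := by
      ext z
      have := SetLike.ext_iff.mp hfg z
      exact this
    rw [this]
  have h4 : Module.finrank k (LinearMap.range (f.restrictScalars k)) = Module.finrank k (M ⧸ W1) :=
    LinearMap.finrank_range_of_inj hf
  omega

theorem finrank_update (hM : Reg x M) (c : ι → ℕ) (hc : ∀ l, 1 ≤ c l) (i : ι) (m : ℕ) (hm : 1 ≤ m)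
    (hfin : ∀ c : ι → ℕ, (∀ l, 1 ≤ c l) → Module.Finite k (M ⧸ WW x c Finset.univ M)) :
    Module.finrank k (M ⧸ WW x (Function.update c i m) Finset.univ M) =
      m * Module.finrank k (M ⧸ WW x (Function.update c i 1) Finset.univ M) := by
  induction m, hm using Nat.le_induction with
  | base => rw [one_mul]
  | succ m hm ih => rw [finrank_step x M hM c hc i m hm hfin, ih]; ring

theorem finrank_prod (hM : Reg x M) (c : ι → ℕ) (hc : ∀ l, 1 ≤ c l)
    (hfin : ∀ c : ι → ℕ, (∀ l, 1 ≤ c l) → Module.Finite k (M ⧸ WW x c Finset.univ M)) :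
    Module.finrank k (M ⧸ WW x c Finset.univ M) =
      (∏ l, c l) * Module.finrank k (M ⧸ WW x (fun _ => 1) Finset.univ M) := by
  have key : ∀ J : Finset ι,
      Module.finrank k (M ⧸ WW x (fun l => if l ∈ J then c l else 1) Finset.univ M) =
        (∏ l ∈ J, c l) * Module.finrank k (M ⧸ WW x (fun _ => 1) Finset.univ M) := by
    intro J
    induction J using Finset.induction_on with
    | empty =>
      have h0 : (fun l => if l ∈ (∅ : Finset ι) then c l else 1) = fun _ : ι => 1 := by
        funext l
        simp
      rw [h0, Finset.prod_empty, one_mul]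
    | insert j J hj ih =>
      set c' : ι → ℕ := fun l => if l ∈ J then c l else 1 with hc'
      have h1 : (fun l => if l ∈ insert j J then c l else 1) = Function.update c' j (c j) := by
        funext l
        by_cases h : l = j
        · subst h
          simp
        · simp [hc', h]
      have h2 : Function.update c' j 1 = c' := by
        funext l
        by_cases h : l = j
        · subst h
          simp [hc', hj]
        · simp [h]
      rw [h1, finrank_update x M hM c' (fun l => by simp only [hc']; split_ifs; exact hc l; exact le_rfl)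
        j (c j) (hc j) hfin, h2, ih, Finset.prod_insert hj, mul_assoc]
  have h1 := key Finset.univ
  have h2 : (fun l => if l ∈ (Finset.univ : Finset ι) then c l else 1) = c := by
    funext l
    simp
  rw [h2] at h1
  exact h1

end

end Pool.Agent.TH282.RE
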