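import Pool.Agent.TH282.RE.Param

/-!
# Serre type criteria: elements of an ideal of large height, domains, endomorphisms of ideals
-/

set_option autoImplicit false
set_option linter.unusedSectionVars false

namespace Pool.Agent.TH282.RE

open IsLocalRing

section

variable {R : Type*} [CommRing R] [IsLocalRing R] [IsNoetherianRing R]

/-- a system of parameters whose first `m` members lie in an ideal of height at least `m` -/
theorem exists_sop_in (d : ℕ) (hd : ringKrullDim R = d) (b : Ideal R) (m : ℕ)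
    (hb : ∀ Q : Ideal R, Q.IsPrime → Q.height < m → ¬ b ≤ Q) :
    ∃ x : Fin d → R, (∀ l, x l ∈ maximalIdeal R) ∧
      (∃ T, maximalIdeal R ^ T ≤ Ideal.span (Set.range x)) ∧
      ∀ l : Fin d, (l : ℕ) < m → x l ∈ b := by
  classical
  let B : ℕ → Ideal R := fun i => if i < m then b ⊓ maximalIdeal R else maximalIdeal R
  have hB1 : ∀ i, i < m → B i = b ⊓ maximalIdeal R := fun i hi => if_pos hi
  have hB2 : ∀ i, ¬ i < m → B i = maximalIdeal R := fun i hi => if_neg hi
  have hdimm : ringKrullDim (R ⧸ maximalIdeal R) = 0 := by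
    have : IsField (R ⧸ maximalIdeal R) :=
      (Ideal.Quotient.maximal_ideal_iff_isField_quotient _).mp (maximalIdeal.isMaximal R)
    exact ringKrullDim_eq_zero_of_isField this
  have hmax : ∀ i < d, ∀ Q : Ideal R, Q.IsPrime → ∀ n : ℕ, ringKrullDim (R ⧸ Q) = n → n + i = d →
      ¬ maximalIdeal R ≤ Q := by
    intro i hi Q hQp n hn hni hQ
    have h1 : maximalIdeal R = Q := (maximalIdeal.isMaximal R).eq_of_le hQp.ne_top hQ
    rw [← h1, hdimm] at hn
    have h2 : n = 0 := by exact_mod_cast hn.symm
    omega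
  obtain ⟨t, ht1, ht2⟩ := exists_seq d hd (fun _ => 0) B (by
    intro i hi t ht Q hQ n hn hni hbQ
    have hQp : Q.IsPrime := hQ.1.1
    by_cases him : i < m
    · rw [hB1 i him] at hbQ
      rcases (hQp.inf_le).mp hbQ with h | h
      · refine hb Q hQp ?_ h
        have h3 := Ideal.height_le_card_of_mem_minimalPrimes_span ((Finset.finite_toSet _).image t) hQ
        refine h3.trans_lt ?_
        have h4 : (t '' (Finset.range i : Set ℕ)).ncard ≤ i := by
          refine (Set.ncard_image_le (Finset.finite_toSet _)).trans ?_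
          rw [Set.ncard_coe_finset, Finset.card_range]
        exact_mod_cast h4.trans_lt him
      · exact hmax i hi Q hQp n hn hni h
    · rw [hB2 i him] at hbQ
      exact hmax i hi Q hQp n hn hni hbQ) d le_rfl
  have htm : ∀ j < d, t j ∈ maximalIdeal R := by
    intro j hj
    have h1 := ht1 j hj
    rw [sub_zero] at h1
    by_cases hjT : j < m
    · rw [hB1 j hjT] at h1
      exact h1.2
    · rw [hB2 j hjT] at h1
      exact h1
  refine ⟨fun l => t l, fun l => htm l l.2, ?_, ?_⟩
  · apply Ideal.exists_pow_le_of_le_radical_of_fg _ (IsNoetherian.noetherian _)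
    rw [Ideal.radical_eq_sInf]
    apply le_sInf
    rintro Q ⟨hQ, hQp⟩
    obtain ⟨n, hn⟩ := exists_dim Q
    have h1 := ht2 Q hQp (fun j hj => hQ (Ideal.subset_span ⟨⟨j, hj⟩, rfl⟩)) n hn
    have h2 : n = 0 := by omega
    subst h2
    intro y hy
    by_contra hyQ
    have h3 := dim_lt Q (maximalIdeal R) (le_maximalIdeal hQp.ne_top) hy hyQ
    rw [hn, hdimm] at h3
    have h4 : (0 : ℕ) + 1 ≤ 0 := by exact_mod_cast h3
    omega
  · intro l hl
    have h1 := ht1 l l.2
    rw [sub_zero, hB1 l hl] at h1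
    exact h1.1

/-- elements of an ideal contained in no prime of height at most one -/
theorem exists_two (d : ℕ) (hd : ringKrullDim R = d) (hD : Dp (R := R) d R) (b : Ideal R)
    (hb : ∀ Q : Ideal R, Q.IsPrime → Q.height < 2 → ¬ b ≤ Q) :
    ∃ w₁ w₂, w₁ ∈ b ∧ w₂ ∈ b ∧ (∀ v, w₁ * v = 0 → v = 0) ∧
      ∀ u v, w₁ * u = w₂ * v → ∃ w, v = w₁ * w := by
  by_cases h : 2 ≤ d
  · obtain ⟨x, hxm, hx, hxb⟩ := exists_sop_in d hd b 2 hb
    have hR : Reg x R := reg_of_mcm hxm hx R (by rwa [Fintype.card_fin])
    have h0 : ∀ v, v ∈ WW x (fun _ => 1) ∅ R → v = 0 := by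
      intro v hv
      rw [WW_empty] at hv
      exact hv
    refine ⟨x ⟨0, by omega⟩, x ⟨1, by omega⟩, hxb _ (by simp), hxb _ (by simp), ?_, ?_⟩
    · intro v hv
      apply h0
      refine hR ⟨0, by omega⟩ ∅ (fun _ => 1) (by simp) (fun _ => le_rfl) 1 v ?_
      rw [pow_one, smul_eq_mul, hv]
      exact Submodule.zero_mem _
    · intro u v huv
      have h1 : v ∈ WW x (fun _ => 1) (insert ⟨0, by omega⟩ ∅) R := by
        refine hR ⟨1, by omega⟩ _ (fun _ => 1) (by simp) (fun _ => le_rfl) 1 v ?_
        rw [WW_insert (by simp)]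
        refine ⟨u, ?_⟩
        rw [pow_one, pow_one, smul_eq_mul, smul_eq_mul, huv, sub_self]
        exact Submodule.zero_mem _
      rw [WW_insert (by simp)] at h1
      obtain ⟨w, hw⟩ := h1
      refine ⟨w, ?_⟩
      have := h0 _ hw
      rw [pow_one, smul_eq_mul, sub_eq_zero] at this
      exact this
  · have h1 : b = ⊤ := by
      by_contra hne
      have h2 := hb (maximalIdeal R) inferInstance (by
        have h3 : ((maximalIdeal R).height : WithBot ℕ∞) = ringKrullDim R :=
          IsLocalRing.maximalIdeal_height_eq_ringKrullDim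
        rw [hd] at h3
        have h4 : (maximalIdeal R).height = d := by exact_mod_cast h3
        rw [h4]
        exact_mod_cast (by omega : d < 2))
      exact h2 (le_maximalIdeal hne)
    refine ⟨1, 1, by rw [h1]; trivial, by rw [h1]; trivial, fun v hv => by rwa [one_mul] at hv, ?_⟩
    intro u v _
    exact ⟨v, by rw [one_mul]⟩

end

end Pool.Agent.TH282.RE
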