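import Pool.Agent.TH282.RE.Std2

/-!
# Finitely many rigid modules on which powers of the parameters factor through free modules
-/

set_option autoImplicit false
set_option linter.unusedSectionVars false

namespace Pool.Agent.TH282.RE

open IsLocalRing

section Iso

variable (k : Type*) [Field k] {R : Type*} [CommRing R] [Algebra k R] [IsLocalRing R]
  [IsNoetherianRing R] [Module.Finite k (ResidueField R)]
  {ι : Type*} [DecidableEq ι] [Fintype ι] {x : ι → R}

theorem inj_of_surj (hxm : ∀ l, x l ∈ maximalIdeal R)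
    (hx : ∃ t, maximalIdeal R ^ t ≤ Ideal.span (Set.range x))
    {M M' : Type*} [AddCommGroup M] [Module R M] [Module k M] [IsScalarTower k R M]
    [Module.Finite R M] [AddCommGroup M'] [Module R M'] [Module k M'] [IsScalarTower k R M']
    [Module.Finite R M'] (hM : Reg x M) (hM' : Reg x M')
    (hρ : Module.finrank k (M ⧸ WW x (fun _ => 1) Finset.univ M) =
      Module.finrank k (M' ⧸ WW x (fun _ => 1) Finset.univ M'))
    (h : M →ₗ[R] M') (hh : Function.Surjective h) : Function.Injective h := by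
  have key : ∀ N : ℕ, 1 ≤ N → ∀ v, h v = 0 → v ∈ WW x (fun _ => N) Finset.univ M := by
    intro N hN v hv
    have h1 : WW x (fun _ => N) Finset.univ M ≤ (WW x (fun _ => N) Finset.univ M').comap h :=
      fun w hw => WW_map h hw
    let f : (M ⧸ WW x (fun _ => N) Finset.univ M) →ₗ[R] (M' ⧸ WW x (fun _ => N) Finset.univ M') :=
      Submodule.mapQ _ _ h h1
    have hf : Function.Surjective f := by
      intro q
      obtain ⟨w, rfl⟩ := Submodule.mkQ_surjective _ q
      obtain ⟨w', rfl⟩ := hh w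
      exact ⟨Submodule.Quotient.mk w', rfl⟩
    have h2 := WW_finite k x hx M (fun _ => N)
    have h3 := WW_finite k x hx M' (fun _ => N)
    have h4 : Module.finrank k (M ⧸ WW x (fun _ => N) Finset.univ M) =
        Module.finrank k (M' ⧸ WW x (fun _ => N) Finset.univ M') := by
      rw [finrank_prod x M hM (fun _ => N) (fun _ => hN) (fun c _ => WW_finite k x hx M c),
        finrank_prod x M' hM' (fun _ => N) (fun _ => hN) (fun c _ => WW_finite k x hx M' c), hρ]
    have h5 : Function.Injective (f.restrictScalars k) :=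
      (LinearMap.injective_iff_surjective_of_finrank_eq_finrank h4).mpr hf
    rw [← Submodule.Quotient.mk_eq_zero]
    apply h5
    rw [map_zero]
    change Submodule.Quotient.mk (h v) = 0
    rw [hv, Submodule.Quotient.mk_zero]
  rw [injective_iff_map_eq_zero]
  intro v hv
  have h6 : v ∈ (⨅ i : ℕ, maximalIdeal R ^ i • ⊤ : Submodule R M) := by
    rw [Submodule.mem_iInf]
    intro i
    rcases Nat.eq_zero_or_pos i with hi | hi
    · subst hi
      rw [pow_zero, Ideal.one_eq_top, Submodule.top_smul]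
      trivial
    · have := key i hi v hv
      rw [WW_eq_smul] at this
      refine Submodule.smul_mono_left ?_ this
      rw [Ideal.span_le]
      rintro _ ⟨l, rfl⟩
      exact Ideal.pow_mem_pow (hxm l) i
  rw [Ideal.iInf_pow_smul_eq_bot_of_isLocalRing _ (maximalIdeal.isMaximal R).ne_top] at h6
  exact h6

end Iso

section Main

universe u v w

variable (k : Type v) [Field k] {R : Type u} [CommRing R] [Algebra k R] [IsLocalRing R]
  [IsNoetherianRing R] [Module.Finite k (ResidueField R)]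
  {ι : Type w} [DecidableEq ι] [Fintype ι] {x : ι → R}

theorem main_pres (hxm : ∀ l, x l ∈ maximalIdeal R)
    (hx : ∃ t, maximalIdeal R ^ t ≤ Ideal.span (Set.range x)) (e ρ : ℕ) :
    ∃ S : Set (Σ n : ℕ, Submodule R (Fin n → R)), S.Finite ∧
      ∀ (p p₁ : ℕ) (i₁ : (Fin p₁ → R) →ₗ[R] (Fin p → R)),
        Reg x ((Fin p → R) ⧸ LinearMap.range i₁) →
        Module.finrank k (((Fin p → R) ⧸ LinearMap.range i₁) ⧸
          WW x (fun _ => 1) Finset.univ ((Fin p → R) ⧸ LinearMap.range i₁)) = ρ →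
        (∀ l, Fac (LinearMap.range i₁) (x l) e) →
        (∀ f : (Fin p₁ → R) →ₗ[R] ((Fin p → R) ⧸ LinearMap.range i₁),
          (∀ v ∈ LinearMap.ker i₁, f v = 0) →
          ∃ F : (Fin p → R) →ₗ[R] ((Fin p → R) ⧸ LinearMap.range i₁), ∀ v, F (i₁ v) = f v) →
        ∃ q ∈ S, Nonempty (((Fin p → R) ⧸ LinearMap.range i₁) ≃ₗ[R] (Fin q.1 → R) ⧸ q.2) := by
  let L : ℕ := 3 * e + 1
  have hL : 1 ≤ L := by omega
  let 𝒢 : Type u := {g : Σ p p₁ : ℕ, ((Fin p₁ → R) →ₗ[R] (Fin p → R)) //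
    Reg x ((Fin g.1 → R) ⧸ LinearMap.range g.2.2) ∧
    Module.finrank k (((Fin g.1 → R) ⧸ LinearMap.range g.2.2) ⧸
      WW x (fun _ => 1) Finset.univ ((Fin g.1 → R) ⧸ LinearMap.range g.2.2)) = ρ ∧
    (∀ l, Fac (LinearMap.range g.2.2) (x l) e) ∧
    (∀ f : (Fin g.2.1 → R) →ₗ[R] ((Fin g.1 → R) ⧸ LinearMap.range g.2.2),
      (∀ v ∈ LinearMap.ker g.2.2, f v = 0) →
      ∃ F : (Fin g.1 → R) →ₗ[R] ((Fin g.1 → R) ⧸ LinearMap.range g.2.2), ∀ v, F (g.2.2 v) = f v)}
  have hstd : ∀ g : 𝒢, ∃ U₀ : R →ₐ[k] Matrix ((ι → Fin L) × Fin ρ) ((ι → Fin L) × Fin ρ) k,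
      (∀ l, U₀ (x l) = Astd k ι L ρ l) ∧ (∀ r ∈ WW x (fun _ => L) Finset.univ R, U₀ r = 0) ∧
      ∃ π : ((Fin g.1.1 → R) ⧸ LinearMap.range g.1.2.2) →ₗ[R] Nm U₀ k, Function.Surjective π ∧
        ∀ m, π m = 0 → m ∈ WW x (fun _ => L) Finset.univ
          ((Fin g.1.1 → R) ⧸ LinearMap.range g.1.2.2) := fun g =>
    exists_std hL g.2.1 (fun c _ => WW_finite k x hx _ c) ρ g.2.2.1
  choose U₀ hU1 hU2 π hπ hker using hstd
  let I : Submodule k R := (WW x (fun _ => L) Finset.univ R).restrictScalars k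
  have hIf : Module.Finite k (R ⧸ I) := by
    have := WW_finite k x hx R (fun _ => L)
    exact Module.Finite.equiv (Submodule.Quotient.restrictScalarsEquiv k _).symm
  have hno : IsNoetherianRing (Co U₀) := Co_noetherian U₀ I (fun g r hr => hU2 g r hr)
  obtain ⟨s, hs⟩ := surj_cover (n := (ι → Fin L) × Fin ρ) (A := Astd k ι L ρ) hxm e L le_rfl
    (fun g : 𝒢 => g.1.1) (fun g => g.1.2.1) (fun g => g.1.2.2) U₀ hU1 π hπ hker
    (fun g => g.2.1) (fun g => g.2.2.2.1) (fun g => g.2.2.2.2) hno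
  let G : 𝒢 → Σ n : ℕ, Submodule R (Fin n → R) := fun g => ⟨g.1.1, LinearMap.range g.1.2.2⟩
  refine ⟨G '' (s : Set 𝒢), (s.finite_toSet).image G, ?_⟩
  intro p p₁ i₁ h1 h2 h3 h4
  let g : 𝒢 := ⟨⟨p, p₁, i₁⟩, h1, h2, h3, h4⟩
  obtain ⟨g', hg's, h, hh⟩ := hs g
  refine ⟨G g', ⟨g', hg's, rfl⟩, ?_⟩
  have hinj := inj_of_surj k hxm hx g'.2.1 h1 (g'.2.2.1.trans h2.symm) h hh
  exact ⟨(LinearEquiv.ofBijective h ⟨hinj, hh⟩).symm⟩

end Main

end Pool.Agent.TH282.RE
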