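import Pool.Agent.TH282.RE.PowSer
import Pool.Agent.TH282.RE.Main2

/-!
# Evaluation of power series at parameters, finiteness and freeness
-/

set_option autoImplicit false
set_option linter.unusedSectionVars false

namespace Pool.Agent.TH282.RE

open IsLocalRing

section

variable {k : Type*} [Field k] {ι : Type*} [DecidableEq ι] [Fintype ι]

theorem exists_eval {R : Type*} [CommRing R] [Algebra k R] [IsLocalRing R]
    (hc : IsAdicComplete (maximalIdeal R) R) (x : ι → R) (hx : ∀ l, x l ∈ maximalIdeal R) :
    ∃ φ : (MvPowerSeries ι k) →ₐ[k] R, ∀ l, φ (MvPowerSeries.X l) = x l := by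
  let _ : WithIdeal R := ⟨maximalIdeal R⟩
  let _ : UniformSpace k := ⊥
  have hc2 := (IsAdic.isAdicComplete_iff (R := R) (I := maximalIdeal R) rfl).mp hc
  have := hc2.1
  have := hc2.2
  have hEval : MvPowerSeries.HasEval x :=
    ⟨fun l => WithIdeal.isTopologicallyNilpotent_of_mem (hx l), by
      rw [Filter.cofinite_eq_bot]
      exact Filter.tendsto_bot⟩
  have hcont : Continuous (algebraMap k R) := continuous_of_discreteTopology
  let φ : (MvPowerSeries ι k) →+* R := MvPowerSeries.eval₂Hom hcont hEval
  have hφ : ∀ f, φ f = MvPowerSeries.eval₂ (algebraMap k R) x f := fun f => by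
    simp only [φ]
    rw [MvPowerSeries.coe_eval₂Hom]
  refine ⟨{ φ with commutes' := ?_ }, ?_⟩
  · intro c
    change φ (algebraMap k (MvPowerSeries ι k) c) = _
    rw [hφ, ← MvPowerSeries.c_eq_algebraMap, MvPowerSeries.eval₂_C]
  · intro l
    change φ (MvPowerSeries.X l) = _
    rw [hφ, MvPowerSeries.eval₂_X]

end

section

variable {k : Type*} [Field k] {ι : Type*} [DecidableEq ι] [Fintype ι] {R : Type*} [CommRing R]
  [Algebra k R] [IsLocalRing R] [IsNoetherianRing R] [Module.Finite k (ResidueField R)] {x : ι → R}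
  [Algebra (MvPowerSeries ι k) R] [IsScalarTower k (MvPowerSeries ι k) R]

theorem smul_X_eq (hφ : ∀ l, algebraMap (MvPowerSeries ι k) R (MvPowerSeries.X l) = x l) {M : Type*} [AddCommGroup M]
    [Module R M] [Module (MvPowerSeries ι k) M] [IsScalarTower (MvPowerSeries ι k) R M] (l : ι) (m : M) :
    (MvPowerSeries.X l : (MvPowerSeries ι k)) • m = x l • m := by
  rw [← hφ, algebraMap_smul]

theorem WW_X_iff (hφ : ∀ l, algebraMap (MvPowerSeries ι k) R (MvPowerSeries.X l) = x l) {M : Type*} [AddCommGroup M]
    [Module R M] [Module (MvPowerSeries ι k) M] [IsScalarTower (MvPowerSeries ι k) R M] (c : ι → ℕ) (J : Finset ι) (v : M) :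
    v ∈ WW (fun l => (MvPowerSeries.X l : (MvPowerSeries ι k))) c J M ↔ v ∈ WW x c J M := by
  have h : ∀ (l : ι) (n : ℕ) (m : M), (MvPowerSeries.X l : (MvPowerSeries ι k)) ^ n • m = x l ^ n • m := by
    intro l n m
    rw [← hφ, ← map_pow, algebraMap_smul]
  constructor
  · rintro ⟨w, rfl⟩
    exact ⟨w, Finset.sum_congr rfl fun l _ => h l _ _⟩
  · rintro ⟨w, rfl⟩
    exact ⟨w, Finset.sum_congr rfl fun l _ => (h l _ _).symm⟩

theorem reg_X_of_reg (hφ : ∀ l, algebraMap (MvPowerSeries ι k) R (MvPowerSeries.X l) = x l) {M : Type*} [AddCommGroup M]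
    [Module R M] [Module (MvPowerSeries ι k) M] [IsScalarTower (MvPowerSeries ι k) R M] (h : Reg x M) :
    Reg (fun l => (MvPowerSeries.X l : (MvPowerSeries ι k))) M := by
  intro i J c hi hc m v hv
  rw [WW_X_iff hφ] at hv ⊢
  apply h i J c hi hc m
  rwa [← hφ, ← map_pow, algebraMap_smul]

/-- finitely generated modules are finitely generated over the power series ring -/
theorem finite_over (hxm : ∀ l, x l ∈ maximalIdeal R)
    (hx : ∃ t, maximalIdeal R ^ t ≤ Ideal.span (Set.range x))
    (hφ : ∀ l, algebraMap (MvPowerSeries ι k) R (MvPowerSeries.X l) = x l) (M : Type*) [AddCommGroup M]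
    [Module R M] [Module (MvPowerSeries ι k) M] [IsScalarTower (MvPowerSeries ι k) R M] [Module.Finite R M] : Module.Finite (MvPowerSeries ι k) M := by
  let _ : Module k M := Module.compHom M (algebraMap k R)
  have : IsScalarTower k R M := IsScalarTower.of_algebraMap_smul fun r m => rfl
  have : IsScalarTower k (MvPowerSeries ι k) M := by
    refine IsScalarTower.of_algebraMap_smul fun r m => ?_
    rw [← algebraMap_smul R (algebraMap k (MvPowerSeries ι k) r) m, ← IsScalarTower.algebraMap_apply k (MvPowerSeries ι k) R, algebraMap_smul]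
  have h1 := WW_finite k x hx M (fun _ => 1)
  obtain ⟨s, hs⟩ := h1.fg_top
  choose g hg using (WW x (fun _ => 1) Finset.univ M).mkQ_surjective
  classical
  let N : Submodule (MvPowerSeries ι k) M := Submodule.span (MvPowerSeries ι k) (s.image g : Finset M)
  have hN : N.FG := ⟨s.image g, rfl⟩
  have hsep : ∀ m : M, (∀ n : ℕ, m ∈ (Ideal.span (Set.range fun l => (MvPowerSeries.X l : (MvPowerSeries ι k))) ^ n • ⊤ :
      Submodule (MvPowerSeries ι k) M)) → m = 0 := by
    intro m hm
    have h6 : m ∈ (⨅ i : ℕ, maximalIdeal R ^ i • ⊤ : Submodule R M) := by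
      rw [Submodule.mem_iInf]
      intro i
      have h7 := hm i
      refine Submodule.smul_induction_on h7 ?_ ?_
      · intro r hr m _
        rw [← algebraMap_smul R r m]
        have h8 : Ideal.span (Set.range fun l => (MvPowerSeries.X l : (MvPowerSeries ι k))) ^ i ≤
            (maximalIdeal R ^ i).comap (algebraMap (MvPowerSeries ι k) R) := by
          have h9 : Ideal.span (Set.range fun l => (MvPowerSeries.X l : (MvPowerSeries ι k))) ≤
              (maximalIdeal R).comap (algebraMap (MvPowerSeries ι k) R) := by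
            rw [Ideal.span_le]
            rintro _ ⟨l, rfl⟩
            rw [SetLike.mem_coe, Ideal.mem_comap, hφ]
            exact hxm l
          exact (Ideal.pow_right_mono h9 i).trans (Ideal.le_comap_pow _ i)
        exact Submodule.smul_mem_smul (h8 hr) trivial
      · intro a b ha hb
        exact Submodule.add_mem _ ha hb
    rw [Ideal.iInf_pow_smul_eq_bot_of_isLocalRing _ (maximalIdeal.isMaximal R).ne_top] at h6
    exact h6
  have htop : (⊤ : Submodule (MvPowerSeries ι k) M) ≤
      N ⊔ Ideal.span (Set.range fun l => (MvPowerSeries.X l : (MvPowerSeries ι k))) • ⊤ := by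
    intro m _
    have h2 : (WW x (fun _ => 1) Finset.univ M).mkQ m ∈ Submodule.span k (s : Set _) := by
      rw [hs]
      trivial
    have h3 : ∀ q ∈ Submodule.span k (s : Set (M ⧸ WW x (fun _ => 1) Finset.univ M)),
        ∃ n ∈ N, (WW x (fun _ => 1) Finset.univ M).mkQ n = q := by
      intro q hq
      induction hq using Submodule.span_induction with
      | mem z hz => exact ⟨g z, Submodule.subset_span (by
          rw [Finset.coe_image]
          exact ⟨z, hz, rfl⟩), hg z⟩
      | zero => exact ⟨0, N.zero_mem, map_zero _⟩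
      | add a b _ _ ha hb =>
        obtain ⟨a', ha', rfl⟩ := ha
        obtain ⟨b', hb', rfl⟩ := hb
        exact ⟨a' + b', N.add_mem ha' hb', map_add _ _ _⟩
      | smul c a _ ha =>
        obtain ⟨a', ha', rfl⟩ := ha
        refine ⟨algebraMap k (MvPowerSeries ι k) c • a', N.smul_mem _ ha', ?_⟩
        rw [algebraMap_smul, ← algebraMap_smul R c a', map_smul, algebraMap_smul]
    obtain ⟨n, hn, hnm⟩ := h3 _ h2
    have h4 : m - n ∈ WW x (fun _ => 1) Finset.univ M := by
      rw [← Submodule.Quotient.mk_eq_zero, ← Submodule.mkQ_apply, map_sub, hnm, sub_self]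
    rw [← WW_X_iff hφ, WW_eq_smul] at h4
    simp only [pow_one] at h4
    have h5 : m = n + (m - n) := by abel
    rw [h5]
    exact Submodule.add_mem_sup hn h4
  have := Pool.Agent.TH282.RG.fg_of_complete _ hsep N hN htop
  exact ⟨this ▸ hN⟩

end

end Pool.Agent.TH282.RE
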