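import Pool.Agent.TH282.RE.Lin
import Pool.Agent.TH282.RG.Core

/-!
# Families of modules over `R` with constant action of the parameters
-/

set_option autoImplicit false
set_option linter.unusedSectionVars false

namespace Pool.Agent.TH282.RE

open Matrix Pool.Agent.TH282.RG

section Nm

variable {k : Type*} [Field k] {R : Type*} [CommRing R] [Algebra k R] {C : Type*} [CommRing C]
  [Algebra k C] {n : Type*} [Fintype n] [DecidableEq n]

/-- the module `Q ^ n` over `R`, `R` acting through matrices over `C` -/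
def Nm (_U : R →ₐ[k] Matrix n n C) (Q : Type*) : Type _ := n → Q

variable (U : R →ₐ[k] Matrix n n C) (Q : Type*) [AddCommGroup Q] [Module C Q]

instance : AddCommGroup (Nm U Q) := inferInstanceAs (AddCommGroup (n → Q))

instance : SMul R (Nm U Q) := ⟨fun r v => fun i => ∑ j, U r i j • v j⟩

variable {Q}

theorem Nm_smul (r : R) (v : Nm U Q) (i : n) : (r • v : Nm U Q) i = ∑ j, U r i j • v j := rfl

theorem Nm_add (v w : Nm U Q) (i : n) : (v + w : Nm U Q) i = v i + w i := rfl

theorem Nm_sub (v w : Nm U Q) (i : n) : (v - w : Nm U Q) i = v i - w i := rfl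

theorem Nm_zero (i : n) : (0 : Nm U Q) i = 0 := rfl

theorem Nm_sum {α : Type*} (s : Finset α) (f : α → Nm U Q) (i : n) :
    (∑ a ∈ s, f a) i = ∑ a ∈ s, f a i := by
  classical
  induction s using Finset.induction_on with
  | empty => simp [Nm_zero]
  | insert a s ha ih => rw [Finset.sum_insert ha, Finset.sum_insert ha, Nm_add, ih]

variable (Q)

instance : Module R (Nm U Q) where
  one_smul v := by
    funext i
    rw [Nm_smul, map_one, Finset.sum_eq_single i]
    · simp
    · intro j _ hj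
      rw [Matrix.one_apply_ne hj.symm, zero_smul]
    · simp
  mul_smul r s v := by
    funext i
    simp only [Nm_smul, map_mul, Matrix.mul_apply, Finset.sum_smul, Finset.smul_sum, mul_smul]
    rw [Finset.sum_comm]
  smul_zero r := by
    funext i
    simp [Nm_smul, Nm_zero]
  smul_add r v w := by
    funext i
    simp [Nm_smul, Nm_add, Finset.sum_add_distrib]
  add_smul r s v := by
    funext i
    simp [Nm_smul, Nm_add, add_smul, Finset.sum_add_distrib]
  zero_smul v := by
    funext i
    simp [Nm_smul, Nm_zero]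

variable {Q} {Q' : Type*} [AddCommGroup Q'] [Module C Q']

/-- constructor -/
def Nm.mk (v : n → Q) : Nm U Q := v

theorem Nm.mk_apply (v : n → Q) (i : n) : Nm.mk U v i = v i := rfl

/-- functoriality -/
def Nm.map (f : Q →ₗ[C] Q') : Nm U Q →ₗ[R] Nm U Q' where
  toFun v := Nm.mk U fun i => f (v i)
  map_add' v w := by
    funext i
    simp [Nm_add, Nm.mk_apply]
  map_smul' r v := by
    funext i
    simp [Nm_smul, map_sum, Nm.mk_apply]

theorem Nm.map_apply (f : Q →ₗ[C] Q') (v : Nm U Q) (i : n) : Nm.map U f v i = f (v i) := rfl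

end Nm

section Const

variable {k : Type*} [Field k] {R : Type*} [CommRing R] [Algebra k R]
  {n : Type*} [Fintype n] [DecidableEq n] {ι : Type*} [DecidableEq ι] {x : ι → R}
  {A : ι → Matrix n n k}
  {C : Type*} [CommRing C] [Algebra k C] {U : R →ₐ[k] Matrix n n C}
  {C' : Type*} [CommRing C'] [Algebra k C'] {U' : R →ₐ[k] Matrix n n C'}
  {Q : Type*} [AddCommGroup Q] [Module C Q] [Module k Q] [IsScalarTower k C Q]
  {Q' : Type*} [AddCommGroup Q'] [Module C' Q'] [Module k Q'] [IsScalarTower k C' Q']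

theorem const_smul (hU : ∀ l, U (x l) = hat C (A l)) (l : ι) (m : ℕ) (v : Nm U Q) (i : n) :
    (x l ^ m • v : Nm U Q) i = ∑ j, ((A l) ^ m) i j • v j := by
  rw [Nm_smul]
  refine Finset.sum_congr rfl fun j _ => ?_
  have h : U (x l ^ m) = hat C ((A l) ^ m) := by
    rw [map_pow, hU]
    induction m with
    | zero => simp [hat]
    | succ m ih => rw [pow_succ, ih, pow_succ, hat_mul]
  rw [h]
  change algebraMap k C (((A l) ^ m) i j) • v j = _
  rw [algebraMap_smul]

variable (U U') in
/-- a `k`-linear map of coefficients -/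
def kmap (lam : Q →ₗ[k] Q') : Nm U Q →+ Nm U' Q' where
  toFun v := Nm.mk U' fun i => lam (v i)
  map_zero' := by
    funext i
    simp [Nm.mk_apply, Nm_zero]
  map_add' v w := by
    funext i
    simp [Nm.mk_apply, Nm_add]

theorem kmap_apply (lam : Q →ₗ[k] Q') (v : Nm U Q) (i : n) : kmap U U' lam v i = lam (v i) := rfl

/-- `k`-linear maps of the coefficients commute with the parameters -/
theorem const_map (hU : ∀ l, U (x l) = hat C (A l)) (hU' : ∀ l, U' (x l) = hat C' (A l))
    (lam : Q →ₗ[k] Q') (l : ι) (m : ℕ) (v : Nm U Q) :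
    kmap U U' lam (x l ^ m • v) = x l ^ m • kmap U U' lam v := by
  funext i
  rw [const_smul hU', kmap_apply, const_smul hU, map_sum]
  refine Finset.sum_congr rfl fun j _ => ?_
  rw [map_smul, kmap_apply]

theorem const_WW (hU : ∀ l, U (x l) = hat C (A l)) (hU' : ∀ l, U' (x l) = hat C' (A l))
    (lam : Q →ₗ[k] Q') (c : ι → ℕ) (J : Finset ι) {v : Nm U Q} (hv : v ∈ WW x c J (Nm U Q)) :
    kmap U U' lam v ∈ WW x c J (Nm U' Q') := by
  obtain ⟨w, rfl⟩ := hv
  refine ⟨fun l => kmap U U' lam (w l), ?_⟩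
  rw [map_sum]
  exact Finset.sum_congr rfl fun l _ => const_map hU hU' lam l (c l) (w l)

/-- flatness at level `L` of the constant module passes to every family -/
theorem flat_transfer [Fintype ι] {U₀ : R →ₐ[k] Matrix n n k} (hU : ∀ l, U (x l) = hat C (A l))
    (hU₀ : ∀ l, U₀ (x l) = hat k (A l)) (e L : ℕ)
    (hX : ∀ (i : ι) (c : ι → ℕ), (∀ l, 1 ≤ c l) → (∀ l, c l ≤ L) → ∀ v : Nm U₀ k,
      x i ^ e • v ∈ WW x c (Finset.univ.erase i) (Nm U₀ k) →
        ∃ u, v - x i ^ (L - e) • u ∈ WW x c (Finset.univ.erase i) (Nm U₀ k))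
    (i : ι) (c : ι → ℕ) (hc : ∀ l, 1 ≤ c l) (hcL : ∀ l, c l ≤ L) (v : Nm U Q)
    (hv : x i ^ e • v ∈ WW x c (Finset.univ.erase i) (Nm U Q)) :
    ∃ u, v - x i ^ (L - e) • u ∈ WW x c (Finset.univ.erase i) (Nm U Q) := by
  have hk : ∀ (t : k) (w : n → k), Nm.mk U₀ (t • w) = (algebraMap k R t) • Nm.mk U₀ w := by
    intro t w
    funext j
    rw [Nm_smul, AlgHom.commutes, Finset.sum_eq_single j]
    · simp [Matrix.algebraMap_matrix_apply, Nm.mk_apply]
    · intro l _ hl
      simp [Matrix.algebraMap_matrix_apply, hl.symm]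
    · simp
  let S : Submodule k (n → k) :=
    { carrier := {w | ∃ u : Nm U₀ k, Nm.mk U₀ w - x i ^ (L - e) • u ∈
        WW x c (Finset.univ.erase i) (Nm U₀ k)}
      add_mem' := by
        rintro a b ⟨u, hu⟩ ⟨u', hu'⟩
        refine ⟨u + u', ?_⟩
        have : Nm.mk U₀ (a + b) - x i ^ (L - e) • (u + u') =
            (Nm.mk U₀ a - x i ^ (L - e) • u) + (Nm.mk U₀ b - x i ^ (L - e) • u') := by
          rw [smul_add]
          change Nm.mk U₀ a + Nm.mk U₀ b - _ = _
          abel
        rw [this]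
        exact Submodule.add_mem _ hu hu'
      zero_mem' := ⟨0, by
        rw [smul_zero, sub_zero]
        exact Submodule.zero_mem _⟩
      smul_mem' := by
        rintro t a ⟨u, hu⟩
        refine ⟨algebraMap k R t • u, ?_⟩
        rw [hk, smul_comm, ← smul_sub]
        exact Submodule.smul_mem _ _ hu }
  obtain ⟨T, u, w, hu, hw⟩ := coeff S v (by
    intro lam
    apply hX i c hc hcL (kmap U U₀ lam v)
    have h1 := const_WW (U' := U₀) (Q' := k) hU hU₀ lam c (Finset.univ.erase i) hv
    rwa [const_map hU hU₀] at h1)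
  choose u' hu' using hu
  let E : ∀ s, Nm U₀ k →+ Nm U Q := fun s => kmap U₀ U (LinearMap.toSpanSingleton k Q (w s))
  have hv2 : v = ∑ s ∈ T, E s (Nm.mk U₀ (u s)) := by
    funext j
    rw [Nm_sum, hw j]
    rfl
  refine ⟨∑ s ∈ T, E s (u' s), ?_⟩
  have : v - x i ^ (L - e) • ∑ s ∈ T, E s (u' s) =
      ∑ s ∈ T, E s (Nm.mk U₀ (u s) - x i ^ (L - e) • u' s) := by
    rw [Finset.smul_sum, hv2, ← Finset.sum_sub_distrib]
    refine Finset.sum_congr rfl fun s _ => ?_
    rw [map_sub]
    congr 1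
    exact (const_map hU₀ hU _ i (L - e) (u' s)).symm
  rw [this]
  exact Submodule.sum_mem _ fun s _ => const_WW hU₀ hU _ c _ (hu' s)

end Const

end Pool.Agent.TH282.RE
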