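import Pool.Agent.TH282.RE.Mult

/-!
# Finitely many rigid maximal Cohen-Macaulay modules with a bounded annihilator of `Ext^1(M, -)`
-/

set_option autoImplicit false
set_option linter.unusedSectionVars false

namespace Pool.Agent.TH282.RE

open IsLocalRing Pool.Agent.TH282.RG

universe u v

section

variable (k : Type v) [Field k] {R : Type u} [CommRing R] [Algebra k R] [IsLocalRing R]
  [IsNoetherianRing R] [Module.Finite k (ResidueField R)]

include k in
/-- bounded rank, over a complete domain -/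
theorem final_rank [IsDomain R] (hc : IsAdicComplete (maximalIdeal R) R) (N e : ℕ) :
    ∃ S : Set (Σ n : ℕ, Submodule R (Fin n → R)), S.Finite ∧
      ∀ (M : Type u) [AddCommGroup M] [Module R M],
        Module.Finite R M → Nontrivial M →
        (∃ rs : List R, (∀ r ∈ rs, r ∈ IsLocalRing.maximalIdeal R) ∧
            RingTheory.Sequence.IsWeaklyRegular M rs ∧
            ((rs.length : ℕ∞) : WithBot ℕ∞) = ringKrullDim R) →
        Rigid R M → Module.finrank R M ≤ N → (∀ r ∈ maximalIdeal R ^ e, ExtAnn R M r) →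
        ∃ p ∈ S, Nonempty (M ≃ₗ[R] (Fin p.1 → R) ⧸ p.2) := by
  classical
  obtain ⟨s, hs, ⟨t, ht⟩, hd⟩ := exists_sop R
  let x : {r // r ∈ s} → R := Subtype.val
  have hxm : ∀ l, x l ∈ maximalIdeal R := fun l => hs l.1 l.2
  have hrange : Set.range x = (s : Set R) := by
    ext r
    simp [x]
  have hx : ∃ t, maximalIdeal R ^ t ≤ Ideal.span (Set.range x) := ⟨t, by rwa [hrange]⟩
  obtain ⟨g, hg⟩ := exists_rank_bound k hc hxm hx
  obtain ⟨S, hS, h⟩ := main_mod k hxm hx e (g * N)
  refine ⟨S, hS, ?_⟩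
  intro M _ _ hMf hMn hMcm hrig hrk hann
  obtain ⟨rs, hrm, hreg, hlen⟩ := hMcm
  have hcard : rs.length = Fintype.card {r // r ∈ s} := by
    rw [Fintype.card_coe]
    rw [hd] at hlen
    exact_mod_cast hlen
  have hD : Dp (R := R) (Fintype.card {r // r ∈ s}) M :=
    ⟨rs, hcard, hrm, (IsLocalRing.isRegular_iff_isWeaklyRegular_of_subset_maximalIdeal hrm).mpr hreg⟩
  have hR := reg_of_mcm hxm hx M hD
  refine h M hMf hR ?_ (fun l => hann _ (Ideal.pow_mem_pow (hxm l) e)) hrig
  refine (hg M hR).trans ?_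
  exact_mod_cast Nat.mul_le_mul_left g hrk

include k in
/-- bounded multiplicity, over any Noetherian local ring with a coefficient field -/
theorem final_mult (N e : ℕ) :
    ∃ S : Set (Σ n : ℕ, Submodule R (Fin n → R)), S.Finite ∧
      ∀ (M : Type u) [AddCommGroup M] [Module R M],
        Module.Finite R M →
        (∃ rs : List R, (∀ r ∈ rs, r ∈ IsLocalRing.maximalIdeal R) ∧
            RingTheory.Sequence.IsRegular M rs ∧
            ((rs.length : WithBot ℕ∞) = ringKrullDim R) ∧
            ∃ e : ℝ, e ≤ (N : ℝ) ∧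
              Filter.Tendsto
                (fun n : ℕ =>
                  ((rs.length).factorial : ℝ) *
                    ((Module.length R
                        (M ⧸ ((IsLocalRing.maximalIdeal R ^ n) •
                          (⊤ : Submodule R M)))).toNat : ℝ) /
                    ((n : ℝ) ^ rs.length))
                Filter.atTop (nhds e)) →
        Rigid R M → (∀ r ∈ maximalIdeal R ^ e, ExtAnn R M r) →
        ∃ p ∈ S, Nonempty (M ≃ₗ[R] (Fin p.1 → R) ⧸ p.2) := by
  classical
  obtain ⟨s, hs, ⟨t, ht⟩, hd⟩ := exists_sop R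
  let x : {r // r ∈ s} → R := Subtype.val
  have hxm : ∀ l, x l ∈ maximalIdeal R := fun l => hs l.1 l.2
  have hrange : Set.range x = (s : Set R) := by
    ext r
    simp [x]
  have hx : ∃ t, maximalIdeal R ^ t ≤ Ideal.span (Set.range x) := ⟨t, by rwa [hrange]⟩
  obtain ⟨c, hc1, hc⟩ := max_pow_le x hx
  obtain ⟨S, hS, h⟩ := main_mod k hxm hx e (N * c ^ (Fintype.card {r // r ∈ s}))
  refine ⟨S, hS, ?_⟩
  intro M _ _ hMf hMcm hrig hann
  obtain ⟨rs, hrm, hreg, hlen, e', he', hlim⟩ := hMcm
  have hcard : rs.length = Fintype.card {r // r ∈ s} := by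
    rw [Fintype.card_coe]
    rw [hd] at hlen
    exact_mod_cast hlen
  have hD : Dp (R := R) (Fintype.card {r // r ∈ s}) M := ⟨rs, hcard, hrm, hreg⟩
  have hR := reg_of_mcm hxm hx M hD
  refine h M hMf hR ?_ (fun l => hann _ (Ideal.pow_mem_pow (hxm l) e)) hrig
  have h1 := fun n (hn : 1 ≤ n) => len_mul_le k hx M hR n c hn (hc n hn)
  have h2 := le_of_mult (Fintype.card {r // r ∈ s})
    (fun n => (Module.length R (M ⧸ ((IsLocalRing.maximalIdeal R ^ n) • (⊤ : Submodule R M)))).toNat)
    e' N he' (by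
      rw [← hcard]
      exact hlim) c
    (Module.length R (M ⧸ Ideal.span (Set.range x) • (⊤ : Submodule R M))).toNat hc1
    (fun n hn => (h1 n hn).2)
  have h3 := (h1 1 le_rfl).1
  have h4 : Module.length R (M ⧸ Ideal.span (Set.range x) • (⊤ : Submodule R M)) =
      ((Module.length R (M ⧸ Ideal.span (Set.range x) • (⊤ : Submodule R M))).toNat : ℕ∞) :=
    (ENat.natCast_toNat h3).symm
  rw [h4]
  exact_mod_cast h2

end

end Pool.Agent.TH282.RE
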