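import Pool.Agent.TH282.RE.Isol
import Pool.Agent.TH282.RE.Cohen

/-!
# Finitely many rigid maximal Cohen-Macaulay modules over isolated singularities in characteristic zero
-/

set_option autoImplicit false
set_option linter.unusedSectionVars false

namespace Pool.Agent.TH282.RE

open IsLocalRing Pool.Agent.TH282.RG

universe u

section

variable {R : Type u} [CommRing R] [IsLocalRing R] [IsNoetherianRing R] [Algebra ℚ R]

theorem finite_residue_of_surj {k : Type*} [Field k] {R : Type*} [CommRing R] [IsLocalRing R]
    [Algebra k R] (h : Function.Surjective (algebraMap k (ResidueField R))) :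
    Module.Finite k (ResidueField R) :=
  Module.Finite.of_surjective (Algebra.linearMap k (ResidueField R)) h

/-- a complete local ring containing the rationals has a coefficient field -/
theorem exists_coeff_algebra (hc : IsAdicComplete (maximalIdeal R) R) :
    ∃ (k : Type u) (_ : Field k) (_ : Algebra k R), Module.Finite k (ResidueField R) := by
  obtain ⟨φ, hφ⟩ := exists_coeff hc
  exact ⟨ResidueField R, inferInstance, φ.toAlgebra,
    @finite_residue_of_surj (ResidueField R) _ R _ _ φ.toAlgebra fun a => ⟨a, hφ a⟩⟩

end

end Pool.Agent.TH282.RE
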