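import Pool.Agent.TH282.RE.Cut4
import Pool.Agent.TH282.RE.Final2

/-!
# Finitely many maximal Cohen-Macaulay ideal classes in characteristic zero
-/

set_option autoImplicit false
set_option linter.unusedSectionVars false

namespace Pool.Agent.TH282.RE

open IsLocalRing

universe u

section

theorem regular_of_finset {S : Type*} [CommRing S] [IsLocalRing S] [IsNoetherianRing S]
    (h : ∃ s : Finset S, Ideal.span (s : Set S) = maximalIdeal S ∧ (s.card : WithBot ℕ∞) ≤ ringKrullDim S) :
    IsRegularLocalRing S := by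
  obtain ⟨s, hs, hcard⟩ := h
  apply IsRegularLocalRing.of_spanFinrank_maximalIdeal_le
  refine le_trans ?_ hcard
  have h1 : (maximalIdeal S).spanFinrank ≤ s.card := by
    rw [← hs]
    refine (Submodule.spanFinrank_span_le_ncard_of_finite s.finite_toSet).trans ?_
    rw [Set.ncard_coe_finset]
  exact_mod_cast h1

variable {R : Type u} [CommRing R] [IsLocalRing R] [IsNoetherianRing R]

theorem finite_mcm_ideals_char_zero [Algebra ℚ R] (hc : IsAdicComplete (maximalIdeal R) R)
    (hCM : ∃ rs : List R, (∀ r ∈ rs, r ∈ maximalIdeal R) ∧ RingTheory.Sequence.IsRegular R rs ∧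
      (rs.length : WithBot ℕ∞) = ringKrullDim R)
    (hR2 : ∀ (P : Ideal R) [P.IsPrime], P.height ≤ 2 → IsRegularLocalRing (Localization.AtPrime P)) :
    ∃ (n : ℕ) (J : Fin n → Ideal R), ∀ I : Ideal R, I ≠ ⊥ →
      (∃ rs : List R, (∀ r ∈ rs, r ∈ maximalIdeal R) ∧ RingTheory.Sequence.IsRegular I rs ∧
        (rs.length : WithBot ℕ∞) = ringKrullDim R) →
      ∃ j : Fin n, Nonempty (I ≃ₗ[R] J j) := by
  obtain ⟨k, _, _, hk⟩ := exists_coeff_algebra hc
  obtain ⟨s, -, -, hd⟩ := exists_sop R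
  have hDp : ∀ (M : Type u) [AddCommGroup M] [Module R M],
      (∃ rs : List R, (∀ r ∈ rs, r ∈ maximalIdeal R) ∧ RingTheory.Sequence.IsRegular M rs ∧
        (rs.length : WithBot ℕ∞) = ringKrullDim R) → Dp (R := R) s.card M := by
    intro M _ _ hM
    obtain ⟨rs, hrm, hw, hlen⟩ := hM
    refine ⟨rs, ?_, hrm, hw⟩
    rw [hd] at hlen
    exact_mod_cast hlen
  have hD := hDp R hCM
  have hreg : ∀ (P : Ideal R) [P.IsPrime], P.height < 2 → IsRegularLocalRing (Localization.AtPrime P) :=
    fun P _ h => hR2 P h.le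
  have hdom : IsDomain R := isDomain_of s.card hd hD hreg
  let 𝔠 : Ideal R :=
    { carrier := {r | ∀ (M : Type u) [AddCommGroup M] [Module R M], Module.Finite R M →
        Dp (R := R) s.card M → ExtAnn R M r}
      add_mem' := fun {a b} ha hb M _ _ hM hD => (ha M hM hD).add (hb M hM hD)
      zero_mem' := fun M _ _ _ _ => ExtAnn.zero
      smul_mem' := fun a b hb M _ _ hM hD => (hb M hM hD).mul a }
  obtain ⟨n, J, h⟩ := cut_main k hc s.card hd hD hreg 𝔠 (fun r hr => hr) (by
    intro Q hQ hht hle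
    obtain ⟨r, hrQ, hr⟩ := point_ann k hc s.card hd Q (hR2 Q (by
      have h3 : (3 : ℕ∞) = 2 + 1 := by norm_num
      rw [h3] at hht
      exact Order.le_of_lt_add_one hht))
    exact hrQ (hle hr))
  exact ⟨n, J, fun I hI hIM => h I ⟨hI, hDp I hIM⟩⟩

end

end Pool.Agent.TH282.RE
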