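import Pool.Agent.TH282.RE.Ev

/-!
# Freeness over the power series ring
-/

set_option autoImplicit false
set_option linter.unusedSectionVars false

namespace Pool.Agent.TH282.RE

open IsLocalRing

section

variable {R : Type*} [CommRing R] {ι : Type*} [DecidableEq ι] [Fintype ι] {x : ι → R}
  {X : Type*} [AddCommGroup X] [Module R X]

theorem mem_WW_pi {ρ : ℕ} (c : ι → ℕ) (J : Finset ι) (v : Fin ρ → X) :
    v ∈ WW x c J (Fin ρ → X) ↔ ∀ j, v j ∈ WW x c J X := by
  constructor
  · intro hv j
    exact WW_map (LinearMap.proj j) hv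
  · intro h
    choose w hw using h
    refine ⟨fun l j => w j l, ?_⟩
    funext j
    rw [Finset.sum_apply, hw j]
    rfl

theorem Reg.pi {ρ : ℕ} (h : Reg x X) : Reg x (Fin ρ → X) := by
  intro i J c hi hc m v hv
  rw [mem_WW_pi] at hv ⊢
  exact fun j => h i J c hi hc m _ (hv j)

end

section

variable {k : Type*} [Field k] {ι : Type*} [DecidableEq ι] [Fintype ι]

theorem finrank_free_mod (ρ : ℕ) : Module.finrank k
    ((Fin ρ → (MvPowerSeries ι k)) ⧸ WW (fun l => (MvPowerSeries.X l : (MvPowerSeries ι k))) (fun _ => 1) Finset.univ (Fin ρ → (MvPowerSeries ι k))) = ρ := by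
  let W := WW (fun l => (MvPowerSeries.X l : (MvPowerSeries ι k))) (fun _ => 1) Finset.univ (Fin ρ → (MvPowerSeries ι k))
  let f : (Fin ρ → (MvPowerSeries ι k)) →ₗ[k] (Fin ρ → k) :=
    { toFun := fun v j => MvPowerSeries.constantCoeff (v j)
      map_add' := fun v w => by
        funext j
        simp
      map_smul' := fun c v => by
        funext j
        simp }
  have hf : Function.Surjective f := by
    intro w
    refine ⟨fun j => MvPowerSeries.C (w j), ?_⟩
    funext j
    change MvPowerSeries.constantCoeff (MvPowerSeries.C (w j) : (MvPowerSeries ι k)) = w j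
    simp
  have hker : LinearMap.ker f = W.restrictScalars k := by
    ext v
    rw [LinearMap.mem_ker, Submodule.restrictScalars_mem, mem_WW_pi]
    constructor
    · intro h j
      rw [mem_WW_X]
      intro α hα
      have : α = 0 := by
        ext l
        have := hα l (Finset.mem_univ l)
        rw [Finsupp.zero_apply]
        omega
      rw [this]
      exact congrFun h j
    · intro h
      funext j
      exact (mem_WW_X _ _ _).mp (h j) 0 (fun l _ => by simp)
  have e1 : ((Fin ρ → (MvPowerSeries ι k)) ⧸ W) ≃ₗ[k] (Fin ρ → k) :=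
    (Submodule.Quotient.restrictScalarsEquiv k W).symm.trans
      ((Submodule.quotEquivOfEq _ _ hker.symm).trans (f.quotKerEquivOfSurjective hf))
  rw [e1.finrank_eq]
  simp

/-- a finite module on which the variables are regular is free -/
theorem free_of_reg (M : Type*) [AddCommGroup M] [Module (MvPowerSeries ι k) M] [Module.Finite (MvPowerSeries ι k) M] [Module k M]
    [IsScalarTower k (MvPowerSeries ι k) M] (h : Reg (fun l => (MvPowerSeries.X l : (MvPowerSeries ι k))) M) :
    Module.Free (MvPowerSeries ι k) M ∧ Module.finrank (MvPowerSeries ι k) M = Module.finrank k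
      (M ⧸ WW (fun l => (MvPowerSeries.X l : (MvPowerSeries ι k))) (fun _ => 1) Finset.univ M) := by
  have hxm : ∀ l, (MvPowerSeries.X l : (MvPowerSeries ι k)) ∈ maximalIdeal (MvPowerSeries ι k) := by
    intro l
    rw [maxIdeal_eq]
    exact Ideal.subset_span ⟨l, rfl⟩
  have hx : ∃ t, maximalIdeal (MvPowerSeries ι k) ^ t ≤ Ideal.span (Set.range fun l => (MvPowerSeries.X l : (MvPowerSeries ι k))) :=
    ⟨1, by rw [pow_one, maxIdeal_eq]⟩
  set W := WW (fun l => (MvPowerSeries.X l : (MvPowerSeries ι k))) (fun _ => 1) Finset.univ M with hW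
  have h1 : Module.Finite k (M ⧸ W) :=
    WW_finite k (fun l => (MvPowerSeries.X l : (MvPowerSeries ι k))) hx M (fun _ => 1)
  set ρ := Module.finrank k (M ⧸ W) with hρ
  let b₀ : Module.Basis (Fin ρ) k (M ⧸ W) := Module.finBasisOfFinrankEq k _ rfl
  choose m hm using fun j => W.mkQ_surjective (b₀ j)
  obtain ⟨f, hf⟩ := exists_lin (R := (MvPowerSeries ι k)) m
  have hfs : Function.Surjective f := by
    rw [← LinearMap.range_eq_top]
    have h2 : (⊤ : Submodule (MvPowerSeries ι k) M) ≤ LinearMap.range f ⊔ maximalIdeal (MvPowerSeries ι k) • ⊤ := by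
      intro v _
      let n : M := ∑ j, algebraMap k (MvPowerSeries ι k) (b₀.repr (W.mkQ v) j) • m j
      have hn : n ∈ LinearMap.range f := by
        refine Submodule.sum_mem _ fun j _ => Submodule.smul_mem _ _ ?_
        rw [← hf j]
        exact LinearMap.mem_range_self f _
      have h3 : W.mkQ n = W.mkQ v := by
        conv_rhs => rw [← b₀.sum_repr (W.mkQ v)]
        simp only [n]
        rw [map_sum]
        refine Finset.sum_congr rfl fun j _ => ?_
        rw [map_smul, hm, algebraMap_smul]
      have h4 : v - n ∈ W := by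
        rw [← Submodule.Quotient.mk_eq_zero, ← Submodule.mkQ_apply, map_sub, h3, sub_self]
      rw [hW, WW_eq_smul] at h4
      simp only [pow_one] at h4
      rw [← maxIdeal_eq] at h4
      have h5 : v = n + (v - n) := by abel
      rw [h5]
      exact Submodule.add_mem_sup hn h4
    exact top_le_iff.mp (Submodule.le_of_le_smul_of_le_jacobson_bot Module.Finite.fg_top
      (IsLocalRing.maximalIdeal_le_jacobson _) h2)
  have hinj : Function.Injective f := by
    refine inj_of_surj k hxm hx (Reg.pi reg_X) h ?_ f hfs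
    rw [finrank_free_mod, ← hW, ← hρ]
  let e : (Fin ρ → (MvPowerSeries ι k)) ≃ₗ[(MvPowerSeries ι k)] M := LinearEquiv.ofBijective f ⟨hinj, hfs⟩
  refine ⟨Module.Free.of_equiv e, ?_⟩
  rw [← e.finrank_eq]
  simp

end

end Pool.Agent.TH282.RE
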