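import Pool.Agent.TH282.RE.Cut4

/-!
# Lengths of `M / (x_1 ^ {c_1}, ..., x_d ^ {c_d}) M`
-/

set_option autoImplicit false
set_option linter.unusedSectionVars false

namespace Pool.Agent.TH282.RE

section

variable {R : Type*} [CommRing R] {ι : Type*} [DecidableEq ι] [Fintype ι] (x : ι → R)
  (M : Type*) [AddCommGroup M] [Module R M]

theorem mem_update (c : ι → ℕ) (i : ι) (t : ℕ) (v : M) :
    v ∈ WW x (Function.update c i t) Finset.univ M ↔
      ∃ u, v - x i ^ t • u ∈ WW x c (Finset.univ.erase i) M := by
  have hins : insert i (Finset.univ.erase i) = (Finset.univ : Finset ι) :=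
    Finset.insert_erase (Finset.mem_univ i)
  rw [← hins, WW_insert (Finset.notMem_erase i _)]
  have : WW x (Function.update c i t) (Finset.univ.erase i) M = WW x c (Finset.univ.erase i) M := by
    apply WW_congr
    intro l hl
    rw [Function.update_of_ne (Finset.ne_of_mem_erase hl)]
  rw [this]
  simp

/-- the inequality needs no regularity -/
theorem length_step_le (c : ι → ℕ) (i : ι) (m : ℕ) :
    Module.length R (M ⧸ WW x (Function.update c i (m + 1)) Finset.univ M) ≤
      Module.length R (M ⧸ WW x (Function.update c i m) Finset.univ M) +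
        Module.length R (M ⧸ WW x (Function.update c i 1) Finset.univ M) := by
  set W2 := WW x (Function.update c i (m + 1)) Finset.univ M with hW2
  set W3 := WW x (Function.update c i m) Finset.univ M with hW3
  set W1 := WW x (Function.update c i 1) Finset.univ M with hW1
  have hmem := mem_update x M c i
  have h23 : W2 ≤ W3 := by
    intro v hv
    rw [hW2, hmem] at hv
    rw [hW3, hmem]
    obtain ⟨u, hu⟩ := hv
    refine ⟨x i • u, ?_⟩
    rwa [smul_smul, ← pow_succ]
  have h12 : W1 ≤ W2.comap (LinearMap.lsmul R M (x i ^ m)) := by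
    intro v hv
    rw [hW1, hmem] at hv
    obtain ⟨u, hu⟩ := hv
    rw [Submodule.mem_comap, hW2, hmem]
    refine ⟨u, ?_⟩
    have : (LinearMap.lsmul R M (x i ^ m)) v - x i ^ (m + 1) • u = x i ^ m • (v - x i ^ 1 • u) := by
      rw [LinearMap.lsmul_apply, smul_sub, smul_smul, ← pow_add]
    rw [this]
    exact Submodule.smul_mem _ _ hu
  let f : (M ⧸ W1) →ₗ[R] (M ⧸ W2) := Submodule.mapQ W1 W2 (LinearMap.lsmul R M (x i ^ m)) h12
  let g : (M ⧸ W2) →ₗ[R] (M ⧸ W3) := Submodule.factor h23
  have hg : Function.Surjective g := Submodule.factor_surjective h23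
  have hfg : LinearMap.ker g ≤ LinearMap.range f := by
    intro z hz
    obtain ⟨v, rfl⟩ := W2.mkQ_surjective z
    have h1 : W3.mkQ v = 0 := hz
    rw [Submodule.mkQ_apply, Submodule.Quotient.mk_eq_zero, hW3, hmem] at h1
    obtain ⟨u, hu⟩ := h1
    refine ⟨W1.mkQ u, ?_⟩
    change W2.mkQ (x i ^ m • u) = W2.mkQ v
    rw [← sub_eq_zero, ← map_sub, Submodule.mkQ_apply, Submodule.Quotient.mk_eq_zero, ← neg_mem_iff,
      neg_sub, hW2, hmem]
    exact ⟨0, by simpa using hu⟩
  have h1 := Module.length_eq_add_of_exact (LinearMap.ker g).subtype g (Submodule.subtype_injective _) hg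
    (LinearMap.exact_subtype_ker_map g)
  rw [h1, add_comm]
  gcongr
  calc Module.length R (LinearMap.ker g) ≤ Module.length R (LinearMap.range f) :=
        Module.length_le_of_injective (Submodule.inclusion hfg) (Submodule.inclusion_injective hfg)
    _ ≤ _ := Module.length_le_of_surjective f.rangeRestrict f.surjective_rangeRestrict

theorem length_step (hM : Reg x M) (c : ι → ℕ) (hc : ∀ l, 1 ≤ c l) (i : ι) (m : ℕ) :
    Module.length R (M ⧸ WW x (Function.update c i (m + 1)) Finset.univ M) =
      Module.length R (M ⧸ WW x (Function.update c i 1) Finset.univ M) +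
      Module.length R (M ⧸ WW x (Function.update c i m) Finset.univ M) := by
  set W2 := WW x (Function.update c i (m + 1)) Finset.univ M with hW2
  set W3 := WW x (Function.update c i m) Finset.univ M with hW3
  set W1 := WW x (Function.update c i 1) Finset.univ M with hW1
  have hmem := mem_update x M c i
  have h23 : W2 ≤ W3 := by
    intro v hv
    rw [hW2, hmem] at hv
    rw [hW3, hmem]
    obtain ⟨u, hu⟩ := hv
    refine ⟨x i • u, ?_⟩
    rwa [smul_smul, ← pow_succ]
  have h12 : W1 ≤ W2.comap (LinearMap.lsmul R M (x i ^ m)) := by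
    intro v hv
    rw [hW1, hmem] at hv
    obtain ⟨u, hu⟩ := hv
    rw [Submodule.mem_comap, hW2, hmem]
    refine ⟨u, ?_⟩
    have : (LinearMap.lsmul R M (x i ^ m)) v - x i ^ (m + 1) • u = x i ^ m • (v - x i ^ 1 • u) := by
      rw [LinearMap.lsmul_apply, smul_sub, smul_smul, ← pow_add]
    rw [this]
    exact Submodule.smul_mem _ _ hu
  let f : (M ⧸ W1) →ₗ[R] (M ⧸ W2) := Submodule.mapQ W1 W2 (LinearMap.lsmul R M (x i ^ m)) h12
  let g : (M ⧸ W2) →ₗ[R] (M ⧸ W3) := Submodule.factor h23
  have hf : Function.Injective f := by
    rw [injective_iff_map_eq_zero]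
    intro z hz
    obtain ⟨v, rfl⟩ := W1.mkQ_surjective z
    change W2.mkQ (x i ^ m • v) = 0 at hz
    rw [Submodule.mkQ_apply, Submodule.Quotient.mk_eq_zero, hW2, hmem] at hz
    rw [Submodule.mkQ_apply, Submodule.Quotient.mk_eq_zero, hW1, hmem]
    obtain ⟨u, hu⟩ := hz
    refine ⟨u, ?_⟩
    apply hM i (Finset.univ.erase i) c (Finset.notMem_erase i _) hc m
    rw [smul_sub, smul_smul, ← pow_add]
    exact hu
  have hg : Function.Surjective g := Submodule.factor_surjective h23
  have hfg : Function.Exact f g := by
    intro z
    obtain ⟨v, rfl⟩ := W2.mkQ_surjective z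
    constructor
    · intro hz
      have h1 : W3.mkQ v = 0 := hz
      rw [Submodule.mkQ_apply, Submodule.Quotient.mk_eq_zero, hW3, hmem] at h1
      obtain ⟨u, hu⟩ := h1
      refine ⟨W1.mkQ u, ?_⟩
      change W2.mkQ (x i ^ m • u) = W2.mkQ v
      rw [← sub_eq_zero, ← map_sub, Submodule.mkQ_apply, Submodule.Quotient.mk_eq_zero, ← neg_mem_iff,
        neg_sub, hW2, hmem]
      exact ⟨0, by simpa using hu⟩
    · rintro ⟨w, hw⟩
      obtain ⟨w, rfl⟩ := W1.mkQ_surjective w
      rw [← hw]
      change W3.mkQ (x i ^ m • w) = 0
      rw [Submodule.mkQ_apply, Submodule.Quotient.mk_eq_zero, hW3, hmem]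
      exact ⟨w, by simp⟩
  exact Module.length_eq_add_of_exact f g hf hg hfg

theorem length_zero (c : ι → ℕ) (i : ι) :
    Module.length R (M ⧸ WW x (Function.update c i 0) Finset.univ M) = 0 := by
  rw [Module.length_eq_zero_iff, Submodule.Quotient.subsingleton_iff, eq_top_iff]
  intro v _
  rw [mem_update]
  exact ⟨v, by simp⟩

theorem length_update_le (c : ι → ℕ) (i : ι) (m : ℕ) :
    Module.length R (M ⧸ WW x (Function.update c i m) Finset.univ M) ≤
      m * Module.length R (M ⧸ WW x (Function.update c i 1) Finset.univ M) := by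
  induction m with
  | zero => rw [length_zero]; exact bot_le
  | succ m ih =>
    refine (length_step_le x M c i m).trans ?_
    rw [Nat.cast_succ, add_mul, one_mul]
    gcongr

theorem length_update (hM : Reg x M) (c : ι → ℕ) (hc : ∀ l, 1 ≤ c l) (i : ι) (m : ℕ) :
    Module.length R (M ⧸ WW x (Function.update c i m) Finset.univ M) =
      m * Module.length R (M ⧸ WW x (Function.update c i 1) Finset.univ M) := by
  induction m with
  | zero => rw [length_zero]; simp
  | succ m ih =>
    rw [length_step x M hM c hc i m, ih, Nat.cast_succ, add_mul, one_mul, add_comm]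

theorem length_prod_le (c : ι → ℕ) :
    Module.length R (M ⧸ WW x c Finset.univ M) ≤
      ((∏ l, c l : ℕ) : ℕ∞) * Module.length R (M ⧸ WW x (fun _ => 1) Finset.univ M) := by
  have key : ∀ J : Finset ι,
      Module.length R (M ⧸ WW x (fun l => if l ∈ J then c l else 1) Finset.univ M) ≤
        ((∏ l ∈ J, c l : ℕ) : ℕ∞) * Module.length R (M ⧸ WW x (fun _ => 1) Finset.univ M) := by
    intro J
    induction J using Finset.induction_on with
    | empty =>
      have h0 : (fun l => if l ∈ (∅ : Finset ι) then c l else 1) = fun _ : ι => 1 := by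
        funext l
        simp
      rw [h0, Finset.prod_empty, Nat.cast_one, one_mul]
    | insert j J hj ih =>
      set c' : ι → ℕ := fun l => if l ∈ J then c l else 1 with hc'
      have h1 : (fun l => if l ∈ insert j J then c l else 1) = Function.update c' j (c j) := by
        funext l
        by_cases h : l = j
        · subst h
          simp
        · simp [hc', h]
      have h2 : Function.update c' j 1 = c' := by
        funext l
        by_cases h : l = j
        · subst h
          simp [hc', hj]
        · simp [h]
      rw [h1]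
      refine (length_update_le x M c' j (c j)).trans ?_
      rw [h2, Finset.prod_insert hj, Nat.cast_mul, mul_assoc]
      gcongr
  have h1 := key Finset.univ
  have h2 : (fun l => if l ∈ (Finset.univ : Finset ι) then c l else 1) = c := by
    funext l
    simp
  rw [h2] at h1
  exact h1

theorem length_prod (hM : Reg x M) (c : ι → ℕ) (hc : ∀ l, 1 ≤ c l) :
    Module.length R (M ⧸ WW x c Finset.univ M) =
      ((∏ l, c l : ℕ) : ℕ∞) * Module.length R (M ⧸ WW x (fun _ => 1) Finset.univ M) := by
  have key : ∀ J : Finset ι,
      Module.length R (M ⧸ WW x (fun l => if l ∈ J then c l else 1) Finset.univ M) =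
        ((∏ l ∈ J, c l : ℕ) : ℕ∞) * Module.length R (M ⧸ WW x (fun _ => 1) Finset.univ M) := by
    intro J
    induction J using Finset.induction_on with
    | empty =>
      have h0 : (fun l => if l ∈ (∅ : Finset ι) then c l else 1) = fun _ : ι => 1 := by
        funext l
        simp
      rw [h0, Finset.prod_empty, Nat.cast_one, one_mul]
    | insert j J hj ih =>
      set c' : ι → ℕ := fun l => if l ∈ J then c l else 1 with hc'
      have h1 : (fun l => if l ∈ insert j J then c l else 1) = Function.update c' j (c j) := by
        funext l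
        by_cases h : l = j
        · subst h
          simp
        · simp [hc', h]
      have h2 : Function.update c' j 1 = c' := by
        funext l
        by_cases h : l = j
        · subst h
          simp [hc', hj]
        · simp [h]
      rw [h1, length_update x M hM c' (fun l => by simp only [hc']; split_ifs; exact hc l; exact le_rfl)
        j (c j), h2, ih, Finset.prod_insert hj, Nat.cast_mul, mul_assoc]
  have h1 := key Finset.univ
  have h2 : (fun l => if l ∈ (Finset.univ : Finset ι) then c l else 1) = c := by
    funext l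
    simp
  rw [h2] at h1
  exact h1

end

end Pool.Agent.TH282.RE
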