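import Pool.Agent.TH282.RE.Len

/-!
# Finite length, generators, injectivity
-/

set_option autoImplicit false
set_option linter.unusedSectionVars false

namespace Pool.Agent.TH282.RE

open IsLocalRing

section

variable {R : Type*} [CommRing R] [IsLocalRing R] [IsNoetherianRing R]

theorem length_residue : Module.length R (R ⧸ maximalIdeal R) = 1 := by
  rw [Module.length_eq_one_iff]
  exact (isSimpleModule_iff_quot_maximal (R := R) (M := R ⧸ maximalIdeal R)).mpr
    ⟨maximalIdeal R, maximalIdeal.isMaximal R, ⟨LinearEquiv.refl R _⟩⟩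

theorem length_killed_one {Q : Type*} [AddCommGroup Q] [Module R Q] [Module.Finite R Q]
    (h : ∀ r ∈ maximalIdeal R, ∀ q : Q, r • q = 0) : Module.length R Q ≠ ⊤ := by
  obtain ⟨n, f, hf⟩ := Module.Finite.exists_fin' R Q
  have hk : ∀ v : Fin n → R, (∀ i, v i ∈ maximalIdeal R) → f v = 0 := by
    intro v hv
    have h2 : v = ∑ i, v i • Pi.single i (1 : R) := by
      ext j
      simp [Finset.sum_apply, Pi.single_apply]
    rw [h2, map_sum]
    exact Finset.sum_eq_zero fun i _ => by rw [map_smul, h _ (hv i)]
  let q : (Fin n → R) →ₗ[R] (Fin n → R ⧸ maximalIdeal R) :=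
    LinearMap.pi fun i => (maximalIdeal R).mkQ ∘ₗ LinearMap.proj i
  have hq : Function.Surjective q := by
    intro v
    choose w hw using fun i => Ideal.Quotient.mk_surjective (v i)
    exact ⟨w, funext hw⟩
  have hle : LinearMap.ker q ≤ LinearMap.ker f := by
    intro v hv
    apply hk
    intro i
    have := congrFun (LinearMap.mem_ker.mp hv) i
    exact (Submodule.Quotient.mk_eq_zero _).mp this
  let g : (Fin n → R ⧸ maximalIdeal R) →ₗ[R] Q :=
    ((LinearMap.ker q).liftQ f hle) ∘ₗ (q.quotKerEquivOfSurjective hq).symm.toLinearMap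
  have hg : Function.Surjective g := by
    intro z
    obtain ⟨v, rfl⟩ := hf z
    refine ⟨q v, ?_⟩
    have h2 : (q.quotKerEquivOfSurjective hq).symm (q v) = Submodule.Quotient.mk v := by
      rw [LinearEquiv.symm_apply_eq]
      rfl
    change (LinearMap.ker q).liftQ f hle ((q.quotKerEquivOfSurjective hq).symm (q v)) = f v
    rw [h2]
    rfl
  have h1 := Module.length_le_of_surjective g hg
  rw [Module.length_pi_of_fintype] at h1
  simp only [length_residue, Finset.sum_const, Finset.card_univ, Fintype.card_fin] at h1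
  intro htop
  rw [htop] at h1
  simp at h1

theorem length_killed (T : ℕ) : ∀ {Q : Type*} [AddCommGroup Q] [Module R Q] [Module.Finite R Q],
    (∀ r ∈ maximalIdeal R ^ T, ∀ q : Q, r • q = 0) → Module.length R Q ≠ ⊤ := by
  induction T with
  | zero =>
    intro Q _ _ _ h
    have : Subsingleton Q := ⟨fun a b => by
      have ha := h 1 (by simp) a
      have hb := h 1 (by simp) b
      rw [one_smul] at ha hb
      rw [ha, hb]⟩
    rw [Module.length_eq_zero]
    simp
  | succ T ih =>
    intro Q _ _ _ h
    let Q' : Submodule R Q := maximalIdeal R ^ T • ⊤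
    have h1 : Module.length R Q' ≠ ⊤ := by
      apply length_killed_one
      rintro r hr ⟨q, hq⟩
      ext
      change r • q = 0
      induction hq using Submodule.smul_induction_on' with
      | smul a ha q _ =>
        rw [smul_smul]
        apply h
        rw [pow_succ, mul_comm]
        exact Ideal.mul_mem_mul hr ha
      | add a _ b _ ha hb => rw [smul_add, ha, hb, add_zero]
    have h2 : Module.length R (Q ⧸ Q') ≠ ⊤ := by
      apply ih
      intro r hr q
      obtain ⟨q, rfl⟩ := Q'.mkQ_surjective q
      rw [← map_smul, Submodule.mkQ_apply, Submodule.Quotient.mk_eq_zero]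
      exact Submodule.smul_mem_smul hr Submodule.mem_top
    rw [Module.length_eq_add_of_exact Q'.subtype Q'.mkQ Q'.injective_subtype Q'.mkQ_surjective
      (LinearMap.exact_subtype_mkQ Q')]
    exact WithTop.add_ne_top.mpr ⟨h1, h2⟩

variable {ι : Type*} [DecidableEq ι] [Fintype ι] {x : ι → R}

theorem length_WW (hx : ∃ t, maximalIdeal R ^ t ≤ Ideal.span (Set.range x)) (M : Type*)
    [AddCommGroup M] [Module R M] [Module.Finite R M] (c : ι → ℕ) :
    Module.length R (M ⧸ WW x c Finset.univ M) ≠ ⊤ := by
  obtain ⟨t, ht⟩ := hx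
  obtain ⟨T, hT⟩ := pow_le_span x c
  apply length_killed (t * T)
  intro r hr q
  obtain ⟨q, rfl⟩ := Submodule.mkQ_surjective _ q
  rw [← map_smul, Submodule.mkQ_apply, Submodule.Quotient.mk_eq_zero, WW_eq_smul]
  refine Submodule.smul_mem_smul ?_ Submodule.mem_top
  apply hT
  rw [pow_mul] at hr
  exact Ideal.pow_right_mono ht T hr

theorem inj_of_surj_length {A B : Type*} [AddCommGroup A] [Module R A] [AddCommGroup B] [Module R B]
    (f : A →ₗ[R] B) (hf : Function.Surjective f) (hA : Module.length R A ≠ ⊤)
    (h : Module.length R A ≤ Module.length R B) : Function.Injective f := by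
  have h1 := Module.length_eq_add_of_exact (LinearMap.ker f).subtype f (Submodule.subtype_injective _) hf
    (LinearMap.exact_subtype_ker_map f)
  have h2 : Module.length R (LinearMap.ker f) = 0 := by
    have hB : Module.length R B ≠ ⊤ := fun htop => hA (by rw [h1, htop, add_top])
    rw [h1] at h
    obtain ⟨b, hb⟩ := ENat.ne_top_iff_exists.mp hB
    have hK : Module.length R (LinearMap.ker f) ≠ ⊤ := fun htop => hA (by rw [h1, htop, top_add])
    obtain ⟨a, ha⟩ := ENat.ne_top_iff_exists.mp hK
    rw [← ha, ← hb] at h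
    rw [← ha]
    have h3 : a + b ≤ b := by exact_mod_cast h
    have h4 : a = 0 := by omega
    rw [h4]
    rfl
  rw [Module.length_eq_zero_iff] at h2
  rw [← LinearMap.ker_eq_bot, ← Submodule.subsingleton_iff_eq_bot]
  exact h2

theorem inj_of_surj' (hxm : ∀ l, x l ∈ maximalIdeal R)
    (hx : ∃ t, maximalIdeal R ^ t ≤ Ideal.span (Set.range x))
    {M M' : Type*} [AddCommGroup M] [Module R M] [Module.Finite R M] [AddCommGroup M'] [Module R M']
    [Module.Finite R M'] (hM : Reg x M) (hM' : Reg x M')
    (hρ : Module.length R (M ⧸ WW x (fun _ => 1) Finset.univ M) =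
      Module.length R (M' ⧸ WW x (fun _ => 1) Finset.univ M'))
    (h : M →ₗ[R] M') (hh : Function.Surjective h) : Function.Injective h := by
  have key : ∀ N : ℕ, 1 ≤ N → ∀ v, h v = 0 → v ∈ WW x (fun _ => N) Finset.univ M := by
    intro N hN v hv
    have h1 : WW x (fun _ => N) Finset.univ M ≤ (WW x (fun _ => N) Finset.univ M').comap h :=
      fun w hw => WW_map h hw
    let f : (M ⧸ WW x (fun _ => N) Finset.univ M) →ₗ[R] (M' ⧸ WW x (fun _ => N) Finset.univ M') :=
      Submodule.mapQ _ _ h h1
    have hf : Function.Surjective f := by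
      intro q
      obtain ⟨w, rfl⟩ := Submodule.mkQ_surjective _ q
      obtain ⟨w', rfl⟩ := hh w
      exact ⟨Submodule.Quotient.mk w', rfl⟩
    have h5 : Function.Injective f := by
      apply inj_of_surj_length f hf (length_WW hx M _)
      rw [length_prod x M hM (fun _ => N) (fun _ => hN), length_prod x M' hM' (fun _ => N) (fun _ => hN),
        hρ]
    rw [← Submodule.Quotient.mk_eq_zero]
    apply h5
    rw [map_zero]
    change Submodule.Quotient.mk (h v) = 0
    rw [hv, Submodule.Quotient.mk_zero]
  rw [injective_iff_map_eq_zero]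
  intro v hv
  have h6 : v ∈ (⨅ i : ℕ, maximalIdeal R ^ i • ⊤ : Submodule R M) := by
    rw [Submodule.mem_iInf]
    intro i
    rcases Nat.eq_zero_or_pos i with hi | hi
    · subst hi
      rw [pow_zero, Ideal.one_eq_top, Submodule.top_smul]
      trivial
    · have := key i hi v hv
      rw [WW_eq_smul] at this
      refine Submodule.smul_mono_left ?_ this
      rw [Ideal.span_le]
      rintro _ ⟨l, rfl⟩
      exact Ideal.pow_mem_pow (hxm l) i
  rw [Ideal.iInf_pow_smul_eq_bot_of_isLocalRing _ (maximalIdeal.isMaximal R).ne_top] at h6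
  exact h6

/-- few generators -/
theorem exists_gens (N : ℕ) : ∀ (M : Type*) [AddCommGroup M] [Module R M] [Module.Finite R M],
    Module.length R (M ⧸ (maximalIdeal R • ⊤ : Submodule R M)) ≤ N →
      ∃ f : (Fin N → R) →ₗ[R] M, Function.Surjective f := by
  induction N with
  | zero =>
    intro M _ _ _ h
    have h1 : Module.length R (M ⧸ (maximalIdeal R • ⊤ : Submodule R M)) = 0 := by
      apply le_antisymm _ bot_le
      exact_mod_cast h
    rw [Module.length_eq_zero_iff, Submodule.Quotient.subsingleton_iff] at h1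
    have h2 : (⊤ : Submodule R M) ≤ ⊥ := by
      apply Submodule.le_of_le_smul_of_le_jacobson_bot (IsNoetherian.noetherian _)
        (IsLocalRing.maximalIdeal_le_jacobson _)
      rw [bot_sup_eq]
      exact h1.ge
    refine ⟨0, fun m => ⟨0, ?_⟩⟩
    have := h2 (Submodule.mem_top (x := m))
    rw [Submodule.mem_bot] at this
    rw [this]
    rfl
  | succ N ih =>
    intro M _ _ _ h
    by_cases hM : ∀ m : M, m ∈ (maximalIdeal R • ⊤ : Submodule R M)
    · have h2 : (⊤ : Submodule R M) ≤ ⊥ := by
        apply Submodule.le_of_le_smul_of_le_jacobson_bot (IsNoetherian.noetherian _)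
          (IsLocalRing.maximalIdeal_le_jacobson _)
        rw [bot_sup_eq]
        exact fun m _ => hM m
      refine ⟨0, fun m => ⟨0, ?_⟩⟩
      have := h2 (Submodule.mem_top (x := m))
      rw [Submodule.mem_bot] at this
      rw [this]
      rfl
    · push Not at hM
      obtain ⟨m, hm⟩ := hM
      let M' := M ⧸ (Submodule.span R {m})
      let W := (maximalIdeal R • ⊤ : Submodule R M)
      let W' := (maximalIdeal R • ⊤ : Submodule R M')
      have hW : W ≤ W'.comap (Submodule.span R {m}).mkQ := by
        rw [← Submodule.map_le_iff_le_comap, Submodule.map_smul'']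
        exact Submodule.smul_mono le_rfl le_top
      let q : (M ⧸ W) →ₗ[R] (M' ⧸ W') := Submodule.mapQ _ _ (Submodule.span R {m}).mkQ hW
      have hq : Function.Surjective q := by
        intro z
        obtain ⟨z, rfl⟩ := Submodule.mkQ_surjective _ z
        obtain ⟨z, rfl⟩ := Submodule.mkQ_surjective _ z
        exact ⟨Submodule.Quotient.mk z, rfl⟩
      have h1 := Module.length_eq_add_of_exact (LinearMap.ker q).subtype q
        (Submodule.subtype_injective _) hq (LinearMap.exact_subtype_ker_map q)
      have h2 : 0 < Module.length R (LinearMap.ker q) := by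
        rw [Module.length_pos_iff]
        refine ⟨⟨⟨Submodule.Quotient.mk m, ?_⟩, 0, ?_⟩⟩
        · rw [LinearMap.mem_ker]
          change Submodule.Quotient.mk ((Submodule.span R {m}).mkQ m) = (0 : M' ⧸ W')
          have h3 : (Submodule.span R {m}).mkQ m = 0 := by
            rw [Submodule.mkQ_apply, Submodule.Quotient.mk_eq_zero]
            exact Submodule.mem_span_singleton_self m
          rw [h3, Submodule.Quotient.mk_zero]
        · intro h3
          apply hm
          rw [← Submodule.Quotient.mk_eq_zero]
          exact congrArg Subtype.val h3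
      have h3 : Module.length R (M' ⧸ W') ≤ N := by
        rw [h1] at h
        have h4 : (1 : ℕ∞) ≤ Module.length R (LinearMap.ker q) := Order.one_le_iff_pos.mpr h2
        have h5 : 1 + Module.length R (M' ⧸ W') ≤ 1 + (N : ℕ∞) := by
          calc 1 + Module.length R (M' ⧸ W') ≤ Module.length R (LinearMap.ker q) +
                Module.length R (M' ⧸ W') := by gcongr
            _ ≤ ((N + 1 : ℕ) : ℕ∞) := h
            _ = 1 + (N : ℕ∞) := by push_cast; ring
        exact (ENat.add_le_add_iff_left (by simp)).mp h5
      obtain ⟨f, hf⟩ := ih M' h3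
      obtain ⟨F, hF⟩ := lift_lin (Submodule.span R {m}).mkQ f (fun s => Submodule.mkQ_surjective _ _)
      let G : (Fin (N + 1) → R) →ₗ[R] M :=
        (LinearMap.toSpanSingleton R M m) ∘ₗ (LinearMap.proj 0) +
          F ∘ₗ (LinearMap.funLeft R R (Fin.succ : Fin N → Fin (N + 1)))
      refine ⟨G, fun z => ?_⟩
      obtain ⟨v, hv⟩ := hf ((Submodule.span R {m}).mkQ z)
      have h6 : z - F v ∈ Submodule.span R {m} := by
        rw [← Submodule.Quotient.mk_eq_zero, ← Submodule.mkQ_apply, map_sub, hF, hv, sub_self]
      rw [Submodule.mem_span_singleton] at h6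
      obtain ⟨a, ha⟩ := h6
      refine ⟨Fin.cons a v, ?_⟩
      change (Fin.cons a v : Fin (N + 1) → R) 0 • m + F (fun i => (Fin.cons a v : Fin (N + 1) → R) i.succ) = z
      simp only [Fin.cons_zero, Fin.cons_succ]
      rw [ha]
      abel

end

end Pool.Agent.TH282.RE
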