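import Pool.Agent.TH282.RE.Len2

/-!
# Limits of submodules of a free module, finite residue field
-/

set_option autoImplicit false
set_option linter.unusedSectionVars false

namespace Pool.Agent.TH282.RE

open IsLocalRing

section

variable {R : Type*} [CommRing R] [IsLocalRing R] [IsNoetherianRing R]

/-- vectors with all coordinates in the `L`-th power of the maximal ideal -/
def EL (R : Type*) [CommRing R] [IsLocalRing R] (p L : ℕ) : Submodule R (Fin p → R) where
  carrier := {v | ∀ i, v i ∈ maximalIdeal R ^ L}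
  add_mem' := fun ha hb i => Ideal.add_mem _ (ha i) (hb i)
  zero_mem' := fun i => Ideal.zero_mem _
  smul_mem' := fun r v hv i => Ideal.mul_mem_left _ r (hv i)

theorem EL_mono {p L L' : ℕ} (h : L ≤ L') : EL R p L' ≤ EL R p L :=
  fun _ hv i => Ideal.pow_le_pow_right h (hv i)

theorem EL_le_smul {p L : ℕ} {X : Type*} [AddCommGroup X] [Module R X] (f : (Fin p → R) →ₗ[R] X)
    {v : Fin p → R} (hv : v ∈ EL R p L) : f v ∈ (maximalIdeal R ^ L • ⊤ : Submodule R X) := by
  have h2 : v = ∑ i, v i • Pi.single i (1 : R) := by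
    ext j
    simp [Finset.sum_apply, Pi.single_apply]
  rw [h2, map_sum]
  refine Submodule.sum_mem _ fun i _ => ?_
  rw [map_smul]
  exact Submodule.smul_mem_smul (hv i) Submodule.mem_top

theorem exists_limit [Finite (ResidueField R)] (hc : IsAdicComplete (maximalIdeal R) R) (p : ℕ)
    (𝒰 : Ultrafilter ℕ) (K : ℕ → Submodule R (Fin p → R)) :
    ∃ K' : Submodule R (Fin p → R), ∀ L : ℕ, ∀ᶠ n in (𝒰 : Filter ℕ),
      K n ⊔ EL R p L = K' ⊔ EL R p L := by
  have hfin : Finite (R ⧸ maximalIdeal R) := inferInstanceAs (Finite (ResidueField R))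
  have hq : ∀ L : ℕ, ∃ (𝒦 : Submodule R (Fin p → R)), ∀ᶠ n in (𝒰 : Filter ℕ), K n ⊔ EL R p L = 𝒦 := by
    intro L
    have hfL : Finite (R ⧸ maximalIdeal R ^ L) :=
      Ideal.finite_quotient_pow (IsNoetherian.noetherian _) L
    let q : (Fin p → R) →ₗ[R] (Fin p → R ⧸ maximalIdeal R ^ L) :=
      LinearMap.pi fun i => (maximalIdeal R ^ L).mkQ ∘ₗ LinearMap.proj i
    have hqk : LinearMap.ker q = EL R p L := by
      ext v
      rw [LinearMap.mem_ker]
      constructor
      · intro h i
        exact (Submodule.Quotient.mk_eq_zero _).mp (congrFun h i)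
      · intro h
        funext i
        exact (Submodule.Quotient.mk_eq_zero _).mpr (h i)
    obtain ⟨S, hS⟩ := Ultrafilter.eq_pure_of_finite (𝒰.map fun n => (K n).map q)
    refine ⟨S.comap q, ?_⟩
    have h1 : {S} ∈ 𝒰.map fun n => (K n).map q := by
      rw [hS]
      exact Ultrafilter.mem_pure.mpr rfl
    have h2 : ∀ᶠ n in (𝒰 : Filter ℕ), (K n).map q = S := h1
    filter_upwards [h2] with n hn
    rw [← hn, Submodule.comap_map_eq, hqk]
  choose 𝒦 h𝒦 using hq
  have hE : ∀ L, EL R p L ≤ 𝒦 L := by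
    intro L
    obtain ⟨n, hn⟩ := (h𝒦 L).exists
    rw [← hn]
    exact le_sup_right
  have hmono : ∀ L, 𝒦 (L + 1) ≤ 𝒦 L := by
    intro L
    obtain ⟨n, hn, hn'⟩ := ((h𝒦 L).and (h𝒦 (L + 1))).exists
    rw [← hn, ← hn']
    exact sup_le_sup_left (EL_mono (Nat.le_succ L)) _
  have hanti : Antitone 𝒦 := antitone_nat_of_succ_le hmono
  have hstep : ∀ L, ∀ v ∈ 𝒦 L, ∃ u ∈ 𝒦 (L + 1), u - v ∈ EL R p L := by
    intro L v hv
    obtain ⟨n, hn, hn'⟩ := ((h𝒦 L).and (h𝒦 (L + 1))).exists
    rw [← hn] at hv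
    obtain ⟨k, hk, e, he, rfl⟩ := Submodule.mem_sup.mp hv
    refine ⟨k, ?_, ?_⟩
    · rw [← hn']
      exact Submodule.mem_sup_left hk
    · have : k - (k + e) = -e := by abel
      rw [this]
      exact Submodule.neg_mem _ he
  refine ⟨⨅ L, 𝒦 L, fun L => ?_⟩
  filter_upwards [h𝒦 L] with n hn
  rw [hn]
  apply le_antisymm
  · intro v hv
    let step : ∀ j : ℕ, {u // u ∈ 𝒦 (L + j)} → {u // u ∈ 𝒦 (L + (j + 1))} := fun j u =>
      ⟨(hstep (L + j) u.1 u.2).choose, (hstep (L + j) u.1 u.2).choose_spec.1⟩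
    have hstep' : ∀ j u, (step j u).1 - u.1 ∈ EL R p (L + j) := fun j u =>
      (hstep (L + j) u.1 u.2).choose_spec.2
    let w : ∀ j : ℕ, {u // u ∈ 𝒦 (L + j)} := fun j => Nat.rec ⟨v, hv⟩ step j
    have hw0 : (w 0).1 = v := rfl
    have hws : ∀ j, (w (j + 1)).1 - (w j).1 ∈ EL R p (L + j) := fun j => hstep' j (w j)
    have hdiff : ∀ j k, (w (j + k)).1 - (w j).1 ∈ EL R p (L + j) := by
      intro j k
      induction k with
      | zero => rw [Nat.add_zero, sub_self]; exact Submodule.zero_mem _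
      | succ k ih =>
        have h1 := EL_mono (R := R) (p := p) (show L + j ≤ L + (j + k) by omega) (hws (j + k))
        have h2 := Submodule.add_mem _ h1 ih
        have h3 : (w (j + (k + 1))).1 - (w j).1 =
            ((w (j + k + 1)).1 - (w (j + k)).1) + ((w (j + k)).1 - (w j).1) := by
          rw [show j + (k + 1) = j + k + 1 by ring]
          abel
        rw [h3]
        exact h2
    have hlim : ∀ s : Fin p, ∃ a : R, ∀ j, (w j).1 s - a ∈ maximalIdeal R ^ j := by
      intro s
      have hpre : IsPrecomplete (maximalIdeal R) R := inferInstance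
      obtain ⟨a, ha⟩ := IsPrecomplete.prec hpre (f := fun j => (w j).1 s) (by
        intro m n hmn
        obtain ⟨k, rfl⟩ := Nat.exists_eq_add_of_le hmn
        rw [SModEq.sub_mem, smul_eq_mul, Ideal.mul_top]
        have h1 := hdiff m k s
        rw [← neg_mem_iff, neg_sub]
        exact Ideal.pow_le_pow_right (by omega) h1)
      refine ⟨a, fun j => ?_⟩
      have := ha j
      rwa [SModEq.sub_mem, smul_eq_mul, Ideal.mul_top] at this
    choose a ha using hlim
    have hae : ∀ j, (w j).1 - a ∈ EL R p j := fun j s => ha s j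
    have haK : ∀ j, a ∈ 𝒦 j := by
      intro j
      have h1 : (w j).1 ∈ 𝒦 j := hanti (by omega) (w j).2
      have h2 : a = (w j).1 - ((w j).1 - a) := by abel
      rw [h2]
      exact Submodule.sub_mem _ h1 (hE j (hae j))
    have h3 : v = a + (((w L).1 - a) - ((w (0 + L)).1 - (w 0).1)) := by
      rw [hw0, Nat.zero_add]
      abel
    rw [h3]
    refine Submodule.add_mem_sup ?_ ?_
    · rw [Submodule.mem_iInf]
      exact haK
    · exact Submodule.sub_mem _ (hae L) (hdiff 0 L)
  · exact sup_le (iInf_le _ L) (hE L)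

end

end Pool.Agent.TH282.RE
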