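import Mathlib

/-!
# Lifting homomorphisms modulo powers of parameters, with a bounded loss

A finitely generated module is presented as `P / K`, `P = Fin p → R`.  Multiplication by `z ^ e` on `P / K`
factors through a free module iff there is `γ : P → K` with `γ = z ^ e` on `K`.
-/

set_option autoImplicit false
set_option linter.unusedSectionVars false

namespace Pool.Agent.TH282.RE

section WW

variable {R : Type*} [CommRing R] {ι : Type*} [DecidableEq ι] (x : ι → R)

/-- the submodule `∑_{l ∈ J} x_l ^ {c_l} X` -/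
def WW (c : ι → ℕ) (J : Finset ι) (X : Type*) [AddCommGroup X] [Module R X] : Submodule R X where
  carrier := {v | ∃ w : ι → X, v = ∑ l ∈ J, x l ^ c l • w l}
  add_mem' := by
    rintro a b ⟨w, rfl⟩ ⟨w', rfl⟩
    refine ⟨fun l => w l + w' l, ?_⟩
    rw [← Finset.sum_add_distrib]
    simp only [smul_add]
  zero_mem' := ⟨fun _ => 0, by simp⟩
  smul_mem' := by
    rintro r a ⟨w, rfl⟩
    refine ⟨fun l => r • w l, ?_⟩
    rw [Finset.smul_sum]
    exact Finset.sum_congr rfl fun l _ => smul_comm _ _ _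

variable {x} {X Y : Type*} [AddCommGroup X] [Module R X] [AddCommGroup Y] [Module R Y]

theorem WW_mem {c : ι → ℕ} {J : Finset ι} {v : X} :
    v ∈ WW x c J X ↔ ∃ w : ι → X, v = ∑ l ∈ J, x l ^ c l • w l := Iff.rfl

theorem WW_single {c : ι → ℕ} {J : Finset ι} {l : ι} (hl : l ∈ J) (u : X) :
    x l ^ c l • u ∈ WW x c J X := by
  refine ⟨fun i => if i = l then u else 0, ?_⟩
  rw [Finset.sum_eq_single l]
  · simp
  · intro b _ hb
    simp [hb]
  · intro h
    exact absurd hl h

theorem WW_mono {c c' : ι → ℕ} {J J' : Finset ι} (hJ : J ⊆ J') (hc : ∀ l ∈ J, c' l ≤ c l) :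
    WW x c J X ≤ WW x c' J' X := by
  rintro _ ⟨w, rfl⟩
  refine Submodule.sum_mem _ fun l hl => ?_
  have : x l ^ c l • w l = x l ^ c' l • (x l ^ (c l - c' l) • w l) := by
    rw [smul_smul, ← pow_add, Nat.add_sub_cancel' (hc l hl)]
  rw [this]
  exact WW_single (hJ hl) _

theorem WW_congr {c c' : ι → ℕ} {J : Finset ι} (hc : ∀ l ∈ J, c l = c' l) :
    WW x c J X = WW x c' J X :=
  le_antisymm (WW_mono (Finset.Subset.refl _) fun l hl => (hc l hl).ge)
    (WW_mono (Finset.Subset.refl _) fun l hl => (hc l hl).le)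

theorem WW_insert {c : ι → ℕ} {J : Finset ι} {j : ι} (hj : j ∉ J) {v : X} :
    v ∈ WW x c (insert j J) X ↔ ∃ u, v - x j ^ c j • u ∈ WW x c J X := by
  constructor
  · rintro ⟨w, rfl⟩
    refine ⟨w j, w, ?_⟩
    rw [Finset.sum_insert hj, add_sub_cancel_left]
  · rintro ⟨u, hu⟩
    have : v = (v - x j ^ c j • u) + x j ^ c j • u := by abel
    rw [this]
    exact Submodule.add_mem _ (WW_mono (Finset.subset_insert j J) (fun _ _ => le_rfl) hu)
      (WW_single (Finset.mem_insert_self j J) u)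

theorem WW_map {c : ι → ℕ} {J : Finset ι} (f : X →ₗ[R] Y) {v : X} (hv : v ∈ WW x c J X) :
    f v ∈ WW x c J Y := by
  obtain ⟨w, rfl⟩ := hv
  refine ⟨fun l => f (w l), ?_⟩
  rw [map_sum]
  exact Finset.sum_congr rfl fun l _ => map_smul _ _ _

theorem WW_empty {c : ι → ℕ} {v : X} : v ∈ WW x c ∅ X ↔ v = 0 := by
  constructor
  · rintro ⟨w, rfl⟩
    simp
  · rintro rfl
    exact Submodule.zero_mem _

end WW

section Lift

variable {R : Type*} [CommRing R] {X : Type*} [AddCommGroup X] [Module R X]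

/-- the linear map with given values on the standard basis -/
theorem exists_lin {p : ℕ} (u : Fin p → X) :
    ∃ T : (Fin p → R) →ₗ[R] X, ∀ s, T (Pi.single s 1) = u s := by
  refine ⟨(Pi.basisFun R (Fin p)).constr R u, fun s => ?_⟩
  have := (Pi.basisFun R (Fin p)).constr_basis R u s
  rwa [Pi.basisFun_apply] at this

theorem mem_of_basis {p : ℕ} (T : (Fin p → R) →ₗ[R] X) (W : Submodule R X)
    (h : ∀ s, T (Pi.single s 1) ∈ W) (v : Fin p → R) : T v ∈ W := by
  have h2 : v = ∑ i, v i • Pi.single i (1 : R) := by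
    ext j
    simp [Finset.sum_apply, Pi.single_apply]
  rw [h2, map_sum]
  refine Submodule.sum_mem _ fun i _ => ?_
  rw [map_smul]
  exact W.smul_mem _ (h i)

/-- **the division step** -/
theorem lemmaZ {p : ℕ} (K : Submodule R (Fin p → R)) (z : R) (e b : ℕ)
    (γ : (Fin p → R) →ₗ[R] (Fin p → R)) (hγK : ∀ v, γ v ∈ K) (hγ : ∀ v ∈ K, γ v = z ^ e • v)
    (W W' : Submodule R X) (h1 : ∀ v, z ^ e • v ∈ W → v ∈ W') (f : (Fin p → R) →ₗ[R] X)
    (hf : ∀ v ∈ K, ∃ u, f v - z ^ b • u ∈ W) (hb : e ≤ b) :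
    ∃ h : (Fin p → R) →ₗ[R] X, (∀ v ∈ K, h v ∈ W') ∧ ∀ v, ∃ u, h v - f v = z ^ (b - e) • u := by
  have h2 : ∀ s : Fin p, ∃ u, f (γ (Pi.single s 1)) - z ^ b • u ∈ W := fun s => hf _ (hγK _)
  choose u hu using h2
  obtain ⟨T, hT⟩ := exists_lin (R := R) u
  have h3 : ∀ v, f (γ v) - z ^ b • T v ∈ W := by
    intro v
    have := mem_of_basis (f ∘ₗ γ - z ^ b • T) W (by
      intro s
      change f (γ (Pi.single s 1)) - z ^ b • T (Pi.single s 1) ∈ W
      rw [hT]
      exact hu s) v
    exact this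
  refine ⟨f - z ^ (b - e) • T, ?_, ?_⟩
  · intro v hv
    apply h1
    have h4 : z ^ e • (f - z ^ (b - e) • T) v = f (γ v) - z ^ b • T v := by
      rw [hγ v hv, map_smul, LinearMap.sub_apply, LinearMap.smul_apply, smul_sub, smul_smul,
        ← pow_add, Nat.add_sub_cancel' hb]
    rw [h4]
    exact h3 v
  · intro v
    refine ⟨-T v, ?_⟩
    rw [LinearMap.sub_apply, LinearMap.smul_apply, smul_neg]
    abel

end Lift

section Steps

variable {R : Type*} [CommRing R] {ι : Type*} [DecidableEq ι] [Fintype ι] (x : ι → R)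
  {X : Type*} [AddCommGroup X] [Module R X]

/-- all powers of the `x_l` act regularly modulo powers of the others -/
def Reg (X : Type*) [AddCommGroup X] [Module R X] : Prop :=
  ∀ (i : ι) (J : Finset ι) (c : ι → ℕ), i ∉ J → (∀ l, 1 ≤ c l) → ∀ (m : ℕ) (v : X),
    x i ^ m • v ∈ WW x c J X → v ∈ WW x c J X

/-- multiplication by `z ^ e` on `P / K` factors through a free module -/
def Fac {p : ℕ} (K : Submodule R (Fin p → R)) (z : R) (e : ℕ) : Prop :=
  ∃ γ : (Fin p → R) →ₗ[R] (Fin p → R), (∀ v, γ v ∈ K) ∧ ∀ v ∈ K, γ v = z ^ e • v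

/-- a map modulo `(x_1 ^ b, ..., x_d ^ b)` lifts, modulo `(x_1 ^ {b - e}, ...)` -/
theorem lift_true {p : ℕ} (K : Submodule R (Fin p → R)) (e b : ℕ) (hK : ∀ l, Fac K (x l) e)
    (hX : Reg x X) (f : (Fin p → R) →ₗ[R] X)
    (hf : ∀ v ∈ K, f v ∈ WW x (fun _ => b) Finset.univ X) (heb : e + 1 ≤ b) :
    ∃ h : (Fin p → R) →ₗ[R] X, (∀ v ∈ K, h v = 0) ∧
      ∀ v, h v - f v ∈ WW x (fun _ => b - e) Finset.univ X := by
  have key : ∀ J : Finset ι, ∃ h : (Fin p → R) →ₗ[R] X,
      (∀ v ∈ K, h v ∈ WW x (fun _ => b) (Finset.univ \ J) X) ∧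
      ∀ v, h v - f v ∈ WW x (fun _ => b - e) Finset.univ X := by
    intro J
    induction J using Finset.induction_on with
    | empty => exact ⟨f, by simpa using hf, fun v => by simp⟩
    | insert j J hj ih =>
      obtain ⟨g, hg1, hg2⟩ := ih
      obtain ⟨γ, hγK, hγ⟩ := hK j
      have hins : Finset.univ \ J = insert j (Finset.univ \ insert j J) := by
        ext l
        by_cases h : l = j
        · subst h
          simp [hj]
        · simp [h]
      have hnot : j ∉ Finset.univ \ insert j J := by simp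
      obtain ⟨h, hh1, hh2⟩ := lemmaZ K (x j) e b γ hγK hγ (WW x (fun _ => b) (Finset.univ \ insert j J) X)
        (WW x (fun _ => b) (Finset.univ \ insert j J) X)
        (fun v hv => hX j _ _ hnot (fun _ => by omega) e v hv) g (by
          intro v hv
          have := hg1 v hv
          rw [hins, WW_insert hnot] at this
          exact this) (by omega)
      refine ⟨h, hh1, fun v => ?_⟩
      obtain ⟨u, hu⟩ := hh2 v
      have : h v - f v = x j ^ (b - e) • u + (g v - f v) := by
        rw [← hu]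
        abel
      rw [this]
      exact Submodule.add_mem _ (WW_single (c := fun _ => b - e) (Finset.mem_univ j) u) (hg2 v)
  obtain ⟨h, h1, h2⟩ := key Finset.univ
  refine ⟨h, fun v hv => ?_, h2⟩
  have := h1 v hv
  rw [Finset.sdiff_self, WW_empty] at this
  exact this

/-- the reduction map on `Ext^1(M, M / (x ^ b))` is zero -/
theorem zero_red {p p₁ : ℕ} (i₁ : (Fin p₁ → R) →ₗ[R] (Fin p → R)) (e b : ℕ)
    (hK₁ : ∀ l, Fac (LinearMap.ker i₁) (x l) e) (hX : Reg x X)
    (hrig : ∀ f : (Fin p₁ → R) →ₗ[R] X, (∀ v ∈ LinearMap.ker i₁, f v = 0) →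
      ∃ F : (Fin p → R) →ₗ[R] X, ∀ v, F (i₁ v) = f v) (heb : e + 1 ≤ b) (J : Finset ι) :
    ∀ f : (Fin p₁ → R) →ₗ[R] X, (∀ v ∈ LinearMap.ker i₁, f v ∈ WW x (fun _ => b) J X) →
      ∃ F : (Fin p → R) →ₗ[R] X, ∀ v, F (i₁ v) - f v ∈ WW x (fun _ => b - e) J X := by
  induction J using Finset.induction_on with
  | empty =>
    intro f hf
    obtain ⟨F, hF⟩ := hrig f (fun v hv => WW_empty.mp (hf v hv))
    exact ⟨F, fun v => by rw [hF, sub_self]; exact Submodule.zero_mem _⟩
  | insert j J hj ih =>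
    intro f hf
    obtain ⟨γ, hγK, hγ⟩ := hK₁ j
    obtain ⟨h, hh1, hh2⟩ := lemmaZ (LinearMap.ker i₁) (x j) e b γ hγK hγ (WW x (fun _ => b) J X)
      (WW x (fun _ => b) J X) (fun v hv => hX j _ _ hj (fun _ => by omega) e v hv) f (by
        intro v hv
        exact (WW_insert hj).mp (hf v hv)) (by omega)
    obtain ⟨F, hF⟩ := ih h hh1
    refine ⟨F, fun v => ?_⟩
    obtain ⟨u, hu⟩ := hh2 v
    have : F (i₁ v) - f v = (F (i₁ v) - h v) + x j ^ (b - e) • u := by
      rw [← hu]
      abel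
    rw [this]
    exact Submodule.add_mem _ (WW_mono (Finset.subset_insert j J) (fun _ _ => le_rfl) (hF v))
      (WW_single (c := fun _ => b - e) (Finset.mem_insert_self j J) u)

/-- improvement of a map to a module which is flat at level `L` -/
theorem improve {p : ℕ} (K : Submodule R (Fin p → R)) (e L : ℕ) (hK : ∀ l, Fac K (x l) e)
    (hX : ∀ (i : ι) (c : ι → ℕ), (∀ l, 1 ≤ c l) → (∀ l, c l ≤ L) → ∀ v : X,
      x i ^ e • v ∈ WW x c (Finset.univ.erase i) X →
        ∃ u, v - x i ^ (L - e) • u ∈ WW x c (Finset.univ.erase i) X)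
    (f : (Fin p → R) →ₗ[R] X) (heL : 3 * e + 1 ≤ L)
    (hf : ∀ v ∈ K, f v ∈ WW x (fun _ => L - 2 * e) Finset.univ X) :
    ∃ h : (Fin p → R) →ₗ[R] X, (∀ v ∈ K, h v ∈ WW x (fun _ => L - e) Finset.univ X) ∧
      ∀ v, h v - f v ∈ WW x (fun _ => L - 3 * e) Finset.univ X := by
  have key : ∀ J : Finset ι, ∃ h : (Fin p → R) →ₗ[R] X,
      (∀ v ∈ K, h v ∈ WW x (fun l => if l ∈ J then L - e else L - 2 * e) Finset.univ X) ∧
      ∀ v, h v - f v ∈ WW x (fun _ => L - 3 * e) Finset.univ X := by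
    intro J
    induction J using Finset.induction_on with
    | empty => exact ⟨f, by simpa using hf, fun v => by simp⟩
    | insert j J hj ih =>
      obtain ⟨g, hg1, hg2⟩ := ih
      obtain ⟨γ, hγK, hγ⟩ := hK j
      set c : ι → ℕ := fun l => if l ∈ J then L - e else L - 2 * e with hc
      set c' : ι → ℕ := fun l => if l ∈ insert j J then L - e else L - 2 * e with hc'
      have hcj : c j = L - 2 * e := by simp [hc, hj]
      have hcj' : c' j = L - e := by simp [hc']
      have hcc : ∀ l ∈ Finset.univ.erase j, c l = c' l := by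
        intro l hl
        have hlj := Finset.ne_of_mem_erase hl
        simp [hc, hc', hlj]
      have huniv : insert j (Finset.univ.erase j) = (Finset.univ : Finset ι) :=
        Finset.insert_erase (Finset.mem_univ j)
      obtain ⟨h, hh1, hh2⟩ := lemmaZ K (x j) e (L - 2 * e) γ hγK hγ
        (WW x c (Finset.univ.erase j) X) (WW x c' Finset.univ X)
        (by
          intro v hv
          obtain ⟨u, hu⟩ := hX j c (fun l => by simp only [hc]; split_ifs <;> omega)
            (fun l => by simp only [hc]; split_ifs <;> omega) v hv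
          rw [← huniv, WW_insert (Finset.notMem_erase j _), hcj']
          refine ⟨u, ?_⟩
          rwa [WW_congr hcc] at hu) g (by
          intro v hv
          have := hg1 v hv
          rw [← huniv, WW_insert (Finset.notMem_erase j _), hcj] at this
          exact this) (by omega)
      refine ⟨h, hh1, fun v => ?_⟩
      obtain ⟨u, hu⟩ := hh2 v
      have h3 : L - 2 * e - e = L - 3 * e := by omega
      rw [h3] at hu
      have : h v - f v = x j ^ (L - 3 * e) • u + (g v - f v) := by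
        rw [← hu]
        abel
      rw [this]
      exact Submodule.add_mem _ (WW_single (c := fun _ => L - 3 * e) (Finset.mem_univ j) u) (hg2 v)
  obtain ⟨h, h1, h2⟩ := key Finset.univ
  refine ⟨h, fun v hv => ?_, h2⟩
  have := h1 v hv
  simpa using this

/-- the syzygy inherits the factorisation -/
theorem Fac.syz {p p₁ : ℕ} (i₁ : (Fin p₁ → R) →ₗ[R] (Fin p → R)) {z : R} {e : ℕ}
    (h : Fac (LinearMap.range i₁) z e) : Fac (LinearMap.ker i₁) z e := by
  obtain ⟨γ, hγK, hγ⟩ := h
  have h1 : ∀ s : Fin p, ∃ w, i₁ w = γ (Pi.single s 1) := fun s => hγK _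
  choose w hw using h1
  obtain ⟨T, hT⟩ := exists_lin (R := R) w
  have h2 : ∀ v, i₁ (T v) = γ v := by
    intro v
    have : i₁ ∘ₗ T = γ := by
      apply (Pi.basisFun R (Fin p)).ext
      intro s
      rw [Pi.basisFun_apply, LinearMap.comp_apply, hT, hw]
    exact LinearMap.congr_fun this v
  refine ⟨z ^ e • LinearMap.id - T ∘ₗ i₁, ?_, ?_⟩
  · intro v
    rw [LinearMap.mem_ker, LinearMap.sub_apply, map_sub, LinearMap.smul_apply, LinearMap.id_apply,
      LinearMap.comp_apply, h2, hγ _ ⟨v, rfl⟩, map_smul, sub_self]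
  · intro v hv
    rw [LinearMap.mem_ker] at hv
    rw [LinearMap.sub_apply, LinearMap.smul_apply, LinearMap.id_apply, LinearMap.comp_apply, hv,
      map_zero, sub_zero]

end Steps

end Pool.Agent.TH282.RE
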