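import Pool.Agent.TH282.RE.Surj

/-!
# Every good module is a quotient of one of finitely many
-/

set_option autoImplicit false
set_option linter.unusedSectionVars false

namespace Pool.Agent.TH282.RE

open Matrix Pool.Agent.TH282.RG

section

variable {k : Type*} [Field k] {R : Type*} [CommRing R] [Algebra k R]
  {n : Type*} [Fintype n] [DecidableEq n] {ι : Type*} [DecidableEq ι] [Fintype ι] {x : ι → R}
  {A : ι → Matrix n n k}

theorem hat_self (M : Matrix n n k) : hat k M = M := by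
  ext i j
  simp [hat]

/-- flatness at level `L` of the reduction of a module on which the parameters are regular -/
theorem flat_of_reg {M : Type*} [AddCommGroup M] [Module R M] {V : Type*} [AddCommGroup V] [Module R V]
    (π : M →ₗ[R] V) (hπ : Function.Surjective π) (e L : ℕ) (heL : e + 1 ≤ L)
    (hker : ∀ m, π m = 0 → m ∈ WW x (fun _ => L) Finset.univ M)
    (hM : Reg x M) (i : ι) (c : ι → ℕ) (hc : ∀ l, 1 ≤ c l)
    (hcL : ∀ l, c l ≤ L) (v : V) (hv : x i ^ e • v ∈ WW x c (Finset.univ.erase i) V) :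
    ∃ u, v - x i ^ (L - e) • u ∈ WW x c (Finset.univ.erase i) V := by
  obtain ⟨m, rfl⟩ := hπ v
  obtain ⟨w, hw⟩ := hv
  choose w' hw' using fun l => hπ (w l)
  have h1 : π (x i ^ e • m - ∑ l ∈ Finset.univ.erase i, x l ^ c l • w' l) = 0 := by
    rw [map_sub, map_smul, hw, map_sum, sub_eq_zero]
    refine Finset.sum_congr rfl fun l _ => ?_
    rw [map_smul, hw']
  have h2 := hker _ h1
  rw [← Finset.insert_erase (Finset.mem_univ i), WW_insert (Finset.notMem_erase i _)] at h2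
  obtain ⟨u, hu⟩ := h2
  have h3 : x i ^ e • (m - x i ^ (L - e) • u) ∈ WW x c (Finset.univ.erase i) M := by
    have h4 : x i ^ e • (m - x i ^ (L - e) • u) =
        (x i ^ e • m - ∑ l ∈ Finset.univ.erase i, x l ^ c l • w' l - x i ^ L • u) +
          ∑ l ∈ Finset.univ.erase i, x l ^ c l • w' l := by
      rw [smul_sub, smul_smul, ← pow_add, Nat.add_sub_cancel' (by omega : e ≤ L)]
      abel
    rw [h4]
    refine Submodule.add_mem _ ?_ ⟨w', rfl⟩
    have h5 : WW x (fun _ => L) (Finset.univ.erase i) M ≤ WW x c (Finset.univ.erase i) M :=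
      WW_mono (Finset.Subset.refl _) (fun l _ => hcL l)
    apply h5
    have h6 : insert i (Finset.univ.erase i) = (Finset.univ : Finset ι) :=
      Finset.insert_erase (Finset.mem_univ i)
    simpa [h6] using hu
  have h7 := hM i (Finset.univ.erase i) c (Finset.notMem_erase i _) hc e _ h3
  refine ⟨π u, ?_⟩
  rw [← map_smul, ← map_sub]
  exact WW_map π h7

theorem surj_cover [IsLocalRing R] (hx : ∀ l, x l ∈ IsLocalRing.maximalIdeal R) (e L : ℕ)
    (heL : 3 * e + 1 ≤ L) {𝒢 : Type*} (p p₁ : 𝒢 → ℕ)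
    (i₁ : ∀ g, (Fin (p₁ g) → R) →ₗ[R] (Fin (p g) → R)) (U₀ : 𝒢 → R →ₐ[k] Matrix n n k)
    (hU₀ : ∀ g l, U₀ g (x l) = A l)
    (π : ∀ g, ((Fin (p g) → R) ⧸ LinearMap.range (i₁ g)) →ₗ[R] Nm (U₀ g) k)
    (hπ : ∀ g, Function.Surjective (π g))
    (hker : ∀ g m, π g m = 0 →
      m ∈ WW x (fun _ => L) Finset.univ ((Fin (p g) → R) ⧸ LinearMap.range (i₁ g)))
    (hReg : ∀ g, Reg x ((Fin (p g) → R) ⧸ LinearMap.range (i₁ g)))
    (hFac : ∀ g l, Fac (LinearMap.range (i₁ g)) (x l) e)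
    (hrig : ∀ g, ∀ f : (Fin (p₁ g) → R) →ₗ[R] ((Fin (p g) → R) ⧸ LinearMap.range (i₁ g)),
      (∀ v ∈ LinearMap.ker (i₁ g), f v = 0) →
      ∃ F : (Fin (p g) → R) →ₗ[R] ((Fin (p g) → R) ⧸ LinearMap.range (i₁ g)), ∀ v, F (i₁ g v) = f v)
    (hnoeth : IsNoetherianRing (Co U₀)) :
    ∃ s : Finset 𝒢, ∀ g, ∃ g' ∈ s,
      ∃ h : ((Fin (p g') → R) ⧸ LinearMap.range (i₁ g')) →ₗ[R]
        ((Fin (p g) → R) ⧸ LinearMap.range (i₁ g)), Function.Surjective h := by
  have hUn : ∀ l, Un U₀ (x l) = hat (Co U₀) (A l) := fun l => Un_const U₀ hU₀ l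
  have hU₀' : ∀ g l, U₀ g (x l) = hat k (A l) := fun g l => by rw [hat_self, hU₀]
  have hev : ∀ g r i j, U₀ g r i j = evp U₀ g (Un U₀ r i j) := fun g r i j => evp_Un U₀ g r i j
  let ν : ∀ g, (Fin (p g) → R) →ₗ[R] Nm (U₀ g) k := fun g =>
    π g ∘ₗ (LinearMap.range (i₁ g)).mkQ
  have hν : ∀ g, Function.Surjective (ν g) := fun g =>
    (hπ g).comp (Submodule.mkQ_surjective _)
  have hν0 : ∀ g v, ν g (i₁ g v) = 0 := by
    intro g v
    have : (LinearMap.range (i₁ g)).mkQ (i₁ g v) = 0 := by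
      rw [Submodule.mkQ_apply, Submodule.Quotient.mk_eq_zero]
      exact ⟨v, rfl⟩
    change π g ((LinearMap.range (i₁ g)).mkQ (i₁ g v)) = 0
    rw [this, map_zero]
  -- the map near each point
  have hθ : ∀ g, ∃ θ : (Fin (p g) → R) →ₗ[R] Nm (Un U₀) (Co U₀),
      (∀ v, θ (i₁ g v) ∈ WW x (fun _ => L - e) Finset.univ (Nm (Un U₀) (Co U₀))) ∧
      ∀ v, evC (evp U₀ g) (hev g) (θ v) - ν g v ∈ WW x (fun _ => 1) Finset.univ (Nm (U₀ g) k) := by
    intro g
    apply artin_rees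
    intro m
    exact tower (x := x) (evp U₀ g) (i₁ g) e L heL hUn (hU₀' g) (hev g)
      (fun i c hc hcL v hv => flat_of_reg (π g) (hπ g) e L (by omega) (hker g) (hReg g) i c hc hcL v hv)
      (hFac g) (π g) (hπ g) (hker g)
      (zero_red x (i₁ g) e (L - e) (fun l => (hFac g l).syz) (hReg g) (hrig g) (by omega) Finset.univ)
      (ν g) (hν0 g) m
  choose θ hθ1 hθ2 using hθ
  have hE : ∀ g, ∃ E : Co U₀, evp U₀ g E = 1 ∧ ∀ y : n → Co U₀, E • y ∈ SS x (θ g) := fun g =>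
    nak (evp U₀ g) (hev g) (θ g) (ν g) (hν g) (hθ2 g)
  choose E hE1 hE2 using hE
  obtain ⟨s, hs⟩ := finite_sees U₀ E (fun g => by rw [hE1]; exact one_ne_zero)
  refine ⟨s, fun g => ?_⟩
  obtain ⟨g', hg's, hg'⟩ := hs g
  refine ⟨g', hg's, ?_⟩
  -- specialise `θ g'` at `g`
  let θb : (Fin (p g') → R) →ₗ[R] Nm (U₀ g) k := evC (evp U₀ g) (hev g) ∘ₗ θ g'
  have hsurj : ∀ w : Nm (U₀ g) k, ∃ v, w - θb v ∈ WW x (fun _ => 1) Finset.univ (Nm (U₀ g) k) :=
    fun w => surj_at (evp U₀ g) (hev g) (θ g') (E g') hg' (hE2 g') w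
  have hθbK : ∀ v ∈ LinearMap.range (i₁ g'),
      θb v ∈ WW x (fun _ => L - e) Finset.univ (Nm (U₀ g) k) := by
    rintro _ ⟨v, rfl⟩
    exact WW_map (evC (evp U₀ g) (hev g)) (hθ1 g' v)
  -- lift to the true module
  choose m hm using fun t : Fin (p g') => hπ g (θb (Pi.single t 1))
  obtain ⟨f, hf⟩ := exists_lin (R := R) m
  have hπf : ∀ v, π g (f v) = θb v := by
    intro v
    have : π g ∘ₗ f = θb := by
      apply (Pi.basisFun R (Fin (p g'))).ext
      intro t
      rw [Pi.basisFun_apply, LinearMap.comp_apply, hf, hm]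
    exact LinearMap.congr_fun this v
  obtain ⟨h, hh1, hh2⟩ := lift_true x (LinearMap.range (i₁ g')) e (L - e) (hFac g') (hReg g) f (by
    intro v hv
    apply WW_lift (π g) (hπ g) L (L - e) (Nat.sub_le L e) (hker g)
    rw [hπf]
    exact hθbK v hv) (by omega)
  -- surjectivity
  have htop : LinearMap.range h = ⊤ := by
    have h1 : (⊤ : Submodule R ((Fin (p g) → R) ⧸ LinearMap.range (i₁ g))) ≤
        LinearMap.range h ⊔ IsLocalRing.maximalIdeal R • ⊤ := by
      intro y _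
      obtain ⟨v, hv⟩ := hsurj (π g y)
      have h2 : y - f v ∈ WW x (fun _ => 1) Finset.univ _ := by
        apply WW_lift (π g) (hπ g) L 1 (by omega) (hker g)
        rw [map_sub, hπf]
        exact hv
      have h3 : y - h v ∈ WW x (fun _ => 1) Finset.univ
          ((Fin (p g) → R) ⧸ LinearMap.range (i₁ g)) := by
        have h4 : y - h v = (y - f v) - (h v - f v) := by abel
        rw [h4]
        refine Submodule.sub_mem _ h2 ?_
        refine WW_mono (Finset.Subset.refl _) (fun _ _ => ?_) (hh2 v)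
        omega
      obtain ⟨w, hw⟩ := h3
      have h5 : y = h v + ∑ l ∈ Finset.univ, x l ^ 1 • w l := by
        rw [← hw]
        abel
      rw [h5]
      refine Submodule.add_mem_sup ⟨v, rfl⟩ (Submodule.sum_mem _ fun l _ => ?_)
      rw [pow_one]
      exact Submodule.smul_mem_smul (hx l) trivial
    exact top_le_iff.mp (Submodule.le_of_le_smul_of_le_jacobson_bot Module.Finite.fg_top
      (IsLocalRing.maximalIdeal_le_jacobson _) h1)
  refine ⟨(LinearMap.range (i₁ g')).liftQ h (fun v hv => hh1 v hv), ?_⟩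
  intro y
  have hy : y ∈ LinearMap.range h := htop ▸ Submodule.mem_top
  obtain ⟨v, hv⟩ := hy
  exact ⟨Submodule.Quotient.mk v, hv⟩

end

end Pool.Agent.TH282.RE
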