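import Mathlib

/-!
# Comparison of ranks over a finite extension of domains
-/

set_option autoImplicit false
set_option linter.unusedSectionVars false

namespace Pool.Agent.TH282.RE

open Cardinal

theorem rank_bound {A R : Type*} [CommRing A] [IsDomain A] [CommRing R] [IsDomain R] [Algebra A R]
    {g : ℕ} (γ : (Fin g → A) →ₗ[A] R) (hγ : Function.Surjective γ) (M : Type*) [AddCommGroup M]
    [Module R M] [Module A M] [IsScalarTower A R M] [Module.Finite R M] :
    Module.finrank A M ≤ g * Module.finrank R M := by
  classical
  have hAR : Module.Finite A R := Module.Finite.of_surjective γ hγ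
  obtain ⟨s, hs, hli⟩ := exists_set_linearIndependent_of_isDomain R M
  have hlt : Module.rank R M < ℵ₀ := Module.rank_lt_aleph0 R M
  have hsfin : s.Finite := Cardinal.lt_aleph0_iff_set_finite.mp (hs ▸ hlt)
  have : Fintype s := hsfin.fintype
  let M' : Submodule R M := Submodule.span R s
  have hM' : Module.rank R M' = #s := rank_span_set hli
  have h0 := rank_quotient_add_rank_of_isDomain M'
  rw [hM', hs] at h0
  have h1 : Module.rank R (M ⧸ M') = 0 := by
    have h2 : Module.rank R (M ⧸ M') + Module.rank R M = 0 + Module.rank R M := by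
      rw [h0, zero_add]
    exact Cardinal.eq_of_add_eq_add_right h2 hlt
  rw [rank_eq_zero_iff] at h1
  let M'' : Submodule A M := M'.restrictScalars A
  have h3 : Module.rank A (M ⧸ M'') = 0 := by
    rw [rank_eq_zero_iff]
    intro q
    obtain ⟨m, rfl⟩ := M''.mkQ_surjective q
    obtain ⟨a, ha, ham⟩ := h1 (M'.mkQ m)
    have hint : IsIntegral A a := Algebra.IsIntegral.isIntegral a
    have h4 := Ideal.comap_ne_bot_of_integral_mem ha (Ideal.mem_span_singleton_self a) hint
    obtain ⟨b, hb, hb0⟩ := Submodule.exists_mem_ne_zero_of_ne_bot h4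
    refine ⟨b, hb0, ?_⟩
    rw [← map_smul, Submodule.mkQ_apply, Submodule.Quotient.mk_eq_zero]
    change b • m ∈ M'
    obtain ⟨c, hc⟩ := Ideal.mem_span_singleton'.mp (Ideal.mem_comap.mp hb)
    rw [← algebraMap_smul R b m, ← hc, mul_smul]
    apply M'.smul_mem
    rwa [← map_smul, Submodule.mkQ_apply, Submodule.Quotient.mk_eq_zero] at ham
  have h5 := rank_quotient_add_rank_of_isDomain M''
  rw [h3, zero_add] at h5
  have h6 : Module.finrank A M = Module.finrank A M'' := by
    rw [Module.finrank, Module.finrank, h5]
  rw [h6]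
  let Γ : (s → Fin g → A) →ₗ[A] M'' :=
    { toFun := fun v => ⟨∑ m : s, γ (v m) • (m : M), Submodule.sum_mem _ fun m _ =>
        M'.smul_mem _ (Submodule.subset_span m.2)⟩
      map_add' := fun v w => by
        apply Subtype.ext
        simp [add_smul, Finset.sum_add_distrib]
      map_smul' := fun a v => by
        apply Subtype.ext
        simp [Finset.smul_sum, smul_assoc] }
  have hΓ : Function.Surjective Γ := by
    rintro ⟨m, hm⟩
    have hm' : m ∈ Submodule.span R (Set.range fun j : s => (j : M)) := by
      rw [Subtype.range_coe]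
      exact hm
    rw [Submodule.mem_span_range_iff_exists_fun] at hm'
    obtain ⟨c, hc⟩ := hm'
    choose v hv using fun j => hγ (c j)
    refine ⟨v, ?_⟩
    apply Subtype.ext
    change ∑ m : s, γ (v m) • (m : M) = m
    rw [← hc]
    exact Finset.sum_congr rfl fun j _ => by rw [hv]
  have h7 : Module.finrank A M'' ≤ Module.finrank A (s → Fin g → A) := by
    have h10 := LinearMap.lift_rank_le_of_surjective Γ hΓ
    have h11 := Cardinal.toNat_le_toNat h10 (by
      rw [Cardinal.lift_lt_aleph0]
      exact Module.rank_lt_aleph0 A _)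
    rwa [Cardinal.toNat_lift, Cardinal.toNat_lift] at h11
  refine h7.trans ?_
  have h8 : Module.finrank A (s → Fin g → A) = Fintype.card s * g := by
    rw [Module.finrank_pi_fintype]
    simp
  have h9 : Module.finrank R M = Fintype.card s := by
    rw [Module.finrank, ← hs, Cardinal.mk_fintype, Cardinal.toNat_natCast]
  rw [h8, h9, mul_comm]

end Pool.Agent.TH282.RE
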