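import Pool.Agent.TH282.RE.Std

/-!
# Systems of parameters
-/

set_option autoImplicit false
set_option linter.unusedSectionVars false

namespace Pool.Agent.TH282.RE

open IsLocalRing

section

variable (R : Type*) [CommRing R] [IsLocalRing R] [IsNoetherianRing R]

theorem exists_sop : ∃ s : Finset R, (∀ r ∈ s, r ∈ maximalIdeal R) ∧
    (∃ t, maximalIdeal R ^ t ≤ Ideal.span (s : Set R)) ∧ ringKrullDim R = ((s.card : ℕ) : WithBot ℕ∞) := by
  obtain ⟨s, hs, hcard⟩ := Ideal.exists_finset_card_eq_height_of_isNoetherianRing (maximalIdeal R)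
  refine ⟨s, ?_, ?_, ?_⟩
  · intro r hr
    exact hs.1.2 (Ideal.subset_span hr)
  · apply Ideal.exists_pow_le_of_le_radical_of_fg _ (IsNoetherian.noetherian _)
    rw [Ideal.radical_eq_sInf]
    apply le_sInf
    rintro Q ⟨hQ, hQp⟩
    exact hs.2 ⟨hQp, hQ⟩ (le_maximalIdeal hQp.ne_top)
  · rw [← maximalIdeal_height_eq_ringKrullDim, ← hcard]
    rfl

end

section

variable {R : Type*} [CommRing R] {ι : Type*} [DecidableEq ι] [Fintype ι] (x : ι → R)

theorem span_pow_le (n : ℕ) (hn : 1 ≤ n) (J : Finset ι) :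
    Ideal.span (x '' (J : Set ι)) ^ ((J.card + 1) * n) ≤ Ideal.span ((fun l => x l ^ n) '' (J : Set ι)) := by
  induction J using Finset.induction_on with
  | empty =>
    simp only [Finset.coe_empty, Set.image_empty, Ideal.span_empty, Finset.card_empty, zero_add, one_mul]
    rw [Ideal.bot_pow (by omega)]
  | insert j J hj ih =>
    rw [Finset.card_insert_of_notMem hj, Finset.coe_insert, Set.image_insert_eq, Set.image_insert_eq,
      Ideal.span_insert, Ideal.span_insert]
    have h1 : (J.card + 1 + 1) * n = n + (J.card + 1) * n := by ring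
    rw [h1]
    refine Ideal.sup_pow_add_le_pow_sup_pow.trans ?_
    rw [Ideal.span_singleton_pow]
    exact sup_le_sup le_rfl ih

theorem max_pow_le [IsLocalRing R] (hx : ∃ t, maximalIdeal R ^ t ≤ Ideal.span (Set.range x)) :
    ∃ c, 1 ≤ c ∧ ∀ n, 1 ≤ n → maximalIdeal R ^ (c * n) ≤ Ideal.span (Set.range fun l => x l ^ n) := by
  obtain ⟨t, ht⟩ := hx
  refine ⟨(t + 1) * (Fintype.card ι + 1), Nat.mul_pos (Nat.succ_pos _) (Nat.succ_pos _), fun n hn => ?_⟩
  have h1 := span_pow_le x n hn Finset.univ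
  rw [Finset.coe_univ, Set.image_univ, Set.image_univ, Finset.card_univ] at h1
  refine le_trans ?_ h1
  rw [mul_assoc, pow_mul]
  apply Ideal.pow_right_mono
  exact (Ideal.pow_le_pow_right (Nat.le_succ t)).trans ht

end

end Pool.Agent.TH282.RE
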