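import Pool.Agent.TH282.RE.Conv
import Pool.Agent.TH282.RE.Sop
import Pool.Agent.TH282.RE.Free
import Pool.Agent.TH282.RE.Rank

/-!
# Bounds in terms of the multiplicity and of the rank
-/

set_option autoImplicit false
set_option linter.unusedSectionVars false

namespace Pool.Agent.TH282.RE

open IsLocalRing Pool.Agent.TH282.RG

universe u v w

section

variable (k : Type v) [Field k] {R : Type u} [CommRing R] [Algebra k R] [IsLocalRing R]
  [IsNoetherianRing R] [Module.Finite k (ResidueField R)]

theorem finiteLength_of_finite {Q : Type u} [AddCommGroup Q] [Module R Q] [Module k Q]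
    [IsScalarTower k R Q] [Module.Finite k Q] : IsFiniteLength R Q := by
  rw [isFiniteLength_iff_isNoetherian_isArtinian]
  exact ⟨isNoetherian_of_tower k inferInstance, isArtinian_of_tower k inferInstance⟩

theorem finrank_eq_length' {Q : Type u} [AddCommGroup Q] [Module R Q] [Module k Q]
    [IsScalarTower k R Q] [Module.Finite k Q] :
    Module.length R Q = ((Module.length R Q).toNat : ℕ∞) ∧
      Module.finrank k Q = Module.finrank k (ResidueField R) * (Module.length R Q).toNat := by
  obtain ⟨n, hn, h⟩ := finrank_eq_length k (finiteLength_of_finite k (R := R) (Q := Q))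
  have h1 := h
  rw [hn]
  exact ⟨rfl, h1⟩

variable {ι : Type w} [DecidableEq ι] [Fintype ι] {x : ι → R}

include k in
theorem len_mul_le (hx : ∃ t, maximalIdeal R ^ t ≤ Ideal.span (Set.range x)) (M : Type u)
    [AddCommGroup M] [Module R M] [Module.Finite R M] (hM : Reg x M) (n c : ℕ) (hn : 1 ≤ n)
    (hc : maximalIdeal R ^ (c * n) ≤ Ideal.span (Set.range fun l => x l ^ n)) :
    Module.length R (M ⧸ Ideal.span (Set.range x) • (⊤ : Submodule R M)) ≠ ⊤ ∧
    (Module.length R (M ⧸ Ideal.span (Set.range x) • (⊤ : Submodule R M))).toNat * n ^ Fintype.card ι ≤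
      (Module.length R (M ⧸ (maximalIdeal R ^ (c * n)) • (⊤ : Submodule R M))).toNat := by
  let _ : Module k M := Module.compHom M (algebraMap k R)
  have : IsScalarTower k R M := IsScalarTower.of_algebraMap_smul fun r m => rfl
  have h1 := WW_finite k x hx M (fun _ => n)
  have h2 := WW_finite k x hx M (fun _ => 1)
  have h3 := finrank_prod x M hM (fun _ => n) (fun _ => hn) (fun c _ => WW_finite k x hx M c)
  have hW1 : WW x (fun _ => 1) Finset.univ M = Ideal.span (Set.range x) • ⊤ := by
    rw [WW_eq_smul]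
    simp only [pow_one]
  rw [hW1] at h2 h3
  have h4 : Module.Finite k (M ⧸ (maximalIdeal R ^ (c * n)) • (⊤ : Submodule R M)) := by
    refine finite_of_killed (R := R) k (c * n) ?_
    intro r hr q
    obtain ⟨q, rfl⟩ := Submodule.mkQ_surjective _ q
    rw [← map_smul, Submodule.mkQ_apply, Submodule.Quotient.mk_eq_zero]
    exact Submodule.smul_mem_smul hr trivial
  have hle : (maximalIdeal R ^ (c * n)) • (⊤ : Submodule R M) ≤ WW x (fun _ => n) Finset.univ M := by
    rw [WW_eq_smul]
    exact Submodule.smul_mono_left hc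
  let f : (M ⧸ (maximalIdeal R ^ (c * n)) • (⊤ : Submodule R M)) →ₗ[R]
      (M ⧸ WW x (fun _ => n) Finset.univ M) := Submodule.factor hle
  have hf : Function.Surjective (f.restrictScalars k) := Submodule.factor_surjective hle
  have h5 := LinearMap.finrank_le_finrank_of_surjective hf
  obtain ⟨h6, h7⟩ := finrank_eq_length' k (R := R)
    (Q := M ⧸ Ideal.span (Set.range x) • (⊤ : Submodule R M))
  obtain ⟨h8, h9⟩ := finrank_eq_length' k (R := R)
    (Q := M ⧸ (maximalIdeal R ^ (c * n)) • (⊤ : Submodule R M))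
  refine ⟨by rw [h6]; exact ENat.natCast_ne_top _, ?_⟩
  rw [h3, h7, h9] at h5
  have hδ : 0 < Module.finrank k (ResidueField R) := Module.finrank_pos
  rw [Finset.prod_const, Finset.card_univ] at h5
  have h10 : Module.finrank k (ResidueField R) *
      ((Module.length R (M ⧸ Ideal.span (Set.range x) • (⊤ : Submodule R M))).toNat *
        n ^ Fintype.card ι) ≤ Module.finrank k (ResidueField R) *
      (Module.length R (M ⧸ (maximalIdeal R ^ (c * n)) • (⊤ : Submodule R M))).toNat := by
    calc _ = n ^ Fintype.card ι * (Module.finrank k (ResidueField R) *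
      (Module.length R (M ⧸ Ideal.span (Set.range x) • (⊤ : Submodule R M))).toNat) := by ring
      _ ≤ _ := h5
  exact Nat.le_of_mul_le_mul_left h10 hδ

end

theorem le_of_mult (d : ℕ) (ℓ : ℕ → ℕ) (e : ℝ) (N : ℕ) (he : e ≤ N)
    (hlim : Filter.Tendsto (fun n : ℕ => ((d.factorial : ℝ) * (ℓ n : ℝ)) / ((n : ℝ) ^ d)) Filter.atTop
      (nhds e)) (c lam : ℕ) (hc : 1 ≤ c) (h : ∀ n, 1 ≤ n → lam * n ^ d ≤ ℓ (c * n)) :
    lam ≤ N * c ^ d := by
  have h1 : Filter.Tendsto (fun n : ℕ => c * n) Filter.atTop Filter.atTop :=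
    Filter.tendsto_id.const_mul_atTop' (by omega)
  have h2 := hlim.comp h1
  have hc' : (0 : ℝ) < (c : ℝ) ^ d := by positivity
  have h3 : (d.factorial : ℝ) * lam / (c : ℝ) ^ d ≤ e := by
    apply ge_of_tendsto h2
    rw [Filter.eventually_atTop]
    refine ⟨1, fun n hn => ?_⟩
    have hn' : (0 : ℝ) < (n : ℝ) ^ d := by positivity
    have h4 : ((lam * n ^ d : ℕ) : ℝ) ≤ (ℓ (c * n) : ℝ) := by exact_mod_cast h n hn
    simp only [Function.comp_apply]
    rw [div_le_div_iff₀ hc' (by positivity)]
    push_cast at h4 ⊢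
    rw [mul_pow]
    calc (d.factorial : ℝ) * lam * ((c : ℝ) ^ d * (n : ℝ) ^ d)
        = (d.factorial : ℝ) * (lam * (n : ℝ) ^ d) * (c : ℝ) ^ d := by ring
      _ ≤ (d.factorial : ℝ) * (ℓ (c * n) : ℝ) * (c : ℝ) ^ d := by gcongr
  have h5 : (d.factorial : ℝ) * lam ≤ N * (c : ℝ) ^ d := by
    rw [div_le_iff₀ hc'] at h3
    exact h3.trans (by gcongr)
  have h6 : (1 : ℝ) ≤ (d.factorial : ℝ) := by exact_mod_cast Nat.factorial_pos d
  have h7 : (lam : ℝ) ≤ N * (c : ℝ) ^ d := by
    refine le_trans ?_ h5
    exact le_mul_of_one_le_left (by positivity) h6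
  exact_mod_cast h7

section

variable (k : Type v) [Field k] {R : Type u} [CommRing R] [Algebra k R] [IsLocalRing R]
  [IsNoetherianRing R] [Module.Finite k (ResidueField R)]
  {ι : Type w} [DecidableEq ι] [Fintype ι] {x : ι → R}

include k in
/-- over a complete domain the rank bounds the length of `M / (x) M` -/
theorem exists_rank_bound [IsDomain R] (hcomp : IsAdicComplete (maximalIdeal R) R)
    (hxm : ∀ l, x l ∈ maximalIdeal R) (hx : ∃ t, maximalIdeal R ^ t ≤ Ideal.span (Set.range x)) :
    ∃ g : ℕ, ∀ (M : Type u) [AddCommGroup M] [Module R M] [Module.Finite R M], Reg x M →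
      Module.length R (M ⧸ Ideal.span (Set.range x) • (⊤ : Submodule R M)) ≤
        ((g * Module.finrank R M : ℕ) : ℕ∞) := by
  obtain ⟨φ, hφ⟩ := exists_eval (k := k) hcomp x hxm
  let _ : Algebra (MvPowerSeries ι k) R := φ.toRingHom.toAlgebra
  have hφ' : ∀ l, algebraMap (MvPowerSeries ι k) R (MvPowerSeries.X l) = x l := hφ
  have : IsScalarTower k (MvPowerSeries ι k) R := IsScalarTower.of_algebraMap_eq fun r =>
    (φ.commutes r).symm
  have h1 := finite_over hxm hx hφ' R
  obtain ⟨g, γ, hγ⟩ := Module.Finite.exists_fin' (MvPowerSeries ι k) R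
  refine ⟨g, ?_⟩
  intro M _ _ _ hM
  let _ : Module (MvPowerSeries ι k) M := Module.compHom M (algebraMap (MvPowerSeries ι k) R)
  have : IsScalarTower (MvPowerSeries ι k) R M := IsScalarTower.of_algebraMap_smul fun r m => rfl
  let _ : Module k M := Module.compHom M (algebraMap k R)
  have : IsScalarTower k R M := IsScalarTower.of_algebraMap_smul fun r m => rfl
  have : IsScalarTower k (MvPowerSeries ι k) M := by
    refine IsScalarTower.of_algebraMap_smul fun r m => ?_
    rw [← algebraMap_smul R (algebraMap k (MvPowerSeries ι k) r) m,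
      ← IsScalarTower.algebraMap_apply k (MvPowerSeries ι k) R, algebraMap_smul]
  have h2 := finite_over hxm hx hφ' M
  obtain ⟨-, h3⟩ := free_of_reg (k := k) M (reg_X_of_reg hφ' hM)
  have : IsDomain (MvPowerSeries ι k) := NoZeroDivisors.to_isDomain _
  have h4 := rank_bound γ hγ M
  have hW1 : WW x (fun _ => 1) Finset.univ M = Ideal.span (Set.range x) • ⊤ := by
    rw [WW_eq_smul]
    simp only [pow_one]
  have h5 : Module.finrank k (M ⧸ WW (fun l => (MvPowerSeries.X l : MvPowerSeries ι k))
      (fun _ => 1) Finset.univ M) = Module.finrank k (M ⧸ WW x (fun _ => 1) Finset.univ M) := by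
    have h6 : (WW (fun l => (MvPowerSeries.X l : MvPowerSeries ι k)) (fun _ => 1) Finset.univ
        M).restrictScalars k = (WW x (fun _ => 1) Finset.univ M).restrictScalars k := by
      ext v
      exact WW_X_iff hφ' _ _ v
    exact ((Submodule.Quotient.restrictScalarsEquiv k _).symm.trans
      ((Submodule.quotEquivOfEq _ _ h6).trans
        (Submodule.Quotient.restrictScalarsEquiv k _))).finrank_eq
  have h7 := WW_finite k x hx M (fun _ => 1)
  rw [hW1] at h5 h7
  obtain ⟨h8, h9⟩ := finrank_eq_length' k (R := R)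
    (Q := M ⧸ Ideal.span (Set.range x) • (⊤ : Submodule R M))
  rw [h8]
  have hδ : 0 < Module.finrank k (ResidueField R) := Module.finrank_pos
  have h10 : (Module.length R (M ⧸ Ideal.span (Set.range x) • (⊤ : Submodule R M))).toNat ≤
      g * Module.finrank R M := by
    refine le_trans ?_ h4
    rw [h3, h5, h9]
    exact Nat.le_mul_of_pos_left _ hδ
  exact_mod_cast h10

end

end Pool.Agent.TH282.RE
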