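import Pool.Agent.TH282.RE.Conv

/-!
# The Noether different
-/

set_option autoImplicit false
set_option linter.unusedSectionVars false

namespace Pool.Agent.TH282.RE

open TensorProduct

universe u v

section Split

variable {A : Type v} {R : Type u} [CommRing A] [CommRing R] [Algebra A R]

/-- `x ⊗ 1 - 1 ⊗ x` -/
noncomputable def dl (A : Type v) {R : Type u} [CommRing A] [CommRing R] [Algebra A R] (r : R) : R ⊗[A] R :=
  r ⊗ₜ[A] 1 - 1 ⊗ₜ[A] r

theorem extAnn_of_diff (ε : R ⊗[A] R) (hε : ∀ r : R, ε * dl A r = 0) (M : Type u) [AddCommGroup M]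
    [Module R M] [Module A M] [IsScalarTower A R M] [Module.Projective A M] :
    ExtAnn R M (Algebra.TensorProduct.lmul' A ε : R) := by
  intro E _ _ g hg
  let _ : Module A E := Module.compHom E (algebraMap A R)
  have : IsScalarTower A R E := IsScalarTower.of_algebraMap_smul fun r m => rfl
  obtain ⟨σ, hσ⟩ := Module.projective_lifting_property (g.restrictScalars A) LinearMap.id hg
  have hσ' : ∀ m, g (σ m) = m := fun m => LinearMap.congr_fun hσ m
  let Ψ : R ⊗[A] R →ₗ[A] (M →ₗ[A] E) := TensorProduct.lift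
    (LinearMap.mk₂ A (fun u v => (Algebra.lsmul A A E u) ∘ₗ σ ∘ₗ (Algebra.lsmul A A M v))
      (fun u u' v => by
        ext m
        simp)
      (fun c u v => by
        ext m
        simp)
      (fun u v v' => by
        ext m
        simp)
      (fun c u v => by
        ext m
        simp
        rw [smul_comm]))
  have hΨ : ∀ (u v : R) (m : M), Ψ (u ⊗ₜ v) m = u • σ (v • m) := fun u v m => rfl
  have P1 : ∀ (r : R) (b : R ⊗[A] R) (m : M), Ψ ((r ⊗ₜ 1) * b) m = r • Ψ b m := by
    intro r b m
    induction b using TensorProduct.induction_on with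
    | zero => simp
    | tmul u v => rw [Algebra.TensorProduct.tmul_mul_tmul, one_mul, hΨ, hΨ, mul_smul]
    | add a b ha hb => rw [mul_add, map_add, LinearMap.add_apply, ha, hb, map_add, LinearMap.add_apply,
        smul_add]
  have P2 : ∀ (r : R) (b : R ⊗[A] R) (m : M), Ψ ((1 ⊗ₜ r) * b) m = Ψ b (r • m) := by
    intro r b m
    induction b using TensorProduct.induction_on with
    | zero => simp
    | tmul u v => rw [Algebra.TensorProduct.tmul_mul_tmul, one_mul, hΨ, hΨ, smul_smul, mul_comm]
    | add a b ha hb => rw [mul_add, map_add, LinearMap.add_apply, ha, hb, map_add, LinearMap.add_apply]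
  have P3 : ∀ (b : R ⊗[A] R) (m : M), g (Ψ b m) = (Algebra.TensorProduct.lmul' A b : R) • m := by
    intro b m
    induction b using TensorProduct.induction_on with
    | zero => simp
    | tmul u v => rw [hΨ, map_smul, hσ', Algebra.TensorProduct.lmul'_apply_tmul, mul_smul]
    | add a b ha hb => rw [map_add, LinearMap.add_apply, map_add, ha, hb, map_add, add_smul]
  refine ⟨{ toFun := fun m => Ψ ε m, map_add' := fun a b => map_add _ _ _, map_smul' := ?_ }, ?_⟩
  · intro r m
    rw [← P2, RingHom.id_apply, ← P1]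
    congr 2
    have := hε r
    rw [dl, mul_sub, sub_eq_zero] at this
    rw [mul_comm, ← this, mul_comm]
  · ext m
    exact P3 ε m

end Split

section Exists

variable {A : Type v} {R : Type u} [CommRing A] [CommRing R] [Algebra A R]

theorem mu_dl (r : R) : (Algebra.TensorProduct.lmul' A : R ⊗[A] R →ₐ[A] R) (dl A r) = 0 := by
  rw [dl, map_sub, Algebra.TensorProduct.lmul'_apply_tmul, Algebra.TensorProduct.lmul'_apply_tmul]
  simp

theorem dl_mul (a b : R) : dl A (a * b) = (a ⊗ₜ[A] 1) * dl A b + (1 ⊗ₜ[A] b) * dl A a := by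
  simp only [dl, mul_sub, Algebra.TensorProduct.tmul_mul_tmul, mul_one, one_mul]
  rw [mul_comm b a]
  abel

theorem dl_add (a b : R) : dl A (a + b) = dl A a + dl A b := by
  simp only [dl, TensorProduct.add_tmul, TensorProduct.tmul_add]
  abel

theorem dl_algebraMap (a : A) : dl A (algebraMap A R a) = 0 := by
  rw [dl, sub_eq_zero, Algebra.algebraMap_eq_smul_one, TensorProduct.smul_tmul]

/-- the ideal of the diagonal -/
noncomputable def dI (A : Type v) (R : Type u) [CommRing A] [CommRing R] [Algebra A R] : Ideal (R ⊗[A] R) :=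
  Ideal.span (Set.range fun r : R => dl A r)

theorem exists_diff [IsNoetherianRing A] [Module.Finite A R] (P : Ideal R) [P.IsPrime]
    (h : ∀ x : R, ∃ s : R ⊗[A] R, (Algebra.TensorProduct.lmul' A : R ⊗[A] R →ₐ[A] R) s ∉ P ∧ s * dl A x ∈ P.comap (Algebra.TensorProduct.lmul' A : R ⊗[A] R →ₐ[A] R) * dI A R) :
    ∃ ε : R ⊗[A] R, (Algebra.TensorProduct.lmul' A : R ⊗[A] R →ₐ[A] R) ε ∉ P ∧ ∀ r : R, ε * dl A r = 0 := by
  have hPc : (P.comap (Algebra.TensorProduct.lmul' A : R ⊗[A] R →ₐ[A] R)).IsPrime := Ideal.comap_isPrime _ _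
  have hN : IsNoetherianRing (R ⊗[A] R) := by
    have h1 : IsNoetherian A (R ⊗[A] R) := isNoetherian_of_isNoetherianRing_of_finite A _
    exact isNoetherian_of_tower A h1
  have h1 : ∀ y ∈ dI A R, ∃ s : R ⊗[A] R, (Algebra.TensorProduct.lmul' A : R ⊗[A] R →ₐ[A] R) s ∉ P ∧ s * y ∈ P.comap (Algebra.TensorProduct.lmul' A : R ⊗[A] R →ₐ[A] R) * dI A R := by
    intro y hy
    induction hy using Submodule.span_induction with
    | mem y hy =>
      obtain ⟨x, rfl⟩ := hy
      exact h x
    | zero => exact ⟨1, by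
        rw [map_one]
        exact fun h => ‹P.IsPrime›.ne_top ((Ideal.eq_top_iff_one P).mpr h), by
        rw [mul_zero]
        exact Ideal.zero_mem _⟩
    | add a b _ _ ha hb =>
      obtain ⟨s, hs, hsa⟩ := ha
      obtain ⟨t, ht, htb⟩ := hb
      refine ⟨s * t, ?_, ?_⟩
      · rw [map_mul]
        exact fun h => (‹P.IsPrime›.mem_or_mem h).elim hs ht
      · have : s * t * (a + b) = t * (s * a) + s * (t * b) := by ring
        rw [this]
        exact Ideal.add_mem _ (Ideal.mul_mem_left _ _ hsa) (Ideal.mul_mem_left _ _ htb)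
    | smul c a _ ha =>
      obtain ⟨s, hs, hsa⟩ := ha
      refine ⟨s, hs, ?_⟩
      have : s * (c • a) = c * (s * a) := by
        rw [smul_eq_mul]
        ring
      rw [this]
      exact Ideal.mul_mem_left _ _ hsa
  obtain ⟨G, hG⟩ := (IsNoetherian.noetherian (dI A R) : (dI A R).FG)
  have h2 : ∀ T : Finset (R ⊗[A] R), (T : Set (R ⊗[A] R)) ⊆ dI A R →
      ∃ s : R ⊗[A] R, (Algebra.TensorProduct.lmul' A : R ⊗[A] R →ₐ[A] R) s ∉ P ∧ ∀ y ∈ T, s * y ∈ P.comap (Algebra.TensorProduct.lmul' A : R ⊗[A] R →ₐ[A] R) * dI A R := by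
    classical
    intro T
    induction T using Finset.induction_on with
    | empty =>
      intro _
      exact ⟨1, by
        rw [map_one]
        exact fun h => ‹P.IsPrime›.ne_top ((Ideal.eq_top_iff_one P).mpr h), by simp⟩
    | insert y T hy ih =>
      intro hT
      rw [Finset.coe_insert, Set.insert_subset_iff] at hT
      obtain ⟨s, hs, hsT⟩ := ih hT.2
      obtain ⟨t, ht, hty⟩ := h1 y hT.1
      refine ⟨s * t, ?_, ?_⟩
      · rw [map_mul]
        exact fun h => (‹P.IsPrime›.mem_or_mem h).elim hs ht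
      · intro z hz
        rcases Finset.mem_insert.mp hz with rfl | hz
        · rw [mul_assoc]
          exact Ideal.mul_mem_left _ _ hty
        · have : s * t * z = t * (s * z) := by ring
          rw [this]
          exact Ideal.mul_mem_left _ _ (hsT z hz)
  obtain ⟨s, hs, hsG⟩ := h2 G (by
    rw [← hG]
    exact Submodule.subset_span)
  have h3 : ∀ y ∈ dI A R, s * y ∈ P.comap (Algebra.TensorProduct.lmul' A : R ⊗[A] R →ₐ[A] R) * dI A R := by
    intro y hy
    rw [← hG] at hy
    induction hy using Submodule.span_induction with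
    | mem y hy => exact hsG y hy
    | zero =>
      rw [mul_zero]
      exact Ideal.zero_mem _
    | add a b _ _ ha hb =>
      rw [mul_add]
      exact Ideal.add_mem _ ha hb
    | smul c a _ ha =>
      have : s * (c • a) = c * (s * a) := by
        rw [smul_eq_mul]
        ring
      rw [this]
      exact Ideal.mul_mem_left _ _ ha
  let f : Module.End (R ⊗[A] R) (dI A R) := LinearMap.lsmul (R ⊗[A] R) (dI A R) s
  have hf : LinearMap.range f ≤ P.comap (Algebra.TensorProduct.lmul' A : R ⊗[A] R →ₐ[A] R) • ⊤ := by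
    rintro _ ⟨y, rfl⟩
    have h4 := h3 y y.2
    have h5 : P.comap (Algebra.TensorProduct.lmul' A : R ⊗[A] R →ₐ[A] R) * dI A R = Submodule.map (dI A R).subtype (P.comap (Algebra.TensorProduct.lmul' A : R ⊗[A] R →ₐ[A] R) • ⊤) := by
      rw [Submodule.map_smul'', Submodule.map_top, Submodule.range_subtype, smul_eq_mul]
    rw [h5] at h4
    obtain ⟨z, hz, hzy⟩ := h4
    have : z = f y := Subtype.ext hzy
    rwa [← this]
  obtain ⟨p, hp, -, hpc, hpa⟩ :=
    LinearMap.exists_monic_and_natDegree_eq_and_coeff_mem_pow_and_aeval_eq_zero (R ⊗[A] R) f (P.comap (Algebra.TensorProduct.lmul' A : R ⊗[A] R →ₐ[A] R)) hf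
  have h6 : ∀ (q : Polynomial (R ⊗[A] R)) (y : dI A R), Polynomial.aeval f q y = (q.eval s) • y := by
    intro q y
    induction q using Polynomial.induction_on' with
    | add a b ha hb => rw [map_add, LinearMap.add_apply, ha, hb, Polynomial.eval_add, add_smul]
    | monomial n a =>
      rw [Polynomial.aeval_monomial, Polynomial.eval_monomial]
      have h7 : ∀ n : ℕ, (f ^ n) y = s ^ n • y := by
        intro n
        induction n with
        | zero => simp
        | succ n ih =>
          rw [pow_succ', Module.End.mul_apply, ih, pow_succ', mul_smul]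
          rfl
      rw [Module.End.mul_apply, h7, mul_smul]
      rfl
  refine ⟨p.eval s, ?_, ?_⟩
  · have h8 : p.eval s - s ^ p.natDegree ∈ P.comap (Algebra.TensorProduct.lmul' A : R ⊗[A] R →ₐ[A] R) := by
      rw [Polynomial.eval_eq_sum_range, Finset.sum_range_succ, hp.coeff_natDegree, one_mul,
        add_sub_cancel_right]
      apply Ideal.sum_mem
      intro i hi
      apply Ideal.mul_mem_right
      have h9 := hpc i
      have h10 : p.natDegree - i ≠ 0 := by
        have := Finset.mem_range.mp hi
        omega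
      exact Ideal.pow_le_self h10 h9
    intro h9
    have h10 : s ^ p.natDegree ∈ P.comap (Algebra.TensorProduct.lmul' A : R ⊗[A] R →ₐ[A] R) := by
      have : s ^ p.natDegree = p.eval s - (p.eval s - s ^ p.natDegree) := by ring
      rw [this]
      exact Ideal.sub_mem _ h9 h8
    exact hs (hPc.mem_of_pow_mem _ h10)
  · intro r
    have h11 := h6 p ⟨dl A r, Ideal.subset_span ⟨r, rfl⟩⟩
    rw [hpa] at h11
    have h12 := congrArg Subtype.val h11
    exact h12.symm

end Exists

end Pool.Agent.TH282.RE
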