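import Pool.Agent.TH282.RE.Std
import Pool.Agent.TH282.RG.Norm

/-!
# Power series rings: regularity of the variables, completeness
-/

set_option autoImplicit false
set_option linter.unusedSectionVars false

namespace Pool.Agent.TH282.RE

open IsLocalRing

section

variable {k : Type*} [Field k] {ι : Type*} [DecidableEq ι] [Fintype ι]

/-- the monomial ideal generated by powers of variables in terms of coefficients -/
theorem mem_WW_X (c : ι → ℕ) (J : Finset ι) : ∀ f : (MvPowerSeries ι k),
    f ∈ WW (fun l => (MvPowerSeries.X l : (MvPowerSeries ι k))) c J (MvPowerSeries ι k) ↔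
      ∀ α : ι →₀ ℕ, (∀ l ∈ J, α l < c l) → MvPowerSeries.coeff α f = 0 := by
  induction J using Finset.induction_on with
  | empty =>
    intro f
    rw [WW_empty]
    constructor
    · rintro rfl α _
      exact map_zero _
    · intro h
      ext α
      rw [h α (by simp), map_zero]
  | insert j J hj ih =>
    intro f
    rw [WW_insert hj]
    constructor
    · rintro ⟨u, hu⟩ α hα
      have h1 := (ih _).mp hu α (fun l hl => hα l (Finset.mem_insert_of_mem hl))
      rw [map_sub, sub_eq_zero] at h1
      rw [h1]
      exact MvPowerSeries.X_pow_dvd_iff.mp (dvd_mul_right _ _) α (hα j (Finset.mem_insert_self j J))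
    · intro h
      let g : (MvPowerSeries ι k) := fun α => if α j < c j then MvPowerSeries.coeff α f else 0
      have hg : ∀ α : ι →₀ ℕ, MvPowerSeries.coeff α g =
          if α j < c j then MvPowerSeries.coeff α f else 0 := fun α => rfl
      have hd : (MvPowerSeries.X j : (MvPowerSeries ι k)) ^ c j ∣ f - g := by
        rw [MvPowerSeries.X_pow_dvd_iff]
        intro α hα
        rw [map_sub, hg, if_pos hα, sub_self]
      obtain ⟨u, hu⟩ := hd
      refine ⟨u, ?_⟩
      rw [smul_eq_mul, ← hu, sub_sub_cancel, ih]
      intro α hα
      rw [hg]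
      split_ifs with hj'
      · apply h
        intro l hl
        rcases Finset.mem_insert.mp hl with rfl | hl
        · exact hj'
        · exact hα l hl
      · rfl

theorem reg_X : Reg (fun l => (MvPowerSeries.X l : (MvPowerSeries ι k))) (MvPowerSeries ι k) := by
  intro i J c hi _ m v hv
  rw [mem_WW_X] at hv ⊢
  intro α hα
  have h1 := hv (Finsupp.single i m + α) (by
    intro l hl
    have : l ≠ i := fun h => hi (h ▸ hl)
    rw [Finsupp.add_apply, Finsupp.single_eq_of_ne this, zero_add]
    exact hα l hl)
  change MvPowerSeries.coeff (Finsupp.single i m + α) ((MvPowerSeries.X i : (MvPowerSeries ι k)) ^ m * v) = 0 at h1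
  rw [MvPowerSeries.X_pow_eq, MvPowerSeries.coeff_add_monomial_mul, one_mul] at h1
  exact h1

theorem WW_X_univ (c : ι → ℕ) : WW (fun l => (MvPowerSeries.X l : (MvPowerSeries ι k))) c Finset.univ (MvPowerSeries ι k) =
    Ideal.span (Set.range fun l => (MvPowerSeries.X l : (MvPowerSeries ι k)) ^ c l) := by
  rw [WW_eq_smul, smul_eq_mul, Ideal.mul_top]

theorem maxIdeal_eq : maximalIdeal (MvPowerSeries ι k) = Ideal.span (Set.range fun l => (MvPowerSeries.X l : (MvPowerSeries ι k))) := by
  apply le_antisymm
  · intro f hf
    have h1 : MvPowerSeries.constantCoeff f = 0 := by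
      rw [mem_maximalIdeal, mem_nonunits_iff, MvPowerSeries.isUnit_iff_constantCoeff,
        isUnit_iff_ne_zero, not_not] at hf
      exact hf
    have h2 := WW_X_univ (k := k) (ι := ι) (fun _ => 1)
    simp only [pow_one] at h2
    rw [← h2, mem_WW_X]
    intro α hα
    have : α = 0 := by
      ext l
      have := hα l (Finset.mem_univ l)
      rw [Finsupp.zero_apply]
      omega
    rw [this]
    exact h1
  · rw [Ideal.span_le]
    rintro _ ⟨l, rfl⟩
    rw [SetLike.mem_coe, mem_maximalIdeal, mem_nonunits_iff, MvPowerSeries.isUnit_iff_constantCoeff]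
    simp

theorem mem_pow_of_coeff (n : ℕ) (f : (MvPowerSeries ι k))
    (hf : ∀ α : ι →₀ ℕ, (∑ l, α l) < (Fintype.card ι + 1) * n → MvPowerSeries.coeff α f = 0) :
    f ∈ Ideal.span (Set.range fun l => (MvPowerSeries.X l : (MvPowerSeries ι k))) ^ n := by
  rcases Nat.eq_zero_or_pos n with hn | hn
  · subst hn
    rw [pow_zero, Ideal.one_eq_top]
    trivial
  · have h1 : f ∈ WW (fun l => (MvPowerSeries.X l : (MvPowerSeries ι k))) (fun _ => n) Finset.univ (MvPowerSeries ι k) := by
      rw [mem_WW_X]
      intro α hα
      apply hf
      calc ∑ l, α l ≤ ∑ _l : ι, n := Finset.sum_le_sum fun l hl => (hα l hl).le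
        _ = Fintype.card ι * n := by simp
        _ < (Fintype.card ι + 1) * n := by
          apply Nat.mul_lt_mul_of_pos_right (Nat.lt_succ_self _) hn
    rw [WW_X_univ] at h1
    have h2 : Ideal.span (Set.range fun l => (MvPowerSeries.X l : (MvPowerSeries ι k)) ^ n) ≤
        Ideal.span (Set.range fun l => (MvPowerSeries.X l : (MvPowerSeries ι k))) ^ n := by
      rw [Ideal.span_le]
      rintro _ ⟨l, rfl⟩
      have h3 : (MvPowerSeries.X l : (MvPowerSeries ι k)) ∈ Ideal.span (Set.range fun l => (MvPowerSeries.X l : (MvPowerSeries ι k))) :=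
        Ideal.subset_span (Set.mem_range_self l)
      exact Ideal.pow_mem_pow h3 n
    exact h2 h1

/-- elements of the `n`-th power have no terms of degree `< n` -/
theorem coeff_of_mem_pow (n : ℕ) : ∀ f : (MvPowerSeries ι k),
    f ∈ Ideal.span (Set.range fun l => (MvPowerSeries.X l : (MvPowerSeries ι k))) ^ n →
      ∀ α : ι →₀ ℕ, (∑ l, α l) < n → MvPowerSeries.coeff α f = 0 := by
  induction n with
  | zero =>
    intro f _ α hα
    omega
  | succ n ih =>
    intro f hf α hα
    rw [pow_succ'] at hf
    refine Submodule.mul_induction_on hf ?_ ?_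
    · intro a ha b hb
      have h1 : ∀ a ∈ Ideal.span (Set.range fun l => (MvPowerSeries.X l : (MvPowerSeries ι k))),
          ∀ α : ι →₀ ℕ, (∑ l, α l) < n + 1 → MvPowerSeries.coeff α (a * b) = 0 := by
        intro a ha
        induction ha using Submodule.span_induction with
        | mem z hz =>
          obtain ⟨l, rfl⟩ := hz
          intro α hα
          by_cases hl : 1 ≤ α l
          · have h2 : α = Finsupp.single l 1 + (α - Finsupp.single l 1) := by
              rw [add_tsub_cancel_of_le]
              rwa [Finsupp.single_le_iff]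
            have h3 : MvPowerSeries.coeff α (MvPowerSeries.X l * b) =
                MvPowerSeries.coeff (α - Finsupp.single l 1) b := by
              conv_lhs => rw [h2]
              rw [MvPowerSeries.X_def, MvPowerSeries.coeff_add_monomial_mul, one_mul]
            rw [h3]
            apply ih b hb
            have h4 : ∑ l', α l' = 1 + ∑ l', (α - Finsupp.single l 1 : ι →₀ ℕ) l' := by
              conv_lhs => rw [h2]
              simp only [Finsupp.add_apply, Finset.sum_add_distrib]
              congr 1
              rw [Finset.sum_eq_single l]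
              · simp
              · intro l' _ hl'
                exact Finsupp.single_eq_of_ne hl'
              · simp
            omega
          · exact MvPowerSeries.X_dvd_iff.mp (dvd_mul_right _ _) α (by omega)
        | zero =>
          intro α _
          rw [zero_mul, map_zero]
        | add x y _ _ hx hy =>
          intro α hα
          rw [add_mul, map_add, hx α hα, hy α hα, add_zero]
        | smul r x _ hx =>
          intro α hα
          rw [smul_eq_mul, mul_assoc, MvPowerSeries.coeff_mul]
          apply Finset.sum_eq_zero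
          rintro ⟨β, γ⟩ hβγ
          have h5 := Finset.HasAntidiagonal.mem_antidiagonal.mp hβγ
          rw [hx γ, mul_zero]
          refine lt_of_le_of_lt ?_ hα
          rw [← h5]
          apply Finset.sum_le_sum
          intro l _
          rw [Finsupp.add_apply]
          exact Nat.le_add_left _ _
      exact h1 a ha α hα
    · intro a b ha hb
      rw [map_add, ha, hb, add_zero]

instance isPrecomplete_X :
    IsPrecomplete (Ideal.span (Set.range fun l => (MvPowerSeries.X l : (MvPowerSeries ι k)))) (MvPowerSeries ι k) := by
  constructor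
  intro f hf
  set I := Ideal.span (Set.range fun l => (MvPowerSeries.X l : (MvPowerSeries ι k))) with hI
  have hf' : ∀ m n, m ≤ n → f m - f n ∈ I ^ m := by
    intro m n hmn
    have := hf hmn
    rw [SModEq.sub_mem, smul_eq_mul, Ideal.mul_top] at this
    exact this
  let L : (MvPowerSeries ι k) := fun α => MvPowerSeries.coeff α (f ((∑ l, α l) + 1))
  have hL : ∀ α : ι →₀ ℕ, MvPowerSeries.coeff α L = MvPowerSeries.coeff α (f ((∑ l, α l) + 1)) :=
    fun α => rfl
  refine ⟨L, fun n => ?_⟩
  rw [SModEq.sub_mem, smul_eq_mul, Ideal.mul_top]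
  set N := (Fintype.card ι + 1) * n with hN
  have hNn : n ≤ N := by
    rw [hN]
    exact Nat.le_mul_of_pos_left n (Nat.succ_pos _)
  have h1 : f N - L ∈ I ^ n := by
    apply mem_pow_of_coeff
    intro α hα
    rw [map_sub, hL, ← map_sub, ← neg_sub, map_neg, neg_eq_zero]
    exact coeff_of_mem_pow _ _ (hf' ((∑ l, α l) + 1) N hα) α (Nat.lt_succ_self _)
  have h2 : f n - L = (f n - f N) + (f N - L) := by ring
  rw [h2]
  exact Ideal.add_mem _ (hf' n N hNn) h1

instance residue_finite : Module.Finite k (ResidueField (MvPowerSeries ι k)) := by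
  have h : Function.Surjective (algebraMap k (ResidueField (MvPowerSeries ι k))) := by
    intro q
    obtain ⟨f, rfl⟩ := IsLocalRing.residue_surjective q
    refine ⟨MvPowerSeries.constantCoeff f, ?_⟩
    rw [IsScalarTower.algebraMap_apply k (MvPowerSeries ι k) (ResidueField (MvPowerSeries ι k)), IsLocalRing.ResidueField.algebraMap_eq,
      ← sub_eq_zero, ← map_sub, IsLocalRing.residue_eq_zero_iff, mem_maximalIdeal, mem_nonunits_iff,
      MvPowerSeries.isUnit_iff_constantCoeff, isUnit_iff_ne_zero, not_not, map_sub, sub_eq_zero]
    rw [← MvPowerSeries.c_eq_algebraMap]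
    simp
  exact Module.Finite.of_surjective (Algebra.linearMap k (ResidueField (MvPowerSeries ι k))) h

end

end Pool.Agent.TH282.RE
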