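import Pool.Agent.TH282.RE.Fam

/-!
# One small extension
-/

set_option autoImplicit false
set_option linter.unusedSectionVars false

namespace Pool.Agent.TH282.RE

open Matrix Pool.Agent.TH282.RG

section

variable {k : Type*} [Field k] {R : Type*} [CommRing R] [Algebra k R]
  {n : Type*} [Fintype n] [DecidableEq n] {ι : Type*} [DecidableEq ι] [Fintype ι] {x : ι → R}
  {A : ι → Matrix n n k}
  {C : Type*} [CommRing C] [Algebra k C] {U : R →ₐ[k] Matrix n n C} (φ : C →ₐ[k] k)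
  {U₀ : R →ₐ[k] Matrix n n k}
  {Q : Type*} [AddCommGroup Q] [Module C Q] [Module k Q] [IsScalarTower k C Q]

/-- elements of the family with coordinates in a submodule -/
def NmSub (U : R →ₐ[k] Matrix n n C) (Q₁ : Submodule C Q) : Submodule R (Nm U Q) where
  carrier := {v | ∀ j, v j ∈ Q₁}
  add_mem' := fun {a b} ha hb j => Q₁.add_mem (ha j) (hb j)
  zero_mem' := fun j => Q₁.zero_mem
  smul_mem' := fun r v hv i => by
    rw [Nm_smul]
    exact Q₁.sum_mem fun j _ => Q₁.smul_mem _ (hv j)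

theorem mem_NmSub {Q₁ : Submodule C Q} {v : Nm U Q} : v ∈ NmSub U Q₁ ↔ ∀ j, v j ∈ Q₁ := Iff.rfl

theorem smul_killed {Q₁ : Submodule C Q} (hQ : ∀ c : C, φ c = 0 → ∀ q ∈ Q₁, c • q = 0) (c : C)
    {q : Q} (hq : q ∈ Q₁) : c • q = φ c • q := by
  have h := hQ (c - algebraMap k C (φ c)) (by simp) q hq
  rw [sub_smul, sub_eq_zero, algebraMap_smul] at h
  exact h

/-- lifting membership along the reduction map -/
theorem WW_lift {M V : Type*} [AddCommGroup M] [Module R M] [AddCommGroup V] [Module R V]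
    (π : M →ₗ[R] V) (hπ : Function.Surjective π) (L b : ℕ) (hb : b ≤ L)
    (hker : ∀ m, π m = 0 → m ∈ WW x (fun _ => L) Finset.univ M) {m : M}
    (hm : π m ∈ WW x (fun _ => b) Finset.univ V) : m ∈ WW x (fun _ => b) Finset.univ M := by
  obtain ⟨w, hw⟩ := hm
  choose u hu using fun l => hπ (w l)
  have h1 : π (m - ∑ l ∈ Finset.univ, x l ^ b • u l) = 0 := by
    rw [map_sub, hw, map_sum, sub_eq_zero]
    refine Finset.sum_congr rfl fun l _ => ?_
    rw [map_smul, hu]
  have h2 := WW_mono (x := x) (X := M) (c := fun _ => L) (c' := fun _ => b)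
    (Finset.Subset.refl Finset.univ) (fun _ _ => hb) (hker _ h1)
  have h3 : m = (m - ∑ l ∈ Finset.univ, x l ^ b • u l) + ∑ l ∈ Finset.univ, x l ^ b • u l := by abel
  rw [h3]
  exact Submodule.add_mem _ h2 ⟨u, rfl⟩

theorem small_ext {M : Type*} [AddCommGroup M] [Module R M] {p p₁ : ℕ}
    (i₁ : (Fin p₁ → R) →ₗ[R] (Fin p → R)) (e L b : ℕ) (hbL : b ≤ L)
    (hU : ∀ l, U (x l) = hat C (A l)) (hU₀ : ∀ l, U₀ (x l) = hat k (A l))
    (hφ : ∀ r i j, U₀ r i j = φ (U r i j))
    (π : M →ₗ[R] Nm U₀ k) (hπ : Function.Surjective π)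
    (hker : ∀ m, π m = 0 → m ∈ WW x (fun _ => L) Finset.univ M)
    (hz : ∀ f : (Fin p₁ → R) →ₗ[R] M, (∀ v ∈ LinearMap.ker i₁, f v ∈ WW x (fun _ => b) Finset.univ M) →
      ∃ F : (Fin p → R) →ₗ[R] M, ∀ v, F (i₁ v) - f v ∈ WW x (fun _ => b - e) Finset.univ M)
    (Q₁ : Submodule C Q) (hQ : ∀ c : C, φ c = 0 → ∀ q ∈ Q₁, c • q = 0)
    [FiniteDimensional k Q₁]
    (g : (Fin p → R) →ₗ[R] Nm U Q)
    (hg : ∀ v, ∃ w ∈ WW x (fun _ => b) Finset.univ (Nm U Q), g (i₁ v) - w ∈ NmSub U Q₁) :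
    ∃ g' : (Fin p → R) →ₗ[R] Nm U Q, (∀ v, g' v - g v ∈ NmSub U Q₁) ∧
      ∀ v, g' (i₁ v) ∈ WW x (fun _ => b - e) Finset.univ (Nm U Q) := by
  classical
  -- the map into the kernel
  choose w hw hwQ using fun s : Fin p₁ => hg (Pi.single s 1)
  obtain ⟨f, hf⟩ := exists_lin (R := R) (fun s => g (i₁ (Pi.single s 1)) - w s)
  have hfQ : ∀ v, f v ∈ NmSub U Q₁ := mem_of_basis f _ fun s => by rw [hf]; exact hwQ s
  have hgf : ∀ v, g (i₁ v) - f v ∈ WW x (fun _ => b) Finset.univ (Nm U Q) := by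
    intro v
    exact mem_of_basis (g ∘ₗ i₁ - f) _ (fun s => by
      rw [LinearMap.sub_apply, LinearMap.comp_apply, hf, sub_sub_cancel]
      exact hw s) v
  -- coordinates
  let β := Module.finBasis k Q₁
  let Q₁k : Submodule k Q := Q₁.restrictScalars k
  obtain ⟨ρ, hρ⟩ := LinearMap.exists_leftInverse_of_injective Q₁k.subtype (Submodule.ker_subtype _)
  have hρ' : ∀ q (hq : q ∈ Q₁), ρ q = ⟨q, hq⟩ := fun q hq => LinearMap.congr_fun hρ ⟨q, hq⟩
  let co : Fin (Module.finrank k Q₁) → Q →ₗ[k] k := fun t => (β.coord t) ∘ₗ ρ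
  have hco : ∀ t (c : C) (q : Q), q ∈ Q₁ → co t (c • q) = φ c * co t q := by
    intro t c q hq
    rw [smul_killed φ hQ c hq, map_smul, smul_eq_mul]
  have hsum : ∀ q ∈ Q₁, ∑ t, co t q • (β t : Q) = q := by
    intro q hq
    have h1 := β.sum_repr ⟨q, hq⟩
    have h2 := congrArg (fun z : Q₁ => (z : Q)) h1
    simp only [AddSubmonoidClass.coe_finsetSum] at h2
    rw [← h2]
    refine Finset.sum_congr rfl fun t _ => ?_
    change (β.coord t) (ρ _) • _ = _
    rw [h2, hρ' q hq]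
    rfl
  -- the coordinate maps
  let ft : Fin (Module.finrank k Q₁) → (Fin p₁ → R) →ₗ[R] Nm U₀ k := fun t =>
    { toFun := fun v => kmap U U₀ (co t) (f v)
      map_add' := fun v v' => by rw [map_add, map_add]
      map_smul' := fun r v => by
        rw [map_smul, RingHom.id_apply]
        funext i
        rw [kmap_apply, Nm_smul, Nm_smul, map_sum]
        refine Finset.sum_congr rfl fun j _ => ?_
        rw [hco t _ _ (hfQ v j), hφ, smul_eq_mul, kmap_apply] }
  have hft : ∀ t v, ft t v = kmap U U₀ (co t) (f v) := fun t v => rfl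
  have hftK : ∀ t, ∀ v ∈ LinearMap.ker i₁, ft t v ∈ WW x (fun _ => b) Finset.univ (Nm U₀ k) := by
    intro t v hv
    rw [hft]
    apply const_WW hU hU₀
    have h1 := hgf v
    rw [LinearMap.mem_ker.mp hv, map_zero, zero_sub] at h1
    exact (neg_mem_iff).mp h1
  -- lift to `M`
  have hlift : ∀ t, ∃ F : (Fin p → R) →ₗ[R] Nm U₀ k, ∀ v,
      F (i₁ v) - ft t v ∈ WW x (fun _ => b - e) Finset.univ (Nm U₀ k) := by
    intro t
    choose m hm using fun s : Fin p₁ => hπ (ft t (Pi.single s 1))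
    obtain ⟨f', hf'⟩ := exists_lin (R := R) m
    have h1 : π ∘ₗ f' = ft t := by
      apply (Pi.basisFun R (Fin p₁)).ext
      intro s
      rw [Pi.basisFun_apply, LinearMap.comp_apply, hf', hm]
    have h2 : ∀ v, π (f' v) = ft t v := fun v => LinearMap.congr_fun h1 v
    obtain ⟨F, hF⟩ := hz f' (by
      intro v hv
      apply WW_lift π hπ L b hbL hker
      rw [h2]
      exact hftK t v hv)
    refine ⟨π ∘ₗ F, fun v => ?_⟩
    rw [LinearMap.comp_apply, ← h2, ← map_sub]
    exact WW_map π (hF v)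
  choose F hF using hlift
  -- embed
  let Et : Fin (Module.finrank k Q₁) → Nm U₀ k →ₗ[R] Nm U Q := fun t =>
    { toFun := fun u => kmap U₀ U (LinearMap.toSpanSingleton k Q (β t : Q)) u
      map_add' := fun v v' => map_add _ _ _
      map_smul' := fun r v => by
        rw [RingHom.id_apply]
        funext i
        rw [kmap_apply, Nm_smul, Nm_smul, map_sum]
        refine Finset.sum_congr rfl fun j _ => ?_
        rw [kmap_apply, hφ, LinearMap.toSpanSingleton_apply, LinearMap.toSpanSingleton_apply,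
          smul_killed φ hQ _ (Q₁.smul_of_tower_mem _ (β t).2), smul_smul, smul_eq_mul] }
  have hEt : ∀ t u, Et t u = kmap U₀ U (LinearMap.toSpanSingleton k Q (β t : Q)) u := fun t u => rfl
  have hfsum : ∀ v, f v = ∑ t, Et t (ft t v) := by
    intro v
    funext i
    rw [Nm_sum, ← hsum _ (hfQ v i)]
    refine Finset.sum_congr rfl fun t _ => ?_
    rw [hEt, kmap_apply, hft, kmap_apply, LinearMap.toSpanSingleton_apply]
  let G : (Fin p → R) →ₗ[R] Nm U Q := ∑ t, Et t ∘ₗ F t
  have hG : ∀ v, G v = ∑ t, Et t (F t v) := fun v => by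
    simp [G, LinearMap.sum_apply]
  refine ⟨g - G, ?_, ?_⟩
  · intro v
    have h1 : (g - G) v - g v = - G v := by
      rw [LinearMap.sub_apply]
      abel
    rw [h1, hG]
    refine neg_mem (Submodule.sum_mem _ fun t _ => ?_)
    intro j
    rw [hEt, kmap_apply, LinearMap.toSpanSingleton_apply]
    exact Q₁.smul_of_tower_mem _ (β t).2
  · intro v
    have h1 : (g - G) (i₁ v) = (g (i₁ v) - f v) - ∑ t, Et t (F t (i₁ v) - ft t v) := by
      rw [LinearMap.sub_apply, hG]
      simp only [map_sub, Finset.sum_sub_distrib]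
      rw [← hfsum v]
      abel
    rw [h1]
    refine Submodule.sub_mem _ ?_ (Submodule.sum_mem _ fun t _ => WW_map (Et t) (hF t v))
    exact WW_mono (Finset.Subset.refl _) (fun _ _ => Nat.sub_le b e) (hgf v)

end

end Pool.Agent.TH282.RE
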