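import Pool.Agent.TH282.RE.Dim
import Pool.Agent.TH282.RE.Main1

/-!
# The standard basis of `M / (x_1 ^ L, ..., x_d ^ L) M`
-/

set_option autoImplicit false
set_option linter.unusedSectionVars false

namespace Pool.Agent.TH282.RE

open IsLocalRing

section

variable {R : Type*} [CommRing R] {ι : Type*} [DecidableEq ι] [Fintype ι] (x : ι → R)
  (X : Type*) [AddCommGroup X] [Module R X]

theorem WW_eq_smul (c : ι → ℕ) :
    WW x c Finset.univ X = Ideal.span (Set.range fun l => x l ^ c l) • (⊤ : Submodule R X) := by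
  apply le_antisymm
  · rintro _ ⟨w, rfl⟩
    exact Submodule.sum_mem _ fun l _ => Submodule.smul_mem_smul (Ideal.subset_span ⟨l, rfl⟩) trivial
  · rw [Submodule.smul_le]
    intro r hr v _
    induction hr using Submodule.span_induction with
    | mem r hr =>
      obtain ⟨l, rfl⟩ := hr
      exact WW_single (Finset.mem_univ l) v
    | zero =>
      rw [zero_smul]
      exact Submodule.zero_mem _
    | add a b _ _ ha hb =>
      rw [add_smul]
      exact Submodule.add_mem _ ha hb
    | smul a b _ hb =>
      rw [smul_assoc]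
      exact Submodule.smul_mem _ _ hb

theorem pow_le_span (c : ι → ℕ) :
    ∃ T, Ideal.span (Set.range x) ^ T ≤ Ideal.span (Set.range fun l => x l ^ c l) := by
  apply Ideal.exists_pow_le_of_le_radical_of_fg
  · rw [Ideal.span_le]
    rintro _ ⟨l, rfl⟩
    exact ⟨c l, Ideal.subset_span ⟨l, rfl⟩⟩
  · exact Submodule.fg_span (Set.finite_range x)

end

section Fin

variable (k : Type*) [Field k] {R : Type*} [CommRing R] [Algebra k R] [IsLocalRing R]
  [IsNoetherianRing R] [Module.Finite k (ResidueField R)]

theorem finite_of_killed_one {Q : Type*} [AddCommGroup Q] [Module R Q] [Module k Q]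
    [IsScalarTower k R Q] [Module.Finite R Q] (h : ∀ r ∈ maximalIdeal R, ∀ q : Q, r • q = 0) :
    Module.Finite k Q := by
  have h3 : Module.Finite k (R ⧸ maximalIdeal R) := inferInstanceAs (Module.Finite k (ResidueField R))
  obtain ⟨n, f, hf⟩ := Module.Finite.exists_fin' R Q
  let g : Fin n → ((R ⧸ maximalIdeal R) →ₗ[R] Q) := fun i =>
    Submodule.liftQ (maximalIdeal R) (LinearMap.toSpanSingleton R Q (f (Pi.single i 1))) (by
      intro z hz
      exact h z hz _)
  let G : (Fin n → R ⧸ maximalIdeal R) →ₗ[R] Q := LinearMap.lsum R (fun _ => R ⧸ maximalIdeal R) R g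
  have hG : Function.Surjective G := by
    intro q
    obtain ⟨v, rfl⟩ := hf q
    refine ⟨fun i => Ideal.Quotient.mk _ (v i), ?_⟩
    have h2 : v = ∑ i, v i • Pi.single i (1 : R) := by
      ext j
      simp [Finset.sum_apply, Pi.single_apply]
    conv_rhs => rw [h2]
    have h3 : G (fun i => Ideal.Quotient.mk (maximalIdeal R) (v i)) =
        ∑ i, g i (Ideal.Quotient.mk (maximalIdeal R) (v i)) := by
      simp [G, LinearMap.lsum_apply]
    rw [map_sum, h3]
    refine Finset.sum_congr rfl fun i _ => ?_
    rw [map_smul]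
    rfl
  exact Module.Finite.of_surjective (G.restrictScalars k) hG

theorem finite_of_killed (T : ℕ) : ∀ {Q : Type*} [AddCommGroup Q] [Module R Q] [Module k Q]
    [IsScalarTower k R Q] [Module.Finite R Q], (∀ r ∈ maximalIdeal R ^ T, ∀ q : Q, r • q = 0) →
    Module.Finite k Q := by
  induction T with
  | zero =>
    intro Q _ _ _ _ _ h
    have : Subsingleton Q := by
      refine ⟨fun a b => ?_⟩
      have h1 : ∀ q : Q, q = 0 := fun q => by
        have := h 1 (by simp) q
        rwa [one_smul] at this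
      rw [h1 a, h1 b]
    infer_instance
  | succ T ih =>
    intro Q _ _ _ _ _ h
    let N : Submodule R Q := maximalIdeal R • ⊤
    have h1 : Module.Finite k N := by
      apply ih
      rintro r hr ⟨q, hq⟩
      apply Subtype.ext
      change r • q = 0
      have hq' : q ∈ maximalIdeal R • (⊤ : Submodule R Q) := hq
      clear hq
      induction hq' using Submodule.smul_induction_on' with
      | smul s hs m hm =>
        rw [← mul_smul]
        apply h
        rw [pow_succ]
        exact Ideal.mul_mem_mul hr hs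
      | add a _ b _ ha hb => rw [smul_add, ha, hb, add_zero]
    have h2 : Module.Finite k (Q ⧸ N) := by
      refine finite_of_killed_one (R := R) k ?_
      intro r hr q
      obtain ⟨q, rfl⟩ := N.mkQ_surjective q
      rw [← map_smul, Submodule.mkQ_apply, Submodule.Quotient.mk_eq_zero]
      exact Submodule.smul_mem_smul hr trivial
    have h4 : Module.Finite k (N.restrictScalars k) := h1
    have h5 : Module.Finite k (Q ⧸ N.restrictScalars k) :=
      Module.Finite.equiv (Submodule.Quotient.restrictScalarsEquiv k N).symm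
    exact Module.Finite.of_submodule_quotient (N.restrictScalars k)

variable {ι : Type*} [DecidableEq ι] [Fintype ι] (x : ι → R)

theorem WW_finite (hx : ∃ t, maximalIdeal R ^ t ≤ Ideal.span (Set.range x))
    (Q : Type*) [AddCommGroup Q] [Module R Q] [Module k Q]
    [IsScalarTower k R Q] [Module.Finite R Q] (c : ι → ℕ) :
    Module.Finite k (Q ⧸ WW x c Finset.univ Q) := by
  obtain ⟨t, ht⟩ := hx
  obtain ⟨T, hT⟩ := pow_le_span x c
  refine finite_of_killed (R := R) k (t * T) ?_
  intro r hr q
  obtain ⟨q, rfl⟩ := (WW x c Finset.univ Q).mkQ_surjective q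
  rw [← map_smul, Submodule.mkQ_apply, Submodule.Quotient.mk_eq_zero, WW_eq_smul]
  refine Submodule.smul_mem_smul (hT ?_) trivial
  rw [pow_mul] at hr
  exact Ideal.pow_right_mono ht T hr

end Fin

section Mono

variable {R : Type*} [CommRing R] {ι : Type*} [DecidableEq ι] [Fintype ι] (x : ι → R) {L : ℕ}

/-- the monomial `x ^ α` -/
def mon (α : ι → Fin L) : R := ∏ l, x l ^ (α l : ℕ)

theorem mul_mon_of_lt (l : ι) (α : ι → Fin L) (h : (α l : ℕ) + 1 < L) :
    x l * mon x α = mon x (Function.update α l ⟨(α l : ℕ) + 1, h⟩) := by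
  unfold mon
  rw [← Finset.mul_prod_erase Finset.univ _ (Finset.mem_univ l),
    ← Finset.mul_prod_erase Finset.univ (fun l' => x l' ^ ((Function.update α l ⟨(α l : ℕ) + 1, h⟩) l' : ℕ))
      (Finset.mem_univ l), ← mul_assoc]
  congr 1
  · simp only [Function.update_self]
    rw [pow_succ, mul_comm]
  · refine Finset.prod_congr rfl fun l' hl' => ?_
    rw [Function.update_of_ne (Finset.ne_of_mem_erase hl')]

theorem mul_mon_of_not_lt (l : ι) (α : ι → Fin L) (h : ¬ (α l : ℕ) + 1 < L) :
    ∃ r, x l * mon x α = x l ^ L * r := by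
  unfold mon
  refine ⟨∏ l' ∈ Finset.univ.erase l, x l' ^ (α l' : ℕ), ?_⟩
  rw [← Finset.mul_prod_erase Finset.univ _ (Finset.mem_univ l), ← mul_assoc, ← pow_succ']
  have h1 := (α l).2
  have h2 : (α l : ℕ) + 1 = L := by omega
  rw [h2]

/-- the entries of the matrix of `x_l` in the standard basis -/
def Astd (k : Type*) [Field k] (ι : Type*) [DecidableEq ι] [Fintype ι] (L ρ : ℕ) (l : ι) :
    Matrix ((ι → Fin L) × Fin ρ) ((ι → Fin L) × Fin ρ) k :=
  fun i j => if h : (j.1 l : ℕ) + 1 < L then
    (if i = (Function.update j.1 l ⟨(j.1 l : ℕ) + 1, h⟩, j.2) then 1 else 0) else 0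

variable (k : Type*) [Field k] [Algebra k R]

theorem std_span {M : Type*} [AddCommGroup M] [Module R M] [Module k M] [IsScalarTower k R M]
    (hL : 1 ≤ L) {ρ : ℕ} (m : Fin ρ → M)
    (hm : ∀ v : M, ∃ c : Fin ρ → k, v - ∑ j, c j • m j ∈ WW x (fun _ => 1) Finset.univ M) (v : M) :
    ∃ c : (ι → Fin L) × Fin ρ → k,
      v - ∑ i, c i • mon x i.1 • m i.2 ∈ WW x (fun _ => L) Finset.univ M := by
  let b : (ι → Fin L) × Fin ρ → M := fun i => mon x i.1 • m i.2
  let W := WW x (fun _ => L) Finset.univ M
  let T : Submodule k M := Submodule.span k (Set.range b) ⊔ W.restrictScalars k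
  have hT0 : ∀ j, m j ∈ T := by
    intro j
    apply Submodule.mem_sup_left
    apply Submodule.subset_span
    refine ⟨(fun _ => ⟨0, hL⟩, j), ?_⟩
    simp [b, mon]
  have hTx : ∀ l, ∀ w ∈ T, x l • w ∈ T := by
    intro l w hw
    obtain ⟨s, hs, t, ht, rfl⟩ := Submodule.mem_sup.mp hw
    rw [smul_add]
    refine Submodule.add_mem _ ?_ (Submodule.mem_sup_right (W.smul_mem _ ht))
    clear hw
    induction hs using Submodule.span_induction with
    | mem z hz =>
      obtain ⟨i, rfl⟩ := hz
      change x l • (mon x i.1 • m i.2) ∈ T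
      rw [← mul_smul]
      by_cases h : (i.1 l : ℕ) + 1 < L
      · rw [mul_mon_of_lt x l i.1 h]
        exact Submodule.mem_sup_left (Submodule.subset_span
          ⟨(Function.update i.1 l ⟨(i.1 l : ℕ) + 1, h⟩, i.2), rfl⟩)
      · obtain ⟨r, hr⟩ := mul_mon_of_not_lt x l i.1 h
        rw [hr, mul_smul]
        exact Submodule.mem_sup_right (WW_single (c := fun _ => L) (Finset.mem_univ l) _)
    | zero =>
      rw [smul_zero]
      exact Submodule.zero_mem _
    | add a b _ _ ha hb =>
      rw [smul_add]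
      exact Submodule.add_mem _ ha hb
    | smul c a _ ha =>
      rw [smul_comm]
      exact Submodule.smul_mem _ _ ha
  have key : ∀ s : ℕ, ∀ v : M, ∃ t ∈ T, v - t ∈ (Ideal.span (Set.range x) ^ s) • (⊤ : Submodule R M) := by
    intro s
    induction s with
    | zero =>
      intro v
      refine ⟨0, T.zero_mem, ?_⟩
      rw [pow_zero, Ideal.one_eq_top, Submodule.top_smul]
      trivial
    | succ s ih =>
      intro v
      obtain ⟨c, hc⟩ := hm v
      obtain ⟨w, hw⟩ := hc
      choose t htT ht using fun l => ih (w l)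
      refine ⟨∑ j, c j • m j + ∑ l, x l • t l, ?_, ?_⟩
      · exact T.add_mem (T.sum_mem fun j _ => T.smul_mem _ (hT0 j)) (T.sum_mem fun l _ => hTx l _ (htT l))
      · have h1 : v - (∑ j, c j • m j + ∑ l, x l • t l) = ∑ l, x l • (w l - t l) := by
          rw [← sub_sub, hw, ← Finset.sum_sub_distrib]
          refine Finset.sum_congr rfl fun l _ => ?_
          rw [pow_one, smul_sub]
        rw [h1]
        refine Submodule.sum_mem _ fun l _ => ?_
        rw [pow_succ', mul_smul]
        exact Submodule.smul_mem_smul (Ideal.subset_span ⟨l, rfl⟩) (ht l)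
  obtain ⟨s, hs⟩ := pow_le_span x (fun _ => L)
  obtain ⟨t, htT, ht⟩ := key s v
  obtain ⟨a, ha, w, hw, rfl⟩ := Submodule.mem_sup.mp htT
  obtain ⟨c, hc⟩ := (Submodule.mem_span_range_iff_exists_fun k).mp ha
  refine ⟨c, ?_⟩
  have h1 : v - ∑ i, c i • mon x i.1 • m i.2 = (v - (a + w)) + w := by
    rw [← hc]
    abel
  rw [h1]
  refine Submodule.add_mem _ ?_ hw
  rw [WW_eq_smul]
  exact Submodule.smul_mono_left hs ht

end Mono

end Pool.Agent.TH282.RE
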