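import Pool.Agent.TH282.RE.Std

/-!
# The representation on the standard basis
-/

set_option autoImplicit false
set_option linter.unusedSectionVars false

namespace Pool.Agent.TH282.RE

open IsLocalRing

section

variable {k : Type*} [Field k] {R : Type*} [CommRing R] [Algebra k R]
  {ι : Type*} [DecidableEq ι] [Fintype ι] {x : ι → R}

theorem exists_std {M : Type*} [AddCommGroup M] [Module R M] [Module k M] [IsScalarTower k R M]
    {L : ℕ} (hL : 1 ≤ L) (hM : Reg x M)
    (hfin : ∀ c : ι → ℕ, (∀ l, 1 ≤ c l) → Module.Finite k (M ⧸ WW x c Finset.univ M)) (ρ : ℕ)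
    (hρ : Module.finrank k (M ⧸ WW x (fun _ => 1) Finset.univ M) = ρ) :
    ∃ U₀ : R →ₐ[k] Matrix ((ι → Fin L) × Fin ρ) ((ι → Fin L) × Fin ρ) k,
      (∀ l, U₀ (x l) = Astd k ι L ρ l) ∧ (∀ r ∈ WW x (fun _ => L) Finset.univ R, U₀ r = 0) ∧
      ∃ π : M →ₗ[R] Nm U₀ k, Function.Surjective π ∧
        ∀ m, π m = 0 → m ∈ WW x (fun _ => L) Finset.univ M := by
  have h1 := hfin (fun _ => 1) (fun _ => le_rfl)
  have h2 := hfin (fun _ => L) (fun _ => hL)
  let b₀ : Module.Basis (Fin ρ) k (M ⧸ WW x (fun _ => 1) Finset.univ M) :=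
    Module.finBasisOfFinrankEq k _ hρ
  choose m hm using fun j => (WW x (fun _ => 1) Finset.univ M).mkQ_surjective (b₀ j)
  have hm' : ∀ v : M, ∃ c : Fin ρ → k, v - ∑ j, c j • m j ∈ WW x (fun _ => 1) Finset.univ M := by
    intro v
    refine ⟨fun j => b₀.repr ((WW x (fun _ => 1) Finset.univ M).mkQ v) j, ?_⟩
    rw [← Submodule.Quotient.mk_eq_zero, ← Submodule.mkQ_apply, map_sub, sub_eq_zero, map_sum]
    conv_lhs => rw [← b₀.sum_repr ((WW x (fun _ => 1) Finset.univ M).mkQ v)]
    refine Finset.sum_congr rfl fun j _ => ?_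
    rw [← hm j]
    rfl
  set W := WW x (fun _ => L) Finset.univ M with hW
  let b : (ι → Fin L) × Fin ρ → M ⧸ W := fun i => W.mkQ (mon x i.1 • m i.2)
  have hspan : ⊤ ≤ Submodule.span k (Set.range b) := by
    intro q _
    obtain ⟨v, rfl⟩ := W.mkQ_surjective q
    obtain ⟨c, hc⟩ := std_span x k hL m hm' v
    rw [Submodule.mem_span_range_iff_exists_fun]
    refine ⟨c, ?_⟩
    symm
    rw [← sub_eq_zero]
    rw [← Submodule.Quotient.mk_eq_zero, ← Submodule.mkQ_apply, map_sub, map_sum] at hc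
    exact hc
  have hcard : Fintype.card ((ι → Fin L) × Fin ρ) = Module.finrank k (M ⧸ W) := by
    rw [hW, finrank_prod x M hM (fun _ => L) (fun _ => hL) hfin, hρ]
    simp
  let B : Module.Basis ((ι → Fin L) × Fin ρ) k (M ⧸ W) := basisOfTopLeSpanOfCardEqFinrank b hspan hcard
  have hB : ∀ i, B i = b i := fun i => by
    simp only [B]
    rw [coe_basisOfTopLeSpanOfCardEqFinrank]
  let U₀ : R →ₐ[k] Matrix ((ι → Fin L) × Fin ρ) ((ι → Fin L) × Fin ρ) k :=
    (LinearMap.toMatrixAlgEquiv B).toAlgHom.comp (Algebra.lsmul k k (M ⧸ W))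
  have hU : ∀ r i j, U₀ r i j = B.repr (r • B j) i := by
    intro r i j
    change LinearMap.toMatrixAlgEquiv B (Algebra.lsmul k k (M ⧸ W) r) i j = _
    rw [LinearMap.toMatrixAlgEquiv_apply]
    rfl
  refine ⟨U₀, ?_, ?_, ?_⟩
  · intro l
    ext i j
    rw [hU, hB]
    have h3 : x l • b j = W.mkQ ((x l * mon x j.1) • m j.2) := by
      rw [mul_smul, map_smul]
    rw [h3, Astd]
    by_cases h : (j.1 l : ℕ) + 1 < L
    · rw [dif_pos h, mul_mon_of_lt x l j.1 h]
      change B.repr (b (Function.update j.1 l ⟨(j.1 l : ℕ) + 1, h⟩, j.2)) i = _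
      rw [← hB, B.repr_self, Finsupp.single_apply]
      simp only [eq_comm]
    · rw [dif_neg h]
      obtain ⟨r, hr⟩ := mul_mon_of_not_lt x l j.1 h
      rw [hr, mul_smul]
      have h4 : W.mkQ (x l ^ L • (r • m j.2)) = 0 := by
        rw [Submodule.mkQ_apply, Submodule.Quotient.mk_eq_zero]
        exact WW_single (c := fun _ => L) (Finset.mem_univ l) _
      rw [h4, map_zero, Finsupp.zero_apply]
  · intro r hr
    ext i j
    rw [hU, Matrix.zero_apply]
    have h4 : r • B j = 0 := by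
      obtain ⟨v, hv⟩ := W.mkQ_surjective (B j)
      rw [← hv, ← map_smul, Submodule.mkQ_apply, Submodule.Quotient.mk_eq_zero]
      exact WW_map (LinearMap.toSpanSingleton R M v) hr
    rw [h4, map_zero, Finsupp.zero_apply]
  · refine ⟨{ toFun := fun v => Nm.mk U₀ fun i => B.repr (W.mkQ v) i, map_add' := ?_, map_smul' := ?_ },
      ?_, ?_⟩
    · intro v w
      funext i
      rw [Nm_add, Nm.mk_apply, Nm.mk_apply, Nm.mk_apply, map_add, map_add, Finsupp.add_apply]
    · intro r v
      funext i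
      rw [RingHom.id_apply, Nm_smul, Nm.mk_apply, map_smul]
      conv_lhs => rw [← B.sum_repr (W.mkQ v)]
      rw [Finset.smul_sum, map_sum, Finsupp.finsetSum_apply]
      refine Finset.sum_congr rfl fun j _ => ?_
      rw [hU, Nm.mk_apply, smul_comm, map_smul, Finsupp.smul_apply, smul_eq_mul, smul_eq_mul, mul_comm]
    · intro w
      obtain ⟨v, hv⟩ := W.mkQ_surjective (∑ i, (Nm.out w) i • B i)
      refine ⟨v, ?_⟩
      funext i
      have h5 := congrFun (B.repr_sum_self (Nm.out w)) i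
      rw [← hv] at h5
      exact h5
    · intro v hv
      rw [← Submodule.Quotient.mk_eq_zero, ← Submodule.mkQ_apply]
      apply B.repr.injective
      rw [map_zero]
      ext i
      exact congrFun hv i

end

end Pool.Agent.TH282.RE
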