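import Pool.Agent.TH282.RE.Cover

/-!
# Surjectivity at nearby points
-/

set_option autoImplicit false
set_option linter.unusedSectionVars false

namespace Pool.Agent.TH282.RE

open Matrix Pool.Agent.TH282.RG

section

variable {k : Type*} [Field k] {R : Type*} [CommRing R] [Algebra k R]
  {n : Type*} [Fintype n] [DecidableEq n] {ι : Type*} [DecidableEq ι] [Fintype ι] {x : ι → R}
  {A : ι → Matrix n n k}
  {C : Type*} [CommRing C] [Algebra k C] {U : R →ₐ[k] Matrix n n C}

/-- the `C`-span of the values of `θ`, together with `∑ x_l (C ^ n)` -/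
def SS (x : ι → R) {p : ℕ} (θ : (Fin p → R) →ₗ[R] Nm U C) : Submodule C (n → C) :=
  Submodule.span C (Set.range fun v => Nm.out (θ v)) ⊔ WC x U 1

theorem nak (φ : C →ₐ[k] k) {U₀ : R →ₐ[k] Matrix n n k}
    (hφ : ∀ r i j, U₀ r i j = φ (U r i j)) {p : ℕ}
    (θ : (Fin p → R) →ₗ[R] Nm U C) (ν : (Fin p → R) →ₗ[R] Nm U₀ k) (hν : Function.Surjective ν)
    (hθν : ∀ v, evC φ hφ (θ v) - ν v ∈ WW x (fun _ => 1) Finset.univ (Nm U₀ k)) :
    ∃ E : C, φ E = 1 ∧ ∀ y : n → C, E • y ∈ SS x θ := by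
  have h1 : (⊤ : Submodule C (n → C)) ≤ SS x θ ⊔ (RingHom.ker φ : Ideal C) • ⊤ := by
    intro y _
    obtain ⟨v, hv⟩ := hν (evC φ hφ (Nm.mk U y))
    obtain ⟨w, hw⟩ := hθν v
    let z : n → C := Nm.out (∑ l ∈ Finset.univ, x l ^ 1 • Nm.mk U (fun i => algebraMap k C (w l i)))
    have hz : z ∈ WC x U 1 := ⟨fun l => Nm.mk U (fun i => algebraMap k C (w l i)), rfl⟩
    have hz2 : evC φ hφ (Nm.mk U z) = ∑ l ∈ Finset.univ, x l ^ 1 • w l := by
      change evC φ hφ (∑ l ∈ Finset.univ, x l ^ 1 • Nm.mk U (fun i => algebraMap k C (w l i))) = _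
      rw [map_sum]
      refine Finset.sum_congr rfl fun l _ => ?_
      rw [map_smul]
      congr 1
      funext i
      rw [evC_apply, Nm.mk_apply, AlgHom.commutes]
      rfl
    have h2 : y - (Nm.out (θ v) - z) ∈ ((RingHom.ker φ : Ideal C) • ⊤ : Submodule C (n → C)) := by
      apply mem_smul_fun
      intro i
      rw [smul_top_self, RingHom.mem_ker]
      have h3 : evC φ hφ (Nm.mk U y) - (evC φ hφ (θ v) - evC φ hφ (Nm.mk U z)) = 0 := by
        rw [hz2, ← hv, ← hw]
        abel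
      have h4 := congrFun h3 i
      rw [Nm_sub, Nm_sub, Nm_zero, evC_apply, evC_apply, evC_apply] at h4
      rw [Pi.sub_apply, Pi.sub_apply, map_sub, map_sub]
      exact h4
    have h5 : y = (Nm.out (θ v) - z) + (y - (Nm.out (θ v) - z)) := by abel
    rw [h5]
    refine Submodule.add_mem_sup ?_ h2
    exact Submodule.sub_mem _ (Submodule.mem_sup_left (Submodule.subset_span ⟨v, rfl⟩))
      (Submodule.mem_sup_right hz)
  obtain ⟨E, hE1, hE2⟩ := Submodule.exists_sub_one_mem_and_smul_eq_zero_of_fg_of_le_smul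
    (RingHom.ker φ : Ideal C) (⊤ : Submodule C ((n → C) ⧸ SS x θ)) Module.Finite.fg_top (by
      intro q _
      obtain ⟨y, rfl⟩ := Submodule.mkQ_surjective _ q
      obtain ⟨s, hs, t, ht, hst⟩ := Submodule.mem_sup.mp (h1 (Submodule.mem_top (x := y)))
      rw [← hst, map_add]
      have : (SS x θ).mkQ s = 0 := by
        rw [Submodule.mkQ_apply, Submodule.Quotient.mk_eq_zero]
        exact hs
      rw [this, zero_add]
      exact map_mem_smul _ _ ht)
  refine ⟨E, ?_, fun y => ?_⟩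
  · have := (RingHom.mem_ker).mp hE1
    rw [map_sub, map_one, sub_eq_zero] at this
    exact this
  · have := hE2 ((SS x θ).mkQ y) trivial
    rw [← map_smul, Submodule.mkQ_apply, Submodule.Quotient.mk_eq_zero] at this
    exact this

theorem surj_at (ψ : C →ₐ[k] k) {Ub : R →ₐ[k] Matrix n n k}
    (hψ : ∀ r i j, Ub r i j = ψ (U r i j)) {p : ℕ} (θ : (Fin p → R) →ₗ[R] Nm U C) (E : C)
    (hE : ψ E ≠ 0) (hES : ∀ y : n → C, E • y ∈ SS x θ) (w : Nm Ub k) :
    ∃ v, w - evC ψ hψ (θ v) ∈ WW x (fun _ => 1) Finset.univ (Nm Ub k) := by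
  have hk : ∀ (t : k) (u : Nm Ub k), (algebraMap k R t) • u = Nm.mk Ub (t • Nm.out u) := by
    intro t u
    funext j
    rw [Nm_smul, AlgHom.commutes, Finset.sum_eq_single j]
    · simp [Matrix.algebraMap_matrix_apply, Nm.mk_apply, Nm.out_apply]
    · intro l _ hl
      simp [Matrix.algebraMap_matrix_apply, hl.symm]
    · simp
  have key : ∀ y ∈ SS x θ, ∃ v, Nm.mk Ub (fun i => ψ (y i)) - evC ψ hψ (θ v) ∈
      WW x (fun _ => 1) Finset.univ (Nm Ub k) := by
    intro y hy
    obtain ⟨s, hs, t, ht, rfl⟩ := Submodule.mem_sup.mp hy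
    have h1 : ∃ v, Nm.mk Ub (fun i => ψ (s i)) - evC ψ hψ (θ v) ∈
        WW x (fun _ => 1) Finset.univ (Nm Ub k) := by
      clear hy
      induction hs using Submodule.span_induction with
      | mem z hz =>
        obtain ⟨v, rfl⟩ := hz
        refine ⟨v, ?_⟩
        have : Nm.mk Ub (fun i => ψ (Nm.out (θ v) i)) - evC ψ hψ (θ v) = 0 := sub_self _
        rw [this]
        exact Submodule.zero_mem _
      | zero =>
        refine ⟨0, ?_⟩
        have : Nm.mk Ub (fun i => ψ ((0 : n → C) i)) - evC ψ hψ (θ 0) = 0 := by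
          rw [map_zero, map_zero, sub_zero]
          funext i
          rw [Nm.mk_apply, Pi.zero_apply, map_zero]
          rfl
        rw [this]
        exact Submodule.zero_mem _
      | add a b _ _ ha hb =>
        obtain ⟨v, hv⟩ := ha
        obtain ⟨v', hv'⟩ := hb
        refine ⟨v + v', ?_⟩
        have : Nm.mk Ub (fun i => ψ ((a + b) i)) - evC ψ hψ (θ (v + v')) =
            (Nm.mk Ub (fun i => ψ (a i)) - evC ψ hψ (θ v)) +
              (Nm.mk Ub (fun i => ψ (b i)) - evC ψ hψ (θ v')) := by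
          rw [map_add, map_add]
          have : Nm.mk Ub (fun i => ψ ((a + b) i)) =
              Nm.mk Ub (fun i => ψ (a i)) + Nm.mk Ub (fun i => ψ (b i)) := by
            funext i
            rw [Nm_add, Nm.mk_apply, Nm.mk_apply, Nm.mk_apply, Pi.add_apply, map_add]
          rw [this]
          abel
        rw [this]
        exact Submodule.add_mem _ hv hv'
      | smul c a _ ha =>
        obtain ⟨v, hv⟩ := ha
        refine ⟨algebraMap k R (ψ c) • v, ?_⟩
        have : Nm.mk Ub (fun i => ψ ((c • a) i)) - evC ψ hψ (θ (algebraMap k R (ψ c) • v)) =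
            algebraMap k R (ψ c) • (Nm.mk Ub (fun i => ψ (a i)) - evC ψ hψ (θ v)) := by
          rw [map_smul, map_smul, smul_sub]
          congr 1
          rw [hk]
          funext i
          rw [Nm.mk_apply, Nm.mk_apply, Pi.smul_apply, Pi.smul_apply, smul_eq_mul, map_mul]
          rfl
        rw [this]
        exact Submodule.smul_mem _ _ hv
    obtain ⟨v, hv⟩ := h1
    refine ⟨v, ?_⟩
    have h2 : Nm.mk Ub (fun i => ψ ((s + t) i)) - evC ψ hψ (θ v) =
        (Nm.mk Ub (fun i => ψ (s i)) - evC ψ hψ (θ v)) + evC ψ hψ (Nm.mk U t) := by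
      have : Nm.mk Ub (fun i => ψ ((s + t) i)) =
          Nm.mk Ub (fun i => ψ (s i)) + evC ψ hψ (Nm.mk U t) := by
        funext i
        rw [Nm_add, Nm.mk_apply, Nm.mk_apply, Pi.add_apply, map_add]
        rfl
      rw [this]
      abel
    rw [h2]
    exact Submodule.add_mem _ hv (WW_map _ ht)
  obtain ⟨v, hv⟩ := key _ (hES (fun i => algebraMap k C (w i)))
  refine ⟨algebraMap k R (ψ E)⁻¹ • v, ?_⟩
  have h3 : w - evC ψ hψ (θ (algebraMap k R (ψ E)⁻¹ • v)) = algebraMap k R (ψ E)⁻¹ •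
      (Nm.mk Ub (fun i => ψ ((E • fun i => algebraMap k C (w i)) i)) - evC ψ hψ (θ v)) := by
    rw [map_smul, map_smul, smul_sub]
    congr 1
    rw [hk]
    funext i
    rw [Nm.mk_apply, Pi.smul_apply, Nm.out_apply, Nm.mk_apply, Pi.smul_apply, smul_eq_mul, smul_eq_mul,
      map_mul, AlgHom.commutes]
    change w i = (ψ E)⁻¹ * (ψ E * w i)
    rw [inv_mul_cancel_left₀ hE]
  rw [h3]
  exact Submodule.smul_mem _ _ hv

end

end Pool.Agent.TH282.RE
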