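import Pool.Agent.TH282.RE.Small

/-!
# The tower of infinitesimal neighbourhoods of a rigid point
-/

set_option autoImplicit false
set_option linter.unusedSectionVars false

namespace Pool.Agent.TH282.RE

open Matrix Pool.Agent.TH282.RG

section

variable {k : Type*} [Field k] {R : Type*} [CommRing R] [Algebra k R]
  {n : Type*} [Fintype n] [DecidableEq n] {ι : Type*} [DecidableEq ι] [Fintype ι] {x : ι → R}
  {A : ι → Matrix n n k}
  {C : Type*} [CommRing C] [Algebra k C] {U : R →ₐ[k] Matrix n n C} (φ : C →ₐ[k] k)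
  {U₀ : R →ₐ[k] Matrix n n k}
  {Q : Type*} [AddCommGroup Q] [Module C Q] [Module k Q] [IsScalarTower k C Q]

theorem finite_killed {Q₁ : Submodule C Q} (hQ : ∀ c : C, φ c = 0 → ∀ q ∈ Q₁, c • q = 0)
    (hfg : Q₁.FG) : FiniteDimensional k Q₁ := by
  obtain ⟨s, hs⟩ := hfg
  have h1 : Submodule.span k (s : Set Q) = Q₁.restrictScalars k := by
    apply le_antisymm
    · rw [Submodule.span_le]
      intro q hq
      change q ∈ Q₁
      rw [← hs]
      exact Submodule.subset_span hq
    · intro q hq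
      change q ∈ Q₁ at hq
      have h2 : ∀ q ∈ Submodule.span C (s : Set Q), q ∈ Submodule.span k (s : Set Q) := by
        intro q hq
        induction hq using Submodule.span_induction with
        | mem z hz => exact Submodule.subset_span hz
        | zero => exact Submodule.zero_mem _
        | add a b _ _ ha hb => exact Submodule.add_mem _ ha hb
        | smul c a ha ha' =>
          have h3 : a ∈ Q₁ := by rw [← hs]; exact ha
          rw [smul_killed φ hQ c h3]
          exact Submodule.smul_mem _ _ ha'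
      rw [← hs] at hq
      exact h2 q hq
  have h3 : Module.Finite k (Submodule.span k (s : Set Q)) :=
    Module.Finite.span_of_finite k (Finset.finite_toSet s)
  rw [h1] at h3
  exact h3

/-- a `k`-linear functional which is `φ`-semilinear gives an `R`-linear map -/
def evl (hφ : ∀ r i j, U₀ r i j = φ (U r i j)) (lam : Q →ₗ[k] k)
    (hlam : ∀ (c : C) (q : Q), lam (c • q) = φ c * lam q) : Nm U Q →ₗ[R] Nm U₀ k where
  toFun v := kmap U U₀ lam v
  map_add' v w := map_add _ _ _
  map_smul' r v := by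
    rw [RingHom.id_apply]
    funext i
    rw [kmap_apply, Nm_smul, Nm_smul, map_sum]
    refine Finset.sum_congr rfl fun j _ => ?_
    rw [hlam, hφ, kmap_apply, smul_eq_mul]

theorem evl_apply (hφ : ∀ r i j, U₀ r i j = φ (U r i j)) (lam : Q →ₗ[k] k)
    (hlam : ∀ (c : C) (q : Q), lam (c • q) = φ c * lam q) (v : Nm U Q) (i : n) :
    evl φ hφ lam hlam v i = lam (v i) := rfl

/-- the residue functional on `C / 𝔫 ^ m`, `m ≥ 1` -/
def resf (m : ℕ) : C ⧸ (RingHom.ker φ) ^ (m + 1) →ₗ[k] k :=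
  (Ideal.Quotient.liftₐ ((RingHom.ker φ) ^ (m + 1)) φ (fun _ ha =>
    (RingHom.mem_ker).mp (Ideal.pow_le_self (Nat.succ_ne_zero m) ha))).toLinearMap

theorem resf_mk (m : ℕ) (c : C) : resf φ m (Ideal.Quotient.mk _ c) = φ c := rfl

theorem resf_smul (m : ℕ) (c : C) (q : C ⧸ (RingHom.ker φ) ^ (m + 1)) :
    resf φ m (c • q) = φ c * resf φ m q := by
  obtain ⟨d, rfl⟩ := Ideal.Quotient.mk_surjective q
  change resf φ m (Ideal.Quotient.mk _ (c * d)) = _
  rw [resf_mk, resf_mk, map_mul]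

/-- the reduction of the family modulo the point -/
def red (hφ : ∀ r i j, U₀ r i j = φ (U r i j)) (m : ℕ) :
    Nm U (C ⧸ (RingHom.ker φ) ^ (m + 1)) →ₗ[R] Nm U₀ k := evl φ hφ (resf φ m) (resf_smul φ m)

theorem red_apply (hφ : ∀ r i j, U₀ r i j = φ (U r i j)) (m : ℕ)
    (v : Nm U (C ⧸ (RingHom.ker φ) ^ (m + 1))) (i : n) :
    red φ hφ m v i = resf φ m (v i) := rfl

/-- the transition maps -/
def trans (C' : Type*) [CommRing C'] (N : Ideal C') (m : ℕ) : C' ⧸ N ^ (m + 1) →ₗ[C'] C' ⧸ N ^ m :=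
  Submodule.factor (Ideal.pow_le_pow_right (Nat.le_succ m))

theorem trans_mk (C' : Type*) [CommRing C'] (N : Ideal C') (m : ℕ) (c : C') :
    trans C' N m (Ideal.Quotient.mk _ c) = Ideal.Quotient.mk _ c := rfl

theorem tower [IsNoetherianRing C] {M : Type*} [AddCommGroup M] [Module R M] {p p₁ : ℕ}
    (i₁ : (Fin p₁ → R) →ₗ[R] (Fin p → R)) (e L : ℕ) (heL : 3 * e + 1 ≤ L)
    (hU : ∀ l, U (x l) = hat C (A l)) (hU₀ : ∀ l, U₀ (x l) = hat k (A l))
    (hφ : ∀ r i j, U₀ r i j = φ (U r i j))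
    (hflat : ∀ (i : ι) (c : ι → ℕ), (∀ l, 1 ≤ c l) → (∀ l, c l ≤ L) → ∀ v : Nm U₀ k,
      x i ^ e • v ∈ WW x c (Finset.univ.erase i) (Nm U₀ k) →
        ∃ u, v - x i ^ (L - e) • u ∈ WW x c (Finset.univ.erase i) (Nm U₀ k))
    (hFac : ∀ l, Fac (LinearMap.range i₁) (x l) e)
    (π : M →ₗ[R] Nm U₀ k) (hπ : Function.Surjective π)
    (hker : ∀ m, π m = 0 → m ∈ WW x (fun _ => L) Finset.univ M)
    (hz : ∀ f : (Fin p₁ → R) →ₗ[R] M,
      (∀ v ∈ LinearMap.ker i₁, f v ∈ WW x (fun _ => L - e) Finset.univ M) →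
      ∃ F : (Fin p → R) →ₗ[R] M, ∀ v, F (i₁ v) - f v ∈ WW x (fun _ => L - e - e) Finset.univ M)
    (ν : (Fin p → R) →ₗ[R] Nm U₀ k) (hν : ∀ v, ν (i₁ v) = 0) (m : ℕ) :
    ∃ θ : (Fin p → R) →ₗ[R] Nm U (C ⧸ (RingHom.ker φ) ^ (m + 1)),
      (∀ v, θ (i₁ v) ∈ WW x (fun _ => L - e) Finset.univ (Nm U (C ⧸ (RingHom.ker φ) ^ (m + 1)))) ∧
      ∀ v, red φ hφ m (θ v) - ν v ∈ WW x (fun _ => 1) Finset.univ (Nm U₀ k) := by
  classical
  induction m with
  | zero =>
    have hk : ∀ (c : C) (t : k), c • (algebraMap k (C ⧸ (RingHom.ker φ) ^ (0 + 1)) t) =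
        algebraMap k (C ⧸ (RingHom.ker φ) ^ (0 + 1)) (φ c * t) := by
      intro c t
      change Ideal.Quotient.mk ((RingHom.ker φ) ^ (0 + 1)) (c * algebraMap k C t) =
        Ideal.Quotient.mk ((RingHom.ker φ) ^ (0 + 1)) (algebraMap k C (φ c * t))
      rw [Ideal.Quotient.eq, zero_add, pow_one, RingHom.mem_ker, map_sub, map_mul, AlgHom.commutes,
        AlgHom.commutes]
      simp
    let θ : (Fin p → R) →ₗ[R] Nm U (C ⧸ (RingHom.ker φ) ^ (0 + 1)) :=
      { toFun := fun v => Nm.mk U fun i => algebraMap k (C ⧸ (RingHom.ker φ) ^ (0 + 1)) (ν v i)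
        map_add' := fun v w => by
          funext i
          rw [Nm_add, Nm.mk_apply, Nm.mk_apply, Nm.mk_apply, map_add, Nm_add, map_add]
        map_smul' := fun r v => by
          funext i
          rw [RingHom.id_apply, Nm_smul, Nm.mk_apply, map_smul, Nm_smul, map_sum]
          refine Finset.sum_congr rfl fun j _ => ?_
          rw [Nm.mk_apply, hk, hφ, smul_eq_mul] }
    have hθ : ∀ v i, θ v i = algebraMap k (C ⧸ (RingHom.ker φ) ^ (0 + 1)) (ν v i) := fun v i => rfl
    refine ⟨θ, ?_, ?_⟩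
    · intro v
      have : θ (i₁ v) = 0 := by
        funext i
        rw [hθ, hν, Nm_zero, Nm_zero, map_zero]
      rw [this]
      exact Submodule.zero_mem _
    · intro v
      have : red φ hφ 0 (θ v) = ν v := by
        funext i
        rw [red_apply, hθ]
        change resf φ 0 (Ideal.Quotient.mk _ (algebraMap k C (ν v i))) = _
        rw [resf_mk, AlgHom.commutes]
        rfl
      rw [this, sub_self]
      exact Submodule.zero_mem _
  | succ m ih =>
    obtain ⟨θ, hθ1, hθ2⟩ := ih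
    let N : Ideal C := RingHom.ker φ
    let τ := trans C N (m + 1)
    have hτ : Function.Surjective τ :=
      Submodule.factor_surjective (Ideal.pow_le_pow_right (Nat.le_succ (m + 1)))
    have hτm : Function.Surjective (Nm.map U τ) := by
      intro v
      choose u hu using fun i => hτ (v i)
      exact ⟨Nm.mk U u, funext hu⟩
    -- the kernel
    let Q₁ : Submodule C (C ⧸ N ^ (m + 1 + 1)) := Submodule.map (N ^ (m + 1 + 1)).mkQ (N ^ (m + 1))
    have hQ : ∀ c : C, φ c = 0 → ∀ q ∈ Q₁, c • q = 0 := by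
      rintro c hc _ ⟨d, hd, rfl⟩
      rw [← map_smul, Submodule.mkQ_apply, Submodule.Quotient.mk_eq_zero, smul_eq_mul, pow_succ' N (m + 1)]
      exact Ideal.mul_mem_mul hc hd
    have hfd : FiniteDimensional k Q₁ := finite_killed φ hQ (IsNoetherian.noetherian _)
    have hker1 : ∀ v : Nm U (C ⧸ N ^ (m + 1 + 1)), Nm.map U τ v = 0 → v ∈ NmSub U Q₁ := by
      intro v hv i
      have h1 : τ (v i) = 0 := congrFun hv i
      obtain ⟨c, hc⟩ := Ideal.Quotient.mk_surjective (v i)
      rw [← hc] at h1 ⊢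
      have h2 : Ideal.Quotient.mk (N ^ (m + 1)) c = 0 := h1
      rw [Ideal.Quotient.eq_zero_iff_mem] at h2
      exact ⟨c, h2, rfl⟩
    -- lift
    choose u hu using fun s : Fin p => hτm (θ (Pi.single s 1))
    obtain ⟨g, hg⟩ := exists_lin (R := R) u
    have hgθ : ∀ v, Nm.map U τ (g v) = θ v := by
      intro v
      have : Nm.map U τ ∘ₗ g = θ := by
        apply (Pi.basisFun R (Fin p)).ext
        intro s
        rw [Pi.basisFun_apply, LinearMap.comp_apply, hg, hu]
      exact LinearMap.congr_fun this v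
    obtain ⟨g', hg1, hg2⟩ := small_ext (x := x) φ i₁ e L (L - e) (Nat.sub_le L e) hU hU₀ hφ π hπ hker hz
      Q₁ hQ g (by
        intro v
        obtain ⟨w, hw⟩ := hθ1 v
        choose w' hw' using fun l => hτm (w l)
        refine ⟨∑ l ∈ Finset.univ, x l ^ (L - e) • w' l, ⟨w', rfl⟩, hker1 _ ?_⟩
        rw [map_sub, hgθ, hw, map_sum, sub_eq_zero]
        refine Finset.sum_congr rfl fun l _ => ?_
        rw [map_smul, hw'])
    obtain ⟨h, hh1, hh2⟩ := improve x (LinearMap.range i₁) e L hFac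
      (X := Nm U (C ⧸ N ^ (m + 1 + 1)))
      (fun i c hc hcL v hv => flat_transfer hU hU₀ e L hflat i c hc hcL v hv) g' heL (by
        rintro _ ⟨v, rfl⟩
        have : L - e - e = L - 2 * e := by omega
        have h3 := hg2 v
        rwa [this] at h3)
    refine ⟨h, fun v => hh1 _ ⟨v, rfl⟩, ?_⟩
    intro v
    have e1 : red φ hφ (m + 1) (g v) = red φ hφ m (θ v) := by
      rw [← hgθ]
      funext i
      rw [red_apply, red_apply, Nm.map_apply]
      obtain ⟨c, hc⟩ := Ideal.Quotient.mk_surjective (g v i)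
      rw [← hc, resf_mk]
      rfl
    have e2 : red φ hφ (m + 1) (g' v - g v) = 0 := by
      funext i
      rw [red_apply]
      obtain ⟨c, hc, hc'⟩ := hg1 v i
      rw [← hc']
      change resf φ (m + 1) (Ideal.Quotient.mk _ c) = 0
      rw [resf_mk]
      exact (RingHom.mem_ker).mp (Ideal.pow_le_self (Nat.succ_ne_zero m) hc)
    have e3 : red φ hφ (m + 1) (h v) - ν v = red φ hφ (m + 1) (h v - g' v) +
        (red φ hφ m (θ v) - ν v) := by
      rw [← e1, map_sub]
      rw [map_sub, sub_eq_zero] at e2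
      rw [e2]
      abel
    rw [e3]
    refine Submodule.add_mem _ ?_ (hθ2 v)
    refine WW_mono (Finset.Subset.refl _) (fun _ _ => ?_) (WW_map (red φ hφ (m + 1)) (hh2 v))
    omega

end

end Pool.Agent.TH282.RE
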